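import Pool.Agent.Helper220.ISAP.AlgDefs

set_option autoImplicit false
set_option linter.all false

namespace Pool.Agent.Helper220.ISAP

open Set

section
lemma CB_congr_sdiff {A B : Type} [GeneralizedBooleanAlgebra A] [GeneralizedBooleanAlgebra B]
    {x : A} {y : B} (e : Iic x ≃o Iic y) (w z : A) (hw : w ≤ x) (hz : z ≤ x) :
    (e ⟨w \ z, sdiff_le.trans hw⟩).1 = (e ⟨w, hw⟩).1 \ (e ⟨z, hz⟩).1 := by
  symm
  have hinf : ∀ a b : Iic x, (e (a ⊓ b)).1 = (e a).1 ⊓ (e b).1 := fun a b => by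
    rw [OrderIso.map_inf]; rfl
  have hsup : ∀ a b : Iic x, (e (a ⊔ b)).1 = (e a).1 ⊔ (e b).1 := fun a b => by
    rw [OrderIso.map_sup]; rfl
  have hbot : (e ⊥).1 = ⊥ := by
    rw [OrderIso.map_bot]; rfl
  apply sdiff_unique
  · rw [← hinf, ← hsup]
    congr 2
    apply Subtype.ext
    show w ⊓ z ⊔ w \ z = w
    exact sup_inf_sdiff w z
  · rw [← hinf, ← hinf, ← hbot]
    congr 2
    apply Subtype.ext
    show w ⊓ z ⊓ w \ z = ⊥
    exact inf_inf_sdiff w z

lemma CB_congr_symm {A B : Type} [GeneralizedBooleanAlgebra A] [GeneralizedBooleanAlgebra B]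
    {x : A} {y : B} (e : Iic x ≃o Iic y) (w z : A) (hw : w ≤ x) (hz : z ≤ x)
    (h : symmDiff w z ≤ x) :
    (e ⟨symmDiff w z, h⟩).1 = symmDiff (e ⟨w, hw⟩).1 (e ⟨z, hz⟩).1 := by
  have h1 : (⟨symmDiff w z, h⟩ : Iic x) = (⟨w \ z, sdiff_le.trans hw⟩ : Iic x) ⊔
      (⟨z \ w, sdiff_le.trans hz⟩ : Iic x) := rfl
  rw [h1, OrderIso.map_sup]
  show (e ⟨w \ z, sdiff_le.trans hw⟩).1 ⊔ (e ⟨z \ w, sdiff_le.trans hz⟩).1 = _
  rw [CB_congr_sdiff e w z hw hz, CB_congr_sdiff e z w hz hw]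
  rfl

/-- restriction of the isomorphism -/
def CB_congr_restr {A B : Type} [GeneralizedBooleanAlgebra A] [GeneralizedBooleanAlgebra B]
    {x : A} {y : B} (e : Iic x ≃o Iic y) (c : A) (hc : c ≤ x) : Iic c ≃o Iic (e ⟨c, hc⟩).1 where
  toFun a := ⟨(e ⟨a.1, le_trans a.2 hc⟩).1, by
    have : e ⟨a.1, le_trans a.2 hc⟩ ≤ e ⟨c, hc⟩ := e.le_iff_le.2 a.2
    exact this⟩
  invFun b := ⟨(e.symm ⟨b.1, le_trans b.2 (e ⟨c, hc⟩).2⟩).1, by
    have h1 : (⟨b.1, le_trans b.2 (e ⟨c, hc⟩).2⟩ : Iic y) ≤ e ⟨c, hc⟩ := b.2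
    have h2 := e.symm.le_iff_le.2 h1
    rw [e.symm_apply_apply] at h2
    exact h2⟩
  left_inv a := by
    apply Subtype.ext
    show (e.symm ⟨(e ⟨a.1, le_trans a.2 hc⟩).1, _⟩).1 = a.1
    have : (⟨(e ⟨a.1, le_trans a.2 hc⟩).1, (e ⟨a.1, le_trans a.2 hc⟩).2⟩ : Iic y) =
        e ⟨a.1, le_trans a.2 hc⟩ := rfl
    rw [this, e.symm_apply_apply]
  right_inv b := by
    apply Subtype.ext
    show (e ⟨(e.symm ⟨b.1, le_trans b.2 (e ⟨c, hc⟩).2⟩).1, _⟩).1 = b.1
    have : (⟨(e.symm ⟨b.1, le_trans b.2 (e ⟨c, hc⟩).2⟩).1,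
        (e.symm ⟨b.1, le_trans b.2 (e ⟨c, hc⟩).2⟩).2⟩ : Iic x) =
        e.symm ⟨b.1, le_trans b.2 (e ⟨c, hc⟩).2⟩ := rfl
    rw [this, e.apply_symm_apply]
  map_rel_iff' := by
    intro a b
    show e ⟨a.1, le_trans a.2 hc⟩ ≤ e ⟨b.1, le_trans b.2 hc⟩ ↔ _
    rw [e.le_iff_le]
    rfl

lemma CB_congr_aux {A B : Type} [GeneralizedBooleanAlgebra A] [GeneralizedBooleanAlgebra B]
    (o : Ordinal.{0}) : ∀ (x : A) (y : B) (e : Iic x ≃o Iic y), CB o x → CB o y := by
  induction o using WellFoundedLT.induction with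
  | ind o ih =>
    intro x y e hx
    rw [CB_iff] at hx ⊢
    rcases hx with hx | ⟨p, hp, F, hF, hx⟩
    · left
      subst hx
      have h1 : e.symm ⟨y, le_rfl⟩ = e.symm ⟨⊥, bot_le⟩ := by
        apply Subtype.ext
        rw [le_bot_iff.1 (e.symm ⟨y, le_rfl⟩).2, le_bot_iff.1 (e.symm ⟨⊥, bot_le⟩).2]
      have h2 := e.symm.injective h1
      exact congrArg Subtype.val h2
    · right
      refine ⟨p, hp, (fun z => (e ⟨z ⊓ x, inf_le_right⟩).1) '' F, hF.image _, ?_⟩
      intro w' hw'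
      obtain ⟨z, hz, h1⟩ := hx (e.symm ⟨w', hw'⟩).1 (e.symm ⟨w', hw'⟩).2
      refine ⟨_, ⟨z, hz, rfl⟩, ?_⟩
      have hwx : (e.symm ⟨w', hw'⟩).1 ≤ x := (e.symm ⟨w', hw'⟩).2
      have h2 : CB p (symmDiff (e.symm ⟨w', hw'⟩).1 (z ⊓ x)) := by
        refine CB_le ?_ h1
        have h3 : symmDiff (e.symm ⟨w', hw'⟩).1 (z ⊓ x) =
            symmDiff (e.symm ⟨w', hw'⟩).1 z ⊓ x := by
          rw [inf_symmDiff_distrib_right, inf_eq_left.2 hwx]
        rw [h3]
        exact inf_le_left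
      have hle : symmDiff (e.symm ⟨w', hw'⟩).1 (z ⊓ x) ≤ x :=
        symmDiff_le_sup.trans (sup_le hwx inf_le_right)
      have h4 := ih p hp _ _ (CB_congr_restr e _ hle) h2
      rw [CB_congr_symm e _ _ hwx inf_le_right hle] at h4
      have h5 : (e ⟨(e.symm ⟨w', hw'⟩).1, hwx⟩).1 = w' := by
        have : (⟨(e.symm ⟨w', hw'⟩).1, hwx⟩ : Iic x) = e.symm ⟨w', hw'⟩ := rfl
        rw [this, e.apply_symm_apply]
      rw [h5] at h4
      exact h4

/-- TARGET -/
theorem CB_congr {A B : Type} [GeneralizedBooleanAlgebra A] [GeneralizedBooleanAlgebra B]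
    {x : A} {y : B} (e : Iic x ≃o Iic y) (o : Ordinal.{0}) : CB o x ↔ CB o y :=
  ⟨CB_congr_aux o x y e, CB_congr_aux o y x e.symm⟩
end

section
/-- TARGET -/
theorem H1 {A B : Type} [GeneralizedBooleanAlgebra A] [GeneralizedBooleanAlgebra B] {f : A → B}
    (hf : IsHom f) {β : Ordinal.{0}} (hk : ∀ a, f a = ⊥ → CB β a) :
    ∀ (o : Ordinal.{0}) (a : A), CB o (f a) → CB (β + o) a := by
  intro o
  induction o using WellFoundedLT.induction with
  | ind o ih =>
    intro a ha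
    rw [CB_iff] at ha
    rcases ha with ha | ⟨p, hp, F, hF, h⟩
    · exact CB_mono le_self_add (hk a ha)
    · rw [CB_iff]
      right
      classical
      refine ⟨β + p, (add_lt_add_iff_left β).2 hp,
        (fun z => if h : ∃ b ≤ a, CB p (symmDiff (f b) z) then h.choose else ⊥) '' F, hF.image _, ?_⟩
      intro b hb
      obtain ⟨z, hz, hbz⟩ := h (f b) (hf.mono hb)
      have hex : ∃ b ≤ a, CB p (symmDiff (f b) z) := ⟨b, hb, hbz⟩
      refine ⟨_, ⟨z, hz, rfl⟩, ?_⟩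
      simp only [dif_pos hex]
      have hc := hex.choose_spec
      refine ih p hp _ ?_
      rw [hf.symm]
      refine CB_le (symm_tri _ z _) (CB_sup hbz ?_)
      rw [symmDiff_comm]
      exact hc.2
end

section
/-- TARGET -/
theorem H2 {A B : Type} [GeneralizedBooleanAlgebra A] [GeneralizedBooleanAlgebra B] {f : A → B}
    (hf : IsHom f) {β : Ordinal.{0}} (hd : ∀ b : B, ∃ a : A, CB β (symmDiff b (f a))) :
    ∀ (o : Ordinal.{0}) (a : A), CB o a → CB (β + o) (f a) := by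
  intro o
  induction o using WellFoundedLT.induction with
  | ind o ih =>
    intro a ha
    rw [CB_iff] at ha ⊢
    rcases ha with rfl | ⟨p, hp, F, hF, h⟩
    · left; exact hf.bot
    · right
      refine ⟨β + p, by gcongr, f '' F, hF.image f, ?_⟩
      intro c hc
      obtain ⟨a', ha'⟩ := hd c
      obtain ⟨z, hz, h1⟩ := h (a' ⊓ a) inf_le_right
      have h2 := ih p hp _ h1
      rw [hf.symm] at h2
      refine ⟨f z, ⟨z, hz, rfl⟩, ?_⟩
      have h3 : symmDiff c (f (a' ⊓ a)) ≤ symmDiff c (f a') := by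
        rw [hf.inf]
        simp only [symmDiff]
        rw [sdiff_inf, sdiff_eq_bot_iff.2 hc, sup_bot_eq]
        exact sup_le_sup le_rfl (sdiff_le_sdiff_right inf_le_left)
      have h4 : CB (β + p) (symmDiff c (f (a' ⊓ a))) := CB_mono le_self_add (CB_le h3 ha')
      exact CB_le (symm_tri c (f (a' ⊓ a)) (f z)) (CB_sup h4 h2)
end

section
/-- TARGET -/
theorem H3 {A B : Type} [GeneralizedBooleanAlgebra A] [GeneralizedBooleanAlgebra B] {f : A → B}
    (hf : IsHom f) {β : Ordinal.{0}} (hk : ∀ a, f a = ⊥ → CB β a)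
    (hd : ∀ b : B, ∃ a : A, CB β (symmDiff b (f a))) {o : Ordinal.{0}} (ho : β + o = o) (a : A) :
    CAtom o (f a) ↔ CAtom o a := by
  have h1 : ∀ a : A, CB o (f a) → CB o a := by
    intro a h
    have := H1 hf hk o a h
    rwa [ho] at this
  have h2 : ∀ a : A, CB o a → CB o (f a) := by
    intro a h
    have := H2 hf hd o a h
    rwa [ho] at this
  have hβ : β ≤ o := by
    calc β ≤ β + o := le_self_add
      _ = o := ho
  constructor
  · rintro ⟨h3, h4⟩
    refine ⟨fun h => h3 (h2 a h), fun b hb => ?_⟩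
    rcases h4 (f b) (hf.mono hb) with h | h
    · exact Or.inl (h1 b h)
    · right
      rw [← hf.sdiff] at h
      exact h1 _ h
  · rintro ⟨h3, h4⟩
    refine ⟨fun h => h3 (h1 a h), fun c hc => ?_⟩
    obtain ⟨a', ha'⟩ := hd c
    have ha'' : CB o (symmDiff c (f a')) := CB_mono hβ ha'
    have hle : symmDiff c (f (a' ⊓ a)) ≤ symmDiff c (f a') := by
      rw [hf.inf]
      simp only [symmDiff]
      apply sup_le
      · rw [sdiff_inf, sdiff_eq_bot_iff.2 hc, sup_bot_eq]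
        exact le_sup_left
      · exact (sdiff_le_sdiff_right inf_le_left).trans le_sup_right
    have hsd : CB o (symmDiff c (f (a' ⊓ a))) := CB_le hle ha''
    rcases h4 (a' ⊓ a) inf_le_right with h | h
    · left
      have h5 : c ≤ f (a' ⊓ a) ⊔ symmDiff c (f (a' ⊓ a)) := by
        rw [← sdiff_le_iff]
        exact le_sup_left
      exact CB_le h5 (CB_sup (h2 _ h) hsd)
    · right
      have h6 : f a \ c ≤ f (a \ (a' ⊓ a)) ⊔ symmDiff c (f (a' ⊓ a)) := by
        rw [hf.sdiff]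
        refine (sdiff_triangle (f a) (f (a' ⊓ a)) c).trans ?_
        exact sup_le_sup le_rfl le_sup_right
      exact CB_le h6 (CB_sup (h2 _ h) hsd)
end

section
/-- TARGET -/
theorem CAtom_congr {A : Type} [GeneralizedBooleanAlgebra A] {o : Ordinal.{0}} {x y : A}
    (hx : CAtom o x) (h : CB o (symmDiff x y)) : CAtom o y := by
  have hyx : CB o (y \ x) := CB_le (by rw [symmDiff]; exact le_sup_right) h
  have hxy : CB o (x \ y) := CB_le (by rw [symmDiff]; exact le_sup_left) h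
  constructor
  · intro hy
    apply hx.1
    exact CB_le (le_sup_sdiff (a := y) (b := x)) (CB_sup hy hxy)
  · intro z hz
    rcases hx.2 (z ⊓ x) inf_le_right with h1 | h1
    · left
      refine CB_le ?_ (CB_sup h1 hyx)
      calc z = z ⊓ x ⊔ z \ x := (sup_inf_sdiff z x).symm
        _ ≤ z ⊓ x ⊔ y \ x := sup_le_sup_left (sdiff_le_sdiff_right hz) _
    · right
      refine CB_le ?_ (CB_sup h1 hyx)
      have h2 : x \ z ≤ x \ (z ⊓ x) := sdiff_le_sdiff_left inf_le_left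
      calc y \ z ≤ (x ⊔ y \ x) \ z := sdiff_le_sdiff_right le_sup_sdiff
        _ = x \ z ⊔ (y \ x) \ z := sup_sdiff
        _ ≤ x \ (z ⊓ x) ⊔ y \ x := sup_le_sup h2 sdiff_le
end

section
theorem Typ_congr_aux {A : Type} [GeneralizedBooleanAlgebra A] (a x y : A) :
    symmDiff (x \ a) (y \ a) ≤ symmDiff x y := by
  have key : ∀ x y : A, (x \ a) \ (y \ a) ≤ x \ y := by
    intro x y
    rw [sdiff_le_iff]
    calc x \ a ≤ (y ⊔ x \ y) \ a := sdiff_le_sdiff_right (by rw [sup_sdiff_self_right]; exact le_sup_right)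
      _ = y \ a ⊔ (x \ y) \ a := sup_sdiff
      _ ≤ y \ a ⊔ x \ y := sup_le_sup_left sdiff_le _
  exact sup_le_sup (key x y) (key y x)

/-- TARGET -/
theorem Typ_congr {A : Type} [GeneralizedBooleanAlgebra A] {o : Ordinal.{0}} {k : ℕ} {x y : A}
    (hk : 0 < k) (hx : Typ o k x) (h : CB o (symmDiff x y)) : Typ o k y := by
  obtain ⟨j, rfl⟩ : ∃ j, k = j + 1 := ⟨k - 1, by omega⟩
  clear hk
  induction j generalizing x y with
  | zero =>
    obtain ⟨y0, hy0, hat, ht⟩ := hx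
    have hx' : x = y0 := le_antisymm (sdiff_eq_bot_iff.1 ht) hy0
    subst hx'
    exact ⟨y, le_rfl, CAtom_congr hat h, by simp [Typ]⟩
  | succ j ih =>
    obtain ⟨y0, hy0, hat, ht⟩ := hx
    refine ⟨y0 ⊓ y, inf_le_right, CAtom_congr hat ?_, ?_⟩
    · refine CB_le ?_ h
      have e : symmDiff y0 (y0 ⊓ y) = y0 \ y := by
        have h1 : (y0 ⊓ y) \ y0 = ⊥ := sdiff_eq_bot_iff.2 inf_le_left
        simp only [symmDiff, sdiff_inf_self_left]
        rw [h1, sup_bot_eq]
      rw [e]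
      exact (sdiff_le_sdiff_right hy0).trans le_sup_left
    · refine ih (CB_le ?_ h) ht
      have e : y \ (y0 ⊓ y) = y \ y0 := sdiff_inf_self_right _ _
      rw [e]
      exact Typ_congr_aux y0 x y
end

section
/-- TARGET -/
theorem Typ_add {A : Type} [GeneralizedBooleanAlgebra A] {o : Ordinal.{0}} {k l : ℕ} {x y : A}
    (hx : Typ o k x) (hy : Typ o l y) (h : Disjoint x y) : Typ o (k + l) (x ⊔ y) := by
  induction k generalizing x with
  | zero =>
    have hx0 : x = ⊥ := hx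
    subst hx0
    rw [Nat.zero_add, bot_sup_eq]
    exact hy
  | succ k ih =>
    obtain ⟨y0, hy0, hC, hT⟩ := hx
    rw [Nat.succ_add_eq_add_succ, Nat.add_succ]
    refine ⟨y0, hy0.trans le_sup_left, hC, ?_⟩
    have hd : Disjoint (x \ y0) y := h.mono_left sdiff_le
    have h1 := ih hT hd
    have h2 : (x ⊔ y) \ y0 = x \ y0 ⊔ y := by
      rw [sup_sdiff, (h.mono_left hy0).symm.sdiff_eq_left]
    rw [h2]
    exact h1
end

section
/-- TARGET -/
theorem Typ_not_CB {A : Type} [GeneralizedBooleanAlgebra A] {o : Ordinal.{0}} {k : ℕ} {x : A}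
    (hk : 0 < k) (hx : Typ o k x) : ¬ CB o x := by
  cases k with
  | zero => exact absurd hk (lt_irrefl 0)
  | succ j =>
    obtain ⟨y, hy, hat, _⟩ := hx
    intro h
    exact hat.1 (CB_le hy h)
end

section
lemma Typ_CB_succ_atom {A : Type} [GeneralizedBooleanAlgebra A] {o : Ordinal.{0}} {y : A}
    (hy : CAtom o y) : CB (o + 1) y := by
  refine CB_succ.2 ⟨{⊥, y}, (Set.finite_singleton y).insert ⊥, fun z hz => ?_⟩
  rcases hy.2 z hz with h | h
  · exact ⟨⊥, Set.mem_insert _ _, by simpa using h⟩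
  · refine ⟨y, Set.mem_insert_of_mem _ rfl, ?_⟩
    rw [symmDiff_of_le hz]
    exact h

/-- TARGET -/
theorem Typ_CB_succ {A : Type} [GeneralizedBooleanAlgebra A] {o : Ordinal.{0}} {k : ℕ} {x : A}
    (hx : Typ o k x) : CB (o + 1) x := by
  induction k generalizing x with
  | zero =>
    have hx0 : x = ⊥ := hx
    rw [hx0]
    exact CB_bot _
  | succ k ih =>
    obtain ⟨y, hyx, hatom, htyp⟩ := hx
    have h1 := Typ_CB_succ_atom hatom
    have h2 := ih htyp
    have h3 := CB_sup h1 h2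
    rwa [sup_sdiff_cancel_right hyx] at h3
end

section
theorem exists_Typ_aux {A : Type} [GeneralizedBooleanAlgebra A] (p : Ordinal.{0}) (n : ℕ) :
    ∀ (x : A) (F : Finset A), F.card = n → ¬ CB p x →
      (∀ y ≤ x, ∃ z ∈ F, CB p (symmDiff y z)) → ∃ k : ℕ, 0 < k ∧ Typ p k x := by
  classical
  induction n using Nat.strong_induction_on with
  | _ n ih =>
    intro x F hcard hx hF
    by_cases hat : CAtom p x
    · refine ⟨1, one_pos, x, le_rfl, hat, ?_⟩
      simp [Typ]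
    · have h1 : ∃ y ≤ x, ¬ CB p y ∧ ¬ CB p (x \ y) := by
        by_contra hc
        apply hat
        refine ⟨hx, fun y hy => ?_⟩
        by_contra hc2
        exact hc ⟨y, hy, fun h => hc2 (Or.inl h), fun h => hc2 (Or.inr h)⟩
      obtain ⟨y, hyx, hy1, hy2⟩ := h1
      have key : ∀ u ≤ x, ¬ CB p u → ¬ CB p (x \ u) → ∃ k : ℕ, 0 < k ∧ Typ p k u := by
        intro u hu hu1 hu2
        have hss : (F.filter fun z => ∃ w ≤ u, CB p (symmDiff w z)) ⊂ F := by
          rw [Finset.filter_ssubset]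
          obtain ⟨z, hz, hz'⟩ := hF x le_rfl
          refine ⟨z, hz, ?_⟩
          rintro ⟨w, hw, hw'⟩
          apply hu2
          have h3 : CB p (symmDiff x w) := by
            refine CB_le (symm_tri x z w) (CB_sup hz' ?_)
            rw [symmDiff_comm]; exact hw'
          refine CB_le ?_ h3
          exact (sdiff_le_sdiff_left hw).trans le_sup_left
        refine ih _ (hcard ▸ Finset.card_lt_card hss) u _ rfl hu1 ?_
        intro w hw
        obtain ⟨z, hz, hz'⟩ := hF w (hw.trans hu)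
        exact ⟨z, Finset.mem_filter.2 ⟨hz, w, hw, hz'⟩, hz'⟩
      obtain ⟨k, hk, hk'⟩ := key y hyx hy1 hy2
      have hxy : x \ (x \ y) = y := by
        have h0 : x \ (x \ y) = x ⊓ y := by simp
        rw [h0]; exact inf_eq_right.2 hyx
      obtain ⟨l, hl, hl'⟩ := key (x \ y) sdiff_le hy2 (by rw [hxy]; exact hy1)
      refine ⟨k + l, by omega, ?_⟩
      have := Typ_add hk' hl' disjoint_sdiff_self_right
      rwa [sup_sdiff_cancel_right hyx] at this

/-- TARGET -/
theorem exists_Typ {A : Type} [GeneralizedBooleanAlgebra A] {o : Ordinal.{0}} {x : A}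
    (h : CB o x) (hx : x ≠ ⊥) : ∃ p < o, ∃ k : ℕ, 0 < k ∧ Typ p k x := by
  classical
  have h1 : ∃ q ≤ o, CB q x ∧ ∀ r < q, ¬ CB r x := by
    have hne : {q : Ordinal.{0} | CB q x}.Nonempty := ⟨o, h⟩
    refine ⟨sInf {q : Ordinal.{0} | CB q x}, csInf_le' h, csInf_mem hne, fun r hr hr' => ?_⟩
    exact absurd (csInf_le' (s := {q : Ordinal.{0} | CB q x}) hr') (not_le.2 hr)
  obtain ⟨q, hqo, hq, hmin⟩ := h1
  obtain ⟨p, hpq, hp⟩ := CB_lim hq hx
  refine ⟨p, hpq.trans_le hqo, ?_⟩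
  obtain ⟨F, hF, hF'⟩ := CB_succ.1 hp
  refine exists_Typ_aux p _ x hF.toFinset rfl (hmin p hpq) ?_
  intro y hy
  obtain ⟨z, hz, hz'⟩ := hF' y hy
  exact ⟨z, hF.mem_toFinset.2 hz, hz'⟩
end

section
/-- weak version of `Typ`: up to the ideal `CB o` -/
def Typ_unique_W {A : Type} [GeneralizedBooleanAlgebra A] (o : Ordinal.{0}) : ℕ → A → Prop
  | 0, x => CB o x
  | k + 1, x => ∃ y ≤ x, CAtom o y ∧ Typ_unique_W o k (x \ y)

theorem Typ_unique_congr {A : Type} [GeneralizedBooleanAlgebra A] {o : Ordinal.{0}} (k : ℕ) :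
    ∀ {x y : A}, Typ_unique_W o k x → CB o (symmDiff x y) → Typ_unique_W o k y := by
  induction k with
  | zero =>
    intro x y hx hxy
    have hx' : CB o x := hx
    show CB o y
    refine CB_le ?_ (CB_sup hx' hxy)
    have h1 : y \ x ≤ symmDiff x y := le_sup_right
    exact (sdiff_le_iff.1 h1)
  | succ k ih =>
    rintro x y ⟨y0, hy0, hat, hW⟩ hxy
    refine ⟨y0 ⊓ y, inf_le_right, ?_, ?_⟩
    · apply CAtom_congr hat
      refine CB_le ?_ hxy
      unfold symmDiff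
      rw [sdiff_inf_self_left]
      have h1 : (y0 ⊓ y) \ y0 = ⊥ := sdiff_eq_bot_iff.2 inf_le_left
      rw [h1, sup_bot_eq]
      exact (sdiff_le_sdiff_right hy0).trans le_sup_left
    · rw [sdiff_inf_self_right]
      apply ih hW
      refine CB_le ?_ hxy
      unfold symmDiff
      apply sup_le_sup
      · rw [sdiff_le_iff, sup_comm]
        exact sdiff_triangle _ _ _
      · rw [sdiff_le_iff, sup_comm]
        exact sdiff_triangle _ _ _

theorem Typ_unique_atom_sdiff {A : Type} [GeneralizedBooleanAlgebra A] {o : Ordinal.{0}} {y z : A}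
    (hy : CAtom o y) (h : CB o (y ⊓ z)) : CAtom o (y \ z) := by
  apply CAtom_congr hy
  refine CB_le ?_ h
  unfold symmDiff
  have h1 : (y \ z) \ y = ⊥ := sdiff_eq_bot_iff.2 sdiff_le
  rw [h1, sup_bot_eq, _root_.sdiff_sdiff_right_self]

theorem Typ_unique_claim {A : Type} [GeneralizedBooleanAlgebra A] {o : Ordinal.{0}} (k : ℕ) :
    ∀ {x y : A}, Typ_unique_W o (k + 1) x → y ≤ x → CAtom o y → Typ_unique_W o k (x \ y) := by
  induction k with
  | zero =>
    rintro x y ⟨z, hz, hzat, hW⟩ hyx hyat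
    by_cases hyz : CB o (y ⊓ z)
    · exfalso
      have h1 : CB o (x \ z) := hW
      have h2 := Typ_unique_atom_sdiff hyat hyz
      exact h2.1 (CB_le (sdiff_le_sdiff_right hyx) h1)
    · have h1 : CB o (y \ z) := by
        rcases hyat.2 (y ⊓ z) inf_le_left with h | h
        · exact absurd h hyz
        · rwa [sdiff_inf_self_left] at h
      have h2 : CB o (z \ y) := by
        rcases hzat.2 (y ⊓ z) inf_le_right with h | h
        · exact absurd h hyz
        · rwa [sdiff_inf_self_right] at h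
      apply Typ_unique_congr _ hW
      refine CB_le ?_ (CB_sup h1 h2)
      unfold symmDiff
      apply sup_le_sup
      · rw [sdiff_le_iff]
        exact sdiff_triangle _ _ _
      · rw [sdiff_le_iff]
        exact sdiff_triangle _ _ _
  | succ k ih =>
    rintro x y ⟨z, hz, hzat, hW⟩ hyx hyat
    by_cases hyz : CB o (y ⊓ z)
    · have h2 := Typ_unique_atom_sdiff hyat hyz
      have h3 := ih hW (sdiff_le_sdiff_right hyx) h2
      have hzy : CB o (z ⊓ y) := by rwa [inf_comm]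
      refine ⟨z \ y, sdiff_le_sdiff_right hz, Typ_unique_atom_sdiff hzat hzy, ?_⟩
      have h4 : (x \ z) \ (y \ z) = (x \ y) \ (z \ y) := by
        rw [sdiff_sdiff_left, sdiff_sdiff_left, sup_sdiff_self_right, sup_sdiff_self_right, sup_comm]
      rwa [h4] at h3
    · have h1 : CB o (y \ z) := by
        rcases hyat.2 (y ⊓ z) inf_le_left with h | h
        · exact absurd h hyz
        · rwa [sdiff_inf_self_left] at h
      have h2 : CB o (z \ y) := by
        rcases hzat.2 (y ⊓ z) inf_le_right with h | h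
        · exact absurd h hyz
        · rwa [sdiff_inf_self_right] at h
      apply Typ_unique_congr _ hW
      refine CB_le ?_ (CB_sup h1 h2)
      unfold symmDiff
      apply sup_le_sup
      · rw [sdiff_le_iff]
        exact sdiff_triangle _ _ _
      · rw [sdiff_le_iff]
        exact sdiff_triangle _ _ _

theorem Typ_unique_count {A : Type} [GeneralizedBooleanAlgebra A] {o : Ordinal.{0}} (k : ℕ) :
    ∀ {k' : ℕ} {x : A}, Typ_unique_W o k x → Typ_unique_W o k' x → k = k' := by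
  induction k with
  | zero =>
    intro k' x h h'
    have hx : CB o x := h
    cases k' with
    | zero => rfl
    | succ k' =>
      obtain ⟨y, hy, hat, _⟩ := h'
      exact absurd (CB_le hy hx) hat.1
  | succ k ih =>
    intro k' x h h'
    cases k' with
    | zero =>
      have hx : CB o x := h'
      obtain ⟨y, hy, hat, _⟩ := h
      exact absurd (CB_le hy hx) hat.1
    | succ k' =>
      obtain ⟨y, hy, hat, hW⟩ := h'
      rw [ih (Typ_unique_claim k h hy hat) hW]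

theorem Typ_unique_weak {A : Type} [GeneralizedBooleanAlgebra A] {o : Ordinal.{0}} (k : ℕ) :
    ∀ {x : A}, Typ o k x → Typ_unique_W o k x := by
  induction k with
  | zero =>
    intro x h
    have hx : x = ⊥ := h
    rw [hx]
    exact CB_bot o
  | succ k ih =>
    rintro x ⟨y, hy, hat, hT⟩
    exact ⟨y, hy, hat, ih hT⟩

/-- TARGET -/
theorem Typ_unique {A : Type} [GeneralizedBooleanAlgebra A] {o o' : Ordinal.{0}} {k k' : ℕ} {x : A}
    (hk : 0 < k) (h : Typ o k x) (h' : Typ o' k' x) : o = o' ∧ k = k' := by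
  have hk' : 0 < k' := by
    rcases Nat.eq_zero_or_pos k' with h0 | h0
    · exfalso
      rw [h0] at h'
      have hx : x = ⊥ := h'
      apply Typ_not_CB hk h
      rw [hx]
      exact CB_bot o
    · exact h0
  have ho : o = o' := by
    rcases lt_trichotomy o o' with hlt | heq | hgt
    · exact absurd (CB_mono (Order.add_one_le_iff.2 hlt) (Typ_CB_succ h)) (Typ_not_CB hk' h')
    · exact heq
    · exact absurd (CB_mono (Order.add_one_le_iff.2 hgt) (Typ_CB_succ h')) (Typ_not_CB hk h)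
  subst ho
  exact ⟨rfl, Typ_unique_count k (Typ_unique_weak k h) (Typ_unique_weak k' h')⟩
end

section
/-- TARGET -/
theorem Typ_split_sub {A : Type} [GeneralizedBooleanAlgebra A] {o : Ordinal.{0}} {k l : ℕ} {x : A}
    (h : Typ o (k + l) x) : ∃ y ≤ x, Typ o k y ∧ Typ o l (x \ y) := by
  induction k generalizing x with
  | zero =>
    refine ⟨⊥, bot_le, rfl, ?_⟩
    rw [sdiff_bot]
    rwa [Nat.zero_add] at h
  | succ k ih =>
    have e : k + 1 + l = (k + l) + 1 := by omega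
    rw [e] at h
    obtain ⟨y0, hy0, hat, h2⟩ := h
    obtain ⟨y', hy', h3, h4⟩ := ih h2
    have hdis : Disjoint y' y0 := disjoint_sdiff_self_left.mono_left hy'
    refine ⟨y0 ⊔ y', sup_le hy0 (hy'.trans sdiff_le), ⟨y0, le_sup_left, hat, ?_⟩, ?_⟩
    · rw [sup_sdiff_left_self, hdis.sdiff_eq_left]
      exact h3
    · rw [← sdiff_sdiff_left]
      exact h4
end

section
theorem Typ_exists_sub_atom {A : Type} [GeneralizedBooleanAlgebra A] {p : Ordinal.{0}} :
    ∀ (o : Ordinal.{0}) (x : A), CAtom o x → p < o → ∃ y ≤ x, CAtom p y := by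
  intro o
  induction o using WellFoundedLT.induction with
  | ind o ih =>
    intro x hx hp
    obtain ⟨hx1, hx2⟩ := hx
    have hex : ∃ y ≤ x, CB o y ∧ ¬ CB p y := by
      by_contra hcon
      push Not at hcon
      apply hx1
      have h1 : CB (p + 1) x := by
        rw [CB_succ]
        refine ⟨{⊥, x}, by simp, fun y hy => ?_⟩
        rcases hx2 y hy with h | h
        · refine ⟨⊥, by simp, ?_⟩
          rw [symmDiff_bot]
          exact hcon y hy h
        · refine ⟨x, by simp, ?_⟩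
          rw [symmDiff_of_le hy]
          exact hcon _ sdiff_le h
      exact CB_mono (Order.add_one_le_of_lt hp) h1
    obtain ⟨y, hyx, hy1, hy2⟩ := hex
    have hy0 : y ≠ ⊥ := by
      rintro rfl
      exact hy2 (CB_bot p)
    obtain ⟨q, hq, k', hk', hT⟩ := exists_Typ hy1 hy0
    have hqp : p ≤ q := by
      by_contra h
      push Not at h
      exact hy2 (CB_mono (Order.add_one_le_of_lt h) (Typ_CB_succ hT))
    obtain ⟨m, rfl⟩ : ∃ m, k' = m + 1 := ⟨k' - 1, by omega⟩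
    obtain ⟨z, hz, hz1, -⟩ := hT
    rcases hqp.eq_or_lt with h | h
    · subst h
      exact ⟨z, hz.trans hyx, hz1⟩
    · obtain ⟨w, hw, hw1⟩ := ih q hq z hz1 h
      exact ⟨w, hw.trans (hz.trans hyx), hw1⟩

/-- TARGET -/
theorem Typ_exists_sub {A : Type} [GeneralizedBooleanAlgebra A] {o p : Ordinal.{0}} {k : ℕ} (l : ℕ)
    {x : A} (hk : 0 < k) (hx : Typ o k x) (hp : p < o) : ∃ y ≤ x, Typ p l y := by
  induction l generalizing x with
  | zero => exact ⟨⊥, bot_le, rfl⟩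
  | succ l ih =>
    obtain ⟨m, rfl⟩ : ∃ m, k = m + 1 := ⟨k - 1, by omega⟩
    have hx' := hx
    obtain ⟨a, ha, ha1, -⟩ := hx'
    obtain ⟨y1, hy1, hy1'⟩ := Typ_exists_sub_atom o a ha1 hp
    have hT1 : Typ p 1 y1 := ⟨y1, le_rfl, hy1', by simp [Typ]⟩
    have hCB1 : CB o y1 := CB_mono (Order.add_one_le_of_lt hp) (Typ_CB_succ hT1)
    have hy1x : y1 ≤ x := hy1.trans ha
    have hcong : Typ o (m + 1) (x \ y1) := by
      apply Typ_congr (by omega) hx
      rw [symmDiff_comm, symmDiff_of_le sdiff_le]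
      refine CB_le ?_ hCB1
      rw [sdiff_le_iff]
      exact le_sdiff_sup
    obtain ⟨y2, hy2, hy2'⟩ := ih hcong
    refine ⟨y1 ⊔ y2, sup_le hy1x (hy2.trans sdiff_le), y1, le_sup_left, hy1', ?_⟩
    have hdis : Disjoint y1 y2 := (disjoint_sdiff_self_right).mono_right hy2
    have : (y1 ⊔ y2) \ y1 = y2 := by
      rw [sup_sdiff_left_self]
      exact hdis.symm.sdiff_eq_left
    rw [this]
    exact hy2'
end

section
theorem Typ_split_rel_symm {A : Type} [GeneralizedBooleanAlgebra A] {x y : A} (hy : y ≤ x) :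
    symmDiff x (x \ y) = y := by
  rw [symmDiff, _root_.sdiff_sdiff_eq_self hy, sdiff_eq_bot_iff.2 (sdiff_le : x \ y ≤ x), sup_bot_eq]

/-- TARGET -/
theorem Typ_split_rel {A B : Type} [GeneralizedBooleanAlgebra A] [GeneralizedBooleanAlgebra B]
    {o : Ordinal.{0}} {k : ℕ} {x : A} {x' : B} (h : Typ o k x) (h' : Typ o k x') {y : A} (hy : y ≤ x) :
    ∃ y' ≤ x', (∃ (p : Ordinal.{0}) (l : ℕ), Typ p l y ∧ Typ p l y') ∧
      (∃ (p : Ordinal.{0}) (l : ℕ), Typ p l (x \ y) ∧ Typ p l (x' \ y')) := by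
  rcases Nat.eq_zero_or_pos k with rfl | hk
  · have hx : x = ⊥ := h
    have hx' : x' = ⊥ := h'
    have hy0 : y = ⊥ := by rw [hx] at hy; exact le_bot_iff.1 hy
    subst hx hx' hy0
    refine ⟨⊥, le_rfl, ⟨0, 0, rfl, rfl⟩, ⟨0, 0, ?_, ?_⟩⟩
    · show _ = _
      simp
    · show _ = _
      simp
  by_cases hy0 : y = ⊥
  · subst hy0
    refine ⟨⊥, bot_le, ⟨0, 0, rfl, rfl⟩, ⟨o, k, ?_, ?_⟩⟩
    · rwa [sdiff_bot]
    · rwa [sdiff_bot]
  by_cases hz0 : x \ y = ⊥
  · have hyx : y = x := le_antisymm hy (sdiff_eq_bot_iff.1 hz0)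
    subst hyx
    refine ⟨x', le_rfl, ⟨o, k, h, h'⟩, ⟨0, 0, ?_, ?_⟩⟩
    · show _ = _
      simp
    · show _ = _
      simp
  obtain ⟨p, hp, l, hl, hyt⟩ := exists_Typ (CB_le hy (Typ_CB_succ h)) hy0
  obtain ⟨q, hq, m, hm, hzt⟩ := exists_Typ (CB_le (sdiff_le : x \ y ≤ x) (Typ_CB_succ h)) hz0
  have hp' : p ≤ o := Order.lt_add_one_iff.1 hp
  have hq' : q ≤ o := Order.lt_add_one_iff.1 hq
  have hdis : Disjoint y (x \ y) := disjoint_sdiff_self_right
  have hsup : y ⊔ x \ y = x := sup_sdiff_cancel_right hy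
  rcases hp'.lt_or_eq with hplt | hpeq
  · have hcy : CB o y := CB_mono (Order.add_one_le_of_lt hplt) (Typ_CB_succ hyt)
    rcases hq'.lt_or_eq with hqlt | hqeq
    · have hcz : CB o (x \ y) := CB_mono (Order.add_one_le_of_lt hqlt) (Typ_CB_succ hzt)
      have := CB_sup hcy hcz
      rw [hsup] at this
      exact absurd this (Typ_not_CB hk h)
    · subst hqeq
      have h1 : Typ q m x := by
        refine Typ_congr hm hzt ?_
        rw [symmDiff_comm, Typ_split_rel_symm hy]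
        exact hcy
      have h2 : k = m := (Typ_unique hk h h1).2
      subst h2
      obtain ⟨y', hy', ht⟩ := Typ_exists_sub l hk h' hplt
      refine ⟨y', hy', ⟨p, l, hyt, ht⟩, ⟨q, k, hzt, ?_⟩⟩
      refine Typ_congr hk h' ?_
      rw [Typ_split_rel_symm hy']
      exact CB_mono (Order.add_one_le_of_lt hplt) (Typ_CB_succ ht)
  · subst hpeq
    rcases hq'.lt_or_eq with hqlt | hqeq
    · have hcz : CB p (x \ y) := CB_mono (Order.add_one_le_of_lt hqlt) (Typ_CB_succ hzt)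
      have h1 : Typ p l x := by
        refine Typ_congr hl hyt ?_
        have : symmDiff y x = x \ y := by
          rw [symmDiff, sdiff_eq_bot_iff.2 hy, bot_sup_eq]
        rw [this]
        exact hcz
      have h2 : k = l := (Typ_unique hk h h1).2
      subst h2
      obtain ⟨z', hz', ht⟩ := Typ_exists_sub m hk h' hqlt
      refine ⟨x' \ z', sdiff_le, ⟨p, k, hyt, ?_⟩, ⟨q, m, hzt, ?_⟩⟩
      · refine Typ_congr hk h' ?_
        rw [Typ_split_rel_symm hz']
        exact CB_mono (Order.add_one_le_of_lt hqlt) (Typ_CB_succ ht)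
      · rw [_root_.sdiff_sdiff_eq_self hz']
        exact ht
    · subst hqeq
      have h1 := Typ_add hyt hzt hdis
      rw [hsup] at h1
      have h2 : k = l + m := (Typ_unique hk h h1).2
      subst h2
      obtain ⟨y', hy', ht1, ht2⟩ := Typ_split_sub h'
      exact ⟨y', hy', ⟨q, l, hyt, ht1⟩, ⟨q, m, hzt, ht2⟩⟩
end

section
section vaught_section
variable {A B : Type} [GeneralizedBooleanAlgebra A] [GeneralizedBooleanAlgebra B]

/-- finite partitions of the pair `(a, b)` into pairs in `V` -/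
structure vaught_OK (V : A → B → Prop) (a : A) (b : B) (s : Finset (A × B)) : Prop where
  v : ∀ q ∈ s, V q.1 q.2
  d : ∀ q ∈ s, ∀ r ∈ s, q ≠ r → Disjoint q.1 r.1 ∧ Disjoint q.2 r.2
  sa : s.sup Prod.fst = a
  sb : s.sup Prod.snd = b

/-- refinement -/
def vaught_Ref (s t : Finset (A × B)) : Prop := ∀ q' ∈ t, ∃ q ∈ s, q' ≤ q

lemma vaught_Ref_trans {s t u : Finset (A × B)} (h1 : vaught_Ref s t) (h2 : vaught_Ref t u) :
    vaught_Ref s u := by
  intro q hq
  obtain ⟨r, hr, hqr⟩ := h2 q hq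
  obtain ⟨p, hp, hrp⟩ := h1 r hr
  exact ⟨p, hp, hqr.trans hrp⟩

lemma vaught_split [DecidableEq (A × B)] {V : A → B → Prop} {a : A} {b : B} {s : Finset (A × B)}
    (hs : vaught_OK V a b s) (ch : A × B → A × B)
    (hc : ∀ q ∈ s, ch q ≤ q ∧ V (ch q).1 (ch q).2 ∧ V (q.1 \ (ch q).1) (q.2 \ (ch q).2)) :
    vaught_OK V a b (s.biUnion fun q => {ch q, (q.1 \ (ch q).1, q.2 \ (ch q).2)}) ∧
      vaught_Ref s (s.biUnion fun q => {ch q, (q.1 \ (ch q).1, q.2 \ (ch q).2)}) := by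
  have href : vaught_Ref s (s.biUnion fun q => {ch q, (q.1 \ (ch q).1, q.2 \ (ch q).2)}) := by
    intro q' hq'
    rw [Finset.mem_biUnion] at hq'
    obtain ⟨q, hq, hq'⟩ := hq'
    rw [Finset.mem_insert, Finset.mem_singleton] at hq'
    refine ⟨q, hq, ?_⟩
    rcases hq' with rfl | rfl
    · exact (hc q hq).1
    · exact ⟨sdiff_le, sdiff_le⟩
  refine ⟨⟨?_, ?_, ?_, ?_⟩, href⟩
  · intro q' hq'
    rw [Finset.mem_biUnion] at hq'
    obtain ⟨q, hq, hq'⟩ := hq'
    rw [Finset.mem_insert, Finset.mem_singleton] at hq'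
    rcases hq' with rfl | rfl
    · exact (hc q hq).2.1
    · exact (hc q hq).2.2
  · intro q' hq' r' hr' hne
    rw [Finset.mem_biUnion] at hq' hr'
    obtain ⟨q, hq, hq'⟩ := hq'
    obtain ⟨r, hr, hr'⟩ := hr'
    rw [Finset.mem_insert, Finset.mem_singleton] at hq' hr'
    have hqq : q' ≤ q := by
      rcases hq' with rfl | rfl
      · exact (hc q hq).1
      · exact ⟨sdiff_le, sdiff_le⟩
    have hrr : r' ≤ r := by
      rcases hr' with rfl | rfl
      · exact (hc r hr).1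
      · exact ⟨sdiff_le, sdiff_le⟩
    by_cases hqr : q = r
    · subst hqr
      rcases hq' with rfl | rfl <;> rcases hr' with rfl | rfl
      · exact absurd rfl hne
      · exact ⟨disjoint_sdiff_self_right, disjoint_sdiff_self_right⟩
      · exact ⟨disjoint_sdiff_self_left, disjoint_sdiff_self_left⟩
      · exact absurd rfl hne
    · have h := hs.d q hq r hr hqr
      exact ⟨h.1.mono hqq.1 hrr.1, h.2.mono hqq.2 hrr.2⟩
  · rw [Finset.sup_biUnion, ← hs.sa]
    refine Finset.sup_congr rfl fun q hq => ?_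
    rw [Finset.sup_insert, Finset.sup_singleton]
    exact sup_sdiff_cancel_right (hc q hq).1.1
  · rw [Finset.sup_biUnion, ← hs.sb]
    refine Finset.sup_congr rfl fun q hq => ?_
    rw [Finset.sup_insert, Finset.sup_singleton]
    exact sup_sdiff_cancel_right (hc q hq).1.2

lemma vaught_step {V : A → B → Prop} {a : A} {b : B}
    (h2 : ∀ x y, V x y → ∀ x' ≤ x, ∃ y' ≤ y, V x' y' ∧ V (x \ x') (y \ y'))
    (h3 : ∀ x y, V x y → ∀ y' ≤ y, ∃ x' ≤ x, V x' y' ∧ V (x \ x') (y \ y'))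
    (s : Finset (A × B)) (hs : vaught_OK V a b s) (c : A) (d : B) :
    ∃ t, vaught_OK V a b t ∧ vaught_Ref s t ∧ (∀ q ∈ t, q.1 ≤ c ∨ Disjoint q.1 c) ∧
      (∀ q ∈ t, q.2 ≤ d ∨ Disjoint q.2 d) := by
  classical
  have e1 : ∀ q : A × B, ∃ r : A × B, q ∈ s → r ≤ q ∧ V r.1 r.2 ∧ V (q.1 \ r.1) (q.2 \ r.2) ∧
      r.1 = q.1 ⊓ c := by
    intro q
    by_cases hq : q ∈ s
    · obtain ⟨y', hy', hv1, hv2⟩ := h2 q.1 q.2 (hs.v q hq) (q.1 ⊓ c) inf_le_left
      exact ⟨(q.1 ⊓ c, y'), fun _ => ⟨⟨inf_le_left, hy'⟩, hv1, hv2, rfl⟩⟩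
    · exact ⟨q, fun h => absurd h hq⟩
  choose ch hch using e1
  obtain ⟨ht, hst⟩ := vaught_split hs ch (fun q hq => ⟨(hch q hq).1, (hch q hq).2.1, (hch q hq).2.2.1⟩)
  have htc : ∀ q ∈ (s.biUnion fun q => {ch q, (q.1 \ (ch q).1, q.2 \ (ch q).2)}),
      q.1 ≤ c ∨ Disjoint q.1 c := by
    intro q' hq'
    rw [Finset.mem_biUnion] at hq'
    obtain ⟨q, hq, hq'⟩ := hq'
    rw [Finset.mem_insert, Finset.mem_singleton] at hq'
    rcases hq' with rfl | rfl
    · left
      rw [(hch q hq).2.2.2]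
      exact inf_le_right
    · right
      show Disjoint (q.1 \ (ch q).1) c
      rw [(hch q hq).2.2.2, sdiff_inf_self_left]
      exact disjoint_sdiff_self_left
  generalize (s.biUnion fun q => {ch q, (q.1 \ (ch q).1, q.2 \ (ch q).2)}) = t at *
  have e2 : ∀ q : A × B, ∃ r : A × B, q ∈ t → r ≤ q ∧ V r.1 r.2 ∧ V (q.1 \ r.1) (q.2 \ r.2) ∧
      r.2 = q.2 ⊓ d := by
    intro q
    by_cases hq : q ∈ t
    · obtain ⟨x', hx', hv1, hv2⟩ := h3 q.1 q.2 (ht.v q hq) (q.2 ⊓ d) inf_le_left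
      exact ⟨(x', q.2 ⊓ d), fun _ => ⟨⟨hx', inf_le_left⟩, hv1, hv2, rfl⟩⟩
    · exact ⟨q, fun h => absurd h hq⟩
  choose ch' hch' using e2
  obtain ⟨hu, htu⟩ := vaught_split ht ch' (fun q hq => ⟨(hch' q hq).1, (hch' q hq).2.1, (hch' q hq).2.2.1⟩)
  refine ⟨_, hu, vaught_Ref_trans hst htu, ?_, ?_⟩
  · intro q' hq'
    obtain ⟨q, hq, hqq⟩ := htu q' hq'
    rcases htc q hq with h | h
    · exact Or.inl (hqq.1.trans h)
    · exact Or.inr (h.mono_left hqq.1)
  · intro q' hq'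
    rw [Finset.mem_biUnion] at hq'
    obtain ⟨q, hq, hq'⟩ := hq'
    rw [Finset.mem_insert, Finset.mem_singleton] at hq'
    rcases hq' with rfl | rfl
    · left
      rw [(hch' q hq).2.2.2]
      exact inf_le_right
    · right
      show Disjoint (q.2 \ (ch' q).2) d
      rw [(hch' q hq).2.2.2, sdiff_inf_self_left]
      exact disjoint_sdiff_self_left

lemma vaught_cover1 {V : A → B → Prop} {a : A} {b : B} {s : Finset (A × B)}
    (hs : vaught_OK V a b s) (u z : A) (hu : u ≤ a) (h : ∀ q ∈ s, u ⊓ q.1 ≤ z) : u ≤ z := by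
  have h1 : u = s.sup (fun q => u ⊓ q.1) := by
    rw [← Finset.sup_inf_distrib_left]
    have : s.sup (fun q : A × B => q.1) = a := hs.sa
    rw [this, inf_eq_left.2 hu]
  rw [h1]
  exact Finset.sup_le h

lemma vaught_cover2 {V : A → B → Prop} {a : A} {b : B} {s : Finset (A × B)}
    (hs : vaught_OK V a b s) (u z : B) (hu : u ≤ b) (h : ∀ q ∈ s, u ⊓ q.2 ≤ z) : u ≤ z := by
  have h1 : u = s.sup (fun q => u ⊓ q.2) := by
    rw [← Finset.sup_inf_distrib_left]
    have : s.sup (fun q : A × B => q.2) = b := hs.sb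
    rw [this, inf_eq_left.2 hu]
  rw [h1]
  exact Finset.sup_le h

lemma vaught_le1 {V : A → B → Prop} {a : A} {b : B} {s : Finset (A × B)}
    (hs : vaught_OK V a b s) {q : A × B} (hq : q ∈ s) : q.1 ≤ a := by
  rw [← hs.sa]; exact Finset.le_sup (f := Prod.fst) hq

lemma vaught_le2 {V : A → B → Prop} {a : A} {b : B} {s : Finset (A × B)}
    (hs : vaught_OK V a b s) {q : A × B} (hq : q ∈ s) : q.2 ≤ b := by
  rw [← hs.sb]; exact Finset.le_sup (f := Prod.snd) hq

lemma vaught_ref1 {V : A → B → Prop} {a : A} {b : B} {s t : Finset (A × B)}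
    (hs : vaught_OK V a b s) (ht : vaught_OK V a b t) (hst : vaught_Ref s t) {q : A × B} (hq : q ∈ s)
    (z : A) : q.1 ≤ z ↔ ∀ q' ∈ t, q' ≤ q → q'.1 ≤ z := by
  constructor
  · intro h q' _ hqq
    exact hqq.1.trans h
  · intro h
    refine vaught_cover1 ht _ _ (vaught_le1 hs hq) fun q' hq' => ?_
    obtain ⟨r, hr, hqr⟩ := hst q' hq'
    by_cases hrq : r = q
    · subst hrq
      exact inf_le_right.trans (h q' hq' hqr)
    · have h1 := (hs.d q hq r hr (Ne.symm hrq)).1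
      have h2 : q.1 ⊓ q'.1 ≤ ⊥ := (inf_le_inf_left _ hqr.1).trans h1.le_bot
      exact h2.trans bot_le

lemma vaught_ref2 {V : A → B → Prop} {a : A} {b : B} {s t : Finset (A × B)}
    (hs : vaught_OK V a b s) (ht : vaught_OK V a b t) (hst : vaught_Ref s t) {q : A × B} (hq : q ∈ s)
    (z : B) : q.2 ≤ z ↔ ∀ q' ∈ t, q' ≤ q → q'.2 ≤ z := by
  constructor
  · intro h q' _ hqq
    exact hqq.2.trans h
  · intro h
    refine vaught_cover2 ht _ _ (vaught_le2 hs hq) fun q' hq' => ?_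
    obtain ⟨r, hr, hqr⟩ := hst q' hq'
    by_cases hrq : r = q
    · subst hrq
      exact inf_le_right.trans (h q' hq' hqr)
    · have h1 := (hs.d q hq r hr (Ne.symm hrq)).2
      have h2 : q.2 ⊓ q'.2 ≤ ⊥ := (inf_le_inf_left _ hqr.2).trans h1.le_bot
      exact h2.trans bot_le

end vaught_section

/-- TARGET -/
theorem vaught {A B : Type} [GeneralizedBooleanAlgebra A] [GeneralizedBooleanAlgebra B] {a : A} {b : B}
    (ha : (Iic a).Countable) (hb : (Iic b).Countable) (V : A → B → Prop) (h0 : V a b)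
    (h1 : ∀ x y, V x y → (x = ⊥ ↔ y = ⊥))
    (h2 : ∀ x y, V x y → ∀ x' ≤ x, ∃ y' ≤ y, V x' y' ∧ V (x \ x') (y \ y'))
    (h3 : ∀ x y, V x y → ∀ y' ≤ y, ∃ x' ≤ x, V x' y' ∧ V (x \ x') (y \ y')) :
    Nonempty (Iic a ≃o Iic b) := by
  classical
  obtain ⟨c, hc⟩ := ha.exists_eq_range ⟨a, le_refl a⟩
  obtain ⟨d, hd⟩ := hb.exists_eq_range ⟨b, le_refl b⟩
  have hOK0 : vaught_OK V a b {(a, b)} := by
    refine ⟨?_, ?_, ?_, ?_⟩
    · intro q hq
      rw [Finset.mem_singleton] at hq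
      subst hq
      exact h0
    · intro q hq r hr hne
      rw [Finset.mem_singleton] at hq hr
      exact absurd (hq.trans hr.symm) hne
    · rw [Finset.sup_singleton]
    · rw [Finset.sup_singleton]
  let st : ℕ → {s : Finset (A × B) // vaught_OK V a b s} := fun n =>
    Nat.rec ⟨{(a, b)}, hOK0⟩ (fun n s => ⟨(vaught_step h2 h3 s.1 s.2 (c n) (d n)).choose,
      (vaught_step h2 h3 s.1 s.2 (c n) (d n)).choose_spec.1⟩) n
  have hst : ∀ n, vaught_Ref (st n).1 (st (n + 1)).1 ∧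
      (∀ q ∈ (st (n + 1)).1, q.1 ≤ c n ∨ Disjoint q.1 (c n)) ∧
      (∀ q ∈ (st (n + 1)).1, q.2 ≤ d n ∨ Disjoint q.2 (d n)) := fun n =>
    (vaught_step h2 h3 (st n).1 (st n).2 (c n) (d n)).choose_spec.2
  have href0 : ∀ n, vaught_Ref (st n).1 (st n).1 := fun n q hq => ⟨q, hq, le_refl q⟩
  have href : ∀ m n, m ≤ n → vaught_Ref (st m).1 (st n).1 := by
    intro m n hmn
    induction n, hmn using Nat.le_induction with
    | base => exact href0 m
    | succ n _ ih => exact vaught_Ref_trans ih (hst n).1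
  let R : A → B → Prop := fun u v => ∀ N, ∀ q ∈ (st N).1, (q.1 ≤ u ↔ q.2 ≤ v)
  -- T2
  have T2a : ∀ u ≤ a, ∀ z, (∀ N, ∀ q ∈ (st N).1, q.1 ≤ u → q.1 ≤ z) → u ≤ z := by
    intro u hu z hz
    have hu' : u ∈ range c := by rw [← hc]; exact hu
    obtain ⟨n, rfl⟩ := hu'
    refine vaught_cover1 (st (n + 1)).2 _ _ hu fun q hq => ?_
    rcases (hst n).2.1 q hq with h | h
    · exact inf_le_right.trans (hz (n + 1) q hq h)
    · exact (h.symm.le_bot).trans bot_le
  have T2b : ∀ v ≤ b, ∀ z, (∀ N, ∀ q ∈ (st N).1, q.2 ≤ v → q.2 ≤ z) → v ≤ z := by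
    intro v hv z hz
    have hv' : v ∈ range d := by rw [← hd]; exact hv
    obtain ⟨n, rfl⟩ := hv'
    refine vaught_cover2 (st (n + 1)).2 _ _ hv fun q hq => ?_
    rcases (hst n).2.2 q hq with h | h
    · exact inf_le_right.trans (hz (n + 1) q hq h)
    · exact (h.symm.le_bot).trans bot_le
  -- T1
  have T0 : ∀ (n : ℕ) (u : A) (v : B), (∀ q ∈ (st n).1, (q.1 ≤ u ∧ q.2 ≤ v) ∨
      (Disjoint q.1 u ∧ Disjoint q.2 v)) → R u v := by
    intro n u v huv N q hq
    have hM : ∀ q' ∈ (st (max N n)).1, (q'.1 ≤ u ↔ q'.2 ≤ v) := by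
      intro q' hq'
      obtain ⟨r, hr, hqr⟩ := href n (max N n) (le_max_right _ _) q' hq'
      rcases huv r hr with ⟨g1, g2⟩ | ⟨g1, g2⟩
      · exact ⟨fun _ => hqr.2.trans g2, fun _ => hqr.1.trans g1⟩
      · have hV := h1 q'.1 q'.2 ((st (max N n)).2.v q' hq')
        constructor
        · intro h
          have : q'.1 = ⊥ := le_bot_iff.1 ((le_inf hqr.1 h).trans g1.le_bot)
          rw [hV.1 this]; exact bot_le
        · intro h
          have : q'.2 = ⊥ := le_bot_iff.1 ((le_inf hqr.2 h).trans g2.le_bot)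
          rw [hV.2 this]; exact bot_le
    rw [vaught_ref1 (st N).2 (st (max N n)).2 (href N _ (le_max_left _ _)) hq u,
      vaught_ref2 (st N).2 (st (max N n)).2 (href N _ (le_max_left _ _)) hq v]
    constructor
    · intro h q' hq' hqq
      exact (hM q' hq').1 (h q' hq' hqq)
    · intro h q' hq' hqq
      exact (hM q' hq').2 (h q' hq' hqq)
  have T1a : ∀ u ≤ a, ∃ v ≤ b, R u v := by
    intro u hu
    have hu' : u ∈ range c := by rw [← hc]; exact hu
    obtain ⟨n, rfl⟩ := hu'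
    refine ⟨((st (n + 1)).1.filter (fun q => q.1 ≤ c n)).sup Prod.snd, ?_, T0 (n + 1) _ _ ?_⟩
    · refine Finset.sup_le fun q hq => vaught_le2 (st (n + 1)).2 (Finset.mem_filter.1 hq).1
    · intro q hq
      by_cases h : q.1 ≤ c n
      · left
        exact ⟨h, Finset.le_sup (f := Prod.snd) (Finset.mem_filter.2 ⟨hq, h⟩)⟩
      · right
        refine ⟨((hst n).2.1 q hq).resolve_left h, ?_⟩
        rw [Finset.disjoint_sup_right]
        intro r hr
        obtain ⟨hr1, hr2⟩ := Finset.mem_filter.1 hr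
        refine ((st (n + 1)).2.d q hq r hr1 ?_).2
        rintro rfl
        exact h hr2
  have T1b : ∀ v ≤ b, ∃ u ≤ a, R u v := by
    intro v hv
    have hv' : v ∈ range d := by rw [← hd]; exact hv
    obtain ⟨n, rfl⟩ := hv'
    refine ⟨((st (n + 1)).1.filter (fun q => q.2 ≤ d n)).sup Prod.fst, ?_, T0 (n + 1) _ _ ?_⟩
    · refine Finset.sup_le fun q hq => vaught_le1 (st (n + 1)).2 (Finset.mem_filter.1 hq).1
    · intro q hq
      by_cases h : q.2 ≤ d n
      · left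
        exact ⟨Finset.le_sup (f := Prod.fst) (Finset.mem_filter.2 ⟨hq, h⟩), h⟩
      · right
        refine ⟨?_, ((hst n).2.2 q hq).resolve_left h⟩
        rw [Finset.disjoint_sup_right]
        intro r hr
        obtain ⟨hr1, hr2⟩ := Finset.mem_filter.1 hr
        refine ((st (n + 1)).2.d q hq r hr1 ?_).1
        rintro rfl
        exact h hr2
  -- monotonicity
  have mono1 : ∀ u u' v v', v ≤ b → R u v → R u' v' → u ≤ u' → v ≤ v' := by
    intro u u' v v' hv hR hR' h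
    refine T2b v hv v' fun N q hq hqv => ?_
    exact (hR' N q hq).1 (((hR N q hq).2 hqv).trans h)
  have mono2 : ∀ u u' v v', u ≤ a → R u v → R u' v' → v ≤ v' → u ≤ u' := by
    intro u u' v v' hu hR hR' h
    refine T2a u hu u' fun N q hq hqu => ?_
    exact (hR' N q hq).2 (((hR N q hq).1 hqu).trans h)
  choose f hfb hfR using T1a
  choose g hga hgR using T1b
  refine ⟨{ toFun := fun u => ⟨f u.1 u.2, hfb u.1 u.2⟩
            invFun := fun v => ⟨g v.1 v.2, hga v.1 v.2⟩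
            left_inv := ?_
            right_inv := ?_
            map_rel_iff' := ?_ }⟩
  · rintro ⟨u, hu⟩
    apply Subtype.ext
    apply le_antisymm
    · exact mono2 _ _ _ _ (hga _ _) (hgR _ (hfb u hu)) (hfR u hu) le_rfl
    · exact mono2 _ _ _ _ hu (hfR u hu) (hgR _ (hfb u hu)) le_rfl
  · rintro ⟨v, hv⟩
    apply Subtype.ext
    apply le_antisymm
    · exact mono1 _ _ _ _ (hfb _ _) (hfR _ (hga v hv)) (hgR v hv) le_rfl
    · exact mono1 _ _ _ _ hv (hgR v hv) (hfR _ (hga v hv)) le_rfl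
  · rintro ⟨u, hu⟩ ⟨u', hu'⟩
    constructor
    · intro h
      exact mono2 _ _ _ _ hu (hfR u hu) (hfR u' hu') h
    · intro h
      exact mono1 _ _ _ _ (hfb u hu) (hfR u hu) (hfR u' hu') h
end

section
theorem classify_bot {A B : Type} [GeneralizedBooleanAlgebra A] [GeneralizedBooleanAlgebra B]
    {p : Ordinal.{0}} {l : ℕ} {x : A} {y : B} (hx : Typ p l x) (hy : Typ p l y) (h : x = ⊥) :
    y = ⊥ := by
  rcases Nat.eq_zero_or_pos l with hl | hl
  · rw [hl] at hy
    exact hy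
  · exact absurd (by rw [h]; exact CB_bot p) (Typ_not_CB hl hx)


/-- TARGET -/
theorem classify {A B : Type} [GeneralizedBooleanAlgebra A] [GeneralizedBooleanAlgebra B]
    {o : Ordinal.{0}} {k : ℕ} {a : A} {b : B} (ha : (Iic a).Countable) (hb : (Iic b).Countable)
    (h : Typ o k a) (h' : Typ o k b) : Nonempty (Iic a ≃o Iic b) := by
  refine vaught ha hb (fun x y => ∃ (p : Ordinal.{0}) (l : ℕ), Typ p l x ∧ Typ p l y)
    ⟨o, k, h, h'⟩ ?_ ?_ ?_
  · rintro x y ⟨p, l, hx, hy⟩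
    exact ⟨classify_bot hx hy, classify_bot hy hx⟩
  · rintro x y ⟨p, l, hx, hy⟩ x' hx'
    obtain ⟨y', hy', h1, h2⟩ := Typ_split_rel hx hy hx'
    exact ⟨y', hy', h1, h2⟩
  · rintro x y ⟨p, l, hx, hy⟩ y' hy'
    obtain ⟨x', hx', ⟨p1, l1, h1, h1'⟩, ⟨p2, l2, h2, h2'⟩⟩ := Typ_split_rel hy hx hy'
    exact ⟨x', hx', ⟨p1, l1, h1', h1⟩, ⟨p2, l2, h2', h2⟩⟩
end

section
lemma H4_sdiff {B : Type} [GeneralizedBooleanAlgebra B] (x y z : B) :
    symmDiff (x \ y) (x \ z) ≤ symmDiff y z := by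
  unfold symmDiff
  refine sup_le ?_ ?_
  · exact sdiff_sdiff_sdiff_le_sdiff.trans le_sup_right
  · exact sdiff_sdiff_sdiff_le_sdiff.trans le_sup_left

lemma H4_inf {B : Type} [GeneralizedBooleanAlgebra B] (x y z : B) (h : y ≤ x) :
    symmDiff y (z ⊓ x) ≤ symmDiff y z := by
  unfold symmDiff
  refine sup_le ?_ ?_
  · have : y \ (z ⊓ x) = y \ z := by
      rw [sdiff_inf, sdiff_eq_bot_iff.2 h, sup_bot_eq]
    rw [this]; exact le_sup_left
  · exact (sdiff_le_sdiff_right inf_le_left).trans le_sup_right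

/-- TARGET -/
theorem H4 {A B : Type} [GeneralizedBooleanAlgebra A] [GeneralizedBooleanAlgebra B] {f : A → B}
    (hf : IsHom f) {β : Ordinal.{0}} (hk : ∀ a, f a = ⊥ → CB β a)
    (hd : ∀ b : B, ∃ a : A, CB β (symmDiff b (f a))) {o : Ordinal.{0}} (ho : β + o = o) {k : ℕ}
    (h0 : 0 < k) {a : A} (h : Typ o k (f a)) : Typ o k a := by
  induction k generalizing a with
  | zero => exact absurd h0 (lt_irrefl 0)
  | succ j ih =>
    obtain ⟨y, hy, hyA, hyT⟩ := h
    rcases Nat.eq_zero_or_pos j with rfl | hj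
    · have h1 : f a \ y = ⊥ := hyT
      have h2 : f a ≤ y := sdiff_eq_bot_iff.1 h1
      have h3 : y = f a := le_antisymm hy h2
      rw [h3] at hyA
      refine ⟨a, le_rfl, (H3 hf hk hd ho a).1 hyA, ?_⟩
      show a \ a = ⊥
      exact sdiff_self
    · obtain ⟨a', ha'⟩ := hd y
      have hle : β ≤ o := by
        calc β ≤ β + o := le_self_add
          _ = o := ho
      have h1 : CB o (symmDiff y (f (a' ⊓ a))) := by
        rw [hf.inf]
        exact CB_mono hle (CB_le (H4_inf _ _ _ hy) ha')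
      have h2 : CAtom o (f (a' ⊓ a)) := CAtom_congr hyA h1
      refine ⟨a' ⊓ a, inf_le_right, (H3 hf hk hd ho _).1 h2, ih hj ?_⟩
      rw [hf.sdiff]
      exact Typ_congr hj hyT (CB_le (H4_sdiff _ _ _) h1)
end

section
theorem prod_iso_key {A : Type} [GeneralizedBooleanAlgebra A] (I J : SubG A)
    (hIJ : ∀ x ∈ I.carrier, ∀ y ∈ J.carrier, Disjoint x y) {x x' y y' : A}
    (hx : x ∈ I.carrier) (hx' : x' ∈ I.carrier) (hy : y ∈ J.carrier) (hy' : y' ∈ J.carrier) :
    x ⊔ y ≤ x' ⊔ y' ↔ x ≤ x' ∧ y ≤ y' := by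
  constructor
  · intro h
    exact ⟨(hIJ x hx y' hy').left_le_of_le_sup_right (le_sup_left.trans h),
      (hIJ x' hx' y hy).symm.left_le_of_le_sup_left (le_sup_right.trans h)⟩
  · rintro ⟨h1, h2⟩
    exact sup_le_sup h1 h2

/-- TARGET -/
theorem prod_iso {A B : Type} [GeneralizedBooleanAlgebra A] [GeneralizedBooleanAlgebra B]
    (I J : SubG A) (I' J' : SubG B)
    (hIJ : ∀ x ∈ I.carrier, ∀ y ∈ J.carrier, Disjoint x y)
    (hIJ' : ∀ x ∈ I'.carrier, ∀ y ∈ J'.carrier, Disjoint x y)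
    (hs : ∀ a : A, ∃ x ∈ I.carrier, ∃ y ∈ J.carrier, a = x ⊔ y)
    (hs' : ∀ a : B, ∃ x ∈ I'.carrier, ∃ y ∈ J'.carrier, a = x ⊔ y)
    (e1 : I ≃o I') (e2 : J ≃o J') : Nonempty (A ≃o B) := by
  choose px hpx py hpy hp using hs
  let F : A → B := fun a => (e1 ⟨px a, hpx a⟩).1 ⊔ (e2 ⟨py a, hpy a⟩).1
  have hF : ∀ a b, F a ≤ F b ↔ a ≤ b := by
    intro a b
    have h1 := prod_iso_key I' J' hIJ' (e1 ⟨px a, hpx a⟩).2 (e1 ⟨px b, hpx b⟩).2
      (e2 ⟨py a, hpy a⟩).2 (e2 ⟨py b, hpy b⟩).2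
    have h2 := prod_iso_key I J hIJ (hpx a) (hpx b) (hpy a) (hpy b)
    rw [← hp a, ← hp b] at h2
    rw [h2]
    refine h1.trans (and_congr ?_ ?_)
    · exact e1.le_iff_le (x := ⟨px a, hpx a⟩) (y := ⟨px b, hpx b⟩)
    · exact e2.le_iff_le (x := ⟨py a, hpy a⟩) (y := ⟨py b, hpy b⟩)
  have hsurj : Function.Surjective F := by
    intro b
    obtain ⟨x, hx, y, hy, hb⟩ := hs' b
    refine ⟨(e1.symm ⟨x, hx⟩).1 ⊔ (e2.symm ⟨y, hy⟩).1, ?_⟩
    set a := (e1.symm ⟨x, hx⟩).1 ⊔ (e2.symm ⟨y, hy⟩).1 with ha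
    have h1 := prod_iso_key I J hIJ (hpx a) (e1.symm ⟨x, hx⟩).2 (hpy a) (e2.symm ⟨y, hy⟩).2
    have h2 := prod_iso_key I J hIJ (e1.symm ⟨x, hx⟩).2 (hpx a) (e2.symm ⟨y, hy⟩).2 (hpy a)
    rw [← hp a, ← ha] at h1 h2
    have h3 := h1.1 le_rfl
    have h4 := h2.1 le_rfl
    have e3 : (⟨px a, hpx a⟩ : I) = e1.symm ⟨x, hx⟩ := Subtype.ext (le_antisymm h3.1 h4.1)
    have e4 : (⟨py a, hpy a⟩ : J) = e2.symm ⟨y, hy⟩ := Subtype.ext (le_antisymm h3.2 h4.2)
    show (e1 ⟨px a, hpx a⟩).1 ⊔ (e2 ⟨py a, hpy a⟩).1 = b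
    rw [e3, e4, OrderIso.apply_symm_apply, OrderIso.apply_symm_apply, hb]
  exact ⟨RelIso.ofSurjective (OrderEmbedding.ofMapLEIff F hF) hsurj⟩
end

section
lemma unit_iso_not {B : Type} [BooleanAlgebra B] (I : SubG B) (hI' : ⊤ ∉ I.carrier) {b : B}
    (hb : b ∈ I.carrier) : bᶜ ∉ I.carrier := by
  intro h
  apply hI'
  have := I.sup_mem hb h
  rwa [sup_compl_eq_top] at this

lemma unit_iso_bot {B C : Type} [BooleanAlgebra B] [BooleanAlgebra C] (I : SubG B) (J : SubG C)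
    (e : I ≃o J) (d : I) : (e d).1 = ⊥ ↔ d.1 = ⊥ := by
  constructor
  · intro h
    have h1 : e d ≤ e ⟨⊥, I.bot_mem⟩ := by
      show (e d).1 ≤ (e ⟨⊥, I.bot_mem⟩).1
      rw [h]; exact bot_le
    have h2 : d ≤ ⟨⊥, I.bot_mem⟩ := e.le_iff_le.1 h1
    have h3 : d.1 ≤ ⊥ := h2
    exact le_bot_iff.1 h3
  · intro h
    have h1 : d ≤ e.symm ⟨⊥, J.bot_mem⟩ := by
      show d.1 ≤ (e.symm ⟨⊥, J.bot_mem⟩).1
      rw [h]; exact bot_le
    have h2 : e d ≤ ⟨⊥, J.bot_mem⟩ := by
      have := e.le_iff_le.2 h1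
      rwa [e.apply_symm_apply] at this
    have h3 : (e d).1 ≤ ⊥ := h2
    exact le_bot_iff.1 h3

lemma unit_iso_disj {B C : Type} [BooleanAlgebra B] [BooleanAlgebra C] (I : SubG B) (J : SubG C)
    (e : I ≃o J) (b c : I) : b.1 ⊓ c.1 = ⊥ ↔ (e b).1 ⊓ (e c).1 = ⊥ := by
  constructor
  · intro h
    set d : J := ⟨(e b).1 ⊓ (e c).1, J.inf_mem (e b).2 (e c).2⟩ with hd
    have h1 : e.symm d ≤ b := by
      rw [e.symm_apply_le]
      show d.1 ≤ (e b).1
      exact inf_le_left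
    have h2 : e.symm d ≤ c := by
      rw [e.symm_apply_le]
      show d.1 ≤ (e c).1
      exact inf_le_right
    have h3 : (e.symm d).1 ≤ b.1 ⊓ c.1 := le_inf h1 h2
    rw [h] at h3
    have h4 := (unit_iso_bot I J e (e.symm d)).2 (le_bot_iff.1 h3)
    rw [e.apply_symm_apply] at h4
    exact h4
  · intro h
    set d : I := ⟨b.1 ⊓ c.1, I.inf_mem b.2 c.2⟩ with hd
    have h1 : e d ≤ e b := by
      rw [e.le_iff_le]
      show d.1 ≤ b.1
      exact inf_le_left
    have h2 : e d ≤ e c := by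
      rw [e.le_iff_le]
      show d.1 ≤ c.1
      exact inf_le_right
    have h3 : (e d).1 ≤ (e b).1 ⊓ (e c).1 := le_inf h1 h2
    rw [h] at h3
    exact (unit_iso_bot I J e d).1 (le_bot_iff.1 h3)

open Classical in
/-- the extension of `e` -/
noncomputable def unit_iso_fun {B C : Type} [BooleanAlgebra B] [BooleanAlgebra C] (I : SubG B)
    (J : SubG C) (hI : ∀ b : B, b ∈ I.carrier ∨ bᶜ ∈ I.carrier) (e : I ≃o J) (b : B) : C :=
  if h : b ∈ I.carrier then (e ⟨b, h⟩).1 else (e ⟨bᶜ, (hI b).resolve_left h⟩).1ᶜ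

lemma unit_iso_fun_pos {B C : Type} [BooleanAlgebra B] [BooleanAlgebra C] (I : SubG B)
    (J : SubG C) (hI : ∀ b : B, b ∈ I.carrier ∨ bᶜ ∈ I.carrier) (e : I ≃o J) (b : I) :
    unit_iso_fun I J hI e b.1 = (e b).1 := by
  unfold unit_iso_fun
  rw [dif_pos b.2]

lemma unit_iso_fun_neg {B C : Type} [BooleanAlgebra B] [BooleanAlgebra C] (I : SubG B)
    (J : SubG C) (hI : ∀ b : B, b ∈ I.carrier ∨ bᶜ ∈ I.carrier) (hI' : ⊤ ∉ I.carrier)
    (e : I ≃o J) (b : I) :
    unit_iso_fun I J hI e b.1ᶜ = (e b).1ᶜ := by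
  unfold unit_iso_fun
  rw [dif_neg (unit_iso_not I hI' b.2)]
  congr 3
  apply Subtype.ext
  simp

lemma unit_iso_inv {B C : Type} [BooleanAlgebra B] [BooleanAlgebra C] (I : SubG B) (J : SubG C)
    (hI : ∀ b : B, b ∈ I.carrier ∨ bᶜ ∈ I.carrier) (hI' : ⊤ ∉ I.carrier)
    (hJ : ∀ b : C, b ∈ J.carrier ∨ bᶜ ∈ J.carrier) (hJ' : ⊤ ∉ J.carrier)
    (e : I ≃o J) (b : B) : unit_iso_fun J I hJ e.symm (unit_iso_fun I J hI e b) = b := by
  rcases hI b with h | h
  · have h1 := unit_iso_fun_pos I J hI e ⟨b, h⟩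
    have h2 := unit_iso_fun_pos J I hJ e.symm (e ⟨b, h⟩)
    rw [e.symm_apply_apply] at h2
    rw [h1, h2]
  · have h1 := unit_iso_fun_neg I J hI hI' e ⟨bᶜ, h⟩
    have h2 := unit_iso_fun_neg J I hJ hJ' e.symm (e ⟨bᶜ, h⟩)
    rw [e.symm_apply_apply] at h2
    simp only [compl_compl] at h1 h2
    rw [h1, h2]

lemma unit_iso_mono {B C : Type} [BooleanAlgebra B] [BooleanAlgebra C] (I : SubG B) (J : SubG C)
    (hI : ∀ b : B, b ∈ I.carrier ∨ bᶜ ∈ I.carrier) (hI' : ⊤ ∉ I.carrier)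
    (e : I ≃o J) (b c : B) (hbc : b ≤ c) : unit_iso_fun I J hI e b ≤ unit_iso_fun I J hI e c := by
  rcases hI b with h | h <;> rcases hI c with h' | h'
  · have h1 := unit_iso_fun_pos I J hI e ⟨b, h⟩
    have h2 := unit_iso_fun_pos I J hI e ⟨c, h'⟩
    simp only at h1 h2
    rw [h1, h2]
    have : e ⟨b, h⟩ ≤ e ⟨c, h'⟩ := e.le_iff_le.2 hbc
    exact this
  · have h1 := unit_iso_fun_pos I J hI e ⟨b, h⟩
    have h2 := unit_iso_fun_neg I J hI hI' e ⟨cᶜ, h'⟩
    simp only [compl_compl] at h1 h2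
    rw [h1, h2]
    rw [le_compl_iff_disjoint_right, disjoint_iff]
    rw [← unit_iso_disj]
    show b ⊓ cᶜ = ⊥
    rw [← disjoint_iff, ← le_compl_iff_disjoint_right, compl_compl]
    exact hbc
  · exfalso
    apply hI'
    have := I.sup_mem h' h
    have h2 : (⊤ : B) ≤ c ⊔ bᶜ := by
      rw [← sup_compl_eq_top (x := b)]
      exact sup_le_sup_right hbc _
    rwa [top_le_iff.1 h2] at this
  · have h1 := unit_iso_fun_neg I J hI hI' e ⟨bᶜ, h⟩
    have h2 := unit_iso_fun_neg I J hI hI' e ⟨cᶜ, h'⟩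
    simp only [compl_compl] at h1 h2
    rw [h1, h2]
    apply compl_le_compl
    have : e ⟨cᶜ, h'⟩ ≤ e ⟨bᶜ, h⟩ := e.le_iff_le.2 (compl_le_compl hbc)
    exact this

/-- TARGET -/
theorem unit_iso {B C : Type} [BooleanAlgebra B] [BooleanAlgebra C] (I : SubG B) (J : SubG C)
    (hI : ∀ b : B, b ∈ I.carrier ∨ bᶜ ∈ I.carrier) (hI' : ⊤ ∉ I.carrier)
    (hJ : ∀ b : C, b ∈ J.carrier ∨ bᶜ ∈ J.carrier) (hJ' : ⊤ ∉ J.carrier)
    (e : I ≃o J) : Nonempty (B ≃o C) := by
  refine ⟨{ toFun := unit_iso_fun I J hI e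
            invFun := unit_iso_fun J I hJ e.symm
            left_inv := unit_iso_inv I J hI hI' hJ hJ' e
            right_inv := ?_
            map_rel_iff' := ?_ }⟩
  · intro c
    have := unit_iso_inv J I hJ hJ' hI hI' e.symm c
    simpa using this
  · intro b c
    constructor
    · intro h
      have h2 := unit_iso_mono J I hJ hJ' e.symm _ _ h
      have h3 := unit_iso_inv I J hI hI' hJ hJ' e b
      have h4 := unit_iso_inv I J hI hI' hJ hJ' e c
      simp only [Equiv.coe_fn_mk] at h2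
      rwa [h3, h4] at h2
    · intro h
      exact unit_iso_mono I J hI hI' e b c h
end

section
theorem memberwise_exists {A B : Type} [GeneralizedBooleanAlgebra A] [GeneralizedBooleanAlgebra B]
    {ι : Type} (W : ι → A) (W' : ι → B)
    (hd : ∀ i j, i ≠ j → Disjoint (W i) (W j)) (hd' : ∀ i j, i ≠ j → Disjoint (W' i) (W' j))
    (h1 : ∀ a : A, {i | ¬ (W i ≤ a ∨ Disjoint (W i) a)}.Finite)
    (hD : ∀ s : Set ι, (∃ a : A, ∀ i, (i ∈ s → W i ≤ a) ∧ (i ∉ s → Disjoint (W i) a)) →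
      (∃ b : B, ∀ i, (i ∈ s → W' i ≤ b) ∧ (i ∉ s → Disjoint (W' i) b)))
    (e : ∀ i, Iic (W i) ≃o Iic (W' i)) (a : A) :
    ∃ b : B, ∀ i, b ⊓ W' i = (e i ⟨a ⊓ W i, inf_le_right⟩).1 := by
  classical
  set F : Finset ι := (h1 a).toFinset with hF
  have hFmem : ∀ i, i ∈ F ↔ ¬ (W i ≤ a ∨ Disjoint (W i) a) := by
    intro i
    rw [hF, Set.Finite.mem_toFinset]
    rfl
  let s : Set ι := {i | i ∉ F ∧ W i ≤ a}
  have hex : ∃ a' : A, ∀ i, (i ∈ s → W i ≤ a') ∧ (i ∉ s → Disjoint (W i) a') := by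
    refine ⟨a \ F.sup W, fun i => ⟨?_, ?_⟩⟩
    · rintro ⟨hi1, hi2⟩
      rw [le_sdiff]
      refine ⟨hi2, ?_⟩
      rw [Finset.disjoint_sup_right]
      intro j hj
      exact hd i j (fun h => hi1 (h ▸ hj))
    · intro hi
      by_cases hiF : i ∈ F
      · exact disjoint_sdiff_self_right.mono_left (Finset.le_sup hiF)
      · have h3 : ¬ W i ≤ a := fun h => hi ⟨hiF, h⟩
        have h4 : W i ≤ a ∨ Disjoint (W i) a := by
          by_contra h5
          exact hiF ((hFmem i).2 h5)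
        exact (h4.resolve_left h3).mono_right sdiff_le
  obtain ⟨b0, hb0⟩ := hD s hex
  let g : ι → B := fun i => (e i ⟨a ⊓ W i, inf_le_right⟩).1
  have hg : ∀ i, g i ≤ W' i := fun i => (e i ⟨a ⊓ W i, inf_le_right⟩).2
  refine ⟨b0 ⊔ F.sup g, fun j => ?_⟩
  have hne : ∀ i, i ≠ j → g i ⊓ W' j = ⊥ := by
    intro i hij
    exact ((hd' i j hij).mono_left (hg i)).eq_bot
  rw [inf_sup_right, Finset.sup_inf_distrib_right]
  by_cases hj : j ∈ F
  · have h3 : b0 ⊓ W' j = ⊥ := by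
      have := (hb0 j).2 (fun h => h.1 hj)
      rw [inf_comm]
      exact this.eq_bot
    rw [h3, bot_sup_eq]
    apply le_antisymm
    · apply Finset.sup_le
      intro i _
      by_cases hij : i = j
      · subst hij
        exact inf_le_left
      · rw [hne i hij]
        exact bot_le
    · have h4 : g j ⊓ W' j = g j := inf_eq_left.2 (hg j)
      have h5 := Finset.le_sup (f := fun i => g i ⊓ W' j) hj
      simp only [h4] at h5
      exact h5
  · have h3 : F.sup (fun i => g i ⊓ W' j) = ⊥ := by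
      rw [Finset.sup_eq_bot_iff]
      intro i hi
      exact hne i (fun h => hj (h ▸ hi))
    rw [h3, sup_bot_eq]
    by_cases hjs : j ∈ s
    · have h4 : b0 ⊓ W' j = W' j := inf_eq_right.2 ((hb0 j).1 hjs)
      rw [h4]
      have h5 : (⟨a ⊓ W j, inf_le_right⟩ : Iic (W j)) = ⊤ := by
        apply Subtype.ext
        show a ⊓ W j = W j
        exact inf_eq_right.2 hjs.2
      rw [h5, map_top]
      rfl
    · have h4 : b0 ⊓ W' j = ⊥ := by
        rw [inf_comm]
        exact ((hb0 j).2 hjs).eq_bot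
      rw [h4]
      have h6 : ¬ W j ≤ a := fun h => hjs ⟨hj, h⟩
      have h7 : W j ≤ a ∨ Disjoint (W j) a := by
        by_contra h5
        exact hj ((hFmem j).2 h5)
      have h5 : (⟨a ⊓ W j, inf_le_right⟩ : Iic (W j)) = ⊥ := by
        apply Subtype.ext
        show a ⊓ W j = ⊥
        rw [inf_comm]
        exact (h7.resolve_left h6).eq_bot
      rw [h5, map_bot]
      rfl

theorem memberwise_le {A : Type} [GeneralizedBooleanAlgebra A] {ι : Type} (W : ι → A)
    (h2 : ∀ a b : A, (∀ i, a ⊓ W i = b ⊓ W i) → a = b) (a a' : A) :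
    a ≤ a' ↔ ∀ i, a ⊓ W i ≤ a' ⊓ W i := by
  constructor
  · intro h i
    exact inf_le_inf_right _ h
  · intro h
    have h3 : a ⊓ a' = a := by
      apply h2
      intro i
      apply le_antisymm
      · exact inf_le_inf_right _ inf_le_left
      · exact le_inf (le_inf inf_le_left ((h i).trans inf_le_left)) inf_le_right
    exact inf_eq_left.1 h3

/-- TARGET -/
theorem memberwise {A B : Type} [GeneralizedBooleanAlgebra A] [GeneralizedBooleanAlgebra B] {ι : Type}
    (W : ι → A) (W' : ι → B)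
    (hd : ∀ i j, i ≠ j → Disjoint (W i) (W j)) (hd' : ∀ i j, i ≠ j → Disjoint (W' i) (W' j))
    (hne : ∀ i, W i ≠ ⊥) (hne' : ∀ i, W' i ≠ ⊥)
    (h1 : ∀ a : A, {i | ¬ (W i ≤ a ∨ Disjoint (W i) a)}.Finite)
    (h1' : ∀ b : B, {i | ¬ (W' i ≤ b ∨ Disjoint (W' i) b)}.Finite)
    (h2 : ∀ a b : A, (∀ i, a ⊓ W i = b ⊓ W i) → a = b)
    (h2' : ∀ a b : B, (∀ i, a ⊓ W' i = b ⊓ W' i) → a = b)
    (hD : ∀ s : Set ι, (∃ a : A, ∀ i, (i ∈ s → W i ≤ a) ∧ (i ∉ s → Disjoint (W i) a)) ↔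
      (∃ b : B, ∀ i, (i ∈ s → W' i ≤ b) ∧ (i ∉ s → Disjoint (W' i) b)))
    (hI : ∀ i, Nonempty (Iic (W i) ≃o Iic (W' i))) : Nonempty (A ≃o B) := by
  classical
  have e : ∀ i, Iic (W i) ≃o Iic (W' i) := fun i => (hI i).some
  choose φ hφ using memberwise_exists W W' hd hd' h1 (fun s => (hD s).1) e
  choose ψ hψ using memberwise_exists W' W hd' hd h1' (fun s => (hD s).2) (fun i => (e i).symm)
  have hψφ : ∀ a, ψ (φ a) = a := by
    intro a
    apply h2
    intro i
    rw [hψ]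
    have h3 : (⟨φ a ⊓ W' i, inf_le_right⟩ : Iic (W' i)) = e i ⟨a ⊓ W i, inf_le_right⟩ :=
      Subtype.ext (hφ a i)
    rw [h3, OrderIso.symm_apply_apply]
  have hφψ : ∀ b, φ (ψ b) = b := by
    intro b
    apply h2'
    intro i
    rw [hφ]
    have h3 : (⟨ψ b ⊓ W i, inf_le_right⟩ : Iic (W i)) = (e i).symm ⟨b ⊓ W' i, inf_le_right⟩ :=
      Subtype.ext (hψ b i)
    rw [h3, OrderIso.apply_symm_apply]
  refine ⟨{ toFun := φ, invFun := ψ, left_inv := hψφ, right_inv := hφψ, map_rel_iff' := ?_ }⟩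
  intro a a'
  show φ a ≤ φ a' ↔ a ≤ a'
  rw [memberwise_le W' h2', memberwise_le W h2]
  apply forall_congr'
  intro i
  rw [hφ, hφ]
  exact (e i).le_iff_le
end

section
/-- the order isomorphism between `Iic x` and `Iic (lift x)` -/
noncomputable def marked_liftIso {A : Type} [GeneralizedBooleanAlgebra A] (x : A) :
    Iic x ≃o Iic (Booleanisation.lift x) :=
  RelIso.ofSurjective
    (OrderEmbedding.ofMapLEIff
      (fun y : Iic x => (⟨Booleanisation.lift y.1, Booleanisation.lift_le_lift.2 y.2⟩ :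
        Iic (Booleanisation.lift x)))
      (fun y z => by
        rw [← Subtype.coe_le_coe, ← Subtype.coe_le_coe]
        exact Booleanisation.lift_le_lift))
    (by
      rintro ⟨z, hz⟩
      match z, hz with
      | Booleanisation.lift y, hz =>
        exact ⟨⟨y, Booleanisation.lift_le_lift.1 hz⟩, rfl⟩
      | Booleanisation.comp y, hz => exact absurd hz Booleanisation.not_comp_le_lift)

lemma marked_CB_lift {A : Type} [GeneralizedBooleanAlgebra A] (o : Ordinal.{0}) (x : A) :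
    CB o (Booleanisation.lift x) ↔ CB o x :=
  (CB_congr (marked_liftIso x) o).symm

lemma marked_fin {A : Type} [GeneralizedBooleanAlgebra A] (P : A → Booleanisation A → Prop)
    (F : Set (Booleanisation A)) (hF : F.Finite) :
    ∃ e : A, ∀ z ∈ F, (∃ d, P d z) → ∃ d ≤ e, P d z := by
  induction F, hF using Set.Finite.induction_on with
  | empty => exact ⟨⊥, fun z hz => absurd hz (Set.notMem_empty z)⟩
  | @insert z F _ _ ih =>
    obtain ⟨e, he⟩ := ih
    by_cases h : ∃ d, P d z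
    · obtain ⟨d, hd⟩ := h
      refine ⟨e ⊔ d, ?_⟩
      intro w hw hw'
      rcases hw with rfl | hw
      · exact ⟨d, le_sup_right, hd⟩
      · obtain ⟨d', hd', h'⟩ := he w hw hw'
        exact ⟨d', hd'.trans le_sup_left, h'⟩
    · refine ⟨e, ?_⟩
      intro w hw hw'
      rcases hw with rfl | hw
      · exact absurd hw' h
      · exact he w hw hw'

lemma marked_top_not_CB {A : Type} [GeneralizedBooleanAlgebra A] {o : Ordinal.{0}}
    (ha2 : ∀ p < o, ∀ e : A, ∃ d : A, ¬ CB p (d \ e)) :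
    ¬ CB o (⊤ : Booleanisation A) := by
  intro h
  rw [CB_iff] at h
  rcases h with h | ⟨p, hp, F, hF, h⟩
  · have h' : (Booleanisation.comp (⊥ : A)) ≤ Booleanisation.lift (⊥ : A) := by
      rw [Booleanisation.comp_bot, Booleanisation.lift_bot, h]
    exact Booleanisation.not_comp_le_lift h'
  · obtain ⟨e, he⟩ := marked_fin
      (fun d z => CB p (symmDiff (Booleanisation.lift d) z)) F hF
    obtain ⟨d, hd⟩ := ha2 p hp e
    obtain ⟨z, hz, h1⟩ := h (Booleanisation.lift d) le_top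
    obtain ⟨d', hd', h2⟩ := he z hz ⟨d, h1⟩
    apply hd
    rw [← marked_CB_lift]
    rw [symmDiff_comm] at h2
    refine CB_le ?_ (CB_sup h1 h2)
    refine le_trans ?_ (symm_tri _ z _)
    refine le_trans ?_ (le_sup_left : Booleanisation.lift d \ Booleanisation.lift d' ≤ _)
    rw [Booleanisation.lift_sdiff_lift, Booleanisation.lift_le_lift]
    exact sdiff_le_sdiff_left hd'

lemma marked_comp_not_CB {A : Type} [GeneralizedBooleanAlgebra A] {o : Ordinal.{0}}
    (ha1 : ∀ x : A, CB o x)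
    (ha2 : ∀ p < o, ∀ e : A, ∃ d : A, ¬ CB p (d \ e)) (x : A) :
    ¬ CB o (Booleanisation.comp x) := by
  intro h
  apply marked_top_not_CB ha2
  have h1 : (⊤ : Booleanisation A) = Booleanisation.comp x ⊔ Booleanisation.lift x := by
    rw [Booleanisation.comp_sup_lift, _root_.sdiff_self, Booleanisation.comp_bot]
  rw [h1]
  exact CB_sup h ((marked_CB_lift o x).2 (ha1 x))

lemma marked_top_typ {A : Type} [GeneralizedBooleanAlgebra A] {o : Ordinal.{0}}
    (ha1 : ∀ x : A, CB o x)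
    (ha2 : ∀ p < o, ∀ e : A, ∃ d : A, ¬ CB p (d \ e)) :
    Typ o 1 (⊤ : Booleanisation A) := by
  refine ⟨⊤, le_rfl, ⟨marked_top_not_CB ha2, ?_⟩, ?_⟩
  · intro y _
    match y with
    | Booleanisation.lift x => exact Or.inl ((marked_CB_lift o x).2 (ha1 x))
    | Booleanisation.comp x =>
      right
      rw [← Booleanisation.comp_bot, Booleanisation.comp_sdiff_comp]
      exact (marked_CB_lift o _).2 (ha1 _)
  · show (⊤ : Booleanisation A) \ ⊤ = ⊥
    exact _root_.sdiff_self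

/-- an order isomorphism restricts to the initial segments -/
noncomputable def marked_iicIso {M N : Type} [PartialOrder M] [PartialOrder N] (f : M ≃o N)
    (y : M) : Iic y ≃o Iic (f y) :=
  RelIso.ofSurjective
    (OrderEmbedding.ofMapLEIff
      (fun z : Iic y => (⟨f z.1, f.le_iff_le.2 z.2⟩ : Iic (f y)))
      (fun z w => by
        rw [← Subtype.coe_le_coe, ← Subtype.coe_le_coe]
        exact f.le_iff_le))
    (by
      rintro ⟨z, hz⟩
      refine ⟨⟨f.symm z, ?_⟩, ?_⟩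
      · have : f.symm z ≤ y := by rw [f.symm_apply_le]; exact hz
        exact this
      · apply Subtype.ext
        exact f.apply_symm_apply z)

theorem marked_core {A B : Type} [GeneralizedBooleanAlgebra A] [GeneralizedBooleanAlgebra B]
    [Countable A] [Countable B] {o : Ordinal.{0}}
    (ha1 : ∀ x : A, CB o x) (hb1 : ∀ y : B, CB o y)
    (ha2 : ∀ p < o, ∀ e : A, ∃ d : A, ¬ CB p (d \ e))
    (hb2 : ∀ p < o, ∀ e : B, ∃ d : B, ¬ CB p (d \ e)) : Nonempty (A ≃o B) := by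
  haveI : Countable (Booleanisation A) := (inferInstance : Countable (A ⊕ A))
  haveI : Countable (Booleanisation B) := (inferInstance : Countable (B ⊕ B))
  obtain ⟨φ⟩ := classify (Set.to_countable _) (Set.to_countable _)
    (marked_top_typ ha1 ha2) (marked_top_typ hb1 hb2)
  let ψ : Booleanisation A ≃o Booleanisation B :=
    (OrderIso.IicTop.symm.trans φ).trans OrderIso.IicTop
  have hψ : ∀ y, CB o y ↔ CB o (ψ y) := fun y => CB_congr (marked_iicIso ψ y) o
  have h1 : ∀ x : A, ∃ y : B, ψ (Booleanisation.lift x) = Booleanisation.lift y := by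
    intro x
    have hx : CB o (ψ (Booleanisation.lift x)) :=
      (hψ _).1 ((marked_CB_lift o x).2 (ha1 x))
    generalize ψ (Booleanisation.lift x) = w at hx
    match w, hx with
    | Booleanisation.lift y, _ => exact ⟨y, rfl⟩
    | Booleanisation.comp y, hx => exact absurd hx (marked_comp_not_CB hb1 hb2 y)
  have h2 : ∀ y : B, ∃ x : A, ψ (Booleanisation.lift x) = Booleanisation.lift y := by
    intro y
    have hy : CB o (ψ.symm (Booleanisation.lift y)) := by
      rw [hψ, ψ.apply_symm_apply]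
      exact (marked_CB_lift o y).2 (hb1 y)
    have hw : ψ (ψ.symm (Booleanisation.lift y)) = Booleanisation.lift y :=
      ψ.apply_symm_apply _
    generalize ψ.symm (Booleanisation.lift y) = w at hy hw
    match w, hy, hw with
    | Booleanisation.lift x, _, hw => exact ⟨x, hw⟩
    | Booleanisation.comp x, hy, _ => exact absurd hy (marked_comp_not_CB ha1 ha2 x)
  choose f hf using h1
  refine ⟨RelIso.ofSurjective (OrderEmbedding.ofMapLEIff f ?_) ?_⟩
  · intro x y
    rw [← Booleanisation.lift_le_lift, ← hf, ← hf, ψ.le_iff_le, Booleanisation.lift_le_lift]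
  · intro y
    obtain ⟨x, hx⟩ := h2 y
    refine ⟨x, ?_⟩
    have h3 : Booleanisation.lift (f x) = Booleanisation.lift y := by rw [← hf, hx]
    exact Sum.inl_injective h3

/-- the ideal below `a` -/
def marked_I {A : Type} [GeneralizedBooleanAlgebra A] (a : A) : SubG A where
  carrier := Iic a
  bot_mem := bot_le
  sup_mem := fun h h' => sup_le h h'
  sdiff_mem := fun h _ => sdiff_le.trans h

/-- the ideal disjoint from `a` -/
def marked_J {A : Type} [GeneralizedBooleanAlgebra A] (a : A) : SubG A where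
  carrier := {x | Disjoint x a}
  bot_mem := disjoint_bot_left
  sup_mem := fun h h' => Disjoint.sup_left h h'
  sdiff_mem := fun h _ => Disjoint.mono_left sdiff_le h

/-- initial segments of `marked_J a` -/
noncomputable def marked_JIso {A : Type} [GeneralizedBooleanAlgebra A] (a : A)
    (x : marked_J a) : Iic x ≃o Iic x.1 :=
  RelIso.ofSurjective
    (OrderEmbedding.ofMapLEIff
      (fun z : Iic x => (⟨z.1.1, z.2⟩ : Iic x.1))
      (fun z w => Iff.rfl))
    (by
      rintro ⟨z, hz⟩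
      have hz' : z ≤ x.1 := hz
      exact ⟨⟨⟨z, Disjoint.mono_left hz' x.2⟩, hz⟩, rfl⟩)

lemma marked_J_CB {A : Type} [GeneralizedBooleanAlgebra A] (a : A) (o : Ordinal.{0})
    (x : marked_J a) : CB o x ↔ CB o x.1 := CB_congr (marked_JIso a x) o

lemma marked_J_one {A : Type} [GeneralizedBooleanAlgebra A] {o : Ordinal.{0}} {a : A}
    (ha1 : ∀ x : A, CB o (x \ a)) (x : marked_J a) : CB o x := by
  rw [marked_J_CB]
  have h := ha1 x.1
  have hx : Disjoint x.1 a := x.2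
  rwa [hx.sdiff_eq_left] at h

lemma marked_J_two {A : Type} [GeneralizedBooleanAlgebra A] {o : Ordinal.{0}} {a : A}
    (ha2 : ∀ p < o, ∀ e : A, ∃ d : A, ¬ CB p (d \ e)) :
    ∀ p < o, ∀ e : marked_J a, ∃ d : marked_J a, ¬ CB p (d \ e) := by
  intro p hp e
  obtain ⟨d, hd⟩ := ha2 p hp (a ⊔ e.1)
  refine ⟨⟨d \ a, disjoint_sdiff_self_left⟩, ?_⟩
  rw [marked_J_CB]
  have h : (d \ a) \ e.1 = d \ (a ⊔ e.1) := sdiff_sdiff_left
  intro h'
  apply hd
  rw [← h]
  exact h'

/-- TARGET -/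
theorem marked {A B : Type} [GeneralizedBooleanAlgebra A] [GeneralizedBooleanAlgebra B]
    [Countable A] [Countable B] {o : Ordinal.{0}} {m : ℕ} {a : A} {b : B}
    (ha : Typ o m a) (hb : Typ o m b) (ha1 : ∀ x : A, CB o (x \ a)) (hb1 : ∀ y : B, CB o (y \ b))
    (ha2 : ∀ p < o, ∀ e : A, ∃ d : A, ¬ CB p (d \ e))
    (hb2 : ∀ p < o, ∀ e : B, ∃ d : B, ¬ CB p (d \ e)) : Nonempty (A ≃o B) := by
  obtain ⟨e1⟩ := classify (Set.to_countable _) (Set.to_countable _) ha hb
  haveI : Countable (marked_J a) := Subtype.countable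
  haveI : Countable (marked_J b) := Subtype.countable
  obtain ⟨e2⟩ := marked_core (marked_J_one ha1) (marked_J_one hb1)
    (marked_J_two (a := a) ha2) (marked_J_two (a := b) hb2)
  refine prod_iso (marked_I a) (marked_J a) (marked_I b) (marked_J b) ?_ ?_ ?_ ?_ e1 e2
  · intro x hx y hy
    exact Disjoint.mono_left hx (Disjoint.symm hy)
  · intro x hx y hy
    exact Disjoint.mono_left hx (Disjoint.symm hy)
  · intro x
    exact ⟨x ⊓ a, inf_le_right, x \ a, disjoint_sdiff_self_left, (sup_inf_sdiff x a).symm⟩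
  · intro x
    exact ⟨x ⊓ b, inf_le_right, x \ b, disjoint_sdiff_self_left, (sup_inf_sdiff x b).symm⟩
end

end Pool.Agent.Helper220.ISAP
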