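import Mathlib

set_option autoImplicit false
set_option linter.all false

namespace Pool.Agent.Helper220.ISAP

open Set

/-- a subring (closed under join and difference) of a generalized Boolean algebra -/
structure SubG (A : Type) [GeneralizedBooleanAlgebra A] where
  carrier : Set A
  bot_mem : ⊥ ∈ carrier
  sup_mem : ∀ {a b : A}, a ∈ carrier → b ∈ carrier → a ⊔ b ∈ carrier
  sdiff_mem : ∀ {a b : A}, a ∈ carrier → b ∈ carrier → a \ b ∈ carrier

instance {A : Type} [GeneralizedBooleanAlgebra A] : CoeSort (SubG A) Type :=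
  ⟨fun S => {a : A // a ∈ S.carrier}⟩

lemma SubG.inf_mem {A : Type} [GeneralizedBooleanAlgebra A] (S : SubG A) {a b : A}
    (ha : a ∈ S.carrier) (hb : b ∈ S.carrier) : a ⊓ b ∈ S.carrier := by
  have : a ⊓ b = a \ (a \ b) := by simp
  rw [this]; exact S.sdiff_mem ha (S.sdiff_mem ha hb)

section
variable {A : Type} [GeneralizedBooleanAlgebra A] (S : SubG A)

instance instMaxS : Max S := ⟨fun a b => ⟨a.1 ⊔ b.1, S.sup_mem a.2 b.2⟩⟩
instance instMinS : Min S := ⟨fun a b => ⟨a.1 ⊓ b.1, S.inf_mem a.2 b.2⟩⟩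
instance instBotS : Bot S := ⟨⟨⊥, S.bot_mem⟩⟩
instance instSDiffS : SDiff S := ⟨fun a b => ⟨a.1 \ b.1, S.sdiff_mem a.2 b.2⟩⟩

/-- a subring is a generalized Boolean algebra -/
instance instGBA : GeneralizedBooleanAlgebra S :=
  Function.Injective.generalizedBooleanAlgebra (fun a : S => a.1) Subtype.val_injective
    Iff.rfl Iff.rfl (fun _ _ => rfl) (fun _ _ => rfl) rfl (fun _ _ => rfl)

@[simp] lemma SubG.coe_sup (a b : S) : (a ⊔ b).1 = a.1 ⊔ b.1 := rfl
@[simp] lemma SubG.coe_inf (a b : S) : (a ⊓ b).1 = a.1 ⊓ b.1 := rfl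
@[simp] lemma SubG.coe_bot : (⊥ : S).1 = ⊥ := rfl
@[simp] lemma SubG.coe_sdiff (a b : S) : (a \ b).1 = a.1 \ b.1 := rfl
@[simp] lemma SubG.coe_symmDiff (a b : S) : (symmDiff a b).1 = symmDiff a.1 b.1 := rfl
@[simp] lemma SubG.coe_le (a b : S) : a.1 ≤ b.1 ↔ a ≤ b := Iff.rfl
end

/-- homomorphisms of generalized Boolean algebras -/
structure IsHom {A B : Type} [GeneralizedBooleanAlgebra A] [GeneralizedBooleanAlgebra B]
    (f : A → B) : Prop where
  sup : ∀ a b, f (a ⊔ b) = f a ⊔ f b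
  sdiff : ∀ a b, f (a \ b) = f a \ f b

namespace IsHom
variable {A B : Type} [GeneralizedBooleanAlgebra A] [GeneralizedBooleanAlgebra B] {f : A → B}

lemma bot (hf : IsHom f) : f ⊥ = ⊥ := by
  have := hf.sdiff ⊥ ⊥
  simpa using this

lemma inf (hf : IsHom f) (a b : A) : f (a ⊓ b) = f a ⊓ f b := by
  have h : a ⊓ b = a \ (a \ b) := by simp
  rw [h, hf.sdiff, hf.sdiff]; simp

lemma mono (hf : IsHom f) {a b : A} (h : a ≤ b) : f a ≤ f b := by
  have := hf.sup a b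
  rw [sup_eq_right.2 h] at this
  rw [this]; exact le_sup_left

lemma symm (hf : IsHom f) (a b : A) : f (symmDiff a b) = symmDiff (f a) (f b) := by
  simp only [symmDiff, hf.sup, hf.sdiff]

end IsHom

/-- the Cantor–Bendixson ideals: `x ∈ I_o` iff `x = ⊥` or `(A|x)/I_p` is finite for some `p < o` -/
def CB {A : Type} [GeneralizedBooleanAlgebra A] (o : Ordinal.{0}) (x : A) : Prop :=
  x = ⊥ ∨ ∃ p : Set.Iio o, ∃ F : Set A, F.Finite ∧ ∀ y ≤ x, ∃ z ∈ F, CB p.1 (symmDiff y z)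
termination_by o
decreasing_by exact p.2

/-- atoms of rank `o` -/
def CAtom {A : Type} [GeneralizedBooleanAlgebra A] (o : Ordinal.{0}) (x : A) : Prop :=
  ¬ CB o x ∧ ∀ y ≤ x, CB o y ∨ CB o (x \ y)

/-- `x` is a disjoint join of `k` atoms of rank `o` -/
def Typ {A : Type} [GeneralizedBooleanAlgebra A] (o : Ordinal.{0}) : ℕ → A → Prop
  | 0, x => x = ⊥
  | k + 1, x => ∃ y ≤ x, CAtom o y ∧ Typ o k (x \ y)

section
variable {A : Type} [GeneralizedBooleanAlgebra A] {o p : Ordinal.{0}} {x y : A}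

lemma CB_iff : CB o x ↔ x = ⊥ ∨ ∃ p < o, ∃ F : Set A, F.Finite ∧ ∀ y ≤ x, ∃ z ∈ F,
    CB p (symmDiff y z) := by
  rw [CB]
  constructor
  · rintro (h | ⟨p, h⟩)
    · exact Or.inl h
    · exact Or.inr ⟨p.1, p.2, h⟩
  · rintro (h | ⟨p, hp, h⟩)
    · exact Or.inl h
    · exact Or.inr ⟨⟨p, hp⟩, h⟩

lemma CB_bot (o : Ordinal.{0}) : CB o (⊥ : A) := by rw [CB_iff]; exact Or.inl rfl

lemma CB_mono {o' : Ordinal.{0}} (h : o ≤ o') (hx : CB o x) : CB o' x := by
  rw [CB_iff] at hx ⊢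
  rcases hx with hx | ⟨p, hp, h'⟩
  · exact Or.inl hx
  · exact Or.inr ⟨p, hp.trans_le h, h'⟩

lemma CB_le (h : x ≤ y) (hy : CB o y) : CB o x := by
  rw [CB_iff] at hy ⊢
  rcases hy with hy | ⟨p, hp, F, hF, h'⟩
  · left; rw [hy] at h; exact le_bot_iff.1 h
  · exact Or.inr ⟨p, hp, F, hF, fun z hz => h' z (hz.trans h)⟩

lemma CB_zero : CB 0 x ↔ x = ⊥ := by
  rw [CB_iff]
  constructor
  · rintro (h | ⟨p, hp, _⟩)
    · exact h
    · exact absurd hp not_lt_zero'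
  · exact Or.inl

lemma symm_tri (a b c : A) : symmDiff a c ≤ symmDiff a b ⊔ symmDiff b c := symmDiff_triangle a b c

lemma CB_sup (hx : CB o x) (hy : CB o y) : CB o (x ⊔ y) := by
  revert x y
  induction o using WellFoundedLT.induction with
  | ind o ih =>
    intro x y hx hy
    rcases eq_or_ne x ⊥ with rfl | hx0
    · simpa using hy
    rcases eq_or_ne y ⊥ with rfl | hy0
    · simpa using hx
    rw [CB_iff] at hx hy ⊢
    obtain hx | ⟨p, hp, F, hF, hx⟩ := hx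
    · exact absurd hx hx0
    obtain hy | ⟨q, hq, G, hG, hy⟩ := hy
    · exact absurd hy hy0
    right
    refine ⟨max p q, max_lt hp hq, Set.image2 (· ⊔ ·) F G, hF.image2 _ hG, ?_⟩
    intro w hw
    obtain ⟨z, hz, h1⟩ := hx (w ⊓ x) inf_le_right
    obtain ⟨z', hz', h2⟩ := hy (w ⊓ y) inf_le_right
    refine ⟨z ⊔ z', ⟨z, hz, z', hz', rfl⟩, ?_⟩
    have hw' : w = (w ⊓ x) ⊔ (w ⊓ y) := by rw [← inf_sup_left]; exact (inf_eq_left.2 hw).symm
    refine CB_le ?_ (ih _ (max_lt hp hq) (CB_mono (le_max_left p q) h1)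
      (CB_mono (le_max_right p q) h2))
    have key : ∀ a b c d : A, symmDiff (a ⊔ b) (c ⊔ d) ≤ symmDiff a c ⊔ symmDiff b d := by
      intro a b c d
      simp only [symmDiff]
      rw [sup_sdiff, sup_sdiff]
      refine sup_le (sup_le ?_ ?_) (sup_le ?_ ?_)
      · exact (sdiff_le_sdiff_left le_sup_left).trans (le_sup_left.trans le_sup_left)
      · exact (sdiff_le_sdiff_left le_sup_right).trans (le_sup_left.trans le_sup_right)
      · exact (sdiff_le_sdiff_left le_sup_left).trans (le_sup_right.trans le_sup_left)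
      · exact (sdiff_le_sdiff_left le_sup_right).trans (le_sup_right.trans le_sup_right)
    calc symmDiff w (z ⊔ z') = symmDiff ((w ⊓ x) ⊔ (w ⊓ y)) (z ⊔ z') := by rw [← hw']
      _ ≤ _ := key _ _ _ _

lemma CB_inf_left (h : CB o x) : CB o (x ⊓ y) := CB_le inf_le_left h
lemma CB_sdiff (h : CB o x) : CB o (x \ y) := CB_le sdiff_le h

lemma CB_succ : CB (o + 1) x ↔ ∃ F : Set A, F.Finite ∧ ∀ y ≤ x, ∃ z ∈ F, CB o (symmDiff y z) := by
  rw [CB_iff]
  constructor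
  · rintro (rfl | ⟨p, hp, F, hF, h⟩)
    · refine ⟨{⊥}, finite_singleton _, fun y hy => ⟨⊥, rfl, ?_⟩⟩
      rw [le_bot_iff.1 hy]; simpa using CB_bot o
    · have hp' : p ≤ o := Order.lt_add_one_iff.1 hp
      refine ⟨F, hF, fun y hy => ?_⟩
      obtain ⟨z, hz, h'⟩ := h y hy
      exact ⟨z, hz, CB_mono hp' h'⟩
  · intro h
    exact Or.inr ⟨o, by simp, h⟩

lemma CB_lim (h : CB o x) (hx : x ≠ ⊥) : ∃ p < o, CB (p + 1) x := by
  rw [CB_iff] at h
  obtain h | ⟨p, hp, h⟩ := h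
  · exact absurd h hx
  · exact ⟨p, hp, CB_succ.2 h⟩

end

end Pool.Agent.Helper220.ISAP
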