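import Pool.Agent.Helper220.ISAP.TopoDefs

set_option autoImplicit false
set_option linter.all false

namespace Pool.Agent.Helper220.ISAP

open Set TopologicalSpace

/-- the ring of clopen sets which do not contain the point at infinity -/
def RR (s : Sys) : SubG (Clopens (XX s)) where
  carrier := {U | inf s ∉ U}
  bot_mem := by
    show inf s ∉ ((⊥ : Clopens (XX s)) : Set (XX s))
    simp
  sup_mem := by
    intro a b ha hb
    show inf s ∉ ((a ⊔ b : Clopens (XX s)) : Set (XX s))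
    rw [Clopens.coe_sup]
    rintro (h | h)
    · exact ha h
    · exact hb h
  sdiff_mem := by
    intro a b ha hb
    show inf s ∉ ((a \ b : Clopens (XX s)) : Set (XX s))
    rw [Clopens.coe_sdiff]
    rintro ⟨h, _⟩
    exact ha h

/-- the unlabelled points of level `< η` together with finitely many basic sets of level `η` -/
def QQ (s : Sys) (η : Om) (Bd : Finset ℕ) : Set (XX s) :=
  DD s η ∪ {x | ∃ k ∈ Bd, x ∈ CC s (η, k)}

/-- the elements of `A` disjoint from `Q` -/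
def cutT {s : Sys} (A : SubG (Clopens (XX s))) (Q : Set (XX s)) : SubG (Clopens (XX s)) where
  carrier := {a | a ∈ A.carrier ∧ Disjoint (a : Set (XX s)) Q}
  bot_mem := ⟨A.bot_mem, by simp⟩
  sup_mem := by
    rintro a b ⟨ha, ha'⟩ ⟨hb, hb'⟩
    refine ⟨A.sup_mem ha hb, ?_⟩
    rw [Clopens.coe_sup]
    exact Disjoint.union_left ha' hb'
  sdiff_mem := by
    rintro a b ⟨ha, ha'⟩ ⟨hb, hb'⟩
    refine ⟨A.sdiff_mem ha hb, ?_⟩
    rw [Clopens.coe_sdiff]
    exact ha'.mono_left diff_subset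

/-- the elements of `A` contained in `Q` -/
def cutQ {s : Sys} (A : SubG (Clopens (XX s))) (Q : Set (XX s)) : SubG (Clopens (XX s)) where
  carrier := {a | a ∈ A.carrier ∧ (a : Set (XX s)) ⊆ Q}
  bot_mem := ⟨A.bot_mem, by simp⟩
  sup_mem := by
    rintro a b ⟨ha, ha'⟩ ⟨hb, hb'⟩
    refine ⟨A.sup_mem ha hb, ?_⟩
    rw [Clopens.coe_sup]
    exact union_subset ha' hb'
  sdiff_mem := by
    rintro a b ⟨ha, ha'⟩ ⟨hb, hb'⟩
    refine ⟨A.sdiff_mem ha hb, ?_⟩
    rw [Clopens.coe_sdiff]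
    exact diff_subset.trans ha'

/-- the image of a subring under a homomorphism -/
def mapG {A B : Type} [GeneralizedBooleanAlgebra A] [GeneralizedBooleanAlgebra B] (f : A → B)
    (hf : IsHom f) (S : SubG A) : SubG B where
  carrier := f '' S.carrier
  bot_mem := ⟨⊥, S.bot_mem, hf.bot⟩
  sup_mem := by
    rintro _ _ ⟨a, ha, rfl⟩ ⟨b, hb, rfl⟩
    exact ⟨a ⊔ b, S.sup_mem ha hb, hf.sup a b⟩
  sdiff_mem := by
    rintro _ _ ⟨a, ha, rfl⟩ ⟨b, hb, rfl⟩
    exact ⟨a \ b, S.sdiff_mem ha hb, hf.sdiff a b⟩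

lemma mem_RR {s : Sys} {U : Clopens (XX s)} : U ∈ (RR s).carrier ↔ inf s ∉ U := Iff.rfl

end Pool.Agent.Helper220.ISAP
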