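import Pool.Agent.Helper220.ISAP.Topo
import Pool.Agent.Helper220.ISAP.FinDefs

set_option autoImplicit false
set_option linter.all false

namespace Pool.Agent.Helper220.ISAP

open Set TopologicalSpace

section
/-- TARGET -/
theorem exists_H (β : Om) : ∃ H : Om → Om, ∀ η : Om, Lim η → (∀ ξ < η, H ξ < η) →
    β < η ∧ rk β + rk η = rk η := by
  have hsum : ∀ ξ : Om, rk β + rk ξ < Ordinal.omega 1 := by
    intro ξ
    have h1 := rk_lt β
    have h2 := rk_lt ξ
    rw [← Cardinal.ord_aleph, Cardinal.lt_ord] at h1 h2 ⊢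
    rw [Ordinal.card_add]
    exact Cardinal.add_lt_of_lt (Cardinal.aleph0_le_aleph 1) h1 h2
  choose H hH using fun ξ : Om => exists_rk (hsum ξ)
  refine ⟨H, fun η hη hcl => ?_⟩
  have hβη : β < η := by
    obtain ⟨ξ, hξ⟩ := hη.1
    have h1 := rk_lt_iff.2 (hcl ξ hξ)
    rw [hH] at h1
    refine rk_lt_iff.1 (lt_of_le_of_lt ?_ h1)
    calc rk β = rk β + 0 := (add_zero _).symm
      _ ≤ rk β + rk ξ := by gcongr; exact bot_le
  refine ⟨hβη, ?_⟩
  have h1 : rk β + (rk η - rk β) = rk η := Ordinal.add_sub_cancel_of_le (rk_lt_iff.2 hβη).le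
  have h2 : rk η - rk β ≤ rk η := Ordinal.sub_le_self _ _
  rcases h2.lt_or_eq with h3 | h3
  · obtain ⟨ξ, hξ, he⟩ := exists_rk_of_lt h3
    have h4 := rk_lt_iff.2 (hcl ξ hξ)
    rw [hH, he, h1] at h4
    exact absurd h4 (lt_irrefl _)
  · rw [h3] at h1
    exact h1
end

section
/-- TARGET -/
theorem clopen_Q {s : Sys} (hA : ∀ η, AX s η) {U : Set (XX s)} (hU : IsClopen U) (h0 : inf s ∉ U)
    (η : Om) (Bd : Finset ℕ) : IsClopen (U ∩ QQ s η Bd) := by
  have h1 : U ∩ QQ s η Bd = (U ∩ DD s η) ∪ (U ∩ ⋃ k ∈ Bd, CC s (η, k)) := by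
    unfold QQ
    rw [Set.inter_union_distrib_left]
    congr 2
    ext x
    simp
  rw [h1]
  refine (clopen_D hA hU h0 η).union (hU.inter ?_)
  exact Bd.finite_toSet.isClopen_biUnion fun k _ => isClopen_CC s (η, k)
end

section
/-- TARGET -/
theorem split_RR {s : Sys} (hA : ∀ η, AX s η) (η : Om) (Bd : Finset ℕ) (a : Clopens (XX s))
    (ha : a ∈ (RR s).carrier) : ∃ b ∈ (cutT (RR s) (QQ s η Bd)).carrier,
      ∃ c ∈ (cutQ (RR s) (QQ s η Bd)).carrier, a = b ⊔ c := by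
  have h0 : inf s ∉ (a : Set (XX s)) := ha
  let c : Clopens (XX s) := ⟨(a : Set (XX s)) ∩ QQ s η Bd, clopen_Q hA a.isClopen h0 η Bd⟩
  have hc : (c : Set (XX s)) = (a : Set (XX s)) ∩ QQ s η Bd := rfl
  refine ⟨a \ c, ⟨?_, ?_⟩, c, ⟨?_, ?_⟩, ?_⟩
  · show inf s ∉ ((a \ c : Clopens (XX s)) : Set (XX s))
    rw [Clopens.coe_sdiff]
    exact fun h => h0 h.1
  · rw [Clopens.coe_sdiff, hc]
    rw [Set.disjoint_left]
    rintro x ⟨hx, hx'⟩ hx2
    exact hx' ⟨hx, hx2⟩
  · show inf s ∉ (c : Set (XX s))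
    rw [hc]
    exact fun h => h0 h.1
  · rw [hc]
    exact inter_subset_right
  · apply SetLike.coe_injective
    rw [Clopens.coe_sup, Clopens.coe_sdiff, hc]
    ext x
    constructor
    · intro hx
      by_cases hq : x ∈ QQ s η Bd
      · exact Or.inr ⟨hx, hq⟩
      · exact Or.inl ⟨hx, fun h => hq h.2⟩
    · rintro (h | h)
      · exact h.1
      · exact h.1
end

section
/-- TARGET -/
theorem split_Q {s : Sys} (hA : ∀ η, AX s η) (A : SubG (Clopens (XX s)))
    (hinf : ∀ a ∈ A.carrier, inf s ∉ a) {β η : Om} (hβ : β < η)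
    (h2 : ∀ y z : Y, β ≤ y.1 → y ≠ z → ∃ a ∈ A.carrier, ¬ (pt s y ∈ a ↔ pt s z ∈ a))
    (Bd : Finset ℕ) (hBd : ∀ k ∉ Bd, ∃ a ∈ A.carrier, (a : Set (XX s)) = CC s (η, k))
    (a : Clopens (XX s)) (ha : a ∈ A.carrier) : ∃ b ∈ (cutT A (QQ s η Bd)).carrier,
      ∃ c ∈ (cutQ A (QQ s η Bd)).carrier, a = b ⊔ c := by
  have hcl : IsClopen ((a : Set (XX s)) \ QQ s η Bd) := by
    have h := a.isClopen.diff (clopen_Q hA a.isClopen (hinf a ha) η Bd)
    rwa [diff_self_inter] at h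
  let b : Clopens (XX s) := ⟨(a : Set (XX s)) \ QQ s η Bd, hcl⟩
  have hbmem : ∀ x : XX s, x ∈ b ↔ x ∈ a ∧ x ∉ QQ s η Bd := fun x => Iff.rfl
  have hba : b ≤ a := fun x hx => hx.1
  have hbA : b ∈ A.carrier := by
    apply saturated_mem hA A hinf b
    · intro h
      exact hinf a ha ((hbmem _).1 h).1
    · intro y hy
      exact ⟨a, ha, ((hbmem _).1 hy).1⟩
    · intro y z hy hz
      rw [hbmem] at hy
      by_cases hza : pt s z ∈ a
      · have hzQ : pt s z ∈ QQ s η Bd := by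
          by_contra hc
          exact hz ((hbmem _).2 ⟨hza, hc⟩)
        by_cases hyβ : β ≤ y.1
        · apply h2 y z hyβ
          rintro rfl
          exact hy.2 hzQ
        · push Not at hyβ
          have hyη : y.1 < η := hyβ.trans hβ
          obtain ⟨k, hk⟩ : ∃ k, s η y = some k := by
            rcases hs : s η y with _ | k
            · exact absurd (Or.inl ⟨y, rfl, hyη, hs⟩) hy.2
            · exact ⟨k, rfl⟩
          have hyC : pt s y ∈ CC s (η, k) := mem_CC.2 (Or.inr ⟨hyη, hk⟩)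
          have hkB : k ∉ Bd := fun h => hy.2 (Or.inr ⟨k, h, hyC⟩)
          obtain ⟨a', ha', hae⟩ := hBd k hkB
          refine ⟨a', ha', ?_⟩
          have hya : pt s y ∈ a' := by
            show pt s y ∈ (a' : Set (XX s))
            rw [hae]
            exact hyC
          intro hiff
          have hza' : pt s z ∈ (a' : Set (XX s)) := hiff.1 hya
          rw [hae, mem_CC] at hza'
          rcases hzQ with ⟨z', hz', hz1, hz2⟩ | ⟨j, hj, hzj⟩
          · rw [pt_inj] at hz'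
            subst hz'
            rcases hza' with h | h
            · rw [h] at hz1
              exact lt_irrefl _ hz1
            · rw [hz2] at h
              exact absurd h.2 (by simp)
          · rw [mem_CC] at hzj
            rcases hzj with hzj | hzj
            · rw [hzj] at hza'
              rcases hza' with h | h
              · rw [Prod.mk.injEq] at h
                exact hkB (h.2 ▸ hj)
              · exact lt_irrefl _ h.1
            · rcases hza' with h | h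
              · rw [h] at hzj
                exact lt_irrefl _ hzj.1
              · have h3 := hzj.2.symm.trans h.2
                rw [Option.some.injEq] at h3
                have h4 : j = k := h3
                exact hkB (h4 ▸ hj)
      · exact ⟨a, ha, fun hiff => hza (hiff.1 hy.1)⟩
  refine ⟨b, ⟨hbA, ?_⟩, a \ b, ⟨A.sdiff_mem ha hbA, ?_⟩, ?_⟩
  · rw [Set.disjoint_left]
    intro x hx hxQ
    exact hx.2 hxQ
  · rw [Clopens.coe_sdiff]
    rintro x ⟨hxa, hxb⟩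
    by_contra hc
    exact hxb ⟨hxa, hc⟩
  · exact (sup_sdiff_cancel_right hba).symm
end

section
/-- TARGET -/
theorem det_T {s : Sys} (hA : ∀ η, AX s η) (hN : ∀ η, N1 s η) (η : Om) (Bd : Finset ℕ)
    (a b : Clopens (XX s)) (ha : a ∈ (cutT (RR s) (QQ s η Bd)).carrier)
    (hb : b ∈ (cutT (RR s) (QQ s η Bd)).carrier)
    (h : ∀ k ∉ Bd, (a : Set (XX s)) ∩ CC s (η, k) = (b : Set (XX s)) ∩ CC s (η, k)) : a = b := by
  classical
  by_contra hne
  set D : Set (XX s) := ((a : Set (XX s)) \ (b : Set (XX s))) ∪ ((b : Set (XX s)) \ (a : Set (XX s)))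
    with hDdef
  have hD : ∃ x : XX s, x ∈ D := by
    by_contra hcon
    push Not at hcon
    apply hne
    apply Clopens.ext
    ext x
    have hx := hcon x
    constructor
    · intro h1
      by_contra h2
      exact hx (Or.inl ⟨h1, h2⟩)
    · intro h1
      by_contra h2
      exact hx (Or.inr ⟨h1, h2⟩)
  have hopen : IsOpen D := by
    have h1 : IsOpen ((a : Set (XX s)) \ (b : Set (XX s))) := (a.isClopen.diff b.isClopen).isOpen
    have h2 : IsOpen ((b : Set (XX s)) \ (a : Set (XX s))) := (b.isClopen.diff a.isClopen).isOpen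
    exact h1.union h2
  have hQ : ∀ x ∈ D, x ∉ QQ s η Bd := by
    rintro x (⟨hx, -⟩ | ⟨hx, -⟩) hq
    · exact (Set.disjoint_left.1 ha.2) hx hq
    · exact (Set.disjoint_left.1 hb.2) hx hq
  have hC : ∀ x ∈ D, ∀ k, x ∉ CC s (η, k) := by
    intro x hx k hk
    by_cases hkB : k ∈ Bd
    · exact hQ x hx (Or.inr ⟨k, hkB, hk⟩)
    · have hh := h k hkB
      rcases hx with ⟨h1, h2⟩ | ⟨h1, h2⟩
      · have : x ∈ (b : Set (XX s)) ∩ CC s (η, k) := hh ▸ ⟨h1, hk⟩
        exact h2 this.1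
      · have : x ∈ (a : Set (XX s)) ∩ CC s (η, k) := hh.symm ▸ ⟨h1, hk⟩
        exact h2 this.1
  obtain ⟨x, hx⟩ := hD
  have hinf : x ≠ inf s := by
    rintro rfl
    rcases hx with ⟨h1, -⟩ | ⟨h1, -⟩
    · exact (mem_RR.1 ha.1) h1
    · exact (mem_RR.1 hb.1) h1
  rcases XX_cases x with h0 | ⟨y, rfl⟩
  · exact hinf h0
  by_cases hy : η ≤ y.1
  · obtain ⟨y', hy', hy1⟩ := exists_lev hA hN hopen hx hy
    have : y' = (η, y'.2) := by rw [← hy1]
    have h3 := self_mem_CC s y'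
    rw [this] at h3
    exact hC _ hy' y'.2 (by rw [this]; exact h3)
  · have hy2 : y.1 < η := not_le.1 hy
    rcases hs : s η y with _ | k
    · exact hQ _ hx (Or.inl ⟨y, rfl, hy2, hs⟩)
    · exact hC _ hx k (mem_CC.2 (Or.inr ⟨hy2, hs⟩))
end

section
theorem typ_bad_isClopen_CC (s : Sys) (p : Y) : IsClopen (CC s p) := by
  constructor
  · rw [← isOpen_compl_iff]
    exact TopologicalSpace.isOpen_generateFrom_of_mem ⟨p, Or.inr rfl⟩
  · exact TopologicalSpace.isOpen_generateFrom_of_mem ⟨p, Or.inl rfl⟩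

theorem typ_bad_disj (s : Sys) (η : Om) {k k' : ℕ} (hk : k ≠ k') {x : XX s}
    (h : x ∈ CC s (η, k)) (h' : x ∈ CC s (η, k')) : False := by
  rcases XX_cases x with rfl | ⟨y, rfl⟩
  · exact inf_notMem_CC h
  · rcases mem_CC.1 h with h | h
    · rcases mem_CC.1 h' with h' | h'
      · rw [h] at h'
        exact hk (Prod.mk.inj h').2
      · rw [h] at h'
        exact lt_irrefl _ h'.1
    · rcases mem_CC.1 h' with h' | h'
      · rw [h'] at h
        exact lt_irrefl _ h.1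
      · have := h.2.symm.trans h'.2
        exact hk (Option.some.inj this)

/-- TARGET -/
theorem typ_bad {s : Sys} (hA : ∀ η, AX s η) (hN : ∀ η, N1 s η) (I : SubG (Clopens (XX s)))
    (hI : ∀ U ∈ I.carrier, inf s ∉ U)
    (hd : ∀ U ∈ I.carrier, ∀ V : Clopens (XX s), V ≤ U → V ∈ I.carrier) (η : Om)
    (Bd : Finset ℕ) (W : I) (hW : (W.1 : Set (XX s)) = {x | ∃ k ∈ Bd, x ∈ CC s (η, k)}) :
    Typ (rk η) Bd.card W := by
  classical
  induction Bd using Finset.induction_on generalizing W with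
  | empty =>
    show W = ⊥
    apply Subtype.ext
    apply SetLike.coe_injective
    rw [hW]
    show {x | ∃ k ∈ (∅ : Finset ℕ), x ∈ CC s (η, k)} = ((⊥ : Clopens (XX s)) : Set (XX s))
    simp
  | insert k Bd hk ih =>
    have hle : (⟨CC s (η, k), typ_bad_isClopen_CC s (η, k)⟩ : Clopens (XX s)) ≤ W.1 := by
      intro x hx
      show x ∈ (W.1 : Set (XX s))
      rw [hW]
      exact ⟨k, Finset.mem_insert_self _ _, hx⟩
    let W1 : I := ⟨⟨CC s (η, k), typ_bad_isClopen_CC s (η, k)⟩, hd W.1 W.2 _ hle⟩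
    have hW1 : (W1.1 : Set (XX s)) = CC s (η, k) := rfl
    have h2 : (((W \ W1 : I)).1 : Set (XX s)) = {x | ∃ k ∈ Bd, x ∈ CC s (η, k)} := by
      rw [SubG.coe_sdiff, Clopens.coe_sdiff, hW, hW1]
      ext x
      constructor
      · rintro ⟨⟨k', hk', hx⟩, hx2⟩
        rcases Finset.mem_insert.1 hk' with rfl | hk'
        · exact absurd hx hx2
        · exact ⟨k', hk', hx⟩
      · rintro ⟨k', hk', hx⟩
        refine ⟨⟨k', Finset.mem_insert_of_mem hk', hx⟩, fun hx2 => ?_⟩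
        exact typ_bad_disj s η (by rintro rfl; exact hk hk') hx2 hx
    have h3 : Typ (rk η) Bd.card (W \ W1) := ih _ h2
    have h4 : Typ (rk η) 1 W1 := by
      refine ⟨W1, le_rfl, catom_CC hA hN I hI hd (η, k) W1 hW1, ?_⟩
      show W1 \ W1 = ⊥
      exact sdiff_self
    have h5 := Typ_add h3 h4 disjoint_sdiff_self_left
    have h6 : (W \ W1) ⊔ W1 = W := sdiff_sup_cancel hle
    rw [h6] at h5
    rw [Finset.card_insert_of_notMem hk]
    exact h5
end

section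
/-- the nested subring -/
def prod_iso_amb_nest {A : Type} [GeneralizedBooleanAlgebra A] (R I : SubG A) : SubG R where
  carrier := {x : R | x.1 ∈ I.carrier}
  bot_mem := I.bot_mem
  sup_mem := fun ha hb => I.sup_mem ha hb
  sdiff_mem := fun ha hb => I.sdiff_mem ha hb

/-- the nested subring is the subring -/
def prod_iso_amb_equiv {A : Type} [GeneralizedBooleanAlgebra A] (R I : SubG A)
    (hI : ∀ x ∈ I.carrier, x ∈ R.carrier) : (prod_iso_amb_nest R I) ≃o I where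
  toFun := fun x => ⟨x.1.1, x.2⟩
  invFun := fun y => ⟨⟨y.1, hI y.1 y.2⟩, y.2⟩
  left_inv := fun _ => rfl
  right_inv := fun _ => rfl
  map_rel_iff' := Iff.rfl

/-- TARGET -/
theorem prod_iso_amb {A B : Type} [GeneralizedBooleanAlgebra A] [GeneralizedBooleanAlgebra B]
    (R I J : SubG A) (R' I' J' : SubG B)
    (hI : ∀ x ∈ I.carrier, x ∈ R.carrier) (hJ : ∀ x ∈ J.carrier, x ∈ R.carrier)
    (hI' : ∀ x ∈ I'.carrier, x ∈ R'.carrier) (hJ' : ∀ x ∈ J'.carrier, x ∈ R'.carrier)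
    (hIJ : ∀ x ∈ I.carrier, ∀ y ∈ J.carrier, Disjoint x y)
    (hIJ' : ∀ x ∈ I'.carrier, ∀ y ∈ J'.carrier, Disjoint x y)
    (hs : ∀ a ∈ R.carrier, ∃ x ∈ I.carrier, ∃ y ∈ J.carrier, a = x ⊔ y)
    (hs' : ∀ a ∈ R'.carrier, ∃ x ∈ I'.carrier, ∃ y ∈ J'.carrier, a = x ⊔ y)
    (e1 : I ≃o I') (e2 : J ≃o J') : Nonempty (R ≃o R') := by
  refine prod_iso (A := R) (B := R') (prod_iso_amb_nest R I) (prod_iso_amb_nest R J)
    (prod_iso_amb_nest R' I') (prod_iso_amb_nest R' J') ?_ ?_ ?_ ?_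
    (((prod_iso_amb_equiv R I hI).trans e1).trans (prod_iso_amb_equiv R' I' hI').symm)
    (((prod_iso_amb_equiv R J hJ).trans e2).trans (prod_iso_amb_equiv R' J' hJ').symm)
  · intro x hx y hy
    have h : Disjoint x.1 y.1 := hIJ x.1 hx y.1 hy
    rw [disjoint_iff] at h ⊢
    exact Subtype.ext h
  · intro x hx y hy
    have h : Disjoint x.1 y.1 := hIJ' x.1 hx y.1 hy
    rw [disjoint_iff] at h ⊢
    exact Subtype.ext h
  · intro a
    obtain ⟨x, hx, y, hy, h⟩ := hs a.1 a.2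
    exact ⟨⟨x, hI x hx⟩, hx, ⟨y, hJ y hy⟩, hy, Subtype.ext h⟩
  · intro a
    obtain ⟨x, hx, y, hy, h⟩ := hs' a.1 a.2
    exact ⟨⟨x, hI' x hx⟩, hx, ⟨y, hJ' y hy⟩, hy, Subtype.ext h⟩
end

section
lemma iso_T_disj {s : Sys} {I : SubG (Clopens (XX s))} (a b : I) :
    Disjoint a b ↔ Disjoint (a.1 : Set (XX s)) (b.1 : Set (XX s)) := by
  rw [disjoint_iff, Set.disjoint_iff_inter_eq_empty]
  constructor
  · intro h
    have h1 : (a ⊓ b).1 = (⊥ : Clopens (XX s)) := by rw [h]; rfl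
    rw [SubG.coe_inf] at h1
    have h2 : ((a.1 ⊓ b.1 : Clopens (XX s)) : Set (XX s)) = ∅ := by rw [h1]; rfl
    rw [← h2]; rfl
  · intro h
    apply Subtype.ext
    rw [SubG.coe_inf]
    apply SetLike.coe_injective
    show (a.1 : Set (XX s)) ∩ (b.1 : Set (XX s)) = ∅
    exact h

lemma iso_T_le {s : Sys} {I : SubG (Clopens (XX s))} (a b : I) :
    a ≤ b ↔ (a.1 : Set (XX s)) ⊆ (b.1 : Set (XX s)) := Iff.rfl

lemma iso_T_uniq {s : Sys} {η : Om} {k k' : ℕ} {x : XX s} (h : x ∈ CC s (η, k))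
    (h' : x ∈ CC s (η, k')) : k = k' := by
  rcases XX_cases x with rfl | ⟨y, rfl⟩
  · exact absurd h inf_notMem_CC
  · rcases mem_CC.1 h with h | h
    · rcases mem_CC.1 h' with h' | h'
      · rw [h] at h'
        exact (Prod.ext_iff.1 h').2
      · rw [h] at h'
        exact absurd h'.1 (lt_irrefl _)
    · rcases mem_CC.1 h' with h' | h'
      · rw [h'] at h
        exact absurd h.1 (lt_irrefl _)
      · have h3 := h.2.symm.trans h'.2
        exact Option.some.inj h3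

lemma iso_T_disjQ {s : Sys} {η : Om} {Bd : Finset ℕ} {k : ℕ} (hk : k ∉ Bd) :
    Disjoint (CC s (η, k)) (QQ s η Bd) := by
  rw [Set.disjoint_left]
  intro x hx hx'
  rcases hx' with ⟨y, rfl, hy, hn⟩ | ⟨k', hk', hx'⟩
  · rcases mem_CC.1 hx with h | h
    · rw [h] at hy
      exact absurd hy (lt_irrefl _)
    · have h2 : s η y = some k := h.2
      rw [hn] at h2
      exact absurd h2 (by simp)
  · exact hk (iso_T_uniq hx hx' ▸ hk')

/-- a point of level `< η` not in `Q` has a label not in `Bd` -/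
lemma iso_T_label {s : Sys} {η : Om} {Bd : Finset ℕ} {y : Y} (hy : y.1 < η)
    (hQ : pt s y ∉ QQ s η Bd) : ∃ k, k ∉ Bd ∧ pt s y ∈ CC s (η, k) := by
  cases hl : s η y with
  | none => exact absurd (Or.inl ⟨y, rfl, hy, hl⟩) hQ
  | some k =>
    have hm : pt s y ∈ CC s (η, k) := mem_CC.2 (Or.inr ⟨hy, hl⟩)
    exact ⟨k, fun hk => hQ (Or.inr ⟨k, hk, hm⟩), hm⟩

lemma iso_T_countable {s : Sys} (hA : ∀ η, AX s η) {I : SubG (Clopens (XX s))}
    (hI : ∀ U ∈ I.carrier, inf s ∉ U) (η : Om) (k : ℕ) (U : I)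
    (hU : (U.1 : Set (XX s)) = CC s (η, k)) : (Iic U).Countable := by
  obtain ⟨γ, hγ⟩ := exists_gt' η
  have h1 := countable_lt hA γ
  refine Set.MapsTo.countable_of_injOn (f := fun V : I => V.1) (t := _) ?_
    (Subtype.val_injective.injOn) h1
  intro V hV
  refine ⟨hI _ V.2, fun y hy => ?_⟩
  have h2 : (V.1 : Set (XX s)) ⊆ CC s (η, k) := by
    rw [← hU]; exact hV
  exact lt_of_le_of_lt (lev_le_of_mem_CC (h2 hy)) hγ

lemma iso_T_typ {s : Sys} {I : SubG (Clopens (XX s))} {o : Ordinal.{0}} {U : I}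
    (h : CAtom o U) : Typ o 1 U :=
  ⟨U, le_refl _, h, sdiff_self⟩

/-- TARGET -/
theorem iso_T {s : Sys} (hA : ∀ η, AX s η) (hN : ∀ η, N1 s η) (A : SubG (Clopens (XX s)))
    (hinf : ∀ a ∈ A.carrier, inf s ∉ a) {β η : Om} (hβ : β < η) (hr : rk β + rk η = rk η)
    (h1 : ∀ y : Y, β ≤ y.1 → ∃ a ∈ A.carrier, pt s y ∈ a)
    (h2 : ∀ y z : Y, β ≤ y.1 → y ≠ z → ∃ a ∈ A.carrier, ¬ (pt s y ∈ a ↔ pt s z ∈ a))
    (Bd : Finset ℕ) (hBd : ∀ k ∉ Bd, ∃ a ∈ A.carrier, (a : Set (XX s)) = CC s (η, k)) :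
    Nonempty (cutT A (QQ s η Bd) ≃o cutT (RR s) (QQ s η Bd)) := by
  classical
  choose a0 ha0 ha0' using hBd
  -- the ring `cutT (RR s) Q`
  have hRinf : ∀ U ∈ (cutT (RR s) (QQ s η Bd)).carrier, inf s ∉ U := fun U hU => hU.1
  have hRdown : ∀ U ∈ (cutT (RR s) (QQ s η Bd)).carrier, ∀ V : Clopens (XX s), V ≤ U →
      V ∈ (cutT (RR s) (QQ s η Bd)).carrier := by
    intro U hU V hVU
    have hsub : (V : Set (XX s)) ⊆ U := hVU
    exact ⟨fun h => hU.1 (hsub h), hU.2.mono_left hsub⟩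
  have hAinf : ∀ U ∈ (cutT A (QQ s η Bd)).carrier, inf s ∉ U := fun U hU => hinf U hU.1
  have hAR : ∀ U ∈ (cutT A (QQ s η Bd)).carrier, U ∈ (cutT (RR s) (QQ s η Bd)).carrier :=
    fun U hU => ⟨hinf U hU.1, hU.2⟩
  have hdQ : ∀ (k : ℕ) (hk : k ∉ Bd), Disjoint (a0 k hk : Set (XX s)) (QQ s η Bd) := by
    intro k hk
    rw [ha0' k hk]
    exact iso_T_disjQ hk
  let W : {k : ℕ // k ∉ Bd} → cutT A (QQ s η Bd) := fun k => ⟨a0 k.1 k.2, ha0 k.1 k.2, hdQ k.1 k.2⟩
  let W' : {k : ℕ // k ∉ Bd} → cutT (RR s) (QQ s η Bd) := fun k => ⟨a0 k.1 k.2, hAR _ (W k).2⟩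
  have hWs : ∀ k, ((W k).1 : Set (XX s)) = CC s (η, k.1) := fun k => ha0' k.1 k.2
  have hWs' : ∀ k, ((W' k).1 : Set (XX s)) = CC s (η, k.1) := fun k => ha0' k.1 k.2
  have hCdis : ∀ i j : {k : ℕ // k ∉ Bd}, i ≠ j → Disjoint (CC s (η, i.1)) (CC s (η, j.1)) := by
    intro i j hij
    rw [Set.disjoint_left]
    intro x hx hx'
    exact hij (Subtype.ext (iso_T_uniq hx hx'))
  refine memberwise W W' ?_ ?_ ?_ ?_ ?_ ?_ ?_ ?_ ?_ ?_
  · intro i j hij
    rw [iso_T_disj, hWs, hWs]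
    exact hCdis i j hij
  · intro i j hij
    rw [iso_T_disj, hWs', hWs']
    exact hCdis i j hij
  · intro i h
    have h3 : ((W i).1 : Set (XX s)) = ∅ := by rw [h]; rfl
    rw [hWs] at h3
    have h4 := self_mem_CC s (η, i.1)
    rw [h3] at h4
    exact h4
  · intro i h
    have h3 : ((W' i).1 : Set (XX s)) = ∅ := by rw [h]; rfl
    rw [hWs'] at h3
    have h4 := self_mem_CC s (η, i.1)
    rw [h3] at h4
    exact h4
  · intro a
    have h3 := star hA a.1.isClopen (hAinf _ a.2) η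
    refine (h3.preimage (Subtype.val_injective.injOn)).subset ?_
    intro i hi hc
    apply hi
    rw [iso_T_le, iso_T_disj, hWs]
    exact hc
  · intro b
    have h3 := star hA b.1.isClopen (hRinf _ b.2) η
    refine (h3.preimage (Subtype.val_injective.injOn)).subset ?_
    intro i hi hc
    apply hi
    rw [iso_T_le, iso_T_disj, hWs']
    exact hc
  · intro a b hab
    apply Subtype.ext
    refine det_T hA hN η Bd a.1 b.1 (hAR _ a.2) (hAR _ b.2) fun k hk => ?_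
    have h3 := congrArg (fun U : cutT A (QQ s η Bd) => (U.1 : Set (XX s))) (hab ⟨k, hk⟩)
    have h4 : (a.1 : Set (XX s)) ∩ ((W ⟨k, hk⟩).1 : Set (XX s)) =
      (b.1 : Set (XX s)) ∩ ((W ⟨k, hk⟩).1 : Set (XX s)) := h3
    rw [hWs] at h4
    exact h4
  · intro a b hab
    apply Subtype.ext
    refine det_T hA hN η Bd a.1 b.1 a.2 b.2 fun k hk => ?_
    have h3 := congrArg (fun U : cutT (RR s) (QQ s η Bd) => (U.1 : Set (XX s))) (hab ⟨k, hk⟩)
    have h4 : (a.1 : Set (XX s)) ∩ ((W' ⟨k, hk⟩).1 : Set (XX s)) =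
      (b.1 : Set (XX s)) ∩ ((W' ⟨k, hk⟩).1 : Set (XX s)) := h3
    rw [hWs'] at h4
    exact h4
  · intro S
    constructor
    · rintro ⟨a, ha⟩
      exact ⟨⟨a.1, hAR _ a.2⟩, fun i => ⟨fun hi => (ha i).1 hi, fun hi => by
        have h3 := (ha i).2 hi
        rw [iso_T_disj] at h3 ⊢
        exact h3⟩⟩
    · rintro ⟨b, hb⟩
      have hbQ : ∀ y : Y, pt s y ∈ b.1 → pt s y ∉ QQ s η Bd := fun y hy hQ =>
        Set.disjoint_left.1 b.2.2 hy hQ
      have hbA : b.1 ∈ A.carrier := by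
        refine saturated_mem hA A hinf b.1 (hRinf _ b.2) ?_ ?_
        · intro y hy
          rcases le_or_gt β y.1 with hle | hlt
          · exact h1 y hle
          · obtain ⟨k, hk, hm⟩ := iso_T_label (hlt.trans hβ) (hbQ y hy)
            refine ⟨a0 k hk, ha0 k hk, ?_⟩
            show pt s y ∈ (a0 k hk : Set (XX s))
            rw [ha0' k hk]
            exact hm
        · intro y z hy hz
          rcases le_or_gt β y.1 with hle | hlt
          · refine h2 y z hle ?_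
            rintro rfl
            exact hz hy
          · obtain ⟨k, hk, hm⟩ := iso_T_label (hlt.trans hβ) (hbQ y hy)
            have hym : pt s y ∈ (a0 k hk : Set (XX s)) := by
              rw [ha0' k hk]
              exact hm
            have hkS : (⟨k, hk⟩ : {k : ℕ // k ∉ Bd}) ∈ S := by
              by_contra hkS
              have h3 := (hb ⟨k, hk⟩).2 hkS
              rw [iso_T_disj] at h3
              exact Set.disjoint_left.1 h3 hym hy
            have h3 : (a0 k hk : Set (XX s)) ⊆ (b.1 : Set (XX s)) := (hb ⟨k, hk⟩).1 hkS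
            refine ⟨a0 k hk, ha0 k hk, fun hiff => hz (h3 (hiff.1 hym))⟩
      exact ⟨⟨b.1, hbA, b.2.2⟩, fun i => ⟨fun hi => (hb i).1 hi, fun hi => by
        have h3 := (hb i).2 hi
        rw [iso_T_disj] at h3 ⊢
        exact h3⟩⟩
  · intro i
    -- the inclusion
    let φ : cutT A (QQ s η Bd) → cutT (RR s) (QQ s η Bd) := fun a => ⟨a.1, hAR _ a.2⟩
    have hφ : IsHom φ := ⟨fun _ _ => Subtype.ext rfl, fun _ _ => Subtype.ext rfl⟩
    have hat' : CAtom (rk η) (W' i) := catom_CC hA hN _ hRinf hRdown (η, i.1) (W' i) (hWs' i)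
    have hk : ∀ a, φ a = ⊥ → CB (rk β) a := by
      intro a ha
      have h3 : a = ⊥ := by
        apply Subtype.ext
        have h4 := congrArg (fun U : cutT (RR s) (QQ s η Bd) => U.1) ha
        exact h4
      rw [h3]
      exact CB_bot _
    have hd : ∀ b : cutT (RR s) (QQ s η Bd), ∃ a : cutT A (QQ s η Bd),
        CB (rk β) (symmDiff b (φ a)) := by
      intro b
      obtain ⟨c0, hc0, hLt⟩ := approx_mem hA A hinf β h1 h2 b.1 (hRinf _ b.2)
      obtain ⟨b', hb', c, hc, hbc⟩ := split_Q hA A hinf hβ h2 Bd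
        (fun k hk => ⟨a0 k hk, ha0 k hk, ha0' k hk⟩) c0 hc0
      refine ⟨⟨b', hb'⟩, ?_⟩
      rw [CB_iff_Lt hA hN (cutT (RR s) (QQ s η Bd)) hRinf hRdown]
      intro y hy
      apply hLt
      have hy' : (pt s y ∈ (b.1 : Set (XX s)) ∧ pt s y ∉ (b' : Set (XX s))) ∨
          (pt s y ∈ (b' : Set (XX s)) ∧ pt s y ∉ (b.1 : Set (XX s))) := hy
      show (pt s y ∈ (b.1 : Set (XX s)) ∧ pt s y ∉ (c0 : Set (XX s))) ∨
          (pt s y ∈ (c0 : Set (XX s)) ∧ pt s y ∉ (b.1 : Set (XX s)))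
      have hc0s : (c0 : Set (XX s)) = (b' : Set (XX s)) ∪ (c : Set (XX s)) := by
        rw [hbc]; exact Clopens.coe_sup _ _
      rw [hc0s]
      rcases hy' with ⟨h3, h4⟩ | ⟨h3, h4⟩
      · left
        refine ⟨h3, ?_⟩
        rintro (h5 | h5)
        · exact h4 h5
        · exact Set.disjoint_left.1 b.2.2 h3 (hc.2 h5)
      · right
        exact ⟨Or.inl h3, h4⟩
    have hat : CAtom (rk η) (W i) := (H3 hφ hk hd hr (W i)).1 hat'
    exact classify (iso_T_countable hA hAinf η i.1 (W i) (hWs i))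
      (iso_T_countable hA hRinf η i.1 (W' i) (hWs' i)) (iso_T_typ hat) (iso_T_typ hat')
end

section
/-- TARGET -/
theorem ha2_lemma {s : Sys} (hA : ∀ η, AX s η) (hN : ∀ η, N1 s η) (η : Om) (Bd : Finset ℕ)
    (p : Ordinal.{0}) (hp : p < rk η) (e : cutQ (RR s) (QQ s η Bd)) :
    ∃ d : cutQ (RR s) (QQ s η Bd), ¬ CB p (d \ e) := by
  classical
  obtain ⟨ζ, hζ, rfl⟩ := exists_rk_of_lt hp
  have h0 : inf s ∉ (e.1 : Set (XX s)) := e.2.1
  have hcl : IsClopen ((e.1 : Set (XX s)) ∩ DD s η) := clopen_D hA e.1.isClopen h0 η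
  obtain ⟨F, hF1, hF2⟩ := clopen_cover hA hcl.isClosed (fun h => h0 h.1)
  have hFlev : ∀ q ∈ F, q.1 < η := by
    intro q hq
    obtain ⟨_, y, hy, hlt, _⟩ := hF1 q hq
    rw [pt_inj] at hy
    rw [hy]
    exact hlt
  obtain ⟨ζ', hζ'η, hζζ', hFζ'⟩ : ∃ ζ' : Om, ζ' < η ∧ ζ ≤ ζ' ∧ ∀ q ∈ F, q.1 ≤ ζ' := by
    have hne : (insert ζ (F.image Prod.fst)).Nonempty := Finset.insert_nonempty _ _
    refine ⟨(insert ζ (F.image Prod.fst)).max' hne, ?_, ?_, ?_⟩
    · have hm := Finset.max'_mem _ hne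
      rw [Finset.mem_insert, Finset.mem_image] at hm
      rcases hm with hm | ⟨q, hq, hm⟩
      · rw [hm]; exact hζ
      · rw [← hm]; exact hFlev q hq
    · exact Finset.le_max' _ _ (Finset.mem_insert_self _ _)
    · intro q hq
      exact Finset.le_max' _ _ (Finset.mem_insert_of_mem (Finset.mem_image_of_mem _ hq))
  obtain ⟨y, ⟨hy1, hy2, hy3⟩, hyF⟩ := (hN η ζ' hζ'η none).exists_notMem_finset F
  have hyT : pt s y ∉ TX s F := by
    rintro ⟨q, hq, hyq⟩
    have := eq_of_mem_CC (s := s) hyq ((hFζ' q hq).trans hy1)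
    exact hyF (this ▸ hq)
  have hyD : pt s y ∈ DD s η := ⟨y, rfl, hy2, hy3⟩
  have hye : pt s y ∉ (e.1 : Set (XX s)) := fun h => hyT (hF2 ⟨h, hyD⟩)
  have hDcl : IsClopen (CC s y ∩ DD s η) := clopen_D hA (isClopen_CC s y) inf_notMem_CC η
  refine ⟨⟨⟨CC s y ∩ DD s η, hDcl⟩, ?_, ?_⟩, ?_⟩
  · exact fun h => inf_notMem_CC h.1
  · intro x hx
    exact Or.inl hx.2
  · intro hCB
    have hLt := (CB_iff_Lt hA hN (cutQ (RR s) (QQ s η Bd)) (fun U hU => hU.1)
      (fun U hU V hVU => ⟨fun h => hU.1 (hVU h), fun x hx => hU.2 (hVU hx)⟩) ζ _).1 hCB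
    have hmem := hLt y ⟨⟨self_mem_CC s y, hyD⟩, hye⟩
    exact absurd hmem (not_lt.2 (hζζ'.trans hy1))
end

section
lemma iso_Q_inf {s : Sys} (Q : Set (XX s)) : ∀ U ∈ (cutQ (RR s) Q).carrier, inf s ∉ U :=
  fun _ hU => hU.1

lemma iso_Q_down {s : Sys} (Q : Set (XX s)) : ∀ U ∈ (cutQ (RR s) Q).carrier,
    ∀ V : Clopens (XX s), V ≤ U → V ∈ (cutQ (RR s) Q).carrier := by
  intro U hU V hV
  exact ⟨fun h => hU.1 (hV h), fun x hx => hU.2 (hV hx)⟩

lemma iso_Q_sdiff_le {A : Type} [GeneralizedBooleanAlgebra A] (x y z : A) :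
    x \ z ≤ (x \ y) ⊔ symmDiff y z := by
  calc x \ z ≤ (x \ y) ⊔ (y \ z) := sdiff_triangle x y z
    _ ≤ (x \ y) ⊔ symmDiff y z := sup_le_sup_left (by
        rw [symmDiff]; exact le_sup_left) _

lemma iso_Q_Lt {s : Sys} {η η' : Om} (h : η < η') (Bd : Finset ℕ) {U : Set (XX s)}
    (hU : U ⊆ QQ s η Bd) : Lt η' U := by
  intro y hy
  rcases hU hy with ⟨z, hz, hz1, -⟩ | ⟨k, -, hk⟩
  · rw [pt_inj] at hz
    subst hz
    exact hz1.trans h
  · exact (lev_le_of_mem_CC hk).trans_lt h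

/-- TARGET -/
theorem iso_Q {s : Sys} (hA : ∀ η, AX s η) (hN : ∀ η, N1 s η) (A : SubG (Clopens (XX s)))
    (hinf : ∀ a ∈ A.carrier, inf s ∉ a) {β η : Om} (hβ : β < η) (hr : rk β + rk η = rk η)
    (h1 : ∀ y : Y, β ≤ y.1 → ∃ a ∈ A.carrier, pt s y ∈ a)
    (h2 : ∀ y z : Y, β ≤ y.1 → y ≠ z → ∃ a ∈ A.carrier, ¬ (pt s y ∈ a ↔ pt s z ∈ a))
    (Bd : Finset ℕ) (hBd : ∀ k ∉ Bd, ∃ a ∈ A.carrier, (a : Set (XX s)) = CC s (η, k)) :
    Nonempty (cutQ A (QQ s η Bd) ≃o cutQ (RR s) (QQ s η Bd)) := by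
  set Q : Set (XX s) := QQ s η Bd with hQ
  obtain ⟨η', hη'⟩ := exists_gt' η
  have hcount := countable_lt hA η'
  have hB : Countable (cutQ (RR s) Q) := by
    have h3 : ((cutQ (RR s) Q).carrier).Countable := by
      refine hcount.mono ?_
      intro U hU
      exact ⟨hU.1, iso_Q_Lt hη' Bd hU.2⟩
    exact h3.to_subtype
  have hAc : Countable (cutQ A Q) := by
    have h3 : ((cutQ A Q).carrier).Countable := by
      refine hcount.mono ?_
      intro U hU
      exact ⟨hinf U hU.1, iso_Q_Lt hη' Bd hU.2⟩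
    exact h3.to_subtype
  -- the inclusion
  let φ : cutQ A Q → cutQ (RR s) Q := fun a => ⟨a.1, hinf a.1 a.2.1, a.2.2⟩
  have hφ : IsHom φ := ⟨fun a b => Subtype.ext rfl, fun a b => Subtype.ext rfl⟩
  have hk0 : ∀ a, φ a = ⊥ → a = ⊥ := by
    intro a ha
    have h3 : (φ a).1 = (⊥ : Clopens (XX s)) := by
      rw [ha]
      rfl
    exact Subtype.ext h3
  have hk : ∀ a, φ a = ⊥ → CB (rk β) a := fun a ha => by
    rw [hk0 a ha]
    exact CB_bot _
  have hd : ∀ b : cutQ (RR s) Q, ∃ a : cutQ A Q, CB (rk β) (symmDiff b (φ a)) := by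
    intro b
    obtain ⟨a0, ha0, hLt⟩ := approx_mem hA A hinf β h1 h2 b.1 b.2.1
    obtain ⟨t, ht, c, hc, htc⟩ := split_Q hA A hinf hβ h2 Bd hBd a0 ha0
    refine ⟨⟨c, hc⟩, ?_⟩
    rw [CB_iff_Lt hA hN (cutQ (RR s) Q) (iso_Q_inf Q) (iso_Q_down Q)]
    intro y hy
    apply hLt y
    have hy' : pt s y ∈ ((symmDiff b.1 c : Clopens (XX s)) : Set (XX s)) := hy
    rw [symmDiff, Clopens.coe_sup, Clopens.coe_sdiff, Clopens.coe_sdiff] at hy' ⊢
    rw [htc, Clopens.coe_sup]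
    rcases hy' with ⟨h3, h4⟩ | ⟨h3, h4⟩
    · left
      refine ⟨h3, ?_⟩
      rintro (h5 | h5)
      · exact Set.disjoint_left.1 ht.2 h5 (b.2.2 h3)
      · exact h4 h5
    · right
      exact ⟨Or.inr h3, h4⟩
  -- the marked element of the big ring
  have hWc : IsClopen {x : XX s | ∃ k ∈ Bd, x ∈ CC s (η, k)} := by
    have h3 : {x : XX s | ∃ k ∈ Bd, x ∈ CC s (η, k)} = ⋃ k ∈ Bd, CC s (η, k) := by
      ext x
      simp
    rw [h3]
    exact Bd.finite_toSet.isClopen_biUnion fun k _ => isClopen_CC s (η, k)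
  let aR : cutQ (RR s) Q := ⟨⟨{x : XX s | ∃ k ∈ Bd, x ∈ CC s (η, k)}, hWc⟩, by
    refine ⟨?_, ?_⟩
    · rintro ⟨k, -, hk⟩
      exact inf_notMem_CC hk
    · intro x hx
      exact Or.inr hx⟩
  have haR : Typ (rk η) Bd.card aR :=
    typ_bad hA hN (cutQ (RR s) Q) (iso_Q_inf Q) (iso_Q_down Q) η Bd aR rfl
  have hle : rk β ≤ rk η := rk_le_iff.2 hβ.le
  obtain ⟨b0, hb0, hb0'⟩ : ∃ b0 : cutQ A Q, Typ (rk η) Bd.card b0 ∧
      CB (rk β) (symmDiff aR (φ b0)) := by
    rcases Bd.eq_empty_or_nonempty with h | h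
    · refine ⟨⊥, ?_, ?_⟩
      · rw [h]
        rfl
      · have h3 : aR = ⊥ := by
          apply Subtype.ext
          apply Clopens.ext
          change {x : XX s | ∃ k ∈ Bd, x ∈ CC s (η, k)} = ∅
          rw [h]
          simp
        rw [h3, hφ.bot, symmDiff_self]
        exact CB_bot _
    · obtain ⟨b0, hb0⟩ := hd aR
      refine ⟨b0, ?_, hb0⟩
      have h0 : 0 < Bd.card := Finset.card_pos.2 h
      exact H4 hφ hk hd hr h0 (Typ_congr h0 haR (CB_mono hle hb0))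
  have hb1 : ∀ y : cutQ (RR s) Q, CB (rk η) (y \ aR) := by
    intro y
    rw [CB_iff_Lt hA hN (cutQ (RR s) Q) (iso_Q_inf Q) (iso_Q_down Q)]
    intro z hz
    have hz' : pt s z ∈ ((y.1 \ aR.1 : Clopens (XX s)) : Set (XX s)) := hz
    rw [Clopens.coe_sdiff] at hz'
    rcases y.2.2 hz'.1 with ⟨w, hw, hw1, -⟩ | h3
    · rw [pt_inj] at hw
      subst hw
      exact hw1
    · exact absurd h3 hz'.2
  have ha1 : ∀ x : cutQ A Q, CB (rk η) (x \ b0) := by
    intro x
    have h3 : CB (rk η) (φ (x \ b0)) := by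
      rw [hφ.sdiff]
      exact CB_le (iso_Q_sdiff_le _ aR _) (CB_sup (hb1 (φ x)) (CB_mono hle hb0'))
    have h4 := H1 hφ (β := 0) (fun a ha => by rw [hk0 a ha]; exact CB_bot _) (rk η) (x \ b0) h3
    rwa [zero_add] at h4
  have hb2 : ∀ p < rk η, ∀ e : cutQ (RR s) Q, ∃ d : cutQ (RR s) Q, ¬ CB p (d \ e) :=
    fun p hp e => ha2_lemma hA hN η Bd p hp e
  have ha2 : ∀ p < rk η, ∀ e : cutQ A Q, ∃ d : cutQ A Q, ¬ CB p (d \ e) := by
    intro p hp e
    have hp' : rk β + p < rk η := by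
      rw [← hr]
      exact (add_lt_add_iff_left (rk β)).2 hp
    obtain ⟨d0, hd0⟩ := ha2_lemma hA hN η Bd (rk β + p) hp' (φ e)
    obtain ⟨d, hd1⟩ := hd d0
    refine ⟨d, fun hcon => hd0 ?_⟩
    have h3 := H2 hφ hd p (d \ e) hcon
    rw [hφ.sdiff] at h3
    have h4 : CB (rk β + p) (symmDiff d0 (φ d)) := CB_mono (le_add_of_nonneg_right zero_le) hd1
    refine CB_le ?_ (CB_sup h4 h3)
    calc d0 \ φ e ≤ (d0 \ φ d) ⊔ (φ d \ φ e) := sdiff_triangle _ _ _
      _ ≤ symmDiff d0 (φ d) ⊔ (φ d \ φ e) := sup_le_sup_right (by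
          rw [symmDiff]; exact le_sup_left) _
  exact marked hb0 haR ha1 hb1 ha2 hb2
end

section
theorem iso_ring_disj {s : Sys} (A : SubG (Clopens (XX s))) (Q : Set (XX s))
    (x : Clopens (XX s)) (hx : x ∈ (cutT A Q).carrier) (y : Clopens (XX s))
    (hy : y ∈ (cutQ A Q).carrier) : Disjoint x y := by
  have h : Disjoint (x : Set (XX s)) (y : Set (XX s)) := hx.2.mono_right hy.2
  rw [disjoint_iff]
  apply SetLike.coe_injective
  rw [Clopens.coe_inf, Clopens.coe_bot]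
  exact Set.disjoint_iff_inter_eq_empty.1 h


/-- TARGET -/
theorem iso_ring {s : Sys} (hA : ∀ η, AX s η) (hN : ∀ η, N1 s η) (A : SubG (Clopens (XX s)))
    (hinf : ∀ a ∈ A.carrier, inf s ∉ a) {β η : Om} (hβ : β < η) (hr : rk β + rk η = rk η)
    (h1 : ∀ y : Y, β ≤ y.1 → ∃ a ∈ A.carrier, pt s y ∈ a)
    (h2 : ∀ y z : Y, β ≤ y.1 → y ≠ z → ∃ a ∈ A.carrier, ¬ (pt s y ∈ a ↔ pt s z ∈ a))
    (Bd : Finset ℕ) (hBd : ∀ k ∉ Bd, ∃ a ∈ A.carrier, (a : Set (XX s)) = CC s (η, k)) :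
    Nonempty (A ≃o RR s) := by
  obtain ⟨e1⟩ := iso_T hA hN A hinf hβ hr h1 h2 Bd hBd
  obtain ⟨e2⟩ := iso_Q hA hN A hinf hβ hr h1 h2 Bd hBd
  exact prod_iso_amb A (cutT A (QQ s η Bd)) (cutQ A (QQ s η Bd)) (RR s)
    (cutT (RR s) (QQ s η Bd)) (cutQ (RR s) (QQ s η Bd))
    (fun x hx => hx.1) (fun x hx => hx.1) (fun x hx => hx.1) (fun x hx => hx.1)
    (fun x hx y hy => iso_ring_disj A _ x hx y hy)
    (fun x hx y hy => iso_ring_disj (RR s) _ x hx y hy)
    (fun a ha => split_Q hA A hinf hβ h2 Bd hBd a ha)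
    (fun a ha => split_RR hA η Bd a ha) e1 e2
end

section
section iso_T2_aux



lemma iso_T2_le {s : Sys} (T : SubG (Clopens (XX s))) (a b : T) :
    a ≤ b ↔ (a.1 : Set (XX s)) ⊆ (b.1 : Set (XX s)) := Iff.rfl

lemma iso_T2_disj {s : Sys} (T : SubG (Clopens (XX s))) (a b : T) :
    Disjoint a b ↔ Disjoint (a.1 : Set (XX s)) (b.1 : Set (XX s)) := by
  rw [disjoint_iff, disjoint_iff]
  constructor
  · intro h
    have h1 : (a ⊓ b).1 = (⊥ : T).1 := congrArg Subtype.val h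
    have h2 : ((a.1 ⊓ b.1 : Clopens (XX s)) : Set (XX s)) = ((⊥ : Clopens (XX s)) : Set (XX s)) :=
      congrArg _ h1
    simpa using h2
  · intro h
    refine Subtype.ext ?_
    refine SetLike.coe_injective ?_
    show ((a.1 ⊓ b.1 : Clopens (XX s)) : Set (XX s)) = ((⊥ : Clopens (XX s)) : Set (XX s))
    simpa using h

lemma iso_T2_CCdisj (s : Sys) (η : Om) {i j : ℕ} (hij : i ≠ j) :
    Disjoint (CC s (η, i)) (CC s (η, j)) := by
  rw [Set.disjoint_left]
  intro x hx hx'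
  rcases XX_cases x with rfl | ⟨y, rfl⟩
  · exact inf_notMem_CC hx
  · rcases mem_CC.1 hx with h | h <;> rcases mem_CC.1 hx' with h' | h'
    · rw [h] at h'
      exact hij (congrArg Prod.snd h')
    · rw [h] at h'
      exact lt_irrefl _ h'.1
    · rw [h'] at h
      exact lt_irrefl _ h.1
    · rw [h.2] at h'
      exact hij (Option.some.inj h'.2)

lemma iso_T2_CCQ (s : Sys) (η : Om) (k : ℕ) : Disjoint (CC s (η, k)) (QQ s η ∅) := by
  rw [Set.disjoint_left]
  rintro x hx (⟨y, rfl, hy, hy'⟩ | ⟨k', hk', _⟩)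
  · rcases mem_CC.1 hx with h | h
    · rw [h] at hy
      exact lt_irrefl _ hy
    · rw [hy'] at h
      exact absurd h.2 (by simp)
  · exact absurd hk' (by simp)

/-- the basic clopen sets of level `η` -/
def iso_T2_W (s : Sys) (η : Om) (k : ℕ) : cutT (RR s) (QQ s η ∅) :=
  ⟨⟨CC s (η, k), isClopen_CC s (η, k)⟩, inf_notMem_CC, iso_T2_CCQ s η k⟩

lemma iso_T2_W_coe (s : Sys) (η : Om) (k : ℕ) :
    ((iso_T2_W s η k).1 : Set (XX s)) = CC s (η, k) := rfl

/-- the restriction of `f` -/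
def iso_T2_g {s : Sys} {C : Type} [BooleanAlgebra C]
    (f : Clopens (XX s) → C) (hf : IsHom f) (T : SubG (Clopens (XX s))) (a : T) : mapG f hf T :=
  ⟨f a.1, ⟨a.1, a.2, rfl⟩⟩

lemma iso_T2_g_hom {s : Sys} {C : Type} [BooleanAlgebra C]
    (f : Clopens (XX s) → C) (hf : IsHom f) (T : SubG (Clopens (XX s))) :
    IsHom (iso_T2_g f hf T) :=
  ⟨fun a b => Subtype.ext (hf.sup a.1 b.1), fun a b => Subtype.ext (hf.sdiff a.1 b.1)⟩

lemma iso_T2_g_surj {s : Sys} {C : Type} [BooleanAlgebra C]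
    (f : Clopens (XX s) → C) (hf : IsHom f) (T : SubG (Clopens (XX s))) (b : mapG f hf T) :
    ∃ a : T, iso_T2_g f hf T a = b := by
  obtain ⟨b, a, ha, rfl⟩ := b
  exact ⟨⟨a, ha⟩, rfl⟩

lemma iso_T2_T_inf {s : Sys} {η : Om} : ∀ U ∈ (cutT (RR s) (QQ s η ∅)).carrier, inf s ∉ U :=
  fun U hU => hU.1

lemma iso_T2_T_down {s : Sys} {η : Om} : ∀ U ∈ (cutT (RR s) (QQ s η ∅)).carrier,
    ∀ V : Clopens (XX s), V ≤ U → V ∈ (cutT (RR s) (QQ s η ∅)).carrier := by
  intro U hU V hV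
  exact ⟨fun h => hU.1 (hV h), hU.2.mono_left hV⟩

lemma iso_T2_disj_map {A B : Type} [GeneralizedBooleanAlgebra A] [GeneralizedBooleanAlgebra B]
    {g : A → B} (hg : IsHom g) {a b : A} (h : Disjoint a b) : Disjoint (g a) (g b) := by
  rw [disjoint_iff] at h ⊢
  rw [← hg.inf, h, hg.bot]

/-- part 2' -/
lemma iso_T2_det {s : Sys} (hA : ∀ η, AX s η) (hN : ∀ η, N1 s η) {C : Type} [BooleanAlgebra C]
    (f : Clopens (XX s) → C) (hf : IsHom f) {β η : Om} (hβ : β < η)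
    (hker : ∀ U : Clopens (XX s), inf s ∉ U → f U = ⊥ → Lt β (U : Set (XX s)))
    (Z : cutT (RR s) (QQ s η ∅))
    (hZ : ∀ k, iso_T2_g f hf _ (Z ⊓ iso_T2_W s η k) = ⊥) : iso_T2_g f hf _ Z = ⊥ := by
  classical
  have hg := iso_T2_g_hom f hf (cutT (RR s) (QQ s η ∅))
  have hZ1 : inf s ∉ Z.1 := Z.2.1
  have hZ2 : Disjoint (Z.1 : Set (XX s)) (QQ s η ∅) := Z.2.2
  have hlt : ∀ k, Lt β ((Z.1 : Set (XX s)) ∩ CC s (η, k)) := by
    intro k
    have h1 := hker (Z ⊓ iso_T2_W s η k).1 (Z ⊓ iso_T2_W s η k).2.1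
      (congrArg Subtype.val (hZ k))
    exact h1
  have hnη : ∀ k, pt s (η, k) ∉ (Z.1 : Set (XX s)) := by
    intro k hk
    exact absurd (hlt k (η, k) ⟨hk, self_mem_CC s (η, k)⟩) (not_lt.2 hβ.le)
  have hlev : ∀ y : Y, pt s y ∈ (Z.1 : Set (XX s)) → y.1 < η := by
    intro y hy
    by_contra hcon
    push Not at hcon
    obtain ⟨y', hy', hy'2⟩ := exists_lev hA hN Z.1.isClopen.isOpen hy hcon
    obtain ⟨o, k⟩ := y'
    simp only at hy'2
    subst hy'2
    exact hnη k hy'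
  have hmem : ∀ x ∈ (Z.1 : Set (XX s)), ∃ k, x ∈ CC s (η, k) := by
    intro x hx
    rcases XX_cases x with rfl | ⟨y, rfl⟩
    · exact absurd hx hZ1
    · have h1 := hlev y hx
      rcases h2 : s η y with _ | k
      · exact absurd (Or.inl ⟨y, rfl, h1, h2⟩) (Set.disjoint_left.1 hZ2 hx)
      · exact ⟨k, mem_CC.2 (Or.inr ⟨h1, h2⟩)⟩
  have hfin := star hA Z.1.isClopen hZ1 η
  set K : Finset ℕ := hfin.toFinset with hK
  have hmemK : ∀ x ∈ (Z.1 : Set (XX s)), ∃ k ∈ K, x ∈ CC s (η, k) := by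
    intro x hx
    obtain ⟨k, hk⟩ := hmem x hx
    refine ⟨k, ?_, hk⟩
    rw [hK, Set.Finite.mem_toFinset]
    rintro (h | h)
    · exact hnη k (h (self_mem_CC s (η, k)))
    · exact Set.disjoint_left.1 h hk hx
  have hZs : Z ≤ K.sup fun k => Z ⊓ iso_T2_W s η k := by
    have h1 : ∀ (K' : Finset ℕ), {x : XX s | x ∈ (Z.1 : Set (XX s)) ∧ ∃ k ∈ K', x ∈ CC s (η, k)} ⊆
        ((K'.sup fun k => Z ⊓ iso_T2_W s η k).1 : Set (XX s)) := by
      rintro K' x ⟨hx, k, hk, hxk⟩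
      have h2 : Z ⊓ iso_T2_W s η k ≤ K'.sup fun k => Z ⊓ iso_T2_W s η k :=
        Finset.le_sup (f := fun k => Z ⊓ iso_T2_W s η k) hk
      exact (iso_T2_le _ _ _).1 h2 ⟨hx, hxk⟩
    exact (iso_T2_le _ _ _).2 fun x hx => h1 K ⟨hx, hmemK x hx⟩
  have hgs : iso_T2_g f hf _ (K.sup fun k => Z ⊓ iso_T2_W s η k) = ⊥ := by
    refine Finset.sup_induction (p := fun a => iso_T2_g f hf _ a = ⊥) hg.bot ?_ fun k _ => hZ k
    intro a ha b hb
    rw [hg.sup, ha, hb, sup_bot_eq]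
  exact le_bot_iff.1 ((hg.mono hZs).trans hgs.le)

lemma iso_T2_exc {A B : Type} [GeneralizedBooleanAlgebra A] [GeneralizedBooleanAlgebra B]
    {g : A → B} (hg : IsHom g) (W : ℕ → A) (hd : ∀ i j, i ≠ j → Disjoint (W i) (W j))
    (hne' : ∀ i, g (W i) ≠ ⊥) (U : A) (hfin : {i | ¬ (W i ≤ U ∨ Disjoint (W i) U)}.Finite)
    (S : Set ℕ) (hS : ∀ i, (i ∈ S → g (W i) ≤ g U) ∧ (i ∉ S → Disjoint (g (W i)) (g U))) :
    ∃ a : A, ∀ i, (i ∈ S → W i ≤ a) ∧ (i ∉ S → Disjoint (W i) a) := by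
  classical
  set E : Finset ℕ := hfin.toFinset with hE
  have hE' : ∀ i, i ∉ E → W i ≤ U ∨ Disjoint (W i) U := by
    intro i hi
    rw [hE, Set.Finite.mem_toFinset] at hi
    by_contra h
    exact hi h
  have hE1 : ∀ i, i ∉ E → i ∈ S → W i ≤ U := by
    intro i hi hiS
    rcases hE' i hi with h | h
    · exact h
    · exfalso
      have h1 := iso_T2_disj_map hg h
      exact hne' i (disjoint_self.1 (h1.mono_right ((hS i).1 hiS)))
  have hE2 : ∀ i, i ∉ E → i ∉ S → Disjoint (W i) U := by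
    intro i hi hiS
    rcases hE' i hi with h | h
    · exfalso
      have h1 := hg.mono h
      exact hne' i (disjoint_self.1 (((hS i).2 hiS).mono_right h1))
    · exact h
  refine ⟨(U ⊔ (E.filter (· ∈ S)).sup W) \ ((E.filter (· ∉ S)).sup W), fun i => ⟨fun hi => ?_, fun hi => ?_⟩⟩
  · rw [le_sdiff]
    constructor
    · by_cases hiE : i ∈ E
      · exact le_sup_of_le_right (Finset.le_sup (f := W) (Finset.mem_filter.2 ⟨hiE, hi⟩))
      · exact le_sup_of_le_left (hE1 i hiE hi)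
    · rw [Finset.disjoint_sup_right]
      intro j hj
      refine hd i j ?_
      rintro rfl
      exact (Finset.mem_filter.1 hj).2 hi
  · by_cases hiE : i ∈ E
    · exact disjoint_sdiff_self_right.mono_left
        (Finset.le_sup (f := W) (Finset.mem_filter.2 ⟨hiE, hi⟩))
    · refine Disjoint.mono_right sdiff_le ?_
      rw [disjoint_sup_right]
      refine ⟨hE2 i hiE hi, ?_⟩
      rw [Finset.disjoint_sup_right]
      intro j hj
      refine hd i j ?_
      rintro rfl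
      exact hi (Finset.mem_filter.1 hj).2

lemma iso_T2_typ {A : Type} [GeneralizedBooleanAlgebra A] {o : Ordinal.{0}} {x : A}
    (h : CAtom o x) : Typ o 1 x := by
  refine ⟨x, le_rfl, h, ?_⟩
  show x \ x = ⊥
  exact sdiff_self

end iso_T2_aux

/-- TARGET -/
theorem iso_T2 {s : Sys} (hA : ∀ η, AX s η) (hN : ∀ η, N1 s η) {C : Type} [BooleanAlgebra C]
    (f : Clopens (XX s) → C) (hf : IsHom f) {β η : Om} (hβ : β < η) (hr : rk β + rk η = rk η)
    (hker : ∀ U : Clopens (XX s), inf s ∉ U → f U = ⊥ → Lt β (U : Set (XX s))) :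
    Nonempty (cutT (RR s) (QQ s η ∅) ≃o mapG f hf (cutT (RR s) (QQ s η ∅))) := by
  classical
  set T : SubG (Clopens (XX s)) := cutT (RR s) (QQ s η ∅) with hT
  have hg : IsHom (iso_T2_g f hf T) := iso_T2_g_hom f hf T
  have hdW : ∀ i j, i ≠ j → Disjoint (iso_T2_W s η i) (iso_T2_W s η j) := fun i j hij =>
    (iso_T2_disj _ _ _).2 (iso_T2_CCdisj s η hij)
  have hneW : ∀ i, iso_T2_g f hf T (iso_T2_W s η i) ≠ ⊥ := by
    intro i h
    have h1 : f (iso_T2_W s η i).1 = ⊥ := congrArg Subtype.val h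
    have h2 := hker _ (iso_T2_W s η i).2.1 h1
    exact absurd (h2 (η, i) (self_mem_CC s (η, i))) (not_lt.2 hβ.le)
  have hstar : ∀ a : T, {i | ¬ (iso_T2_W s η i ≤ a ∨ Disjoint (iso_T2_W s η i) a)}.Finite := by
    intro a
    refine (star hA a.1.isClopen a.2.1 η).subset ?_
    intro i hi h
    apply hi
    rcases h with h | h
    · exact Or.inl h
    · exact Or.inr ((iso_T2_disj _ _ _).2 h)
  refine memberwise (fun k => iso_T2_W s η k) (fun k => iso_T2_g f hf T (iso_T2_W s η k)) hdW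
    (fun i j hij => iso_T2_disj_map hg (hdW i j hij)) ?_ hneW hstar ?_ ?_ ?_ ?_ ?_
  · intro i h
    exact hneW i (by rw [h]; exact hg.bot)
  · intro b
    obtain ⟨a, rfl⟩ := iso_T2_g_surj f hf T b
    refine (hstar a).subset ?_
    intro i hi h
    apply hi
    rcases h with h | h
    · exact Or.inl (hg.mono h)
    · exact Or.inr (iso_T2_disj_map hg h)
  · intro a b h
    refine Subtype.ext (det_T hA hN η ∅ a.1 b.1 a.2 b.2 fun k _ => ?_)
    have h1 : (a ⊓ iso_T2_W s η k).1 = (b ⊓ iso_T2_W s η k).1 := congrArg Subtype.val (h k)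
    have h2 : (((a ⊓ iso_T2_W s η k).1 : Clopens (XX s)) : Set (XX s)) =
      ((b ⊓ iso_T2_W s η k).1 : Clopens (XX s)) := congrArg _ h1
    exact h2
  · intro a b h
    obtain ⟨U, rfl⟩ := iso_T2_g_surj f hf T a
    obtain ⟨V, rfl⟩ := iso_T2_g_surj f hf T b
    rw [← symmDiff_eq_bot, ← hg.symm]
    refine iso_T2_det hA hN f hf hβ hker _ fun k => ?_
    have h1 := h k
    have h2 : iso_T2_g f hf T (symmDiff U V ⊓ iso_T2_W s η k) =
        symmDiff (iso_T2_g f hf T U ⊓ iso_T2_g f hf T (iso_T2_W s η k))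
          (iso_T2_g f hf T V ⊓ iso_T2_g f hf T (iso_T2_W s η k)) := by
      rw [hg.inf, hg.symm, inf_symmDiff_distrib_right]
    refine h2.trans ?_
    rw [h1, symmDiff_self]
  · intro S
    constructor
    · rintro ⟨a, ha⟩
      exact ⟨iso_T2_g f hf T a, fun i => ⟨fun hi => hg.mono ((ha i).1 hi),
        fun hi => iso_T2_disj_map hg ((ha i).2 hi)⟩⟩
    · rintro ⟨b, hb⟩
      obtain ⟨U, rfl⟩ := iso_T2_g_surj f hf T b
      exact iso_T2_exc hg (fun k => iso_T2_W s η k) hdW hneW U (hstar U) S hb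
  · intro i
    have hc : (Iic (iso_T2_W s η i)).Countable := by
      obtain ⟨γ, hγ⟩ := exists_gt' η
      refine ((countable_lt hA γ).preimage (f := fun a : T => a.1) Subtype.val_injective).mono ?_
      intro a ha
      refine ⟨a.2.1, fun y hy => ?_⟩
      exact (lev_le_of_mem_CC (p := (η, i)) (ha hy)).trans_lt hγ
    have hc' : (Iic (iso_T2_g f hf T (iso_T2_W s η i))).Countable := by
      refine (hc.image (iso_T2_g f hf T)).mono ?_
      intro b hb
      obtain ⟨V, rfl⟩ := iso_T2_g_surj f hf T b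
      refine ⟨V ⊓ iso_T2_W s η i, Set.mem_Iic.2 inf_le_right, ?_⟩
      have h1 := hg.inf V (iso_T2_W s η i)
      exact h1.trans (inf_eq_left.2 hb)
    have hat : CAtom (rk η) (iso_T2_W s η i) :=
      catom_CC hA hN T iso_T2_T_inf iso_T2_T_down (η, i) (iso_T2_W s η i) rfl
    have hat' : CAtom (rk η) (iso_T2_g f hf T (iso_T2_W s η i)) := by
      refine (H3 hg (β := rk β) ?_ ?_ hr (iso_T2_W s η i)).2 hat
      · intro a ha
        refine (CB_iff_Lt hA hN T iso_T2_T_inf iso_T2_T_down β a).2 ?_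
        exact hker a.1 a.2.1 (congrArg Subtype.val ha)
      · intro b
        obtain ⟨a, rfl⟩ := iso_T2_g_surj f hf T b
        refine ⟨a, ?_⟩
        rw [symmDiff_self]
        exact CB_bot _
    exact classify hc hc' (iso_T2_typ hat) (iso_T2_typ hat')
end

section
/-- TARGET -/
theorem iso_Q2 {s : Sys} (hA : ∀ η, AX s η) (hN : ∀ η, N1 s η) {C : Type} [BooleanAlgebra C]
    (f : Clopens (XX s) → C) (hf : IsHom f) {β η : Om} (hβ : β < η) (hr : rk β + rk η = rk η)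
    (hker : ∀ U : Clopens (XX s), inf s ∉ U → f U = ⊥ → Lt β (U : Set (XX s))) :
    Nonempty (cutQ (RR s) (QQ s η ∅) ≃o mapG f hf (cutQ (RR s) (QQ s η ∅))) := by
  classical
  have hLtη : ∀ x : cutQ (RR s) (QQ s η ∅), Lt η (x.1 : Set (XX s)) := by
    intro x y hy
    have h := x.2.2 hy
    rcases h with h | ⟨k, hk, _⟩
    · obtain ⟨y', h1, h2, _⟩ := h
      rw [pt_inj] at h1
      rw [h1]; exact h2
    · simp at hk
  have hcnt : (cutQ (RR s) (QQ s η ∅)).carrier.Countable := by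
    refine (countable_lt hA η).mono ?_
    intro U hU
    exact ⟨hU.1, hLtη ⟨U, hU⟩⟩
  haveI hc1 : Countable (cutQ (RR s) (QQ s η ∅)) := hcnt.to_subtype
  haveI hc2 : Countable (mapG f hf (cutQ (RR s) (QQ s η ∅))) := (hcnt.image f).to_subtype
  let g : cutQ (RR s) (QQ s η ∅) → mapG f hf (cutQ (RR s) (QQ s η ∅)) :=
    fun x => ⟨f x.1, x.1, x.2, rfl⟩
  have hg : IsHom g := by
    constructor
    · intro a b
      exact Subtype.ext (hf.sup a.1 b.1)
    · intro a b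
      exact Subtype.ext (hf.sdiff a.1 b.1)
  have hgs : ∀ y : mapG f hf (cutQ (RR s) (QQ s η ∅)), ∃ x, g x = y := by
    rintro ⟨_, x, hx, rfl⟩
    exact ⟨⟨x, hx⟩, rfl⟩
  have hI : ∀ U ∈ (cutQ (RR s) (QQ s η ∅)).carrier, inf s ∉ U := fun U hU => hU.1
  have hd : ∀ U ∈ (cutQ (RR s) (QQ s η ∅)).carrier, ∀ V : Clopens (XX s), V ≤ U →
      V ∈ (cutQ (RR s) (QQ s η ∅)).carrier := by
    intro U hU V hVU
    have hVU' : (V : Set (XX s)) ⊆ U := hVU
    exact ⟨fun h => hU.1 (hVU' h), hVU'.trans hU.2⟩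
  have hall : ∀ x : cutQ (RR s) (QQ s η ∅), CB (rk η) x := fun x =>
    (CB_iff_Lt hA hN _ hI hd η x).2 (hLtη x)
  have hk : ∀ a : cutQ (RR s) (QQ s η ∅), g a = ⊥ → CB (rk β) a := by
    intro a ha
    have h1 : f a.1 = ⊥ := congrArg Subtype.val ha
    exact (CB_iff_Lt hA hN _ hI hd β a).2 (hker a.1 a.2.1 h1)
  refine marked (o := rk η) (m := 0) (a := ⊥) (b := ⊥) rfl rfl ?_ ?_ ?_ ?_
  · intro x
    rw [sdiff_bot]
    exact hall x
  · intro y
    rw [sdiff_bot]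
    obtain ⟨x, rfl⟩ := hgs y
    have h := H2 hg (β := 0) (fun b => by
      obtain ⟨a, ha⟩ := hgs b
      exact ⟨a, by rw [ha, symmDiff_self]; exact CB_bot 0⟩) (rk η) x (hall x)
    rwa [zero_add] at h
  · intro p hp e
    exact ha2_lemma hA hN η ∅ p hp e
  · intro p hp e
    obtain ⟨e0, rfl⟩ := hgs e
    have hlt : rk β + p < rk η := by
      calc rk β + p < rk β + rk η := by gcongr
        _ = rk η := hr
    obtain ⟨d0, hd0⟩ := ha2_lemma hA hN η ∅ (rk β + p) hlt e0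
    refine ⟨g d0, fun h => hd0 ?_⟩
    rw [← hg.sdiff] at h
    exact H1 hg hk p (d0 \ e0) h
end

section
/-- TARGET -/
theorem iso_ring2 {s : Sys} (hA : ∀ η, AX s η) (hN : ∀ η, N1 s η) {C : Type} [BooleanAlgebra C]
    (f : Clopens (XX s) → C) (hf : IsHom f) {β η : Om} (hβ : β < η) (hr : rk β + rk η = rk η)
    (hker : ∀ U : Clopens (XX s), inf s ∉ U → f U = ⊥ → Lt β (U : Set (XX s))) :
    Nonempty (RR s ≃o mapG f hf (RR s)) := by
  classical
  obtain ⟨e1⟩ := iso_T2 hA hN f hf hβ hr hker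
  obtain ⟨e2⟩ := iso_Q2 hA hN f hf hβ hr hker
  have hd : ∀ x ∈ (cutT (RR s) (QQ s η ∅)).carrier, ∀ y ∈ (cutQ (RR s) (QQ s η ∅)).carrier,
      Disjoint x y := by
    intro x hx y hy
    have hx2 : Disjoint (x : Set (XX s)) (QQ s η ∅) := hx.2
    have hy2 : (y : Set (XX s)) ⊆ QQ s η ∅ := hy.2
    have h3 : Disjoint (x : Set (XX s)) (y : Set (XX s)) := hx2.mono_right hy2
    rw [disjoint_iff]
    apply Clopens.ext
    rw [Clopens.coe_inf, Clopens.coe_bot]
    exact Set.disjoint_iff_inter_eq_empty.1 h3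
  refine prod_iso_amb (RR s) (cutT (RR s) (QQ s η ∅)) (cutQ (RR s) (QQ s η ∅))
    (mapG f hf (RR s)) (mapG f hf (cutT (RR s) (QQ s η ∅)))
    (mapG f hf (cutQ (RR s) (QQ s η ∅))) ?_ ?_ ?_ ?_ hd ?_ ?_ ?_ e1 e2
  · intro x hx
    exact hx.1
  · intro x hx
    exact hx.1
  · rintro _ ⟨x, hx, rfl⟩
    exact ⟨x, hx.1, rfl⟩
  · rintro _ ⟨x, hx, rfl⟩
    exact ⟨x, hx.1, rfl⟩
  · rintro _ ⟨x, hx, rfl⟩ _ ⟨y, hy, rfl⟩
    rw [disjoint_iff, ← hf.inf, disjoint_iff.1 (hd x hx y hy), hf.bot]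
  · intro a ha
    exact split_RR hA η ∅ a ha
  · rintro _ ⟨a, ha, rfl⟩
    obtain ⟨b, hb, c, hc, habc⟩ := split_RR hA η ∅ a ha
    exact ⟨f b, ⟨b, hb, rfl⟩, f c, ⟨c, hc, rfl⟩, by rw [habc, hf.sup]⟩
end

section
/-- TARGET -/
theorem uncountable_clopens (s : Sys) : Uncountable (Clopens (XX s)) := by
  have hinj : Function.Injective
      (fun a : Om => (⟨CC s (a, 0), isClopen_CC s (a, 0)⟩ : Clopens (XX s))) := by
    intro a b hab
    have h : CC s (a, 0) = CC s (b, 0) := congrArg (fun U : Clopens (XX s) => (U : Set (XX s))) hab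
    have h1 : a ≤ b := by
      have : pt s (a, 0) ∈ CC s (b, 0) := by rw [← h]; exact self_mem_CC s (a, 0)
      exact lev_le_of_mem_CC this
    have h2 : b ≤ a := by
      have : pt s (b, 0) ∈ CC s (a, 0) := by rw [h]; exact self_mem_CC s (b, 0)
      exact lev_le_of_mem_CC this
    exact le_antisymm h1 h2
  exact hinj.uncountable
end

section
/-- the elements of `L` missing the point at infinity, as a ring of clopen sets -/
def cond1_A {s : Sys} (L : BooleanSubalgebra (Clopens (XX s))) : SubG (Clopens (XX s)) where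
  carrier := {a | a ∈ L ∧ inf s ∉ a}
  bot_mem := ⟨L.bot_mem, (RR s).bot_mem⟩
  sup_mem := fun ha hb => ⟨L.sup_mem ha.1 hb.1, (RR s).sup_mem ha.2 hb.2⟩
  sdiff_mem := fun ha hb => ⟨L.sdiff_mem ha.1 hb.1, (RR s).sdiff_mem ha.2 hb.2⟩

/-- the elements of `L` missing the point at infinity, as a subring of `L` -/
def cond1_I {s : Sys} (L : BooleanSubalgebra (Clopens (XX s))) : SubG L where
  carrier := {a | inf s ∉ a.1}
  bot_mem := (RR s).bot_mem
  sup_mem := fun ha hb => (RR s).sup_mem ha hb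
  sdiff_mem := fun ha hb => (RR s).sdiff_mem ha hb

/-- the two rings are isomorphic -/
def cond1_e {s : Sys} (L : BooleanSubalgebra (Clopens (XX s))) : cond1_I L ≃o cond1_A L where
  toFun := fun a => ⟨a.1.1, a.1.2, a.2⟩
  invFun := fun a => ⟨⟨a.1, a.2.1⟩, a.2.2⟩
  left_inv := fun _ => rfl
  right_inv := fun _ => rfl
  map_rel_iff' := Iff.rfl

lemma cond1_compl {s : Sys} (b : Clopens (XX s)) (h : inf s ∈ b) : inf s ∉ bᶜ := by
  intro h'
  have h1 : inf s ∈ ((bᶜ : Clopens (XX s)) : Set (XX s)) := h'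
  rw [Clopens.coe_compl] at h1
  exact h1 h

lemma cond1_top {s : Sys} : inf s ∈ (⊤ : Clopens (XX s)) := by
  show inf s ∈ ((⊤ : Clopens (XX s)) : Set (XX s))
  rw [Clopens.coe_top]
  trivial

/-- TARGET -/
theorem cond1 {s : Sys} (hA : ∀ η, AX s η) (hN : ∀ η, N1 s η)
    (hK : ∀ S : Set (Option Y × Option Y), ∀ E : Set Om, IsClub E → (∀ η ∈ E, ∃ ζ, ζ < η) →
      ∃ η ∈ E, (Bad S s η ∨ NSat S s η → Kill S s η))
    (L : BooleanSubalgebra (Clopens (XX s))) (hL : Uncountable L) :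
    Nonempty (L ≃o Clopens (XX s)) := by
  have hinf : ∀ a ∈ (cond1_A L).carrier, inf s ∉ a := fun a ha => ha.2
  rcases main_lemma hA hN hK (cond1_A L) hinf with ⟨γ, hγ⟩ | ⟨β, h1, h2, h3⟩
  · exfalso
    have hc : (cond1_A L).carrier.Countable :=
      (countable_lt hA γ).mono (fun a ha => (⟨ha.2, hγ a ha⟩ : inf s ∉ a ∧ Lt γ (a : Set (XX s))))
    have hLc : ((L : Set (Clopens (XX s)))).Countable := by
      refine (hc.union (hc.image fun a => aᶜ)).mono ?_
      intro a ha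
      by_cases h : inf s ∈ a
      · right
        refine ⟨aᶜ, ⟨L.compl_mem ha, cond1_compl a h⟩, compl_compl a⟩
      · left
        exact ⟨ha, h⟩
    have : Countable L := hLc.to_subtype
    exact not_countable (α := L) this
  · obtain ⟨H, hH⟩ := exists_H β
    obtain ⟨η, hη1, hη2, hfin⟩ := h3 H
    obtain ⟨hβ, hr⟩ := hH η hη1 hη2
    obtain ⟨e⟩ := iso_ring hA hN (cond1_A L) hinf hβ hr h1 h2 hfin.toFinset (by
      intro k hk
      rw [Set.Finite.mem_toFinset, Set.mem_setOf_eq] at hk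
      push Not at hk
      exact hk)
    refine unit_iso (cond1_I L) (RR s) ?_ ?_ ?_ ?_ ((cond1_e L).trans e)
    · intro b
      by_cases h : inf s ∈ b.1
      · right
        exact cond1_compl b.1 h
      · left
        exact h
    · intro h
      exact h cond1_top
    · intro b
      by_cases h : inf s ∈ b
      · right
        exact cond1_compl b h
      · left
        exact h
    · intro h
      exact h cond1_top
end

section
lemma cond2_isHom {s : Sys} {D : Type} [BooleanAlgebra D]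
    (f : BoundedLatticeHom (Clopens (XX s)) D) : IsHom (fun U => f U) :=
  ⟨fun a b => map_sup f a b, fun a b => map_sdiff' f a b⟩

lemma cond2_compl {s : Sys} (U : Clopens (XX s)) (h : inf s ∈ U) : inf s ∉ Uᶜ := by
  intro h'
  have h2 : inf s ∈ ((Uᶜ : Clopens (XX s)) : Set (XX s)) := h'
  rw [Clopens.coe_compl] at h2
  exact h2 h

/-- the kernel -/
def cond2_J {s : Sys} {D : Type} [BooleanAlgebra D]
    (f : BoundedLatticeHom (Clopens (XX s)) D) : SubG (Clopens (XX s)) where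
  carrier := {a | inf s ∉ a ∧ f a = ⊥}
  bot_mem := ⟨(RR s).bot_mem, map_bot f⟩
  sup_mem := by
    rintro a b ⟨ha, ha'⟩ ⟨hb, hb'⟩
    refine ⟨(RR s).sup_mem ha hb, ?_⟩
    rw [map_sup, ha', hb']; simp
  sdiff_mem := by
    rintro a b ⟨ha, ha'⟩ ⟨hb, hb'⟩
    refine ⟨(RR s).sdiff_mem ha hb, ?_⟩
    rw [map_sdiff', ha']; simp

lemma cond2_unc {s : Sys} {D : Type} [BooleanAlgebra D]
    (f : BoundedLatticeHom (Clopens (XX s)) D)
    (hf : Function.Surjective f) (hC : Uncountable D) : ¬ (f '' (RR s).carrier).Countable := by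
  intro hc
  have h2 : (compl '' (f '' (RR s).carrier)).Countable := hc.image _
  refine not_countable_univ ((hc.union h2).mono ?_)
  intro c _
  obtain ⟨U, rfl⟩ := hf c
  by_cases h : inf s ∈ U
  · right
    refine ⟨f Uᶜ, ⟨Uᶜ, cond2_compl U h, rfl⟩, ?_⟩
    rw [map_compl', compl_compl]
  · left
    exact ⟨U, h, rfl⟩

lemma cond2_cut {s : Sys} (hA : ∀ η, AX s η) {D : Type} [BooleanAlgebra D]
    (f : BoundedLatticeHom (Clopens (XX s)) D) (β : Om)
    (hβ : ∀ y : Y, β ≤ y.1 → ∃ a ∈ (cond2_J f).carrier, pt s y ∈ a) (U : Clopens (XX s))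
    (hU : inf s ∉ U) : ∃ V : Clopens (XX s), inf s ∉ V ∧ Lt β (V : Set (XX s)) ∧ f V = f U := by
  haveI := compact_XX hA
  let S : Set (XX s) := (U : Set (XX s)) ∩ (⋃ p : {p : Y // p.1 < β}, CC s p.1)ᶜ
  have hSc : IsClosed S := by
    refine U.isClopen.1.inter ?_
    rw [isClosed_compl_iff]
    exact isOpen_iUnion fun p => (isClopen_CC s p.1).2
  have hSk : IsCompact S := hSc.isCompact
  haveI : Nonempty {a // a ∈ (cond2_J f).carrier} := ⟨⟨⊥, (cond2_J f).bot_mem⟩⟩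
  obtain ⟨a, ha⟩ := hSk.elim_directed_cover
    (fun a : {a // a ∈ (cond2_J f).carrier} => (a.1 : Set (XX s)))
    (fun a => a.1.isClopen.2)
    (by
      intro x hx
      rcases XX_cases x with rfl | ⟨y, rfl⟩
      · exact absurd hx.1 hU
      · have hy : β ≤ y.1 := by
          by_contra hlt
          apply hx.2
          rw [mem_iUnion]
          exact ⟨⟨y, not_le.1 hlt⟩, self_mem_CC s y⟩
        obtain ⟨a, ha, hya⟩ := hβ y hy
        rw [mem_iUnion]
        exact ⟨⟨a, ha⟩, hya⟩)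
    (by
      intro a b
      refine ⟨⟨a.1 ⊔ b.1, (cond2_J f).sup_mem a.2 b.2⟩, ?_, ?_⟩
      · show (a.1 : Set (XX s)) ⊆ ((a.1 ⊔ b.1 : Clopens (XX s)) : Set (XX s))
        rw [Clopens.coe_sup]; exact subset_union_left
      · show (b.1 : Set (XX s)) ⊆ ((a.1 ⊔ b.1 : Clopens (XX s)) : Set (XX s))
        rw [Clopens.coe_sup]; exact subset_union_right)
  refine ⟨U \ a.1, (RR s).sdiff_mem hU a.2.1, ?_, ?_⟩
  · intro y hy
    rw [Clopens.coe_sdiff] at hy
    by_contra hlt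
    apply hy.2
    apply ha
    refine ⟨hy.1, ?_⟩
    rw [mem_compl_iff, mem_iUnion]
    rintro ⟨p, hp⟩
    exact hlt ((lev_le_of_mem_CC hp).trans_lt p.2)
  · rw [map_sdiff', a.2.2]; simp

/-- TARGET -/
theorem cond2 {s : Sys} (hA : ∀ η, AX s η) (hN : ∀ η, N1 s η)
    (hK : ∀ S : Set (Option Y × Option Y), ∀ E : Set Om, IsClub E → (∀ η ∈ E, ∃ ζ, ζ < η) →
      ∃ η ∈ E, (Bad S s η ∨ NSat S s η → Kill S s η))
    {C : Type} [BooleanAlgebra C] (f : BoundedLatticeHom (Clopens (XX s)) C)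
    (hf : Function.Surjective f) (hC : Uncountable C) : Nonempty (C ≃o Clopens (XX s)) := by
  have hfH := cond2_isHom f
  have hunc := cond2_unc f hf hC
  rcases main_lemma hA hN hK (cond2_J f) (fun a ha => ha.1) with ⟨β, hβ⟩ | ⟨β, hβ, _, _⟩
  · obtain ⟨H, hH⟩ := exists_H β
    obtain ⟨η, ⟨hlim, hcl⟩, hβη⟩ := (club_closure H).1 β
    obtain ⟨h1, h2⟩ := hH η hlim hcl
    obtain ⟨e⟩ := iso_ring2 hA hN (fun U => f U) hfH h1 h2 (fun U hU hU' => hβ U ⟨hU, hU'⟩)
    refine unit_iso (mapG (fun U => f U) hfH (RR s)) (RR s) ?_ ?_ ?_ ?_ e.symm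
    · intro c
      obtain ⟨U, rfl⟩ := hf c
      by_cases h : inf s ∈ U
      · right
        exact ⟨Uᶜ, cond2_compl U h, map_compl' f U⟩
      · left
        exact ⟨U, h, rfl⟩
    · rintro ⟨U, hU, hU'⟩
      obtain ⟨F, hF, hFU⟩ := clopen_cover hA U.isClopen.1 hU
      obtain ⟨γ, hγ⟩ := bdd_of_countable ((F.finite_toSet.image Prod.fst).countable)
      have hLt : Lt γ (U : Set (XX s)) := by
        intro y hy
        obtain ⟨p, hp, hyp⟩ := hFU hy
        exact (lev_le_of_mem_CC hyp).trans_lt (hγ _ ⟨p, hp, rfl⟩)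
      refine not_countable_univ (((countable_lt hA γ).image f).mono ?_)
      intro c _
      obtain ⟨b, rfl⟩ := hf c
      refine ⟨b ⊓ U, ⟨?_, ?_⟩, ?_⟩
      · intro h
        have h' : inf s ∈ ((b ⊓ U : Clopens (XX s)) : Set (XX s)) := h
        rw [Clopens.coe_inf] at h'
        exact hU h'.2
      · intro y hy
        rw [Clopens.coe_inf] at hy
        exact hLt y hy.2
      · have h3 : f U = ⊤ := hU'
        rw [map_inf, h3, inf_top_eq]
    · intro U
      by_cases h : inf s ∈ U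
      · exact Or.inr (cond2_compl U h)
      · exact Or.inl h
    · intro h
      apply h
      show inf s ∈ ((⊤ : Clopens (XX s)) : Set (XX s))
      rw [Clopens.coe_top]
      exact mem_univ _
  · exfalso
    apply hunc
    refine ((countable_lt hA β).image f).mono ?_
    rintro _ ⟨U, hU, rfl⟩
    obtain ⟨V, hV1, hV2, hV3⟩ := cond2_cut hA f β hβ U hU
    exact ⟨V, ⟨hV1, hV2⟩, hV3⟩
end

section
/-- the elements below `U` in a subring which is downward closed at `U` -/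
def cond3_iso {A : Type} [GeneralizedBooleanAlgebra A] (S : SubG A) (U : S)
    (hd : ∀ V : A, V ≤ U.1 → V ∈ S.carrier) : Iic U ≃o Iic U.1 where
  toFun x := ⟨x.1.1, x.2⟩
  invFun y := ⟨⟨y.1, hd _ y.2⟩, y.2⟩
  left_inv _ := rfl
  right_inv _ := rfl
  map_rel_iff' := Iff.rfl

lemma cond3_down {s : Sys} : ∀ U ∈ (RR s).carrier, ∀ V : Clopens (XX s), V ≤ U →
    V ∈ (RR s).carrier :=
  fun _ hU _ hV h => hU (hV h)

/-- every clopen set without `inf` is of countable rank -/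
lemma cond3_CB {s : Sys} (hA : ∀ η, AX s η) (hN : ∀ η, N1 s η) (U : Clopens (XX s))
    (hU : inf s ∉ U) : CB (Ordinal.omega 1) U := by
  obtain ⟨F, hF, hUF⟩ := clopen_cover hA U.isClopen.1 hU
  obtain ⟨γ, hγ⟩ := bdd_of_countable (A := (fun p : Y => p.1) '' (↑F : Set Y))
    ((F.countable_toSet).image _)
  have hLt : Lt γ (U : Set (XX s)) := by
    intro y hy
    obtain ⟨p, hp, hyp⟩ := mem_TX.1 (hUF hy)
    exact (lev_le_of_mem_CC hyp).trans_lt (hγ _ ⟨p, hp, rfl⟩)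
  have h1 : CB (rk γ) (⟨U, hU⟩ : RR s) :=
    (CB_iff_Lt hA hN (RR s) (fun U hU => hU) cond3_down γ ⟨U, hU⟩).2 hLt
  have h2 : CB (rk γ) U :=
    (CB_congr (x := (⟨U, hU⟩ : RR s)) (y := U)
      (cond3_iso (RR s) ⟨U, hU⟩ (fun V hV => cond3_down U hU V hV)) (rk γ)).1 h1
  exact CB_mono (rk_lt γ).le h2

lemma cond3_top {s : Sys} (hA : ∀ η, AX s η) (hN : ∀ η, N1 s η) :
    CB (Ordinal.omega 1 + 1) (⊤ : Clopens (XX s)) := by
  rw [CB_succ]
  refine ⟨{⊥, ⊤}, by simp, fun y _ => ?_⟩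
  by_cases h : inf s ∈ y
  · refine ⟨⊤, by simp, ?_⟩
    rw [symmDiff_top]
    apply cond3_CB hA hN
    intro h'
    have h2 : inf s ∈ ((yᶜ : Clopens (XX s)) : Set (XX s)) := h'
    rw [Clopens.coe_compl] at h2
    exact h2 h
  · refine ⟨⊥, by simp, ?_⟩
    rw [symmDiff_bot]
    exact cond3_CB hA hN y h

lemma cond3_no {C : Type} [GeneralizedBooleanAlgebra C] [Countable C] {y : C}
    (hy : CAtom (Ordinal.omega 1) y) : False := by
  have hlim : ∀ z : C, ∃ γ : Om, CB (Ordinal.omega 1) z → CB (rk γ) z := by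
    intro z
    by_cases hz : z = ⊥
    · exact ⟨Classical.arbitrary Om, fun _ => hz ▸ CB_bot _⟩
    by_cases hz' : CB (Ordinal.omega 1) z
    · obtain ⟨p, hp, h⟩ := CB_lim hz' hz
      have hp1 : p + 1 < Ordinal.omega 1 := by
        have := (Cardinal.isSuccLimit_omega 1).succ_lt hp
        simpa using this
      obtain ⟨γ, hγ⟩ := exists_rk hp1
      exact ⟨γ, fun _ => hγ ▸ h⟩
    · exact ⟨Classical.arbitrary Om, fun h => absurd h hz'⟩
  choose γ hγ using hlim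
  obtain ⟨g, hg⟩ := bdd_of_countable (countable_range γ)
  have hall : ∀ z : C, CB (Ordinal.omega 1) z → CB (rk g) z := fun z hz =>
    CB_mono (rk_le_iff.2 (hg _ ⟨z, rfl⟩).le) (hγ z hz)
  apply hy.1
  have h1 : CB (rk g + 1) y := by
    rw [CB_succ]
    refine ⟨{⊥, y}, by simp, fun z hz => ?_⟩
    rcases hy.2 z hz with h | h
    · refine ⟨⊥, by simp, ?_⟩
      rw [symmDiff_bot]
      exact hall z h
    · refine ⟨y, by simp, ?_⟩
      rw [symmDiff_of_le hz]
      exact hall _ h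
  exact CB_mono (Order.add_one_le_of_lt (rk_lt g)) h1

/-- TARGET -/
theorem cond3 {s : Sys} (hA : ∀ η, AX s η) (hN : ∀ η, N1 s η)
    {C : Type} [BooleanAlgebra C] (f : BoundedLatticeHom (Clopens (XX s)) C)
    (hf : Function.Surjective f) (hC : Countable C) :
    ∃ b : Clopens (XX s), Nonempty (C ≃o Set.Iic b) := by
  classical
  by_cases htb : (⊤ : C) = ⊥
  · have hsub : ∀ x : C, x = ⊥ := fun x => le_bot_iff.1 (htb ▸ le_top)
    refine ⟨⊥, ⟨{ toFun := fun _ => ⟨⊥, Set.mem_Iic.2 bot_le⟩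
                  invFun := fun _ => ⊥
                  left_inv := fun x => (hsub x).symm
                  right_inv := fun x => Subtype.ext (le_bot_iff.1 x.2).symm
                  map_rel_iff' := ?_ }⟩⟩
    intro a b
    rw [hsub a, hsub b]
    simp
  have hhom : IsHom (f : Clopens (XX s) → C) := ⟨fun a b => map_sup f a b, fun a b => map_sdiff' f a b⟩
  have h1 : CB (Ordinal.omega 1 + 1) (⊤ : C) := by
    have h := H2 (f := (f : Clopens (XX s) → C)) hhom (β := 0) (fun b => by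
      obtain ⟨a, rfl⟩ := hf b
      exact ⟨a, by rw [symmDiff_self]; exact CB_bot 0⟩) _ _ (cond3_top hA hN)
    rw [zero_add, map_top] at h
    exact h
  obtain ⟨p, hp, k, hk, hT⟩ := exists_Typ h1 htb
  have hp1 : p < Ordinal.omega 1 := by
    rcases lt_or_eq_of_le (Order.lt_add_one_iff.1 hp) with h | h
    · exact h
    · subst h
      obtain ⟨k', rfl⟩ := Nat.exists_eq_succ_of_ne_zero hk.ne'
      obtain ⟨y, _, hy, _⟩ := hT
      exact (cond3_no hy).elim
  obtain ⟨η, rfl⟩ := exists_rk hp1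
  have hset : IsClopen {x : XX s | ∃ i ∈ Finset.range k, x ∈ CC s (η, i)} := by
    have : {x : XX s | ∃ i ∈ Finset.range k, x ∈ CC s (η, i)} =
        ⋃ i ∈ Finset.range k, CC s (η, i) := by
      ext x; simp
    rw [this]
    exact isClopen_biUnion_finset (fun i _ => isClopen_CC s (η, i))
  let b : Clopens (XX s) := ⟨_, hset⟩
  have hb : inf s ∉ b := by
    rintro ⟨i, _, hi⟩
    exact inf_notMem_CC hi
  have hTb : Typ (rk η) k (⟨b, hb⟩ : RR s) := by
    have := typ_bad hA hN (RR s) (fun U hU => hU) cond3_down η (Finset.range k) ⟨b, hb⟩ rfl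
    rwa [Finset.card_range] at this
  obtain ⟨η', hη'⟩ := exists_gt' η
  have hcb : (Iic (⟨b, hb⟩ : RR s)).Countable := by
    have hc := countable_lt hA (s := s) η'
    have : (Iic (⟨b, hb⟩ : RR s)) ⊆ (fun U : RR s => U.1) ⁻¹'
        {U : Clopens (XX s) | inf s ∉ U ∧ Lt η' (U : Set (XX s))} := by
      intro U hU
      refine ⟨U.2, fun y hy => ?_⟩
      obtain ⟨i, _, hi⟩ := (hU : U.1 ≤ b) hy
      exact (lev_le_of_mem_CC hi).trans_lt hη'
    exact (hc.preimage_of_injOn Subtype.val_injective.injOn).mono this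
  have hca : (Iic (⊤ : C)).Countable := Set.to_countable _
  obtain ⟨e⟩ := classify hca hcb hT hTb
  refine ⟨b, ⟨(OrderIso.trans ?_ e).trans
    (cond3_iso (RR s) ⟨b, hb⟩ (fun V hV => cond3_down b hb V hV))⟩⟩
  exact { toFun := fun x => ⟨x, le_top⟩
          invFun := fun x => x.1
          left_inv := fun _ => rfl
          right_inv := fun _ => rfl
          map_rel_iff' := Iff.rfl }
end

end Pool.Agent.Helper220.ISAP
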