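import Pool.Agent.Helper220.ISAP.SysDefs

set_option autoImplicit false
set_option linter.all false

namespace Pool.Agent.Helper220.ISAP

open Set

section
/-- TARGET -/
theorem lab_fin {s : Sys} {ξ : Om} (h : AX s ξ) (p : Y) (hp : p.1 < ξ) : (lab s ξ '' C s p).Finite := by
  have key : ∀ a : Om, ∀ p : Y, p.1 = a → p.1 < ξ → (lab s ξ '' C s p).Finite := by
    intro a
    refine (wellFounded_lt (α := Om)).induction
      (C := fun a => ∀ p : Y, p.1 = a → p.1 < ξ → (lab s ξ '' C s p).Finite) a ?_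
    intro a ih p hpa hpξ
    obtain ⟨F, hF, hFsub⟩ := h p.1 hpξ
    have hfin : ({s ξ p} ∪ ⋃ q ∈ F, lab s ξ '' C s q : Set (Option ℕ)).Finite := by
      refine (finite_singleton _).union (F.finite_toSet.biUnion ?_)
      intro q hq
      have hq' : q.1 < p.1 := hF q hq
      exact ih q.1 (hpa ▸ hq') q rfl (hq'.trans hpξ)
    refine hfin.subset ?_
    rintro _ ⟨x, hx, rfl⟩
    cases x with
    | none => exact absurd hx none_notMem_C
    | some y =>
      by_cases hy : some y ∈ TT s F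
      · obtain ⟨q, hq, hyq⟩ := hy
        refine Or.inr ?_
        rw [mem_iUnion₂]
        exact ⟨q, hq, some y, hyq, rfl⟩
      · refine Or.inl ?_
        rw [mem_singleton_iff]
        rcases mem_C_some.1 hx with rfl | ⟨hlt, hsy⟩
        · rfl
        · by_contra hne
          apply hy
          apply hFsub
          refine ⟨y, rfl, hlt, ?_⟩
          rw [ret_lt hlt, hsy]
          exact hne
  exact key p.1 p rfl hp
end

section
lemma asat_C_lt {s : Sys} {p y : Y} (h : y.1 < p.1) : some y ∈ C s p ↔ s p.1 y = some p.2 := by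
  rw [mem_C_some]
  constructor
  · rintro (rfl | h')
    · exact absurd h (lt_irrefl _)
    · exact h'.2
  · intro h'
    exact Or.inr ⟨h, h'⟩

/-- TARGET -/
theorem asat_C {s : Sys} (p : Y) (ξ : Om) (h : AX s p.1) :
    Sm s ξ {x | ∃ y : Y, x = some y ∧ y.1 < ξ ∧ ¬ (some y ∈ C s p ↔ ret s ξ (some y) ∈ C s p)} := by
  rcases lt_trichotomy p.1 ξ with hp | hp | hp
  · refine Sm_mono ?_ (Sm_C hp)
    rintro x ⟨y, rfl, hy, hne⟩
    by_contra hx
    apply hne
    refine iff_of_false hx ?_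
    rw [ret_lt hy]
    cases hs : s ξ y with
    | none => exact none_notMem_C
    | some i =>
      intro hmem
      have := lev_le_of_mem (show some ((ξ, i) : Y) ∈ C s p from hmem)
      exact absurd hp (not_lt.2 this)
  · refine Sm_mono ?_ Sm_empty
    rintro x ⟨y, rfl, hy, hne⟩
    exfalso
    apply hne
    rw [asat_C_lt (hp ▸ hy), ret_lt hy]
    cases hs : s ξ y with
    | none =>
      rw [hp, hs]
      refine iff_of_false (by simp) ?_
      exact none_notMem_C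
    | some i =>
      rw [hp, hs]
      have h1 : (Option.map (fun i => ((ξ, i) : Y)) (some i)) = some ((ξ, i) : Y) := rfl
      rw [h1, mem_C_some]
      constructor
      · intro h2
        left
        rw [Option.some.injEq] at h2
        exact Prod.ext hp.symm h2
      · rintro (h2 | h2)
        · rw [← h2]
        · exact absurd h2.1 (by rw [hp]; exact lt_irrefl _)
  · refine Sm_mono ?_ (h ξ hp)
    rintro x ⟨y, rfl, hy, hne⟩
    refine ⟨y, rfl, hy, fun he => hne ?_⟩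
    rw [asat_C_lt (hy.trans hp), he, ret_lt hy]
    cases hs : s ξ y with
    | none => exact iff_of_false (by simp [lab]) none_notMem_C
    | some i =>
      have h1 : (Option.map (fun i => ((ξ, i) : Y)) (some i)) = some ((ξ, i) : Y) := rfl
      rw [h1, asat_C_lt (show ((ξ, i) : Y).1 < p.1 from hp)]
      rfl
end

section
/-- TARGET -/
theorem ret_comp {s : Sys} {ξ ζ : Om} (hξ : ξ ≤ ζ) (h : AX s ζ) :
    Sm s ξ {x | ∃ y : Y, x = some y ∧ y.1 < ξ ∧ ret s ζ (ret s ξ (some y)) ≠ ret s ζ (some y)} := by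
  rcases eq_or_lt_of_le hξ with he | hlt
  · subst he
    refine Sm_mono ?_ Sm_empty
    rintro x ⟨y, -, hy, hne⟩
    exfalso
    apply hne
    rw [ret_lt hy]
    rcases hs : s ξ y with _ | i
    · rfl
    · show ret s ξ (some (ξ, i)) = some (ξ, i)
      exact ret_ge le_rfl
  · refine Sm_mono ?_ (h ξ hlt)
    rintro x ⟨y, hx, hy, hne⟩
    refine ⟨y, hx, hy, fun heq => hne ?_⟩
    rw [ret_lt (hy.trans hlt)]
    rw [ret_lt hy] at heq ⊢
    rcases hs : s ξ y with _ | i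
    · rw [hs] at heq
      have h1 : s ζ y = none := heq
      rw [h1]
      rfl
    · rw [hs] at heq
      have h1 : s ζ y = s ζ (ξ, i) := heq
      show ret s ζ (some (ξ, i)) = _
      rw [ret_lt (show ((ξ, i) : Y).1 < ζ from hlt), h1]
end

section
/-- TARGET -/
theorem pc_C {s : Sys} {η : Om} (hA : ∀ ξ < η, AX s ξ) (p : Y) (hp : p.1 < η) : Pc s η (C s p) :=
  ⟨Sm_C hp, fun ξ _ => asat_C p ξ (hA p.1 hp)⟩
end

section
/-- TARGET -/
theorem pc_diff {s : Sys} {η : Om} {V W : Set (Option Y)} (hV : Pc s η V) (hW : Pc s η W) :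
    Pc s η (V \ W) := by
  refine ⟨Sm_mono diff_subset hV.1, fun ξ hξ => ?_⟩
  refine Sm_mono ?_ (Sm_union (hV.2 ξ hξ) (hW.2 ξ hξ))
  rintro x ⟨y, rfl, hy, hn⟩
  by_cases h1 : (some y ∈ V ↔ ret s ξ (some y) ∈ V)
  · by_cases h2 : (some y ∈ W ↔ ret s ξ (some y) ∈ W)
    · exfalso
      apply hn
      rw [mem_diff, mem_diff, h1, h2]
    · exact Or.inr ⟨y, rfl, hy, h2⟩
  · exact Or.inl ⟨y, rfl, hy, h1⟩
end

section
/-- TARGET -/
theorem pc_union {s : Sys} {η : Om} {V W : Set (Option Y)} (hV : Pc s η V) (hW : Pc s η W) :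
    Pc s η (V ∪ W) := by
  refine ⟨Sm_union hV.1 hW.1, fun ξ hξ => Sm_mono ?_ (Sm_union (hV.2 ξ hξ) (hW.2 ξ hξ))⟩
  rintro x ⟨y, rfl, hy, h⟩
  by_cases h1 : some y ∈ V ↔ ret s ξ (some y) ∈ V
  · by_cases h2 : some y ∈ W ↔ ret s ξ (some y) ∈ W
    · exact absurd (by rw [mem_union, mem_union, h1, h2]) h
    · exact Or.inr ⟨y, rfl, hy, h2⟩
  · exact Or.inl ⟨y, rfl, hy, h1⟩
end

section
/-- TARGET -/
theorem pc_TT {s : Sys} {η : Om} (hA : ∀ ξ < η, AX s ξ) (F : Finset Y) (hF : ∀ p ∈ F, p.1 < η) :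
    Pc s η (TT s F) := by
  classical
  induction F using Finset.induction_on with
  | empty =>
    have h0 : TT s (∅ : Finset Y) = ∅ := by
      ext x
      simp [TT]
    rw [h0]
    refine ⟨Sm_empty, fun ξ _ => ?_⟩
    refine Sm_mono ?_ (Sm_empty (s := s) (ξ := ξ))
    rintro x ⟨y, _, _, h⟩
    exact absurd (Iff.intro (fun h => absurd h (by simp)) (fun h => absurd h (by simp))) h
  | insert p F hp ih =>
    have h1 : TT s (insert p F) = C s p ∪ TT s F := by
      ext x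
      simp only [TT, mem_setOf_eq, mem_union, Finset.mem_insert]
      constructor
      · rintro ⟨q, rfl | hq, hx⟩
        · exact Or.inl hx
        · exact Or.inr ⟨q, hq, hx⟩
      · rintro (hx | ⟨q, hq, hx⟩)
        · exact ⟨p, Or.inl rfl, hx⟩
        · exact ⟨q, Or.inr hq, hx⟩
    rw [h1]
    exact pc_union (pc_C hA p (hF p (Finset.mem_insert_self p F)))
      (ih (fun q hq => hF q (Finset.mem_insert_of_mem hq)))
end

section
lemma pc_ret_biUnion {s : Sys} {ξ : Om} (F : Finset Y) (A : Y → Set (Option Y))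
    (h : ∀ q ∈ F, Sm s ξ (A q)) : Sm s ξ {x | ∃ q ∈ F, x ∈ A q} := by
  classical
  induction F using Finset.induction_on with
  | empty => exact Sm_mono (by rintro x ⟨q, hq, _⟩; simp at hq) Sm_empty
  | insert a F ha ih =>
    refine Sm_mono ?_ (Sm_union (h a (Finset.mem_insert_self _ _))
      (ih fun q hq => h q (Finset.mem_insert_of_mem hq)))
    rintro x ⟨q, hq, hx⟩
    rcases Finset.mem_insert.1 hq with rfl | hq
    · exact Or.inl hx
    · exact Or.inr ⟨q, hq, hx⟩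

lemma pc_ret_factA {s : Sys} {ζ : Om} (q : Y) (h : AX s q.1) :
    Sm s ζ {x | ret s ζ x ∈ C s q ∧ x ∉ C s q} := by
  refine Sm_mono ?_ (asat_C q ζ h)
  rintro x ⟨h1, h2⟩
  cases x with
  | none => exact absurd h1 none_notMem_C
  | some y =>
    refine ⟨y, rfl, ?_, fun h3 => h2 (h3.2 h1)⟩
    by_contra hc
    rw [ret_ge (not_lt.1 hc)] at h1
    exact h2 h1

lemma pc_ret_factB {s : Sys} {ζ : Om} (F : Finset Y) (h : ∀ q ∈ F, AX s q.1) :
    Sm s ζ {x | ret s ζ x ∈ TT s F ∧ x ∉ TT s F} := by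
  refine Sm_mono ?_ (pc_ret_biUnion F (fun q => {x | ret s ζ x ∈ C s q ∧ x ∉ C s q})
    fun q hq => pc_ret_factA q (h q hq))
  rintro x ⟨⟨q, hq, h1⟩, h2⟩
  exact ⟨q, hq, h1, fun h3 => h2 ⟨q, hq, h3⟩⟩

lemma pc_ret_fix {s : Sys} {ζ ξ : Om} (h : ζ < ξ) {y : Y} (hy : y.1 < ξ) :
    ret s ζ (ret s ξ (some y)) = ret s ξ (some y) := by
  rw [ret_lt hy]
  cases hs : s ξ y with
  | none => rfl
  | some i => exact ret_ge h.le

/-- TARGET -/
theorem pc_ret {s : Sys} {η : Om} (hA : ∀ ξ < η, AX s ξ) {ζ : Om} (hζ : ζ < η)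
    {V : Set (Option Y)} (hV : Pc s η V) : Pc s η {x | ret s ζ x ∈ V} := by
  obtain ⟨⟨F, hF, hVF⟩, hV2⟩ := hV
  have hnone : (none : Option Y) ∉ V := fun h => none_notMem_TT (hVF h)
  refine ⟨?_, ?_⟩
  · refine Sm_mono ?_ (Sm_union ⟨F, hF, Subset.rfl⟩
      (Sm_lev hζ.le (pc_ret_factB (ζ := ζ) F fun q hq => hA q.1 (hF q hq))))
    intro x hx
    by_cases h : x ∈ TT s F
    · exact Or.inl h
    · exact Or.inr ⟨hVF hx, h⟩
  · intro ξ hξ
    rcases le_or_gt ξ ζ with hle | hlt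
    · refine Sm_mono ?_ (ret_comp hle (hA ζ hζ))
      rintro x ⟨y, rfl, hy, hne⟩
      refine ⟨y, rfl, hy, fun heq => hne ?_⟩
      show ret s ζ (some y) ∈ V ↔ ret s ζ (ret s ξ (some y)) ∈ V
      rw [heq]
    · obtain ⟨S, hS, hSV⟩ := hV2 ξ hξ
      have hX1 := Sm_lev hlt.le (ret_comp (s := s) hlt.le (hA ξ hξ))
      have hX2 := Sm_lev hlt.le (pc_ret_factB (ζ := ζ) S
        fun q hq => hA q.1 ((hS q hq).trans hξ))
      refine Sm_mono ?_ (Sm_union (Sm_union ⟨S, hS, Subset.rfl⟩ hX1) hX2)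
      rintro x ⟨y, rfl, hy, hne⟩
      change ¬ (ret s ζ (some y) ∈ V ↔ ret s ζ (ret s ξ (some y)) ∈ V) at hne
      rw [pc_ret_fix hlt hy] at hne
      rcases le_or_gt ζ y.1 with h1 | h1
      · rw [ret_ge h1] at hne
        exact Or.inl (Or.inl (hSV ⟨y, rfl, hy, hne⟩))
      · by_cases h2 : ret s ξ (ret s ζ (some y)) = ret s ξ (some y)
        · cases h3 : ret s ζ (some y) with
          | none =>
            exfalso
            rw [h3] at h2 hne
            rw [ret_none] at h2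
            rw [← h2] at hne
            exact hne Iff.rfl
          | some y' =>
            have hy' : y'.1 = ζ := by
              rw [ret_lt h1] at h3
              cases hs : s ζ y with
              | none => rw [hs] at h3; simp at h3
              | some i =>
                rw [hs] at h3
                simp only [Option.map_some, Option.some.injEq] at h3
                rw [← h3]
            rw [h3] at h2 hne
            rw [← h2] at hne
            have h4 : some y' ∈ TT s S := hSV ⟨y', rfl, by rw [hy']; exact hlt, hne⟩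
            by_cases h5 : some y ∈ TT s S
            · exact Or.inl (Or.inl h5)
            · refine Or.inr ⟨?_, h5⟩
              rw [h3]
              exact h4
        · exact Or.inl (Or.inr ⟨y, rfl, h1, h2⟩)
end

section
open Classical in
theorem ret_img_low {s : Sys} {ζ : Om} (hA : AX s ζ) (q : Y) (hq : q.1 < ζ) :
    ∃ G : Finset Y, (∀ g ∈ G, g.1 = ζ) ∧ ∀ x ∈ C s q,
      ret s ζ x = none ∨ ∃ g ∈ G, ret s ζ x = some g := by
  have hfin := lab_fin hA q hq
  refine ⟨hfin.toFinset.image (fun o : Option ℕ => (ζ, o.getD 0)), ?_, ?_⟩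
  · intro g hg
    obtain ⟨o, _, rfl⟩ := Finset.mem_image.1 hg
    rfl
  · intro x hx
    obtain ⟨y, rfl, hy⟩ := id hx
    have hlev : y.1 < ζ := (lev_le_of_mem hx).trans_lt hq
    rw [ret_lt hlev]
    rcases hs : s ζ y with _ | i
    · left; rfl
    · right
      refine ⟨(ζ, i), Finset.mem_image.2 ⟨some i, ?_, rfl⟩, rfl⟩
      rw [Set.Finite.mem_toFinset]
      exact ⟨some y, hx, hs⟩

open Classical in
theorem ret_img_one {s : Sys} {η : Om} (hA : ∀ ξ < η, AX s ξ) {ζ : Om} (hζ : ζ < η) (p : Y)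
    (hp : p.1 < η) : ∃ G : Finset Y, (∀ g ∈ G, g.1 = ζ) ∧ ∀ x ∈ C s p,
      ret s ζ x = none ∨ ret s ζ x ∈ C s p ∨ ∃ g ∈ G, ret s ζ x = some g := by
  by_cases h : p.1 < ζ
  · obtain ⟨G, h1, h2⟩ := ret_img_low (hA ζ hζ) p h
    refine ⟨G, h1, fun x hx => ?_⟩
    rcases h2 x hx with h3 | h3
    · exact Or.inl h3
    · exact Or.inr (Or.inr h3)
  · have hlow : ∀ q : Y, ∃ G : Finset Y, (∀ g ∈ G, g.1 = ζ) ∧ (q.1 < ζ → ∀ x ∈ C s q,
        ret s ζ x = none ∨ ∃ g ∈ G, ret s ζ x = some g) := by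
      intro q
      by_cases hq : q.1 < ζ
      · obtain ⟨G, h1, h2⟩ := ret_img_low (hA ζ hζ) q hq
        exact ⟨G, h1, fun _ => h2⟩
      · exact ⟨∅, by simp, fun hq' => absurd hq' hq⟩
    choose G hG1 hG2 using hlow
    obtain ⟨Fp, hF1, hF2⟩ := asat_C p ζ (hA p.1 hp)
    refine ⟨Fp.biUnion G, ?_, ?_⟩
    · intro g hg
      obtain ⟨q, _, hq⟩ := Finset.mem_biUnion.1 hg
      exact hG1 q g hq
    · intro x hx
      obtain ⟨y, rfl, hy⟩ := id hx
      by_cases hyl : y.1 < ζ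
      · by_cases hr : ret s ζ (some y) ∈ C s p
        · exact Or.inr (Or.inl hr)
        · have hmem : (some y : Option Y) ∈ {x | ∃ y : Y, x = some y ∧ y.1 < ζ ∧
              ¬ (some y ∈ C s p ↔ ret s ζ (some y) ∈ C s p)} :=
            ⟨y, rfl, hyl, fun hiff => hr (hiff.1 hx)⟩
          obtain ⟨q, hq, hxq⟩ := hF2 hmem
          rcases hG2 q (hF1 q hq) _ hxq with h3 | ⟨g, hg, h3⟩
          · exact Or.inl h3
          · exact Or.inr (Or.inr ⟨g, Finset.mem_biUnion.2 ⟨q, hq, hg⟩, h3⟩)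
      · right; left
        rw [ret_ge (not_lt.1 hyl)]
        exact hx

/-- TARGET -/
theorem ret_img {s : Sys} {η : Om} (hA : ∀ ξ < η, AX s ξ) {ζ : Om} (hζ : ζ < η) (F : Finset Y)
    (hF : ∀ p ∈ F, p.1 < η) : ∃ F' : Finset Y, (∀ p ∈ F', p.1 < η) ∧ F ⊆ F' ∧
      ∀ x ∈ TT s F, ret s ζ x = none ∨ ret s ζ x ∈ TT s F' := by
  classical
  have hone : ∀ p : Y, ∃ G : Finset Y, (∀ g ∈ G, g.1 = ζ) ∧ (p.1 < η → ∀ x ∈ C s p,
      ret s ζ x = none ∨ ret s ζ x ∈ C s p ∨ ∃ g ∈ G, ret s ζ x = some g) := by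
    intro p
    by_cases hp : p.1 < η
    · obtain ⟨G, h1, h2⟩ := ret_img_one hA hζ p hp
      exact ⟨G, h1, fun _ => h2⟩
    · exact ⟨∅, by simp, fun hp' => absurd hp' hp⟩
  choose G hG1 hG2 using hone
  refine ⟨F ∪ F.biUnion G, ?_, Finset.subset_union_left, ?_⟩
  · intro p hp
    rcases Finset.mem_union.1 hp with h | h
    · exact hF p h
    · obtain ⟨q, _, hq⟩ := Finset.mem_biUnion.1 h
      rw [hG1 q p hq]
      exact hζ
  · rintro x ⟨p, hp, hx⟩
    rcases hG2 p (hF p hp) x hx with h | h | ⟨g, hg, h⟩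
    · exact Or.inl h
    · exact Or.inr ⟨p, Finset.mem_union_left _ hp, h⟩
    · right
      rw [h]
      exact ⟨g, Finset.mem_union_right _ (Finset.mem_biUnion.2 ⟨p, hp, hg⟩), self_mem_C s g⟩
end

section
lemma piece_one {s : Sys} {η : Om} (hA : ∀ ξ < η, AX s ξ) {ζ : Om} (hζ : ζ < η) {ξ : Om}
    (hξ : ξ ≤ ζ) : ∃ F' : Finset Y, (∀ p ∈ F', p.1 < η) ∧ ∀ y : Y, y.1 < ξ →
      ret s ζ (ret s ξ (some y)) ≠ ret s ζ (some y) →
      (ret s ζ (some y) = none ∨ ret s ζ (some y) ∈ TT s F') ∧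
      (ret s ζ (ret s ξ (some y)) = none ∨ ret s ζ (ret s ξ (some y)) ∈ TT s F') := by
  obtain ⟨E, hE, hcov⟩ := ret_comp hξ (hA ζ hζ)
  have hE' : ∀ p ∈ E, p.1 < η := fun p hp => (hE p hp).trans (hξ.trans_lt hζ)
  obtain ⟨F1, h1, h2, h3⟩ := ret_img hA (hξ.trans_lt hζ) E hE'
  obtain ⟨F2, g1, g2, g3⟩ := ret_img hA hζ F1 h1
  refine ⟨F2, g1, fun y hy hne => ?_⟩
  have hm : (some y : Option Y) ∈ TT s E := hcov ⟨y, rfl, hy, hne⟩
  refine ⟨g3 _ (TT_mono h2 hm), ?_⟩
  rcases h3 _ hm with h | h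
  · left; rw [h]; rfl
  · exact g3 _ h

/-- TARGET -/
theorem piece {s : Sys} {η : Om} (hA : ∀ ξ < η, AX s ξ) {ζ : Om} (hζ : ζ < η) (F : Finset Y)
    (hF : ∀ p ∈ F, p.1 < η) (Ξ : Finset Om) (hΞ : ∀ ξ ∈ Ξ, ξ ≤ ζ) :
    ∃ F' : Finset Y, (∀ p ∈ F', p.1 < η) ∧ F ⊆ F' ∧ ∀ y : Y, ζ ≤ y.1 → y.1 < η →
      some y ∉ TT s F' → ∀ z : Option Y, z ≠ some y →
        (z = none ∨ ∃ z' : Y, z = some z' ∧ ζ ≤ z'.1) →
      ∃ O : Set (Option Y), Pc s η O ∧ some y ∈ O ∧ z ∉ O ∧ (∀ x ∈ O, x ∉ TT s F) ∧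
        ∀ ξ ∈ Ξ, ∀ y' : Y, y'.1 < ξ → (some y' ∈ O ↔ ret s ξ (some y') ∈ O) := by
  classical
  obtain ⟨F1, h1, h2, h3⟩ := ret_img hA hζ F hF
  have hex : ∀ ξ : Om, ∃ F' : Finset Y, ξ ≤ ζ → (∀ p ∈ F', p.1 < η) ∧ ∀ y : Y, y.1 < ξ →
      ret s ζ (ret s ξ (some y)) ≠ ret s ζ (some y) →
      (ret s ζ (some y) = none ∨ ret s ζ (some y) ∈ TT s F') ∧
      (ret s ζ (ret s ξ (some y)) = none ∨ ret s ζ (ret s ξ (some y)) ∈ TT s F') := by
    intro ξ
    by_cases h : ξ ≤ ζ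
    · obtain ⟨F', hF'⟩ := piece_one hA hζ h
      exact ⟨F', fun _ => hF'⟩
    · exact ⟨∅, fun h' => absurd h' h⟩
  choose G hG using hex
  let F' : Finset Y := F1 ∪ Ξ.biUnion G
  have hF1 : F1 ⊆ F' := Finset.subset_union_left
  have hGF : ∀ ξ ∈ Ξ, G ξ ⊆ F' := fun ξ hξ =>
    (Finset.subset_biUnion_of_mem G hξ).trans Finset.subset_union_right
  refine ⟨F', ?_, h2.trans hF1, ?_⟩
  · intro p hp
    rcases Finset.mem_union.1 hp with h | h
    · exact h1 p h
    · obtain ⟨ξ, hξ, hp'⟩ := Finset.mem_biUnion.1 h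
      exact (hG ξ (hΞ ξ hξ)).1 p hp'
  have hF'lev : ∀ p ∈ F', p.1 < η := by
    intro p hp
    rcases Finset.mem_union.1 hp with h | h
    · exact h1 p h
    · obtain ⟨ξ, hξ, hp'⟩ := Finset.mem_biUnion.1 h
      exact (hG ξ (hΞ ξ hξ)).1 p hp'
  intro y hζy hyη hyF z hzy hz
  -- the set V
  obtain ⟨V, hPV, hVC, hVT, hyV, hzV⟩ : ∃ V : Set (Option Y), Pc s η V ∧ V ⊆ C s y ∧
      (∀ x ∈ V, x ∉ TT s F') ∧ some y ∈ V ∧ z ∉ V := by
    have hP0 : Pc s η (C s y \ TT s F') := pc_diff (pc_C hA y hyη) (pc_TT hA F' hF'lev)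
    by_cases hc : ∃ z' : Y, z = some z' ∧ z'.1 < y.1
    · obtain ⟨z', rfl, hz'⟩ := hc
      refine ⟨(C s y \ TT s F') \ C s z', pc_diff hP0 (pc_C hA z' (hz'.trans hyη)),
        fun x hx => hx.1.1, fun x hx => hx.1.2, ⟨⟨self_mem_C s y, hyF⟩, ?_⟩, ?_⟩
      · intro h
        exact absurd (lev_le_of_mem h) (not_le.2 hz')
      · intro h
        exact h.2 (self_mem_C s z')
    · refine ⟨C s y \ TT s F', hP0, fun x hx => hx.1, fun x hx => hx.2,
        ⟨self_mem_C s y, hyF⟩, ?_⟩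
      intro h
      rcases hz with rfl | ⟨z', rfl, -⟩
      · exact none_notMem_C h.1
      · rcases mem_C_some.1 h.1 with h' | h'
        · exact hzy (by rw [h'])
        · exact hc ⟨z', rfl, h'.1⟩
  have hbad : ∀ x : Option Y, (x = none ∨ x ∈ TT s F') → x ∉ V := by
    rintro x (rfl | h) hx
    · exact none_notMem_C (hVC hx)
    · exact hVT x hx h
  refine ⟨{x | ret s ζ x ∈ V}, pc_ret hA hζ hPV, ?_, ?_, ?_, ?_⟩
  · show ret s ζ (some y) ∈ V
    rw [ret_ge hζy]
    exact hyV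
  · show ret s ζ z ∉ V
    rcases hz with rfl | ⟨z', rfl, hz'⟩
    · rw [ret_none]; exact hzV
    · rw [ret_ge hz']; exact hzV
  · intro x hx hxF
    refine hbad _ ?_ hx
    rcases h3 x hxF with h | h
    · exact Or.inl h
    · exact Or.inr (TT_mono hF1 h)
  · intro ξ hξ y' hy'
    show ret s ζ (some y') ∈ V ↔ ret s ζ (ret s ξ (some y')) ∈ V
    by_cases he : ret s ζ (ret s ξ (some y')) = ret s ζ (some y')
    · rw [he]
    · obtain ⟨a1, a2⟩ := (hG ξ (hΞ ξ hξ)).2 y' hy' he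
      have b1 : ret s ζ (some y') ∉ V :=
        hbad _ (a1.imp id (fun h => TT_mono (hGF ξ hξ) h))
      have b2 : ret s ζ (ret s ξ (some y')) ∉ V :=
        hbad _ (a2.imp id (fun h => TT_mono (hGF ξ hξ) h))
      exact ⟨fun h => absurd h b1, fun h => absurd h b2⟩
end

section
lemma exists_pieces_enum {α : Type} {A : Set α} (hc : A.Countable) (hne : A.Nonempty) :
    ∃ f : ℕ → α, (∀ n, f n ∈ A) ∧ ∀ a ∈ A, ∃ n, f n = a := by
  obtain ⟨f, hf⟩ := hc.exists_eq_range hne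
  refine ⟨f, fun n => ?_, fun a ha => ?_⟩
  · rw [hf]; exact ⟨n, rfl⟩
  · rw [hf] at ha; exact ha

lemma exists_pieces_fresh {s : Sys} {η ζ : Om} (hζ : ζ < η) (F' : Finset Y)
    (hF' : ∀ p ∈ F', p.1 < η) : ∃ y : Y, ζ ≤ y.1 ∧ y.1 < η ∧ some y ∉ TT s F' := by
  classical
  set T : Finset Om := insert ζ (F'.image Prod.fst) with hT
  have hne : T.Nonempty := ⟨ζ, Finset.mem_insert_self _ _⟩
  set ζ' := T.max' hne with hζ'
  have h1 : ζ ≤ ζ' := T.le_max' _ (Finset.mem_insert_self _ _)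
  have h2 : ∀ p ∈ F', p.1 ≤ ζ' := fun p hp =>
    T.le_max' _ (Finset.mem_insert_of_mem (Finset.mem_image_of_mem _ hp))
  have h3 : ζ' < η := by
    have h : ζ' ∈ T := T.max'_mem hne
    have h' : ζ' = ζ ∨ ∃ p ∈ F', p.1 = ζ' := by
      simpa only [hT, Finset.mem_insert, Finset.mem_image] using h
    rcases h' with h | ⟨p, hp, hpe⟩
    · rw [h]; exact hζ
    · rw [← hpe]; exact hF' p hp
  refine ⟨(ζ', F'.sup Prod.snd + 1), h1, h3, ?_⟩
  rintro ⟨p, hp, hx⟩
  rcases mem_C_some.1 hx with h | ⟨h, _⟩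
  · have h4 : p.2 ≤ F'.sup Prod.snd := Finset.le_sup (f := Prod.snd) hp
    have h5 : p.2 = F'.sup Prod.snd + 1 := by rw [← h]
    omega
  · exact absurd (h2 p hp) (not_le.2 h)

lemma exists_pieces_step (G : Set (Option Y × Option Y)) {s : Sys} {η : Om}
    (hA : ∀ ξ < η, AX s ξ) (ζ : Om) (hζ : ζ < η) (Ξ : Finset Om) (hΞ : ∀ ξ ∈ Ξ, ξ ≤ ζ)
    (p : Y) (hp : p.1 < η) (F : {F : Finset Y // ∀ p ∈ F, p.1 < η}) :
    ∃ (O : Set (Option Y)) (F2 : {F : Finset Y // ∀ p ∈ F, p.1 < η}), Pc s η O ∧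
      (∀ x ∈ O, x ∉ TT s F.1) ∧
      (∀ ξ ∈ Ξ, ∀ y' : Y, y'.1 < ξ → (some y' ∈ O ↔ ret s ξ (some y') ∈ O)) ∧
      (∃ y : Y, some y ∈ O ∧ ζ ≤ y.1 ∧ y.1 < η) ∧
      (Bad G s η → ∃ (y : Y) (z : Option Y), (some y, z) ∈ G ∧ y.1 < η ∧ some y ∈ O ∧
        z ∉ O ∧ (z = none ∨ ∃ z' : Y, z = some z' ∧ z'.1 < η)) ∧
      F.1 ⊆ F2.1 ∧ p ∈ F2.1 ∧ O ⊆ TT s F2.1 := by
  classical
  obtain ⟨F', hF', hFF', hpc⟩ := piece hA hζ F.1 F.2 Ξ hΞ
  have hyz : ∃ (y : Y) (z : Option Y), ζ ≤ y.1 ∧ y.1 < η ∧ some y ∉ TT s F' ∧ z ≠ some y ∧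
      (z = none ∨ ∃ z' : Y, z = some z' ∧ ζ ≤ z'.1) ∧
      (Bad G s η → (some y, z) ∈ G ∧ (z = none ∨ ∃ z' : Y, z = some z' ∧ z'.1 < η)) := by
    by_cases hB : Bad G s η
    · obtain ⟨y, z, h1, h2, h3, h4, h5, h6⟩ := hB ζ hζ F' hF'
      refine ⟨y, z, h3, h4, h5, h2, ?_, fun _ => ⟨h1, ?_⟩⟩
      · rcases h6 with h6 | ⟨z', h6, h7, _⟩
        · exact Or.inl h6
        · exact Or.inr ⟨z', h6, h7⟩
      · rcases h6 with h6 | ⟨z', h6, _, h7⟩
        · exact Or.inl h6
        · exact Or.inr ⟨z', h6, h7⟩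
    · obtain ⟨y, h1, h2, h3⟩ := exists_pieces_fresh (s := s) hζ F' hF'
      exact ⟨y, none, h1, h2, h3, by simp, Or.inl rfl, fun h => absurd h hB⟩
  obtain ⟨y, z, h1, h2, h3, h4, h5, h6⟩ := hyz
  obtain ⟨O, hPc, hyO, hzO, hout, hsat⟩ := hpc y h1 h2 h3 z h4 h5
  obtain ⟨K, hK, hOK⟩ := hPc.1
  refine ⟨O, ⟨F.1 ∪ K ∪ {p}, ?_⟩, hPc, hout, hsat, ⟨y, hyO, h1, h2⟩, ?_, ?_, ?_, ?_⟩
  · intro q hq
    rcases Finset.mem_union.1 hq with hq | hq
    · rcases Finset.mem_union.1 hq with hq | hq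
      · exact F.2 q hq
      · exact hK q hq
    · rw [Finset.mem_singleton.1 hq]; exact hp
  · intro hB
    exact ⟨y, z, (h6 hB).1, h2, hyO, hzO, (h6 hB).2⟩
  · exact Finset.subset_union_left.trans Finset.subset_union_left
  · exact Finset.mem_union_right _ (Finset.mem_singleton_self p)
  · exact hOK.trans (TT_mono (Finset.subset_union_right.trans Finset.subset_union_left))

/-- TARGET -/
theorem exists_pieces (G : Set (Option Y × Option Y)) {s : Sys} {η : Om} (hA : ∀ ξ < η, AX s ξ)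
    (h0 : ∃ ζ, ζ < η) : ∃ (O : ℕ → Set (Option Y)) (F : ℕ → Finset Y), Pieces G s η O F := by
  classical
  obtain ⟨ζ₀, hζ₀⟩ := h0
  obtain ⟨ξ, hξ1, hξ2⟩ := exists_pieces_enum (countable_Iio η) ⟨ζ₀, hζ₀⟩
  have hYc : {p : Y | p.1 < η}.Countable := by
    have h : {p : Y | p.1 < η} = (Iio η) ×ˢ (univ : Set ℕ) := by
      ext p; simp
    rw [h]
    exact (countable_Iio η).prod countable_univ
  obtain ⟨pp, hp1, hp2⟩ := exists_pieces_enum hYc ⟨(ζ₀, 0), hζ₀⟩
  have hne : ∀ n : ℕ, (Finset.range (n + 1)).Nonempty := fun n => ⟨0, by simp⟩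
  set ζ : ℕ → Om := fun n => (Finset.range (n + 1)).sup' (hne n) ξ with hζdef
  have hζlt : ∀ n, ζ n < η := fun n => (Finset.sup'_lt_iff (hne n)).2 fun i _ => hξ1 i
  have hζle : ∀ m n, m ≤ n → ξ m ≤ ζ n := fun m n hmn =>
    Finset.le_sup' ξ (Finset.mem_range.2 (by omega))
  have step := fun n => exists_pieces_step G hA (ζ n) (hζlt n) ((Finset.range (n + 1)).image ξ)
    (by
      intro x hx
      obtain ⟨i, hi, rfl⟩ := Finset.mem_image.1 hx
      exact Finset.le_sup' ξ hi) (pp n) (hp1 n)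
  choose Oc Fc h1 h2 h3 h4 h5 h6 h7 h8 using step
  let Fs : ℕ → {F : Finset Y // ∀ p ∈ F, p.1 < η} := fun n =>
    Nat.rec ⟨∅, by simp⟩ (fun n F => Fc n F) n
  have hFs : ∀ n, Fs (n + 1) = Fc n (Fs n) := fun n => rfl
  refine ⟨fun n => Oc n (Fs n), fun n => (Fs n).1, ?_⟩
  constructor
  · exact fun n => h1 n (Fs n)
  · exact fun n => (Fs n).2
  · intro p hp
    obtain ⟨n, rfl⟩ := hp2 p hp
    refine ⟨n + 1, ?_⟩
    show pp n ∈ (Fs (n + 1)).1
    rw [hFs]
    exact h7 n (Fs n)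
  · apply monotone_nat_of_le_succ
    intro n
    show (Fs n).1 ⊆ (Fs (n + 1)).1
    rw [hFs]
    exact h6 n (Fs n)
  · exact fun n => h2 n (Fs n)
  · intro n
    show Oc n (Fs n) ⊆ TT s (Fs (n + 1)).1
    rw [hFs]
    exact h8 n (Fs n)
  · intro x hx
    obtain ⟨m, rfl⟩ := hξ2 x hx
    refine ⟨m, fun n hn y hy => ?_⟩
    exact h3 n (Fs n) (ξ m) (Finset.mem_image_of_mem _ (Finset.mem_range.2 (by omega))) y hy
  · intro x hx
    obtain ⟨m, rfl⟩ := hξ2 x hx
    refine ⟨m, fun n hn => ?_⟩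
    obtain ⟨y, hy1, hy2, hy3⟩ := h4 n (Fs n)
    exact ⟨y, hy1, (hζle m n hn).trans hy2, hy3⟩
  · exact fun hB n => h5 n (Fs n) hB
end

section
lemma update_lemmas_C {s s' : Sys} {η : Om} (h : ∀ ξ < η, s ξ = s' ξ) (p : Y) (hp : p.1 < η) :
    C s p = C s' p := by
  unfold C
  rw [h p.1 hp]

lemma update_lemmas_TT {s s' : Sys} {η : Om} (h : ∀ ξ < η, s ξ = s' ξ) (F : Finset Y)
    (hF : ∀ p ∈ F, p.1 < η) : TT s F = TT s' F := by
  ext x
  constructor
  · rintro ⟨p, hp, hx⟩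
    exact ⟨p, hp, by rw [← update_lemmas_C h p (hF p hp)]; exact hx⟩
  · rintro ⟨p, hp, hx⟩
    exact ⟨p, hp, by rw [update_lemmas_C h p (hF p hp)]; exact hx⟩

lemma update_lemmas_Sm {s s' : Sys} {η : Om} (h : ∀ ξ < η, s ξ = s' ξ) (ξ : Om) (hξ : ξ < η)
    (A : Set (Option Y)) (hA : Sm s ξ A) : Sm s' ξ A := by
  obtain ⟨F, h1, h2⟩ := hA
  refine ⟨F, h1, ?_⟩
  rw [← update_lemmas_TT h F (fun p hp => (h1 p hp).trans hξ)]
  exact h2

/-- TARGET -/
theorem update_lemmas {s s' : Sys} {η : Om} (h : ∀ ξ < η, s ξ = s' ξ) :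
    (∀ p : Y, p.1 < η → C s p = C s' p) ∧ (∀ F : Finset Y, (∀ p ∈ F, p.1 < η) → TT s F = TT s' F) ∧
    (∀ ξ < η, ∀ A : Set (Option Y), Sm s ξ A ↔ Sm s' ξ A) ∧
    (∀ ξ < η, ∀ x : Option Y, ret s ξ x = ret s' ξ x) := by
  refine ⟨fun p hp => update_lemmas_C h p hp, fun F hF => update_lemmas_TT h F hF,
    fun ξ hξ A => ⟨update_lemmas_Sm h ξ hξ A, update_lemmas_Sm (fun ξ hξ => (h ξ hξ).symm) ξ hξ A⟩,
    fun ξ hξ x => ?_⟩
  cases x with
  | none => rfl
  | some y =>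
    unfold ret
    rw [h ξ hξ]
end

section
lemma newlab_AX_union {s : Sys} {ξ : Om} {A : ℕ → Set (Option Y)} (h : ∀ n, Sm s ξ (A n)) (m : ℕ) :
    Sm s ξ {x | ∃ n < m, x ∈ A n} := by
  induction m with
  | zero =>
    refine Sm_mono ?_ (Sm_empty (s := s) (ξ := ξ))
    rintro x ⟨n, hn, _⟩
    exact absurd hn (Nat.not_lt_zero n)
  | succ m ih =>
    refine Sm_mono ?_ (Sm_union ih (h m))
    rintro x ⟨n, hn, hx⟩
    rcases Nat.lt_succ_iff_lt_or_eq.mp hn with h1 | h1
    · exact Or.inl ⟨n, h1, hx⟩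
    · subst h1; exact Or.inr hx

/-- TARGET -/
theorem newlab_AX {G : Set (Option Y × Option Y)} {s : Sys} {η : Om}
    {O : ℕ → Set (Option Y)} {F : ℕ → Finset Y} (h : Pieces G s η O F) (l : ℕ → Option ℕ) :
    AX (Function.update s η (newlab O l)) η := by
  classical
  obtain ⟨s', hs'⟩ : ∃ s' : Sys, s' = Function.update s η (newlab O l) := ⟨_, rfl⟩
  rw [← hs']
  have hlt : ∀ ξ < η, s ξ = s' ξ := fun ξ hξ => by
    rw [hs']; exact (Function.update_of_ne hξ.ne _ _).symm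
  have hη : s' η = newlab O l := by rw [hs', Function.update_self]
  obtain ⟨_, _, hSm, hret⟩ := update_lemmas hlt
  intro ξ hξ
  rw [← hSm ξ hξ]
  obtain ⟨m, hm⟩ := h.sat ξ hξ
  refine Sm_mono ?_ (newlab_AX_union (fun n => (h.pc n).2 ξ hξ) m)
  rintro x ⟨y, rfl, hy, hne⟩
  by_contra hcon
  have hiff : ∀ n, (some y ∈ O n ↔ ret s ξ (some y) ∈ O n) := by
    intro n
    rcases lt_or_ge n m with h1 | h1
    · by_contra h2
      exact hcon ⟨n, h1, y, rfl, hy, h2⟩
    · exact hm n h1 y hy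
  apply hne
  rw [← hret ξ hξ, hη]
  obtain ⟨r, hr⟩ : ∃ r, r = ret s ξ (some y) := ⟨_, rfl⟩
  rw [← hr] at hiff ⊢
  by_cases hex : ∃ n, some y ∈ O n
  · obtain ⟨n, hn⟩ := hex
    have h1 := (hiff n).mp hn
    cases r with
    | none => exact absurd (h.ins n h1) none_notMem_TT
    | some y' =>
      show newlab O l y = s' η y'
      rw [hη, newlab_mem h l hn, newlab_mem h l h1]
  · push Not at hex
    rw [newlab_notMem hex]
    cases r with
    | none => rfl
    | some y' =>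
      show none = s' η y'
      rw [hη, newlab_notMem fun n hn => hex n ((hiff n).mpr hn)]
end

section
/-- TARGET -/
theorem newlab_N1 {G : Set (Option Y × Option Y)} {s : Sys} {η : Om}
    {O : ℕ → Set (Option Y)} {F : ℕ → Finset Y} (h : Pieces G s η O F) (l : ℕ → Option ℕ)
    (hl : ∀ i : Option ℕ, {n | l n = i}.Infinite) :
    N1 (Function.update s η (newlab O l)) η := by
  classical
  intro ζ hζ i
  obtain ⟨m, hm⟩ := h.high ζ hζ
  have hex : ∀ n, ∃ y : Y, m ≤ n → (some y ∈ O n ∧ ζ ≤ y.1 ∧ y.1 < η) := by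
    intro n
    by_cases hn : m ≤ n
    · obtain ⟨y, hy⟩ := hm n hn
      exact ⟨y, fun _ => hy⟩
    · exact ⟨(ζ, 0), fun h => absurd h hn⟩
  choose y hy using hex
  have hinf : ({n | l n = i} \ Iio m).Infinite := (hl i).diff (finite_Iio m)
  refine Set.infinite_of_injOn_mapsTo (f := y) ?_ ?_ hinf
  · intro a ha b hb hab
    have h1 := (hy a (not_lt.1 ha.2)).1
    have h2 := (hy b (not_lt.1 hb.2)).1
    rw [hab] at h1
    exact h.disj h1 h2
  · intro n hn
    have h1 := hy n (not_lt.1 hn.2)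
    refine ⟨h1.2.1, h1.2.2, ?_⟩
    rw [Function.update_self, newlab_mem h l h1.1]
    exact hn.1
end

section
/-- TARGET -/
theorem spread_labels (H : Set ℕ) (hH : H.Infinite) :
    ∃ l : ℕ → Option ℕ, (∀ i : Option ℕ, {n | n ∈ H ∧ l n = i}.Infinite) ∧ ∀ n ∉ H, l n = none := by
  classical
  haveI : Infinite H := hH.to_subtype
  obtain ⟨e⟩ : Nonempty (H ≃ Option ℕ × ℕ) := nonempty_equiv_of_countable
  refine ⟨fun n => if h : n ∈ H then (e ⟨n, h⟩).1 else none, ?_, ?_⟩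
  · intro i
    refine Set.infinite_of_injective_forall_mem (f := fun k : ℕ => ((e.symm (i, k) : H) : ℕ)) ?_ ?_
    · intro a b hab
      have h1 : e.symm (i, a) = e.symm (i, b) := Subtype.ext hab
      have h2 := e.symm.injective h1
      exact (Prod.mk.inj h2).2
    · intro k
      refine ⟨(e.symm (i, k)).2, ?_⟩
      simp
  · intro n hn
    simp [hn]
end

section
lemma exists_labels_greedy (S : Set ℕ) (hS : S.Infinite) (R : ℕ → ℕ → Prop)
    (hR : ∀ j ∈ S, {n | n ∈ S ∧ R j n}.Finite) :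
    ∃ H : Set ℕ, H ⊆ S ∧ H.Infinite ∧ ∀ j ∈ H, ∀ n ∈ H, j < n → ¬ R j n := by
  obtain ⟨f, hf1, hf2⟩ := exists_seq_of_forall_finset_exists (fun n => n ∈ S)
    (fun j n => j < n ∧ ¬ R j n) (by
      intro s hs
      have hfin : (⋃ j ∈ s, ({n | n ∈ S ∧ R j n} ∪ {n | n ≤ j})).Finite := by
        refine Set.Finite.biUnion s.finite_toSet ?_
        intro j hj
        exact (hR j (hs j hj)).union (Set.finite_le_nat j)
      obtain ⟨n, hn, hn'⟩ := (hS.diff hfin).nonempty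
      refine ⟨n, hn, fun j hj => ?_⟩
      simp only [mem_iUnion, not_exists, mem_union, mem_setOf_eq, not_or, not_and, not_le] at hn'
      exact ⟨(hn' j hj).2, (hn' j hj).1 hn⟩)
  have hmono : StrictMono f := fun m n hmn => (hf2 m n hmn).1
  refine ⟨range f, ?_, Set.infinite_range_of_injective hmono.injective, ?_⟩
  · rintro _ ⟨n, rfl⟩
    exact hf1 n
  · rintro _ ⟨m, rfl⟩ _ ⟨n, rfl⟩ hmn
    exact (hf2 m n (hmono.lt_iff_lt.1 hmn)).2

lemma exists_labels_large {G : Set (Option Y × Option Y)} {s : Sys} {η : Om}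
    {O : ℕ → Set (Option Y)} {F : ℕ → Finset Y} (h : Pieces G s η O F) (F0 : Finset Y)
    (hF0 : ∀ p ∈ F0, p.1 < η) : ∃ N, ∀ n ≥ N, F0 ⊆ F n := by
  induction F0 using Finset.induction_on with
  | empty => exact ⟨0, fun n _ => Finset.empty_subset _⟩
  | insert p F0 _ ih =>
    obtain ⟨N, hN⟩ := ih (fun q hq => hF0 q (Finset.mem_insert_of_mem hq))
    obtain ⟨M, hM⟩ := h.exh p (hF0 p (Finset.mem_insert_self _ _))
    refine ⟨max N M, fun n hn => ?_⟩
    intro q hq
    rcases Finset.mem_insert.1 hq with rfl | hq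
    · exact h.mono ((le_max_right _ _).trans hn) hM
    · exact hN n ((le_max_left _ _).trans hn) hq

lemma exists_labels_notMem {G : Set (Option Y × Option Y)} {s : Sys} {η : Om}
    {O : ℕ → Set (Option Y)} {F : ℕ → Finset Y} (h : Pieces G s η O F) (F0 : Finset Y)
    (hF0 : ∀ p ∈ F0, p.1 < η) : ∃ N, ∀ n ≥ N, ∀ x ∈ O n, x ∉ TT s F0 := by
  obtain ⟨N, hN⟩ := exists_labels_large h F0 hF0
  exact ⟨N, fun n hn x hx hx' => h.out n x hx (TT_mono (hN n hn) hx')⟩

lemma exists_labels_none {G : Set (Option Y × Option Y)} {s : Sys} {η : Om}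
    {O : ℕ → Set (Option Y)} {F : ℕ → Finset Y} (h : Pieces G s η O F) (n : ℕ) :
    (none : Option Y) ∉ O n := fun hx => none_notMem_TT (h.ins n hx)

/-- TARGET -/
theorem exists_labels (G : Set (Option Y × Option Y)) {s : Sys} {η : Om}
    {O : ℕ → Set (Option Y)} {F : ℕ → Finset Y} (h : Pieces G s η O F) :
    ∃ l : ℕ → Option ℕ, (∀ i : Option ℕ, {n | l n = i}.Infinite) ∧
      (Bad G (Function.update s η (newlab O l)) η ∨ NSat G (Function.update s η (newlab O l)) η →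
        Kill G (Function.update s η (newlab O l)) η) := by
  classical
  set NS : Set ℕ := {n | ∃ (y : Y) (z : Option Y), (some y, z) ∈ G ∧ y.1 < η ∧ some y ∈ O n ∧
    z ∉ O n ∧ (z = none ∨ ∃ z' : Y, z = some z' ∧ z'.1 < η)} with hNS
  -- facts about the updated labelling
  have hupd : ∀ l : ℕ → Option ℕ, ∀ ξ < η, s ξ = Function.update s η (newlab O l) ξ := by
    intro l ξ hξ
    rw [Function.update_of_ne hξ.ne]
  have hself : ∀ (l : ℕ → Option ℕ) (y : Y), Function.update s η (newlab O l) η y = newlab O l y := by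
    intro l y
    rw [Function.update_self]
  have hC : ∀ l : ℕ → Option ℕ, ∀ p : Y, p.1 < η →
      C s p = C (Function.update s η (newlab O l)) p := fun l => (update_lemmas (hupd l)).1
  have hTT : ∀ l : ℕ → Option ℕ, ∀ F : Finset Y, (∀ p ∈ F, p.1 < η) →
      TT s F = TT (Function.update s η (newlab O l)) F := fun l => (update_lemmas (hupd l)).2.1
  by_cases hfin : NS.Finite
  · -- Case 1
    obtain ⟨l, hl, -⟩ := spread_labels univ infinite_univ
    have hl' : ∀ i : Option ℕ, {n | l n = i}.Infinite := fun i => by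
      refine (hl i).mono ?_
      rintro n ⟨-, hn⟩
      exact hn
    refine ⟨l, hl', ?_⟩
    rintro (hbad | hns)
    · exfalso
      have hbad' : Bad G s η := by
        intro ζ hζ F0 hF0
        obtain ⟨y, z, g1, g2, g3, g4, g5, g6⟩ := hbad ζ hζ F0 hF0
        rw [← hTT l F0 hF0] at g5
        exact ⟨y, z, g1, g2, g3, g4, g5, g6⟩
      have : NS = univ := by
        ext n
        simp only [mem_univ, iff_true]
        exact h.bad hbad' n
      rw [this] at hfin
      exact infinite_univ hfin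
    · exfalso
      have hsub : {k : ℕ | ∃ (y : Y) (z : Option Y), (some y, z) ∈ G ∧ y.1 < η ∧
          Function.update s η (newlab O l) η y = some k ∧
          (z = none ∨ ∃ z' : Y, z = some z' ∧ z'.1 < η ∧
            Function.update s η (newlab O l) η z' ≠ some k)} ⊆ (fun n => (l n).getD 0) '' NS := by
        rintro k ⟨y, z, g1, g2, g3, g4⟩
        rw [hself] at g3
        have : ∃ n, some y ∈ O n := by
          by_contra hcon
          push Not at hcon
          rw [newlab_notMem hcon] at g3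
          exact absurd g3 (by simp)
        obtain ⟨n, hn⟩ := this
        rw [newlab_mem h l hn] at g3
        refine ⟨n, ⟨y, z, g1, g2, hn, ?_, ?_⟩, ?_⟩
        · rcases g4 with rfl | ⟨z', rfl, hz', hne⟩
          · exact exists_labels_none h n
          · intro hz
            rw [hself, newlab_mem h l hz] at hne
            exact hne g3
        · rcases g4 with rfl | ⟨z', rfl, hz', hne⟩
          · exact Or.inl rfl
          · exact Or.inr ⟨z', rfl, hz'⟩
        · show (l n).getD 0 = k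
          rw [g3]; rfl
      exact hns ((hfin.image _).subset hsub)
  · -- Case 2
    have hinf : NS.Infinite := hfin
    have hch : ∀ n, ∃ (y : Y) (z : Option Y), n ∈ NS → ((some y, z) ∈ G ∧ y.1 < η ∧ some y ∈ O n ∧
        z ∉ O n ∧ (z = none ∨ ∃ z' : Y, z = some z' ∧ z'.1 < η)) := by
      intro n
      by_cases hn : n ∈ NS
      · obtain ⟨y, z, hyz⟩ := hn
        exact ⟨y, z, fun _ => hyz⟩
      · exact ⟨(η, 0), none, fun h => absurd h hn⟩
    choose y z hyz using hch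
    by_cases h2a : ∃ w : Y, w.1 < η ∧ {n | n ∈ NS ∧ z n ∈ C s w}.Infinite
    · -- Case 2a
      have hne : {ξ : Om | ∃ w : Y, w.1 = ξ ∧ w.1 < η ∧ {n | n ∈ NS ∧ z n ∈ C s w}.Infinite}.Nonempty := by
        obtain ⟨w, h1, h2⟩ := h2a
        exact ⟨w.1, w, rfl, h1, h2⟩
      obtain ⟨w, hw0, hwη, hwinf⟩ := wellFounded_lt.min_mem _ hne
      have hmin : ∀ q : Y, q.1 < w.1 → {n | n ∈ NS ∧ z n ∈ C s q}.Finite := by
        intro q hq
        by_contra hcon
        rw [hw0] at hq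
        exact wellFounded_lt.not_lt_min
          {ξ : Om | ∃ w : Y, w.1 = ξ ∧ w.1 < η ∧ {n | n ∈ NS ∧ z n ∈ C s w}.Infinite}
          ⟨q, rfl, (hq.trans (by rw [← hw0]; exact hwη)), hcon⟩ hq
      obtain ⟨l, hl, -⟩ := spread_labels {n | n ∈ NS ∧ z n ∈ C s w} hwinf
      have hl' : ∀ i : Option ℕ, {n | l n = i}.Infinite := fun i => by
        refine (hl i).mono ?_
        rintro n ⟨-, hn⟩
        exact hn
      refine ⟨l, hl', fun _ => Or.inr ⟨w, hwη, ?_⟩⟩
      intro k F0 hF0 F' hF'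
      obtain ⟨N, hN⟩ := exists_labels_notMem h F0 hF0
      have hbf : ((⋃ q ∈ F', {n | n ∈ NS ∧ z n ∈ C s q}) ∪ {n | n < N}).Finite := by
        refine Set.Finite.union (Set.Finite.biUnion F'.finite_toSet ?_) (Set.finite_lt_nat N)
        intro q hq
        exact hmin q (hF' q hq)
      obtain ⟨n, ⟨⟨hnNS, hnw⟩, hnl⟩, hn'⟩ := ((hl (some k)).diff hbf).nonempty
      simp only [mem_union, mem_iUnion, mem_setOf_eq, not_or, not_exists, not_and, not_lt] at hn'
      obtain ⟨hnq, hnN⟩ := hn'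
      obtain ⟨g1, g2, g3, g4, g5⟩ := hyz n hnNS
      obtain ⟨z', hz'⟩ : ∃ z', z n = some z' := by
        rcases hzn : z n with _ | z'
        · rw [hzn] at hnw
          exact absurd hnw none_notMem_C
        · exact ⟨z', rfl⟩
      have hF'η : ∀ p ∈ F', p.1 < η := fun p hp => (hF' p hp).trans hwη
      refine ⟨y n, z', by rw [← hz']; exact g1, g2, ?_, ?_, ?_, ?_⟩
      · rw [hself, newlab_mem h l g3]; exact hnl
      · rw [← hTT l F0 hF0]; exact hN n hnN _ g3
      · rw [← hC l w hwη, ← hz']; exact hnw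
      · rw [← hTT l F' hF'η, ← hz']
        rintro ⟨q, hq, hzq⟩
        exact hnq q hq hnNS hzq
    · -- Case 2b
      push Not at h2a
      have hCf : ∀ w : Y, w.1 < η → {n | n ∈ NS ∧ z n ∈ C s w}.Finite := h2a
      have hTf : ∀ F0 : Finset Y, (∀ p ∈ F0, p.1 < η) → {n | n ∈ NS ∧ z n ∈ TT s F0}.Finite := by
        intro F0 hF0
        have : {n | n ∈ NS ∧ z n ∈ TT s F0} ⊆ ⋃ q ∈ F0, {n | n ∈ NS ∧ z n ∈ C s q} := by
          rintro n ⟨hn, q, hq, hzq⟩
          exact mem_biUnion (show q ∈ (F0 : Set Y) from hq) ⟨hn, hzq⟩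
        refine Set.Finite.subset (Set.Finite.biUnion F0.finite_toSet ?_) this
        intro q hq
        exact hCf q (hF0 q hq)
      have hOf : ∀ j, {n | n ∈ NS ∧ z n ∈ O j}.Finite := by
        intro j
        refine (hTf (F (j + 1)) (h.lev (j + 1))).subset ?_
        rintro n ⟨hn, hz⟩
        exact ⟨hn, h.ins j hz⟩
      obtain ⟨H, hHNS, hHinf, hHR⟩ := exists_labels_greedy NS hinf (fun j n => z n ∈ O j ∨ z j ∈ O n) (by
        intro j hj
        have h1 : {n | n ∈ NS ∧ (z n ∈ O j ∨ z j ∈ O n)} ⊆ {n | n ∈ NS ∧ z n ∈ O j} ∪ {n | z j ∈ O n} := by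
          rintro n ⟨hn, hz | hz⟩
          · exact Or.inl ⟨hn, hz⟩
          · exact Or.inr hz
        refine Set.Finite.subset ((hOf j).union ?_) h1
        apply Set.Subsingleton.finite
        intro a ha b hb
        exact h.disj ha hb)
      obtain ⟨l, hl, hlH⟩ := spread_labels H hHinf
      have hl' : ∀ i : Option ℕ, {n | l n = i}.Infinite := fun i => by
        refine (hl i).mono ?_
        rintro n ⟨-, hn⟩
        exact hn
      refine ⟨l, hl', fun _ => Or.inl ?_⟩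
      intro k F0 hF0
      obtain ⟨N, hN⟩ := exists_labels_notMem h F0 hF0
      have hbf : ({n | n ∈ NS ∧ z n ∈ TT s F0} ∪ {n | n < N}).Finite :=
        (hTf F0 hF0).union (Set.finite_lt_nat N)
      obtain ⟨n, ⟨hnH, hnl⟩, hn'⟩ := ((hl (some k)).diff hbf).nonempty
      simp only [mem_union, mem_setOf_eq, not_or, not_and, not_lt] at hn'
      obtain ⟨hnq, hnN⟩ := hn'
      have hnNS := hHNS hnH
      obtain ⟨g1, g2, g3, g4, g5⟩ := hyz n hnNS
      refine ⟨y n, z n, g1, g2, ?_, ?_, ?_⟩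
      · rw [hself, newlab_mem h l g3]; exact hnl
      · rw [← hTT l F0 hF0]; exact hN n hnN _ g3
      · rcases g5 with g5 | ⟨z', hz', hz'η⟩
        · exact Or.inl g5
        · refine Or.inr ⟨z', hz', hz'η, ?_, ?_⟩
          · rw [hself]
            by_cases hex : ∃ j, some z' ∈ O j
            · obtain ⟨j, hj⟩ := hex
              rw [newlab_mem h l hj]
              apply hlH
              intro hjH
              rw [← hz'] at hj
              rcases lt_trichotomy j n with hjn | hjn | hjn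
              · exact hHR j hjH n hnH hjn (Or.inl hj)
              · subst hjn
                exact g4 hj
              · exact hHR n hnH j hjH hjn (Or.inr hj)
            · push Not at hex
              exact newlab_notMem hex
          · rw [← hTT l F0 hF0, ← hz']
            exact hnq hnNS
end

section
/-- TARGET -/
theorem exists_step (G : Set (Option Y × Option Y)) {s : Sys} {η : Om} (hA : ∀ ξ < η, AX s ξ)
    (h0 : ∃ ζ, ζ < η) : ∃ r : Y → Option ℕ, AX (Function.update s η r) η ∧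
      N1 (Function.update s η r) η ∧
      (Bad G (Function.update s η r) η ∨ NSat G (Function.update s η r) η →
        Kill G (Function.update s η r) η) := by
  obtain ⟨O, F, h⟩ := exists_pieces G hA h0
  obtain ⟨l, hl, hk⟩ := exists_labels G h
  exact ⟨newlab O l, newlab_AX h l, newlab_N1 h l hl, hk⟩
end

section
lemma exists_system_lab {s s' : Sys} {η : Om} (h : s η = s' η) (x : Option Y) :
    lab s η x = lab s' η x := by
  cases x with
  | none => rfl
  | some y => simp only [lab, h]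

lemma exists_system_AX {s s' : Sys} {η : Om} (h : ∀ ξ ≤ η, s ξ = s' ξ) (hA : AX s η) :
    AX s' η := by
  obtain ⟨hC, hT, hS, hR⟩ := update_lemmas (s := s) (s' := s') (η := η) fun ξ hξ => h ξ hξ.le
  intro ξ hξ
  rw [← hS ξ hξ]
  refine Sm_mono ?_ (hA ξ hξ)
  rintro x ⟨y, hx, hy, hne⟩
  refine ⟨y, hx, hy, ?_⟩
  rw [h η le_rfl, hR ξ hξ, exists_system_lab (h η le_rfl)]
  exact hne

lemma exists_system_N1 {s s' : Sys} {η : Om} (h : ∀ ξ ≤ η, s ξ = s' ξ) (hA : N1 s η) :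
    N1 s' η := by
  intro ζ hζ i
  have := hA ζ hζ i
  rw [h η le_rfl] at this
  exact this

lemma exists_system_Bad {G : Set (Option Y × Option Y)} {s s' : Sys} {η : Om}
    (h : ∀ ξ ≤ η, s ξ = s' ξ) (hA : Bad G s η) : Bad G s' η := by
  obtain ⟨hC, hT, hS, hR⟩ := update_lemmas (s := s) (s' := s') (η := η) fun ξ hξ => h ξ hξ.le
  intro ζ hζ F hF
  rw [← hT F hF]
  exact hA ζ hζ F hF

lemma exists_system_NSat {G : Set (Option Y × Option Y)} {s s' : Sys} {η : Om}
    (h : ∀ ξ ≤ η, s ξ = s' ξ) (hA : NSat G s η) : NSat G s' η := by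
  unfold NSat at hA ⊢
  rw [h η le_rfl] at hA
  exact hA

lemma exists_system_KillInf {G : Set (Option Y × Option Y)} {s s' : Sys} {η : Om}
    (h : ∀ ξ ≤ η, s ξ = s' ξ) (hA : KillInf G s η) : KillInf G s' η := by
  obtain ⟨hC, hT, hS, hR⟩ := update_lemmas (s := s) (s' := s') (η := η) fun ξ hξ => h ξ hξ.le
  intro k F hF
  rw [← hT F hF, ← h η le_rfl]
  exact hA k F hF

lemma exists_system_KillAt {G : Set (Option Y × Option Y)} {s s' : Sys} {η : Om} {w : Y}
    (hw : w.1 < η) (h : ∀ ξ ≤ η, s ξ = s' ξ) (hA : KillAt G s η w) : KillAt G s' η w := by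
  obtain ⟨hC, hT, hS, hR⟩ := update_lemmas (s := s) (s' := s') (η := η) fun ξ hξ => h ξ hξ.le
  intro k F hF F' hF'
  rw [← hT F hF, ← hT F' (fun p hp => (hF' p hp).trans hw), ← hC w hw, ← h η le_rfl]
  exact hA k F hF F' hF'

lemma exists_system_Kill {G : Set (Option Y × Option Y)} {s s' : Sys} {η : Om}
    (h : ∀ ξ ≤ η, s ξ = s' ξ) (hA : Kill G s η) : Kill G s' η := by
  rcases hA with hA | ⟨w, hw, hA⟩
  · exact Or.inl (exists_system_KillInf h hA)
  · exact Or.inr ⟨w, hw, exists_system_KillAt hw h hA⟩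

/-- TARGET -/
theorem exists_system (G : Om → Set (Option Y × Option Y)) :
    ∃ s : Sys, (∀ η, AX s η) ∧ (∀ η, N1 s η) ∧
      ∀ η, (∃ ζ, ζ < η) → (Bad (G η) s η ∨ NSat (G η) s η → Kill (G η) s η) := by
  obtain ⟨f, hf⟩ := exists_rec (R := Y → Option ℕ)
    (fun a f r => AX (Function.update f a r) a ∧ N1 (Function.update f a r) a ∧
      ((∃ ζ, ζ < a) → (Bad (G a) (Function.update f a r) a ∨
        NSat (G a) (Function.update f a r) a → Kill (G a) (Function.update f a r) a)))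
    (by
      rintro a f f' r hff ⟨h1, h2, h3⟩
      have h : ∀ ξ ≤ a, Function.update f a r ξ = Function.update f' a r ξ := by
        intro ξ hξ
        rcases eq_or_lt_of_le hξ with rfl | hlt
        · simp
        · rw [Function.update_of_ne hlt.ne, Function.update_of_ne hlt.ne, hff ξ hlt]
      have h' : ∀ ξ ≤ a, Function.update f' a r ξ = Function.update f a r ξ :=
        fun ξ hξ => (h ξ hξ).symm
      refine ⟨exists_system_AX h h1, exists_system_N1 h h2, fun hζ hB => ?_⟩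
      refine exists_system_Kill h (h3 hζ ?_)
      rcases hB with hB | hB
      · exact Or.inl (exists_system_Bad h' hB)
      · exact Or.inr (exists_system_NSat h' hB))
    (by
      intro a f hb
      by_cases h0 : ∃ ζ, ζ < a
      · obtain ⟨r, h1, h2, h3⟩ := exists_step (G a) (s := f) (η := a) (fun ξ hξ => by
          have := (hb ξ hξ).1
          rwa [Function.update_eq_self] at this) h0
        exact ⟨r, h1, h2, fun _ => h3⟩
      · refine ⟨default, fun ξ hξ => absurd ⟨ξ, hξ⟩ h0, fun ξ hξ => absurd ⟨ξ, hξ⟩ h0,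
          fun h => absurd h h0⟩)
  simp only [Function.update_eq_self] at hf
  exact ⟨f, fun η => (hf η).1, fun η => (hf η).2.1, fun η => (hf η).2.2⟩
end

section
lemma diamond_guess_inter {E E' : Set Om} (hE : IsClub E) (hE' : IsClub E') :
    IsClub (E ∩ E') := by
  constructor
  · intro b0
    have step : ∀ b : Om, ∃ c, b < c ∧ (∃ a ∈ E, b < a ∧ a < c) ∧ (∃ a ∈ E', b < a ∧ a < c) := by
      intro b
      obtain ⟨a1, h1, h1'⟩ := hE.1 b
      obtain ⟨a2, h2, h2'⟩ := hE'.1 b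
      obtain ⟨c, hc⟩ := exists_gt' (max a1 a2)
      exact ⟨c, h1'.trans ((le_max_left _ _).trans_lt hc),
        ⟨a1, h1, h1', (le_max_left _ _).trans_lt hc⟩, ⟨a2, h2, h2', (le_max_right _ _).trans_lt hc⟩⟩
    choose nx h1 h2 h3 using step
    let s : ℕ → Om := fun n => nx^[n] b0
    have hs : ∀ n, s (n + 1) = nx (s n) := fun n => Function.iterate_succ_apply' _ _ _
    have hmono : StrictMono s := strictMono_nat_of_lt_succ fun n => by rw [hs]; exact h1 _
    obtain ⟨c, hc⟩ := bdd_of_countable (countable_range s)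
    have hne : {x : Om | ∀ n, s n < x}.Nonempty := ⟨c, fun n => hc _ ⟨n, rfl⟩⟩
    let a := wellFounded_lt.min _ hne
    have ha : ∀ n, s n < a := wellFounded_lt.min_mem _ hne
    have hlt : ∀ x < a, ∃ n, x ≤ s n := by
      intro x hx
      by_contra hcon
      push Not at hcon
      exact wellFounded_lt.not_lt_min {x : Om | ∀ n, s n < x} hcon hx
    refine ⟨a, ⟨hE.2 a ⟨_, ha 0⟩ ?_, hE'.2 a ⟨_, ha 0⟩ ?_⟩, ha 0⟩
    · intro b hb
      obtain ⟨n, hn⟩ := hlt b hb
      obtain ⟨c, hc, h4, h5⟩ := h2 (s n)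
      rw [← hs] at h5
      exact ⟨c, hc, hn.trans_lt h4, h5.trans (ha _)⟩
    · intro b hb
      obtain ⟨n, hn⟩ := hlt b hb
      obtain ⟨c, hc, h4, h5⟩ := h3 (s n)
      rw [← hs] at h5
      exact ⟨c, hc, hn.trans_lt h4, h5.trans (ha _)⟩
  · intro a hne ha
    refine ⟨hE.2 a hne fun b hb => ?_, hE'.2 a hne fun b hb => ?_⟩
    · obtain ⟨c, hc, h1, h2⟩ := ha b hb
      exact ⟨c, hc.1, h1, h2⟩
    · obtain ⟨c, hc, h1, h2⟩ := ha b hb
      exact ⟨c, hc.2, h1, h2⟩

lemma diamond_guess_equiv : Nonempty (Om ≃ Option Y × Option Y) := by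
  rw [← Cardinal.eq]
  have h1 : Cardinal.mk Y = Cardinal.aleph 1 := by
    show Cardinal.mk (Om × ℕ) = _
    rw [Cardinal.mk_prod, Cardinal.lift_id, Cardinal.lift_id, mk_Om, Cardinal.mk_nat]
    exact Cardinal.mul_eq_left (Cardinal.aleph0_le_aleph 1) (Cardinal.aleph0_le_aleph 1)
      Cardinal.aleph0_ne_zero
  have h2 : Cardinal.mk (Option Y) = Cardinal.aleph 1 := by
    rw [Cardinal.mk_option, h1]
    exact Cardinal.add_one_eq (Cardinal.aleph0_le_aleph 1)
  simp only [Cardinal.mk_prod, Cardinal.lift_id]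
  rw [h2, mk_Om]
  exact (Cardinal.mul_eq_self (Cardinal.aleph0_le_aleph 1)).symm

/-- the pairs of points all of whose levels are at most `b` -/
lemma diamond_guess_countable (b : Om) :
    {q : Option Y × Option Y | (∀ y, q.1 = some y → y.1 ≤ b) ∧
      (∀ y, q.2 = some y → y.1 ≤ b)}.Countable := by
  have h1 : {x : Option Y | ∀ y, x = some y → y.1 ≤ b}.Countable := by
    have h2 : {x : Option Y | ∀ y, x = some y → y.1 ≤ b} ⊆
        {none} ∪ some '' ((Iic b) ×ˢ (univ : Set ℕ)) := by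
      intro x hx
      cases x with
      | none => exact Or.inl rfl
      | some y => exact Or.inr ⟨y, ⟨hx y rfl, mem_univ _⟩, rfl⟩
    exact ((countable_singleton _).union
      (((countable_Iic b).prod countable_univ).image _)).mono h2
  have h3 : {q : Option Y × Option Y | (∀ y, q.1 = some y → y.1 ≤ b) ∧
      (∀ y, q.2 = some y → y.1 ≤ b)} =
      {x : Option Y | ∀ y, x = some y → y.1 ≤ b} ×ˢ {x : Option Y | ∀ y, x = some y → y.1 ≤ b} := by
    ext q
    rfl
  rw [h3]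
  exact h1.prod h1

/-- TARGET -/
theorem diamond_guess (h : Diamond) : ∃ G : Om → Set (Option Y × Option Y),
    ∀ S : Set (Option Y × Option Y), ∀ E : Set Om, IsClub E → ∃ η ∈ E,
      G η = {q | q ∈ S ∧ (∀ y, q.1 = some y → y.1 < η) ∧ (∀ y, q.2 = some y → y.1 < η)} := by
  obtain ⟨e⟩ := diamond_guess_equiv
  obtain ⟨A, hA⟩ := h
  have hG : ∀ b : Om, ∃ c : Om, ((∀ y, (e b).1 = some y → y.1 < c) ∧
      (∀ y, (e b).2 = some y → y.1 < c)) ∧
      ∀ q : Option Y × Option Y, (∀ y, q.1 = some y → y.1 ≤ b) → (∀ y, q.2 = some y → y.1 ≤ b) →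
        e.symm q < c := by
    intro b
    have hc1 : {c : Om | ∃ y : Y, (e b).1 = some y ∧ y.1 = c}.Countable := by
      refine Set.Subsingleton.countable ?_
      rintro _ ⟨y, hy, rfl⟩ _ ⟨z, hz, rfl⟩
      rw [hy, Option.some.injEq] at hz
      rw [hz]
    have hc2 : {c : Om | ∃ y : Y, (e b).2 = some y ∧ y.1 = c}.Countable := by
      refine Set.Subsingleton.countable ?_
      rintro _ ⟨y, hy, rfl⟩ _ ⟨z, hz, rfl⟩
      rw [hy, Option.some.injEq] at hz
      rw [hz]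
    obtain ⟨c, hc⟩ := bdd_of_countable
      ((hc1.union hc2).union ((diamond_guess_countable b).image e.symm))
    refine ⟨c, ⟨fun y hy => ?_, fun y hy => ?_⟩, fun q h1 h2 => ?_⟩
    · exact hc _ (Or.inl (Or.inl ⟨y, hy, rfl⟩))
    · exact hc _ (Or.inl (Or.inr ⟨y, hy, rfl⟩))
    · exact hc _ (Or.inr ⟨q, ⟨h1, h2⟩, rfl⟩)
  choose G1 hG1 hG2 using hG
  refine ⟨fun η => e '' (A η ∩ Iio η), ?_⟩
  intro S E hE
  obtain ⟨η, ⟨hηE, hηlim, hηG⟩, hη⟩ := hA (e ⁻¹' S) _
    (diamond_guess_inter hE (club_closure G1))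
  refine ⟨η, hηE, ?_⟩
  ext q
  constructor
  · rintro ⟨b, ⟨hb1, hb2⟩, rfl⟩
    rw [hη] at hb1
    have hb3 : b < η := hb2
    refine ⟨hb1.1, fun y hy => ?_, fun y hy => ?_⟩
    · exact ((hG1 b).1 y hy).trans (hηG b hb3)
    · exact ((hG1 b).2 y hy).trans (hηG b hb3)
  · rintro ⟨hq, h1, h2⟩
    have hkey : e.symm q < η := by
      obtain ⟨b0, hb0⟩ := hηlim.1
      have hex : ∃ b < η, (∀ y, q.1 = some y → y.1 ≤ b) ∧ (∀ y, q.2 = some y → y.1 ≤ b) := by
        obtain ⟨q1, q2⟩ := q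
        cases q1 with
        | none =>
          cases q2 with
          | none => exact ⟨b0, hb0, by simp, by simp⟩
          | some y2 =>
            refine ⟨y2.1, h2 y2 rfl, by simp, ?_⟩
            intro y hy
            rw [Option.some.injEq] at hy
            rw [hy]
        | some y1 =>
          cases q2 with
          | none =>
            refine ⟨y1.1, h1 y1 rfl, ?_, by simp⟩
            intro y hy
            rw [Option.some.injEq] at hy
            rw [hy]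
          | some y2 =>
            refine ⟨max y1.1 y2.1, max_lt (h1 y1 rfl) (h2 y2 rfl), ?_, ?_⟩
            · intro y hy
              rw [Option.some.injEq] at hy
              rw [← hy]
              exact le_max_left _ _
            · intro y hy
              rw [Option.some.injEq] at hy
              rw [← hy]
              exact le_max_right _ _
      obtain ⟨b, hb, hb1, hb2⟩ := hex
      exact (hG2 b q hb1 hb2).trans (hηG b hb)
    refine ⟨e.symm q, ⟨?_, hkey⟩, e.apply_symm_apply q⟩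
    rw [hη]
    refine ⟨?_, hkey⟩
    show e (e.symm q) ∈ S
    rw [e.apply_symm_apply]
    exact hq
end

section
theorem main_system_mem {G S : Set (Option Y × Option Y)} {η : Om}
    (hG : G = {q | q ∈ S ∧ (∀ y, q.1 = some y → y.1 < η) ∧ (∀ y, q.2 = some y → y.1 < η)})
    {y : Y} {z : Option Y} (h : (some y, z) ∈ S) (hy : y.1 < η)
    (hz : z = none ∨ ∃ z' : Y, z = some z' ∧ z'.1 < η) : (some y, z) ∈ G := by
  rw [hG]
  refine ⟨h, ?_, ?_⟩
  · intro y' hy'
    have : y = y' := Option.some.inj hy'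
    exact this ▸ hy
  · intro y' hy'
    change z = some y' at hy'
    rcases hz with hz | ⟨z', hz, hz'⟩
    · rw [hz] at hy'
      cases hy'
    · rw [hz] at hy'
      have : z' = y' := Option.some.inj hy'
      exact this ▸ hz'

theorem main_system_bad {G S : Set (Option Y × Option Y)} {s : Sys} {η : Om}
    (hG : G = {q | q ∈ S ∧ (∀ y, q.1 = some y → y.1 < η) ∧ (∀ y, q.2 = some y → y.1 < η)})
    (h : Bad S s η) : Bad G s η := by
  intro ζ hζ F hF
  obtain ⟨y, z, h1, h2, h3, h4, h5, h6⟩ := h ζ hζ F hF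
  refine ⟨y, z, main_system_mem hG h1 h4 ?_, h2, h3, h4, h5, h6⟩
  rcases h6 with h6 | ⟨z', h7, _, h8⟩
  · exact Or.inl h6
  · exact Or.inr ⟨z', h7, h8⟩

theorem main_system_nsat {G S : Set (Option Y × Option Y)} {s : Sys} {η : Om}
    (hG : G = {q | q ∈ S ∧ (∀ y, q.1 = some y → y.1 < η) ∧ (∀ y, q.2 = some y → y.1 < η)})
    (h : NSat S s η) : NSat G s η := by
  refine Set.Infinite.mono ?_ h
  rintro k ⟨y, z, h1, h2, h3, h4⟩
  refine ⟨y, z, main_system_mem hG h1 h2 ?_, h2, h3, h4⟩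
  rcases h4 with h4 | ⟨z', h5, h6, _⟩
  · exact Or.inl h4
  · exact Or.inr ⟨z', h5, h6⟩

theorem main_system_kill {G S : Set (Option Y × Option Y)} {s : Sys} {η : Om}
    (hG : G ⊆ S) (h : Kill G s η) : Kill S s η := by
  rcases h with h | ⟨w, hw, h⟩
  · left
    intro k F hF
    obtain ⟨y, z, h1, h2⟩ := h k F hF
    exact ⟨y, z, hG h1, h2⟩
  · right
    refine ⟨w, hw, fun k F hF F' hF' => ?_⟩
    obtain ⟨y, z, h1, h2⟩ := h k F hF F' hF'
    exact ⟨y, z, hG h1, h2⟩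

/-- TARGET -/
theorem main_system (h : Diamond) : ∃ s : Sys, (∀ η, AX s η) ∧ (∀ η, N1 s η) ∧
    ∀ S : Set (Option Y × Option Y), ∀ E : Set Om, IsClub E → (∀ η ∈ E, ∃ ζ, ζ < η) →
      ∃ η ∈ E, (Bad S s η ∨ NSat S s η → Kill S s η) := by
  obtain ⟨G, hG⟩ := diamond_guess h
  obtain ⟨s, h1, h2, h3⟩ := exists_system G
  refine ⟨s, h1, h2, fun S E hE hE0 => ?_⟩
  obtain ⟨η, hη, hGη⟩ := hG S E hE
  refine ⟨η, hη, fun hb => ?_⟩
  refine main_system_kill (fun q hq => ?_) (h3 η (hE0 η hη)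
    (hb.imp (main_system_bad hGη) (main_system_nsat hGη)))
  rw [hGη] at hq
  exact hq.1
end

end Pool.Agent.Helper220.ISAP
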