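import Pool.Agent.Helper220.ISAP.AlgDefs

set_option autoImplicit false
set_option linter.all false

namespace Pool.Agent.Helper220.ISAP

open Set

/-- the first uncountable ordinal as a type -/
def Om : Type := (Cardinal.aleph 1).ord.ToType

noncomputable instance : LinearOrder Om :=
  inferInstanceAs (LinearOrder (Cardinal.aleph 1).ord.ToType)

instance : WellFoundedLT Om := inferInstanceAs (WellFoundedLT (Cardinal.aleph 1).ord.ToType)

lemma mk_Om : Cardinal.mk Om = Cardinal.aleph 1 := Cardinal.mk_ord_toType _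

lemma countable_Iio (a : Om) : (Iio a).Countable := by
  have h : Cardinal.mk (Iio a) < Cardinal.mk Om :=
    Cardinal.mk_Iio_lt (α := (Cardinal.aleph 1).ord.ToType) a (by simp)
  rw [mk_Om] at h
  rwa [← Cardinal.le_aleph0_iff_set_countable, ← Order.lt_succ_iff, Cardinal.succ_aleph0]

lemma countable_Iic (a : Om) : (Iic a).Countable := by
  rw [← Iio_union_right]
  exact (countable_Iio a).union (countable_singleton a)

instance : Uncountable Om := by
  rw [← not_countable_iff, ← Cardinal.mk_le_aleph0_iff, mk_Om, not_le]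
  exact Cardinal.aleph0_lt_aleph_one

/-- countable sets are bounded -/
lemma bdd_of_countable {A : Set Om} (hA : A.Countable) : ∃ b, ∀ a ∈ A, a < b := by
  by_contra hcon
  push Not at hcon
  have : (univ : Set Om) ⊆ ⋃ a ∈ A, Iic a := by
    intro x _
    obtain ⟨a, ha, hx⟩ := hcon x
    exact mem_biUnion ha hx
  exact not_countable_univ ((hA.biUnion fun a _ => countable_Iic a).mono this)

instance : Nonempty Om := by
  by_contra h
  rw [not_nonempty_iff] at h
  exact not_countable (α := Om) inferInstance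

lemma exists_gt' (a : Om) : ∃ b, a < b := by
  obtain ⟨b, hb⟩ := bdd_of_countable (countable_singleton a)
  exact ⟨b, hb a rfl⟩

/-- `a` is a limit: it is not the least element and not a successor -/
def Lim (a : Om) : Prop := (∃ b, b < a) ∧ ∀ b < a, ∃ c, b < c ∧ c < a

/-- closed unbounded sets -/
def IsClub (E : Set Om) : Prop :=
  (∀ b, ∃ a ∈ E, b < a) ∧ ∀ a, (∃ b, b < a) → (∀ b < a, ∃ c ∈ E, b < c ∧ c < a) → a ∈ E

/-- Jensen's diamond principle -/
def Diamond : Prop :=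
  ∃ A : Om → Set Om, ∀ S : Set Om, ∀ E : Set Om, IsClub E → ∃ a ∈ E, A a = S ∩ Iio a

/-- closure points of a function form a club -/
lemma club_closure (G : Om → Om) : IsClub {a | Lim a ∧ ∀ b < a, G b < a} := by
  constructor
  · intro b0
    have step : ∀ b : Om, ∃ c, b < c ∧ ∀ x ≤ b, G x < c := by
      intro b
      obtain ⟨c, hc⟩ := bdd_of_countable ((countable_singleton b).union ((countable_Iic b).image G))
      exact ⟨c, hc b (Or.inl rfl), fun x hx => hc _ (Or.inr ⟨x, hx, rfl⟩)⟩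
    choose nx h1 h2 using step
    let s : ℕ → Om := fun n => nx^[n] b0
    have hs : ∀ n, s (n + 1) = nx (s n) := fun n => Function.iterate_succ_apply' _ _ _
    have hmono : StrictMono s := strictMono_nat_of_lt_succ fun n => by rw [hs]; exact h1 _
    obtain ⟨c, hc⟩ := bdd_of_countable (countable_range s)
    have hne : {x : Om | ∀ n, s n < x}.Nonempty := ⟨c, fun n => hc _ ⟨n, rfl⟩⟩
    let a := wellFounded_lt.min _ hne
    have ha : ∀ n, s n < a := wellFounded_lt.min_mem _ hne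
    have hlt : ∀ x < a, ∃ n, x ≤ s n := by
      intro x hx
      by_contra hcon
      push Not at hcon
      exact wellFounded_lt.not_lt_min {x : Om | ∀ n, s n < x} hcon hx
    refine ⟨a, ⟨⟨⟨s 0, ha 0⟩, ?_⟩, ?_⟩, ha 0⟩
    · intro b hb
      obtain ⟨n, hn⟩ := hlt b hb
      exact ⟨s (n + 1), hn.trans_lt (hmono (Nat.lt_succ_self n)), ha _⟩
    · intro b hb
      obtain ⟨n, hn⟩ := hlt b hb
      have := h2 (s n) b hn
      rw [← hs] at this
      exact this.trans (ha _)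
  · intro a hne ha
    refine ⟨⟨hne, fun b hb => ?_⟩, fun b hb => ?_⟩
    · obtain ⟨c, _, h1, h2⟩ := ha b hb
      exact ⟨c, h1, h2⟩
    · obtain ⟨c, hc, h1, h2⟩ := ha b hb
      exact (hc.2 b h1).trans h2

/-- recursion along `Om` -/
lemma exists_rec {R : Type} [Inhabited R] (Q : Om → (Om → R) → R → Prop)
    (hloc : ∀ a f f' r, (∀ b < a, f b = f' b) → Q a f r → Q a f' r)
    (hex : ∀ a f, (∀ b < a, Q b f (f b)) → ∃ r, Q a f r) : ∃ f : Om → R, ∀ a, Q a f (f a) := by
  classical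
  let tr : (a : Om) → ((b : Om) → b < a → R) → Om → R :=
    fun a p b => if h : b < a then p b h else default
  let F : (a : Om) → ((b : Om) → b < a → R) → R :=
    fun a p => if h : ∃ r, Q a (tr a p) r then h.choose else default
  let f : Om → R := (wellFounded_lt (α := Om)).fix F
  have hf : ∀ a, f a = F a (fun b _ => f b) := fun a => (wellFounded_lt (α := Om)).fix_eq F a
  refine ⟨f, ?_⟩
  intro a
  refine (wellFounded_lt (α := Om)).induction (C := fun a => Q a f (f a)) a ?_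
  intro a ih
  · have htr : ∀ b < a, f b = tr a (fun b _ => f b) b := by
      intro b hb
      simp [tr, hb]
    obtain ⟨r, hr⟩ := hex a f ih
    have h1 : ∃ r, Q a (tr a (fun b _ => f b)) r := ⟨r, hloc a f _ r htr hr⟩
    have h2 : Q a (tr a (fun b _ => f b)) (f a) := by
      rw [hf a]
      show Q a (tr a (fun b _ => f b)) (dite _ _ _)
      rw [dif_pos h1]
      exact h1.choose_spec
    exact hloc a _ f _ (fun b hb => (htr b hb).symm) h2

lemma club_Ioi (c : Om) : IsClub {a | c < a} := by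
  constructor
  · intro b
    obtain ⟨a, ha⟩ := exists_gt' (max b c)
    exact ⟨a, (le_max_right _ _).trans_lt ha, (le_max_left _ _).trans_lt ha⟩
  · intro a h1 h2
    obtain ⟨b, hb⟩ := h1
    obtain ⟨d, hd, _, h3⟩ := h2 b hb
    exact lt_trans hd h3

/-- `E` is a closed unbounded subset of `ω₁` -/
def IsClubOmegaOne (E : Set Ordinal.{0}) : Prop :=
  (∀ a ∈ E, a < Ordinal.omega 1) ∧ (∀ b < Ordinal.omega 1, ∃ a ∈ E, b < a) ∧
    ∀ a < Ordinal.omega 1, a ≠ 0 → (∀ b < a, ∃ c ∈ E, b < c ∧ c < a) → a ∈ E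

/-- Jensen's principle diamond: some sequence `(A a)`, `a < ω₁`, guesses every subset `S` of `ω₁`
on every closed unbounded set `E` -/
def DiamondOmegaOne : Prop :=
  ∃ A : Ordinal.{0} → Set Ordinal.{0}, ∀ S E : Set Ordinal.{0}, S ⊆ Iio (Ordinal.omega 1) →
    IsClubOmegaOne E → ∃ a ∈ E, A a = S ∩ Iio a

lemma diamond_transfer (h : DiamondOmegaOne) : Diamond := by
  obtain ⟨A, hA⟩ := h
  let e : Iio (Cardinal.aleph 1).ord ≃o Om := Ordinal.ToType.mk
  have hom : (Cardinal.aleph 1).ord = (Ordinal.omega 1 : Ordinal.{0}) := Cardinal.ord_aleph 1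
  refine ⟨fun a => {x | (e.symm x).1 ∈ A (e.symm a).1}, ?_⟩
  intro S E hE
  have hlt : ∀ x : Om, (e.symm x).1 < (Ordinal.omega 1 : Ordinal.{0}) := fun x => by
    rw [← hom]; exact (e.symm x).2
  have hclub : IsClubOmegaOne ((fun x : Om => (e.symm x).1) '' E) := by
    refine ⟨?_, ?_, ?_⟩
    · rintro _ ⟨x, _, rfl⟩
      exact hlt x
    · intro b hb
      obtain ⟨a, ha, hab⟩ := hE.1 (e ⟨b, by rw [mem_Iio, hom]; exact hb⟩)
      refine ⟨_, ⟨a, ha, rfl⟩, ?_⟩
      have h2 := e.symm.lt_iff_lt.2 hab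
      rw [OrderIso.symm_apply_apply] at h2
      exact h2
    · intro a ha ha0 hcl
      have ham : a ∈ Iio (Cardinal.aleph 1).ord := by rw [mem_Iio, hom]; exact ha
      have h0m : (0 : Ordinal.{0}) ∈ Iio (Cardinal.aleph 1).ord := by
        rw [mem_Iio, hom]; exact (pos_iff_ne_zero.2 ha0).trans ha
      refine ⟨e ⟨a, ham⟩, hE.2 _ ⟨e ⟨0, h0m⟩, ?_⟩ ?_, ?_⟩
      · exact e.lt_iff_lt.2 (pos_iff_ne_zero.2 ha0 : (0 : Ordinal.{0}) < a)
      · intro b hb
        have hb' : (e.symm b).1 < a := by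
          have h3 := e.symm.lt_iff_lt.2 hb
          rw [OrderIso.symm_apply_apply] at h3
          exact h3
        obtain ⟨_, ⟨c, hc, rfl⟩, h4, h5⟩ := hcl _ hb'
        refine ⟨c, hc, e.symm.lt_iff_lt.1 h4, ?_⟩
        have h6 : e.symm c < ⟨a, ham⟩ := h5
        have h7 := e.lt_iff_lt.2 h6
        rwa [OrderIso.apply_symm_apply] at h7
      · simp

  obtain ⟨a, ⟨a', ha'E, rfl⟩, ha⟩ := hA ((fun x : Om => (e.symm x).1) '' S)
    ((fun x : Om => (e.symm x).1) '' E) (by
      rintro _ ⟨x, _, rfl⟩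
      exact hlt x) hclub
  refine ⟨a', ha'E, ?_⟩
  ext x
  have h1 := Set.ext_iff.1 ha (e.symm x).1
  simp only [mem_setOf_eq]
  rw [h1]
  constructor
  · rintro ⟨⟨y, hy, hyx⟩, hx⟩
    have : y = x := e.symm.injective (Subtype.ext hyx)
    refine ⟨this ▸ hy, ?_⟩
    have hx' : e.symm x < e.symm a' := hx
    exact e.symm.lt_iff_lt.1 hx'
  · rintro ⟨hx, hxa⟩
    refine ⟨⟨x, hx, rfl⟩, ?_⟩
    have : e.symm x < e.symm a' := e.symm.lt_iff_lt.2 hxa
    exact this


/-- the rank of an element of `Om` as an ordinal -/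
noncomputable def rk (a : Om) : Ordinal.{0} :=
  ((Ordinal.ToType.mk : Iio (Cardinal.aleph 1).ord ≃o (Cardinal.aleph 1).ord.ToType).symm a).1

lemma rk_lt_iff {a b : Om} : rk a < rk b ↔ a < b :=
  (Ordinal.ToType.mk : Iio (Cardinal.aleph 1).ord ≃o (Cardinal.aleph 1).ord.ToType).symm.lt_iff_lt

lemma rk_le_iff {a b : Om} : rk a ≤ rk b ↔ a ≤ b :=
  (Ordinal.ToType.mk : Iio (Cardinal.aleph 1).ord ≃o (Cardinal.aleph 1).ord.ToType).symm.le_iff_le

lemma rk_lt (a : Om) : rk a < Ordinal.omega 1 := by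
  have h := ((Ordinal.ToType.mk :
    Iio (Cardinal.aleph 1).ord ≃o (Cardinal.aleph 1).ord.ToType).symm a).2
  have h2 : (Cardinal.aleph 1).ord = (Ordinal.omega 1 : Ordinal.{0}) := Cardinal.ord_aleph 1
  exact lt_of_lt_of_eq h h2

lemma exists_rk {o : Ordinal.{0}} (h : o < Ordinal.omega 1) : ∃ a : Om, rk a = o := by
  have h' : o ∈ Iio (Cardinal.aleph 1).ord := by rw [mem_Iio, Cardinal.ord_aleph]; exact h
  refine ⟨(Ordinal.ToType.mk :
    Iio (Cardinal.aleph 1).ord ≃o (Cardinal.aleph 1).ord.ToType) ⟨o, h'⟩, ?_⟩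
  show ((Ordinal.ToType.mk :
    Iio (Cardinal.aleph 1).ord ≃o (Cardinal.aleph 1).ord.ToType).symm _).1 = o
  rw [OrderIso.symm_apply_apply]

lemma exists_rk_of_lt {o : Ordinal.{0}} {b : Om} (h : o < rk b) : ∃ a : Om, a < b ∧ rk a = o := by
  obtain ⟨a, ha⟩ := exists_rk (h.trans (rk_lt b))
  exact ⟨a, rk_lt_iff.1 (ha ▸ h), ha⟩

/-- the points: `ω₁` levels, each of them countable -/
abbrev Y : Type := Om × ℕ

/-- the labellings -/
abbrev Sys : Type := Om → Y → Option ℕ

/-- the basic set of the point `p` -/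
def C (s : Sys) (p : Y) : Set (Option Y) :=
  {x | ∃ y : Y, x = some y ∧ (y = p ∨ (y.1 < p.1 ∧ s p.1 y = some p.2))}

/-- finite unions of basic sets -/
def TT (s : Sys) (F : Finset Y) : Set (Option Y) := {x | ∃ p ∈ F, x ∈ C s p}

/-- `A` is covered by finitely many basic sets of points of level `< ξ` -/
def Sm (s : Sys) (ξ : Om) (A : Set (Option Y)) : Prop :=
  ∃ F : Finset Y, (∀ p ∈ F, p.1 < ξ) ∧ A ⊆ TT s F

/-- the label of a point (`none` for the point at infinity) -/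
def lab (s : Sys) (η : Om) : Option Y → Option ℕ
  | none => none
  | some y => s η y

/-- the retraction onto the levels `≥ ξ` -/
noncomputable def ret (s : Sys) (ξ : Om) : Option Y → Option Y
  | none => none
  | some y => if y.1 < ξ then (s ξ y).map (fun i => (ξ, i)) else some y

/-- coherence: for `ξ < η`, `s η y = s η (ret ξ y)` for all `y` of level `< ξ` except for a set
covered by finitely many basic sets of level `< ξ` -/
def AX (s : Sys) (η : Om) : Prop :=
  ∀ ξ < η, Sm s ξ {x | ∃ y : Y, x = some y ∧ y.1 < ξ ∧ s η y ≠ lab s η (ret s ξ (some y))}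

/-- every label (including `none`) is used for infinitely many points of arbitrarily high level -/
def N1 (s : Sys) (η : Om) : Prop :=
  ∀ ζ < η, ∀ i : Option ℕ, {y : Y | ζ ≤ y.1 ∧ y.1 < η ∧ s η y = i}.Infinite

/-- `G` relates distinct points of arbitrarily high level, outside of small sets -/
def Bad (G : Set (Option Y × Option Y)) (s : Sys) (η : Om) : Prop :=
  ∀ ζ < η, ∀ F : Finset Y, (∀ p ∈ F, p.1 < η) → ∃ (y : Y) (z : Option Y), (some y, z) ∈ G ∧
    z ≠ some y ∧ ζ ≤ y.1 ∧ y.1 < η ∧ some y ∉ TT s F ∧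
      (z = none ∨ ∃ z' : Y, z = some z' ∧ ζ ≤ z'.1 ∧ z'.1 < η)

/-- infinitely many of the sets `{s η = k}` are not `G`-saturated -/
def NSat (G : Set (Option Y × Option Y)) (s : Sys) (η : Om) : Prop :=
  {k : ℕ | ∃ (y : Y) (z : Option Y), (some y, z) ∈ G ∧ y.1 < η ∧ s η y = some k ∧
    (z = none ∨ ∃ z' : Y, z = some z' ∧ z'.1 < η ∧ s η z' ≠ some k)}.Infinite

/-- all the pairs `((η,k),∞)` are in the closure of `G` -/
def KillInf (G : Set (Option Y × Option Y)) (s : Sys) (η : Om) : Prop :=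
  ∀ k : ℕ, ∀ F : Finset Y, (∀ p ∈ F, p.1 < η) → ∃ (y : Y) (z : Option Y), (some y, z) ∈ G ∧
    y.1 < η ∧ s η y = some k ∧ some y ∉ TT s F ∧
      (z = none ∨ ∃ z' : Y, z = some z' ∧ z'.1 < η ∧ s η z' = none ∧ some z' ∉ TT s F)

/-- all the pairs `((η,k),w)` are in the closure of `G` -/
def KillAt (G : Set (Option Y × Option Y)) (s : Sys) (η : Om) (w : Y) : Prop :=
  ∀ k : ℕ, ∀ F : Finset Y, (∀ p ∈ F, p.1 < η) → ∀ F' : Finset Y, (∀ p ∈ F', p.1 < w.1) →
    ∃ (y z : Y), (some y, some z) ∈ G ∧ y.1 < η ∧ s η y = some k ∧ some y ∉ TT s F ∧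
      some z ∈ C s w ∧ some z ∉ TT s F'

def Kill (G : Set (Option Y × Option Y)) (s : Sys) (η : Om) : Prop :=
  KillInf G s η ∨ ∃ w : Y, w.1 < η ∧ KillAt G s η w

/-- pieces: sets covered by finitely many basic sets of level `< η` which are almost saturated for
all the retractions `ret ξ`, `ξ < η` -/
def Pc (s : Sys) (η : Om) (O : Set (Option Y)) : Prop :=
  Sm s η O ∧ ∀ ξ < η, Sm s ξ {x | ∃ y : Y, x = some y ∧ y.1 < ξ ∧
    ¬ (some y ∈ O ↔ ret s ξ (some y) ∈ O)}

/-- the new labelling at level `η` obtained from disjoint pieces `O n` with labels `l n` -/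
noncomputable def newlab (O : ℕ → Set (Option Y)) (l : ℕ → Option ℕ) (y : Y) : Option ℕ := by
  classical exact if h : ∃ n, some y ∈ O n then l h.choose else none

/-- a suitable sequence of pieces at level `η` -/
structure Pieces (G : Set (Option Y × Option Y)) (s : Sys) (η : Om)
    (O : ℕ → Set (Option Y)) (F : ℕ → Finset Y) : Prop where
  pc : ∀ n, Pc s η (O n)
  lev : ∀ n, ∀ p ∈ F n, p.1 < η
  exh : ∀ p : Y, p.1 < η → ∃ n, p ∈ F n
  mono : Monotone F
  out : ∀ n, ∀ x ∈ O n, x ∉ TT s (F n)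
  ins : ∀ n, O n ⊆ TT s (F (n + 1))
  sat : ∀ ξ < η, ∃ m, ∀ n ≥ m, ∀ y : Y, y.1 < ξ → (some y ∈ O n ↔ ret s ξ (some y) ∈ O n)
  high : ∀ ζ < η, ∃ m, ∀ n ≥ m, ∃ y : Y, some y ∈ O n ∧ ζ ≤ y.1 ∧ y.1 < η
  bad : Bad G s η → ∀ n, ∃ (y : Y) (z : Option Y), (some y, z) ∈ G ∧ y.1 < η ∧ some y ∈ O n ∧
    z ∉ O n ∧ (z = none ∨ ∃ z' : Y, z = some z' ∧ z'.1 < η)

lemma mem_C_some {s : Sys} {p y : Y} :
    some y ∈ C s p ↔ (y = p ∨ (y.1 < p.1 ∧ s p.1 y = some p.2)) := by
  constructor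
  · rintro ⟨y', h, h'⟩
    rw [Option.some.injEq] at h
    exact h ▸ h'
  · intro h; exact ⟨y, rfl, h⟩

lemma none_notMem_C {s : Sys} {p : Y} : (none : Option Y) ∉ C s p := by
  rintro ⟨y, h, _⟩; exact absurd h (by simp)

lemma none_notMem_TT {s : Sys} {F : Finset Y} : (none : Option Y) ∉ TT s F := by
  rintro ⟨p, _, h⟩; exact none_notMem_C h

lemma self_mem_C (s : Sys) (p : Y) : some p ∈ C s p := mem_C_some.2 (Or.inl rfl)

lemma lev_le_of_mem {s : Sys} {p y : Y} (h : some y ∈ C s p) : y.1 ≤ p.1 := by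
  rcases mem_C_some.1 h with rfl | h
  · exact le_rfl
  · exact h.1.le

lemma ret_none (s : Sys) (ξ : Om) : ret s ξ none = none := rfl

lemma ret_ge {s : Sys} {ξ : Om} {y : Y} (h : ξ ≤ y.1) : ret s ξ (some y) = some y := by
  simp [ret, not_lt.2 h]

lemma ret_lt {s : Sys} {ξ : Om} {y : Y} (h : y.1 < ξ) :
    ret s ξ (some y) = (s ξ y).map (fun i => (ξ, i)) := by
  simp [ret, h]

lemma TT_mono {s : Sys} {F F' : Finset Y} (h : F ⊆ F') : TT s F ⊆ TT s F' :=
  fun _ ⟨p, hp, hx⟩ => ⟨p, h hp, hx⟩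

lemma Sm_mono {s : Sys} {ξ : Om} {A B : Set (Option Y)} (h : A ⊆ B) (hB : Sm s ξ B) : Sm s ξ A :=
  let ⟨F, h1, h2⟩ := hB; ⟨F, h1, h.trans h2⟩

lemma Sm_lev {s : Sys} {ξ η : Om} {A : Set (Option Y)} (h : ξ ≤ η) (hA : Sm s ξ A) : Sm s η A :=
  let ⟨F, h1, h2⟩ := hA; ⟨F, fun p hp => (h1 p hp).trans_le h, h2⟩

open Classical in
lemma Sm_union {s : Sys} {ξ : Om} {A B : Set (Option Y)} (hA : Sm s ξ A) (hB : Sm s ξ B) :
    Sm s ξ (A ∪ B) := by
  obtain ⟨F, h1, h2⟩ := hA
  obtain ⟨F', h1', h2'⟩ := hB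
  refine ⟨F ∪ F', ?_, ?_⟩
  · intro p hp
    rcases Finset.mem_union.1 hp with h | h
    · exact h1 p h
    · exact h1' p h
  · exact union_subset (h2.trans (TT_mono Finset.subset_union_left))
      (h2'.trans (TT_mono Finset.subset_union_right))

lemma Sm_empty {s : Sys} {ξ : Om} : Sm s ξ ∅ := ⟨∅, by simp, empty_subset _⟩

lemma Sm_C {s : Sys} {ξ : Om} {p : Y} (h : p.1 < ξ) : Sm s ξ (C s p) :=
  ⟨{p}, by simpa using h, fun x hx => ⟨p, by simp, hx⟩⟩

/-- the disjoint pieces -/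
lemma Pieces.disj {G : Set (Option Y × Option Y)} {s : Sys} {η : Om}
    {O : ℕ → Set (Option Y)} {F : ℕ → Finset Y} (h : Pieces G s η O F) {m n : ℕ} {x : Option Y}
    (hm : x ∈ O m) (hn : x ∈ O n) : m = n := by
  rcases lt_trichotomy m n with hmn | hmn | hmn
  · exact absurd (TT_mono (h.mono (Nat.succ_le_of_lt hmn)) (h.ins m hm)) (h.out n x hn)
  · exact hmn
  · exact absurd (TT_mono (h.mono (Nat.succ_le_of_lt hmn)) (h.ins n hn)) (h.out m x hm)

lemma newlab_mem {G : Set (Option Y × Option Y)} {s : Sys} {η : Om}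
    {O : ℕ → Set (Option Y)} {F : ℕ → Finset Y} (h : Pieces G s η O F) (l : ℕ → Option ℕ)
    {n : ℕ} {y : Y} (hy : some y ∈ O n) : newlab O l y = l n := by
  classical
  have h' : ∃ n, some y ∈ O n := ⟨n, hy⟩
  rw [newlab, dif_pos h', h.disj h'.choose_spec hy]

lemma newlab_notMem {O : ℕ → Set (Option Y)} {l : ℕ → Option ℕ} {y : Y}
    (hy : ∀ n, some y ∉ O n) : newlab O l y = none := by
  classical
  have h' : ¬ ∃ n, some y ∈ O n := by push Not; exact hy
  rw [newlab, dif_neg h']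

end Pool.Agent.Helper220.ISAP
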