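import Pool.Agent.Helper220.ISAP.TopoDefs
import Pool.Agent.Helper220.ISAP.Sys
import Pool.Agent.Helper220.ISAP.Alg

set_option autoImplicit false
set_option linter.all false

namespace Pool.Agent.Helper220.ISAP

open Set TopologicalSpace

section
/-- TARGET -/
theorem isClopen_CC (s : Sys) (p : Y) : IsClopen (CC s p) := by
  constructor
  · rw [← isOpen_compl_iff]
    exact TopologicalSpace.isOpen_generateFrom_of_mem ⟨p, Or.inr rfl⟩
  · exact TopologicalSpace.isOpen_generateFrom_of_mem ⟨p, Or.inl rfl⟩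
end

section
lemma t2_XX_clopen (s : Sys) {x y : XX s} (h : x ≠ y) :
    ∃ p : Y, (x ∈ CC s p ∧ y ∉ CC s p) ∨ (y ∈ CC s p ∧ x ∉ CC s p) := by
  rcases XX_cases x with rfl | ⟨a, rfl⟩
  · rcases XX_cases y with rfl | ⟨b, rfl⟩
    · exact absurd rfl h
    · exact ⟨b, Or.inr ⟨self_mem_CC s b, inf_notMem_CC⟩⟩
  · rcases XX_cases y with rfl | ⟨b, rfl⟩
    · exact ⟨a, Or.inl ⟨self_mem_CC s a, inf_notMem_CC⟩⟩
    · rcases le_total a.1 b.1 with hab | hab
      · refine ⟨a, Or.inl ⟨self_mem_CC s a, fun hb => h ?_⟩⟩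
        rw [eq_of_mem_CC hb hab]
      · refine ⟨b, Or.inr ⟨self_mem_CC s b, fun ha => h ?_⟩⟩
        rw [eq_of_mem_CC ha hab]

/-- TARGET -/
theorem t2_XX (s : Sys) : T2Space (XX s) := by
  refine ⟨fun x y hxy => ?_⟩
  obtain ⟨p, ⟨h1, h2⟩ | ⟨h1, h2⟩⟩ := t2_XX_clopen s hxy
  · exact ⟨CC s p, (CC s p)ᶜ, (isClopen_CC s p).isOpen, (isClopen_CC s p).compl.isOpen, h1, h2,
      disjoint_compl_right⟩
  · exact ⟨(CC s p)ᶜ, CC s p, (isClopen_CC s p).compl.isOpen, (isClopen_CC s p).isOpen, h2, h1,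
      disjoint_compl_left⟩
end

section
theorem compact_XX_conv {s : Sys} (U : Ultrafilter (XX s)) (x : XX s)
    (h : ∀ q : Y, (x ∈ CC s q → CC s q ∈ U) ∧ (x ∉ CC s q → (CC s q)ᶜ ∈ U)) :
    (U : Filter (XX s)) ≤ nhds x := by
  rw [TopologicalSpace.nhds_generateFrom]
  refine le_iInf₂ ?_
  rintro V ⟨hxV, q, hq⟩
  rw [Filter.le_principal_iff]
  rcases hq with rfl | rfl
  · exact (h q).1 hxV
  · exact (h q).2 hxV

/-- TARGET -/
theorem compact_XX {s : Sys} (hA : ∀ η, AX s η) : CompactSpace (XX s) := by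
  classical
  refine ⟨isCompact_iff_ultrafilter_le_nhds.2 (fun U _ => ?_)⟩
  by_cases hex : ∃ p, CC s p ∈ U
  · obtain ⟨p, hp, hmin⟩ : ∃ p : Y, CC s p ∈ U ∧ ∀ q : Y, q.1 < p.1 → CC s q ∉ U := by
      let S : Set Om := {a | ∃ p : Y, p.1 = a ∧ CC s p ∈ U}
      have hS : S.Nonempty := by
        obtain ⟨p, hp⟩ := hex
        exact ⟨p.1, p, rfl, hp⟩
      obtain ⟨p, hpa, hpU⟩ := wellFounded_lt.min_mem S hS
      refine ⟨p, hpU, fun q hq hqU => ?_⟩
      exact wellFounded_lt.not_lt_min S (x := q.1) ⟨q, rfl, hqU⟩ (hpa ▸ hq)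
    refine ⟨pt s p, trivial, compact_XX_conv U _ (fun q => ?_)⟩
    rcases lt_trichotomy q.1 p.1 with hlt | heq | hgt
    · have h1 : CC s q ∉ U := hmin q hlt
      have h2 : pt s p ∉ CC s q := fun h => absurd (lev_le_of_mem_CC h) (not_le.2 hlt)
      exact ⟨fun h => absurd h h2, fun _ => Ultrafilter.compl_mem_iff_notMem.2 h1⟩
    · by_cases hqp : q = p
      · subst hqp
        exact ⟨fun _ => hp, fun h => absurd (self_mem_CC s q) h⟩
      · have h2 : pt s p ∉ CC s q := fun h => hqp (eq_of_mem_CC h heq.le).symm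
        refine ⟨fun h => absurd h h2, fun _ => ?_⟩
        filter_upwards [hp] with x hx
        intro hxq
        obtain rfl | ⟨y, rfl⟩ := XX_cases x
        · exact inf_notMem_CC hx
        · rcases mem_CC.1 hx with h | h
          · subst h; exact h2 hxq
          · rcases mem_CC.1 hxq with h' | h'
            · subst h'
              exact absurd h.1 (by rw [heq]; exact lt_irrefl _)
            · apply hqp
              have h3 := h'.2
              rw [heq] at h3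
              have h4 := h.2.symm.trans h3
              exact Prod.ext heq (Option.some.inj h4).symm
    · obtain ⟨F, hF1, hF2⟩ := hA q.1 p.1 hgt
      have hTX : TX s F ∉ U := by
        intro h
        have h0 : TX s F = ⋃ p ∈ (F : Set Y), CC s p := by
          ext x
          simp only [Set.mem_iUnion, exists_prop]
          exact mem_TX
        rw [h0] at h
        obtain ⟨r, hr, hrU⟩ := (Ultrafilter.finite_biUnion_mem_iff F.finite_toSet).1 h
        exact hmin r (hF1 r hr) hrU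
      have hTXc : (TX s F)ᶜ ∈ U := Ultrafilter.compl_mem_iff_notMem.2 hTX
      have hpq : pt s p ∈ CC s q ↔ s q.1 p = some q.2 := by
        rw [mem_CC]
        constructor
        · rintro (h | h)
          · subst h; exact absurd hgt (lt_irrefl _)
          · exact h.2
        · intro h; exact Or.inr ⟨hgt, h⟩
      have key : ∀ y : Y, pt s y ∈ CC s p → pt s y ∉ TX s F →
          (pt s y ∈ CC s q ↔ s q.1 p = some q.2) := by
        intro y hy hyF
        rcases mem_CC.1 hy with h | ⟨hy1, hy2⟩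
        · subst h; exact hpq
        · have h3 : s q.1 y = s q.1 p := by
            by_contra hne
            apply hyF
            apply hF2
            refine ⟨y, rfl, hy1, ?_⟩
            rw [ret_lt hy1, hy2]
            exact hne
          rw [mem_CC, h3]
          constructor
          · rintro (h | h)
            · subst h; exact absurd (hy1.trans hgt) (lt_irrefl _)
            · exact h.2
          · intro h; exact Or.inr ⟨hy1.trans hgt, h⟩
      refine ⟨fun h => ?_, fun h => ?_⟩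
      · filter_upwards [hp, hTXc] with x hx hxF
        obtain rfl | ⟨y, rfl⟩ := XX_cases x
        · exact absurd hx inf_notMem_CC
        · exact (key y hx hxF).2 (hpq.1 h)
      · filter_upwards [hp, hTXc] with x hx hxF
        intro hxq
        obtain rfl | ⟨y, rfl⟩ := XX_cases x
        · exact absurd hx inf_notMem_CC
        · exact h (hpq.2 ((key y hx hxF).1 hxq))
  · refine ⟨inf s, trivial, compact_XX_conv U _ (fun q => ⟨fun h => absurd h inf_notMem_CC,
      fun _ => Ultrafilter.compl_mem_iff_notMem.2 (fun h => hex ⟨q, h⟩)⟩)⟩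
end

section
/-- TARGET -/
theorem nhd_base {s : Sys} (hA : ∀ η, AX s η) {U : Set (XX s)} (hU : IsOpen U) {p : Y}
    (hp : pt s p ∈ U) : ∃ F : Finset Y, (∀ q ∈ F, q.1 < p.1) ∧
      ∀ x ∈ CC s p, x ∉ TX s F → x ∈ U := by
  haveI := compact_XX hA
  have hK : IsClosed (CC s p ∩ Uᶜ) := (isClopen_CC s p).1.inter hU.isClosed_compl
  obtain ⟨b', hb', hfin, hcov⟩ := hK.isCompact.elim_finite_subcover_image
    (b := {y : Y | pt s y ∈ CC s p ∩ Uᶜ}) (c := fun y => CC s y)
    (fun y _ => (isClopen_CC s y).2) (by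
      intro x hx
      rcases XX_cases x with rfl | ⟨y, rfl⟩
      · exact absurd hx.1 inf_notMem_CC
      · exact mem_biUnion (show y ∈ {y : Y | pt s y ∈ CC s p ∩ Uᶜ} from hx) (self_mem_CC s y))
  refine ⟨hfin.toFinset, ?_, ?_⟩
  · intro q hq
    have h1 := hb' (hfin.mem_toFinset.1 hq)
    rcases mem_CC.1 h1.1 with h2 | h2
    · rw [h2] at h1
      exact absurd hp h1.2
    · exact h2.1
  · intro x hx hxF
    by_contra hxU
    obtain ⟨y, hy, hxy⟩ := mem_iUnion₂.1 (hcov (show x ∈ CC s p ∩ Uᶜ from ⟨hx, hxU⟩))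
    exact hxF (mem_TX.2 ⟨y, hfin.mem_toFinset.2 hy, hxy⟩)
end

section
/-- TARGET -/
theorem clopen_cover {s : Sys} (hA : ∀ η, AX s η) {U : Set (XX s)} (hU : IsClosed U)
    (h0 : inf s ∉ U) : ∃ F : Finset Y, (∀ p ∈ F, pt s p ∈ U) ∧ U ⊆ TX s F := by
  classical
  haveI := compact_XX hA
  have hc : IsCompact U := hU.isCompact
  obtain ⟨t, ht⟩ := hc.elim_finite_subcover (fun y : {y : Y // pt s y ∈ U} => CC s y.1)
    (fun y => (isClopen_CC s y.1).isOpen) (by
      intro x hx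
      rcases XX_cases x with rfl | ⟨y, rfl⟩
      · exact absurd hx h0
      · exact mem_iUnion.2 ⟨⟨y, hx⟩, self_mem_CC s y⟩)
  refine ⟨t.image Subtype.val, ?_, ?_⟩
  · intro p hp
    obtain ⟨q, _, rfl⟩ := Finset.mem_image.1 hp
    exact q.2
  · intro x hx
    obtain ⟨q, hq, hxq⟩ := mem_iUnion₂.1 (ht hx)
    exact mem_TX.2 ⟨q.1, Finset.mem_image.2 ⟨q, hq, rfl⟩, hxq⟩
end

section
/-- TARGET -/
theorem clopen_induction {s : Sys} (hA : ∀ η, AX s η) {P : Set (XX s) → Prop} (h0 : P ∅)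
    (hC : ∀ p, P (CC s p)) (hU : ∀ A B, P A → P B → P (A ∪ B)) (hD : ∀ A B, P A → P B → P (A \ B))
    {U : Set (XX s)} (hcl : IsClopen U) (hinf : inf s ∉ U) : P U := by
  classical
  have hTX : ∀ F : Finset Y, P (TX s F) := by
    intro F
    induction F using Finset.induction_on with
    | empty =>
      have : TX s ∅ = (∅ : Set (XX s)) := by
        ext x
        rw [mem_TX]
        simp
      rw [this]; exact h0
    | insert p F hp ih =>
      have : TX s (insert p F) = CC s p ∪ TX s F := by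
        ext x
        rw [mem_union, mem_TX, mem_TX]
        constructor
        · rintro ⟨q, hq, hx⟩
          rcases Finset.mem_insert.1 hq with rfl | hq
          · exact Or.inl hx
          · exact Or.inr ⟨q, hq, hx⟩
        · rintro (hx | ⟨q, hq, hx⟩)
          · exact ⟨p, Finset.mem_insert_self _ _, hx⟩
          · exact ⟨q, Finset.mem_insert_of_mem hq, hx⟩
      rw [this]; exact hU _ _ (hC p) ih
  have hTXclosed : ∀ F : Finset Y, IsClosed (TX s F) := by
    intro F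
    have : TX s F = ⋃ p ∈ F, CC s p := by
      ext x
      rw [mem_TX]
      simp
    rw [this]
    exact Set.Finite.isClosed_biUnion F.finite_toSet (fun p _ => (isClopen_CC s p).1)
  haveI := compact_XX hA
  have hbase : ∀ p : {p : Y // pt s p ∈ U}, ∃ F : Finset Y, (∀ q ∈ F, q.1 < p.1.1) ∧
      ∀ x ∈ CC s p.1, x ∉ TX s F → x ∈ U := fun p => nhd_base hA hcl.2 p.2
  choose F hF1 hF2 using hbase
  have hUc : IsCompact U := hcl.1.isCompact
  obtain ⟨t, ht⟩ := hUc.elim_finite_subcover (fun p : {p : Y // pt s p ∈ U} => CC s p.1 \ TX s (F p))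
    (fun p => (isClopen_CC s p.1).2.sdiff (hTXclosed _)) (by
      intro x hx
      rcases XX_cases x with rfl | ⟨y, rfl⟩
      · exact absurd hx hinf
      · refine mem_iUnion.2 ⟨⟨y, hx⟩, self_mem_CC s y, ?_⟩
        rintro ⟨q, hq, hyq⟩
        have h1 := hF1 ⟨y, hx⟩ q hq
        have h2 : y.1 ≤ q.1 := lev_le_of_mem_CC hyq
        exact absurd h1 (not_lt.2 h2))
  have hUeq : U = ⋃ p ∈ t, (CC s p.1 \ TX s (F p)) := by
    refine subset_antisymm ht ?_
    intro x hx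
    simp only [mem_iUnion] at hx
    obtain ⟨p, _, hx⟩ := hx
    exact hF2 p x hx.1 hx.2
  have hfin : ∀ t : Finset {p : Y // pt s p ∈ U}, P (⋃ p ∈ t, (CC s p.1 \ TX s (F p))) := by
    intro t
    induction t using Finset.induction_on with
    | empty => simpa using h0
    | insert p t hp ih =>
      rw [Finset.set_biUnion_insert]
      exact hU _ _ (hD _ _ (hC p.1) (hTX _)) ih
  rw [hUeq]
  exact hfin t
end

section
theorem star_fin1 {s : Sys} (hA : ∀ η, AX s η) (η : Om) (q : Y) (hq : q.1 < η) :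
    {k : ℕ | ¬ Disjoint (CC s (η, k)) (CC s q)}.Finite := by
  refine ((lab_fin (hA η) q hq).preimage (Option.some_injective _).injOn).subset ?_
  intro k hk
  rw [mem_setOf_eq, Set.not_disjoint_iff] at hk
  obtain ⟨x, h1, h2⟩ := hk
  rcases XX_cases x with rfl | ⟨y, rfl⟩
  · exact absurd h1 inf_notMem_CC
  · have hy : y.1 < η := (lev_le_of_mem_CC h2).trans_lt hq
    rcases mem_CC.1 h1 with h | h
    · rw [h] at hy
      exact absurd hy (lt_irrefl _)
    · exact ⟨some y, h2, h.2⟩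

theorem star_C {s : Sys} (hA : ∀ η, AX s η) (η : Om) (q : Y) :
    {k : ℕ | ¬ (CC s (η, k) ⊆ CC s q ∨ Disjoint (CC s (η, k)) (CC s q))}.Finite := by
  rcases lt_trichotomy q.1 η with hq | hq | hq
  · exact (star_fin1 hA η q hq).subset fun k hk h => hk (Or.inr h)
  · have : {k : ℕ | ¬ (CC s (η, k) ⊆ CC s q ∨ Disjoint (CC s (η, k)) (CC s q))} = ∅ := by
      rw [Set.eq_empty_iff_forall_notMem]
      intro k hk
      apply hk
      by_cases hkj : k = q.2
      · left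
        have : q = (η, k) := Prod.ext hq hkj.symm
        rw [this]
      · right
        rw [Set.disjoint_left]
        intro x h1 h2
        rcases XX_cases x with rfl | ⟨y, rfl⟩
        · exact inf_notMem_CC h1
        · rcases mem_CC.1 h1 with h | h <;> rcases mem_CC.1 h2 with h' | h'
          · apply hkj
            rw [← h', h]
          · rw [h, hq] at h'
            exact absurd h'.1 (lt_irrefl _)
          · rw [h', hq] at h
            exact absurd h.1 (lt_irrefl _)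
          · have h3 := h'.2
            rw [hq, h.2] at h3
            exact hkj (Option.some.inj h3)
    rw [this]
    exact Set.finite_empty
  · obtain ⟨F, hF1, hF2⟩ := hA q.1 η hq
    have hfin : (⋃ p ∈ F, {k : ℕ | ¬ Disjoint (CC s (η, k)) (CC s p)}).Finite :=
      Set.Finite.biUnion F.finite_toSet fun p hp => star_fin1 hA η p (hF1 p hp)
    refine hfin.subset ?_
    intro k hk
    by_contra hcon
    apply hk
    have hout : ∀ x ∈ CC s (η, k), x ∉ TX s F := by
      intro x hx hxF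
      obtain ⟨p, hp, hxp⟩ := mem_TX.1 hxF
      apply hcon
      rw [Set.mem_iUnion₂]
      exact ⟨p, hp, Set.not_disjoint_iff.2 ⟨x, hx, hxp⟩⟩
    have hsame : ∀ y : Y, pt s y ∈ CC s (η, k) → s q.1 y = s q.1 (η, k) := by
      intro y hy
      rcases mem_CC.1 hy with h | h
      · rw [h]
      · by_contra hne
        apply hout _ hy
        apply hF2
        refine ⟨y, rfl, h.1, ?_⟩
        rw [ret_lt h.1]
        have h2 : s η y = some k := h.2
        rw [h2]
        exact hne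
    by_cases hq2 : s q.1 (η, k) = some q.2
    · left
      intro x hx
      rcases XX_cases x with rfl | ⟨y, rfl⟩
      · exact absurd hx inf_notMem_CC
      · refine mem_CC.2 (Or.inr ⟨(lev_le_of_mem_CC hx).trans_lt hq, ?_⟩)
        rw [hsame y hx, hq2]
    · right
      rw [Set.disjoint_left]
      intro x h1 h2
      rcases XX_cases x with rfl | ⟨y, rfl⟩
      · exact inf_notMem_CC h1
      · rcases mem_CC.1 h2 with h | h
        · have := lev_le_of_mem_CC h1
          rw [h] at this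
          exact absurd hq (not_lt.2 this)
        · apply hq2
          rw [← hsame y h1, h.2]

/-- TARGET -/
theorem star {s : Sys} (hA : ∀ η, AX s η) {U : Set (XX s)} (hU : IsClopen U) (h0 : inf s ∉ U)
    (η : Om) : {k : ℕ | ¬ (CC s (η, k) ⊆ U ∨ Disjoint (CC s (η, k)) U)}.Finite := by
  refine clopen_induction (P := fun U =>
    {k : ℕ | ¬ (CC s (η, k) ⊆ U ∨ Disjoint (CC s (η, k)) U)}.Finite) hA ?_ (star_C hA η) ?_ ?_ hU h0
  · refine Set.finite_empty.subset fun k hk => hk (Or.inr ?_)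
    exact Set.disjoint_empty _
  · intro A B hA' hB'
    refine (hA'.union hB').subset ?_
    intro k hk
    by_contra hcon
    rw [Set.mem_union, not_or] at hcon
    obtain ⟨h1, h2⟩ := hcon
    rw [mem_setOf_eq, not_not] at h1 h2
    apply hk
    rcases h1 with h1 | h1
    · exact Or.inl (h1.trans Set.subset_union_left)
    · rcases h2 with h2 | h2
      · exact Or.inl (h2.trans Set.subset_union_right)
      · exact Or.inr (Set.disjoint_union_right.2 ⟨h1, h2⟩)
  · intro A B hA' hB'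
    refine (hA'.union hB').subset ?_
    intro k hk
    by_contra hcon
    rw [Set.mem_union, not_or] at hcon
    obtain ⟨h1, h2⟩ := hcon
    rw [mem_setOf_eq, not_not] at h1 h2
    apply hk
    rcases h1 with h1 | h1
    · rcases h2 with h2 | h2
      · exact Or.inr (Set.disjoint_of_subset_left h2 Set.disjoint_sdiff_right)
      · exact Or.inl (Set.subset_diff.2 ⟨h1, h2⟩)
    · exact Or.inr (Set.disjoint_of_subset_right Set.diff_subset h1)
end

section
lemma clopen_D_low {s : Sys} (hA : ∀ η, AX s η) (q : Y) (η : Om) (hq : q.1 < η) :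
    IsClopen (CC s q ∩ DD s η) := by
  have hfin : {k : ℕ | some k ∈ lab s η '' C s q}.Finite :=
    (lab_fin (hA η) q hq).preimage (Option.some_injective ℕ).injOn
  have e : CC s q ∩ DD s η =
      CC s q \ ⋃ k ∈ {k : ℕ | some k ∈ lab s η '' C s q}, CC s (η, k) := by
    ext x
    constructor
    · rintro ⟨hx, y, rfl, hy, hs⟩
      refine ⟨hx, fun h => ?_⟩
      simp only [mem_iUnion] at h
      obtain ⟨k, -, hk⟩ := h
      rcases mem_CC.1 hk with h | ⟨-, h⟩
      · rw [h] at hy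
        exact lt_irrefl _ hy
      · change s η y = some k at h
        rw [hs] at h
        exact absurd h (by simp)
    · rintro ⟨hx, hx2⟩
      refine ⟨hx, ?_⟩
      rcases XX_cases x with rfl | ⟨y, rfl⟩
      · exact absurd hx inf_notMem_CC
      · have hy : y.1 < η := (lev_le_of_mem_CC hx).trans_lt hq
        refine ⟨y, rfl, hy, ?_⟩
        cases hs : s η y with
        | none => rfl
        | some k =>
          exfalso
          apply hx2
          simp only [mem_iUnion]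
          refine ⟨k, ⟨some y, hx, hs⟩, mem_CC.2 (Or.inr ⟨hy, hs⟩)⟩
  rw [e]
  exact (isClopen_CC s q).diff (hfin.isClopen_biUnion fun k _ => isClopen_CC s (η, k))

lemma clopen_D_CC {s : Sys} (hA : ∀ η, AX s η) (q : Y) (η : Om) :
    IsClopen (CC s q ∩ DD s η) := by
  rcases lt_trichotomy q.1 η with hq | hq | hq
  · exact clopen_D_low hA q η hq
  · have e : CC s q ∩ DD s η = ∅ := by
      rw [Set.eq_empty_iff_forall_notMem]
      rintro x ⟨hx, y, rfl, hy, hs⟩
      rcases mem_CC.1 hx with h | ⟨-, h⟩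
      · rw [h, hq] at hy
        exact lt_irrefl _ hy
      · rw [hq, hs] at h
        exact absurd h (by simp)
    rw [e]
    exact isClopen_empty
  · obtain ⟨F, hF, hsub⟩ := hA q.1 η hq
    have e : CC s q ∩ DD s η = ⋃ p ∈ F, (CC s q ∩ (CC s p ∩ DD s η)) := by
      ext x
      constructor
      · rintro ⟨hx, hxD⟩
        obtain ⟨y, rfl, hy, hs⟩ := hxD
        have h1 : (some y : Option Y) ∈ TT s F := by
          apply hsub
          refine ⟨y, rfl, hy, ?_⟩
          have h2 : ret s η (some y) = none := by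
            rw [ret_lt hy, hs]
            rfl
          rw [h2]
          rcases mem_CC.1 hx with h | ⟨-, h⟩
          · exfalso
            rw [h] at hy
            exact lt_asymm hy hq
          · rw [h]
            simp [lab]
        obtain ⟨p, hp, hxp⟩ := h1
        simp only [mem_iUnion]
        exact ⟨p, hp, hx, hxp, y, rfl, hy, hs⟩
      · intro h
        simp only [mem_iUnion] at h
        obtain ⟨p, hp, h1, h2, h3⟩ := h
        exact ⟨h1, h3⟩
    rw [e]
    exact isClopen_biUnion_finset fun p hp =>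
      (isClopen_CC s q).inter (clopen_D_low hA p η (hF p hp))

/-- TARGET -/
theorem clopen_D {s : Sys} (hA : ∀ η, AX s η) {U : Set (XX s)} (hU : IsClopen U) (h0 : inf s ∉ U)
    (η : Om) : IsClopen (U ∩ DD s η) := by
  refine clopen_induction hA (P := fun U => IsClopen (U ∩ DD s η)) ?_ ?_ ?_ ?_ hU h0
  · rw [Set.empty_inter]
    exact isClopen_empty
  · exact fun p => clopen_D_CC hA p η
  · intro A B h1 h2
    rw [Set.union_inter_distrib_right]
    exact h1.union h2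
  · intro A B h1 h2
    have e : (A \ B) ∩ DD s η = (A ∩ DD s η) \ (B ∩ DD s η) := by
      ext x
      simp only [Set.mem_inter_iff, Set.mem_sdiff]
      tauto
    rw [e]
    exact h1.diff h2
end

section
lemma exists_lev_bd {ζ η : Om} (h : ζ < η) (F : Finset Y) (hF : ∀ q ∈ F, q.1 < η) :
    ∃ ζ', ζ ≤ ζ' ∧ ζ' < η ∧ ∀ q ∈ F, q.1 ≤ ζ' := by
  classical
  induction F using Finset.induction_on with
  | empty => exact ⟨ζ, le_rfl, h, fun q hq => absurd hq (Finset.notMem_empty q)⟩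
  | @insert a F _ ih =>
    obtain ⟨z, h1, h2, h3⟩ := ih (fun q hq => hF q (Finset.mem_insert_of_mem hq))
    refine ⟨max z a.1, h1.trans (le_max_left _ _), max_lt h2 (hF a (Finset.mem_insert_self a F)), ?_⟩
    intro q hq
    rcases Finset.mem_insert.1 hq with hq | hq
    · rw [hq]; exact le_max_right _ _
    · exact (h3 q hq).trans (le_max_left _ _)

lemma exists_lev_aux {s : Sys} (hA : ∀ η, AX s η) (hN : ∀ η, N1 s η) {U : Set (XX s)}
    (hU : IsOpen U) (ζ : Om) (η : Om) : ∀ y : Y, y.1 = η → pt s y ∈ U → ζ ≤ y.1 →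
    ∃ y' : Y, pt s y' ∈ U ∧ y'.1 = ζ := by
  induction η using WellFoundedLT.induction with
  | ind η ih =>
    intro y hyη hy hζ
    rcases eq_or_lt_of_le hζ with h | h
    · exact ⟨y, hy, h.symm⟩
    · obtain ⟨F, hF, hb⟩ := nhd_base hA hU hy
      obtain ⟨ζ', h1, h2, h3⟩ := exists_lev_bd h F hF
      obtain ⟨y', hy', hy'F⟩ := (hN y.1 ζ' h2 (some y.2)).exists_notMem_finset F
      obtain ⟨k1, k2, k3⟩ := hy'
      refine ih y'.1 (hyη ▸ k2) y' rfl ?_ (h1.trans k1)
      refine hb _ (mem_CC.2 (Or.inr ⟨k2, k3⟩)) ?_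
      intro hT
      obtain ⟨q, hq, hq'⟩ := mem_TX.1 hT
      have := eq_of_mem_CC hq' ((h3 q hq).trans k1)
      exact hy'F (this ▸ hq)

/-- TARGET -/
theorem exists_lev {s : Sys} (hA : ∀ η, AX s η) (hN : ∀ η, N1 s η) {U : Set (XX s)}
    (hU : IsOpen U) {y : Y} (hy : pt s y ∈ U) {ζ : Om} (hζ : ζ ≤ y.1) :
    ∃ y' : Y, pt s y' ∈ U ∧ y'.1 = ζ :=
  exists_lev_aux hA hN hU ζ y.1 y rfl hy hζ
end

section
/-- TARGET -/
theorem infinite_lev {s : Sys} (hA : ∀ η, AX s η) (hN : ∀ η, N1 s η) {U : Set (XX s)}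
    (hU : IsOpen U) {y : Y} (hy : pt s y ∈ U) {ζ : Om} (hζ : ζ < y.1) :
    {y' : Y | pt s y' ∈ U ∧ ζ ≤ y'.1 ∧ y'.1 < y.1}.Infinite := by
  classical
  obtain ⟨F, hF, hFU⟩ := nhd_base hA hU hy
  -- the maximum of ζ and the levels of F
  obtain ⟨ζ', hζ', hζζ', hFζ'⟩ : ∃ ζ' : Om, ζ' < y.1 ∧ ζ ≤ ζ' ∧ ∀ q ∈ F, q.1 ≤ ζ' := by
    refine ⟨(insert ζ (F.image Prod.fst)).max' (Finset.insert_nonempty _ _), ?_, ?_, ?_⟩
    · rw [Finset.max'_lt_iff]
      intro a ha
      rcases Finset.mem_insert.1 ha with rfl | ha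
      · exact hζ
      · obtain ⟨q, hq, rfl⟩ := Finset.mem_image.1 ha
        exact hF q hq
    · exact Finset.le_max' _ _ (Finset.mem_insert_self _ _)
    · intro q hq
      exact Finset.le_max' _ _ (Finset.mem_insert_of_mem (Finset.mem_image_of_mem _ hq))
  have h1 := hN y.1 ζ' hζ' (some y.2)
  refine (h1.diff F.finite_toSet).mono ?_
  rintro y' ⟨⟨h2, h3, h4⟩, h5⟩
  refine ⟨?_, hζζ'.trans h2, h3⟩
  apply hFU
  · rw [mem_CC]
    exact Or.inr ⟨h3, h4⟩
  · rintro ⟨q, hq, hq'⟩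
    have h6 : y' = q := eq_of_mem_CC (s := s) hq' ((hFζ' q hq).trans h2)
    exact h5 (by rw [h6]; exact hq)
end

section
/-- TARGET -/
theorem not_all_lev {s : Sys} (hA : ∀ η, AX s η) (hN : ∀ η, N1 s η) {U : Set (XX s)}
    (hU : IsClopen U) (h0 : inf s ∉ U) (η : Om) : ∃ k : ℕ, pt s (η, k) ∉ U := by
  by_contra hcon
  push Not at hcon
  obtain ⟨b, hb⟩ := exists_gt' η
  let η' : Om := wellFounded_lt.min {x : Om | η < x} ⟨b, hb⟩
  have hη' : η < η' := wellFounded_lt.min_mem {x : Om | η < x} ⟨b, hb⟩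
  have hle : ∀ ζ, ζ < η' → ζ ≤ η := by
    intro ζ hζ
    by_contra h
    exact wellFounded_lt.not_lt_min {x : Om | η < x} (not_le.1 h) hζ
  have hinf := hN η' η hη' none
  have hcl : IsClopen (U ∩ DD s η') := clopen_D hA hU h0 η'
  obtain ⟨F, hF, hcov⟩ := clopen_cover hA hcl.1 (fun h => h0 h.1)
  apply hinf
  refine F.finite_toSet.subset ?_
  rintro y ⟨h1, h2, h3⟩
  have hy : y.1 = η := le_antisymm (hle _ h2) h1
  have hyU : pt s y ∈ U := by
    have := hcon y.2
    rwa [← hy] at this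
  have hyT : pt s y ∈ TX s F := hcov ⟨hyU, y, rfl, h2, h3⟩
  obtain ⟨p, hp, hyp⟩ := mem_TX.1 hyT
  have hplev : p.1 < η' := by
    obtain ⟨_, z, hz, hz1, _⟩ := hF p hp
    rw [pt_inj] at hz
    rw [hz]
    exact hz1
  have : y = p := eq_of_mem_CC hyp (by rw [hy]; exact hle _ hplev)
  rw [this]
  exact hp
end

section
/-- TARGET -/
theorem countable_lt {s : Sys} (hA : ∀ η, AX s η) (γ : Om) :
    {U : Clopens (XX s) | inf s ∉ U ∧ Lt γ (U : Set (XX s))}.Countable := by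
  classical
  haveI : CompactSpace (XX s) := compact_XX hA
  have hYc : {p : Y | p.1 < γ}.Countable := by
    have : {p : Y | p.1 < γ} = (Iio γ) ×ˢ (univ : Set ℕ) := by
      ext p; simp
    rw [this]
    exact (countable_Iio γ).prod countable_univ
  haveI : Countable {p : Y // p.1 < γ} := hYc.to_subtype
  let f : Finset ({p : Y // p.1 < γ} × Finset {p : Y // p.1 < γ}) → Set (XX s) := fun S =>
    ⋃ q ∈ S, (CC s q.1.1 \ TX s (q.2.map (Function.Embedding.subtype _)))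
  have hinj : Function.Injective (fun U : Clopens (XX s) => (U : Set (XX s))) :=
    SetLike.coe_injective
  refine Set.Countable.of_diff (t := ∅) ?_ countable_empty
  rw [diff_empty]
  refine (Set.countable_range f).preimage_of_injOn (hinj.injOn) |>.mono ?_
  rintro U ⟨hinf, hlt⟩
  show (U : Set (XX s)) ∈ range f
  have hUo : IsOpen (U : Set (XX s)) := U.isOpen
  have hUc : IsCompact (U : Set (XX s)) := U.isClopen.isClosed.isCompact
  have hlt' : ∀ p : Y, pt s p ∈ (U : Set (XX s)) → p.1 < γ := hlt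
  choose F hF1 hF2 using fun (p : Y) (hp : pt s p ∈ (U : Set (XX s))) => nhd_base hA hUo hp
  let V : {p : Y // pt s p ∈ (U : Set (XX s))} → Set (XX s) := fun p =>
    CC s p.1 \ TX s (F p.1 p.2)
  have hVo : ∀ p, IsOpen (V p) := by
    intro p
    refine IsOpen.sdiff (isClopen_CC s p.1).isOpen ?_
    have : TX s (F p.1 p.2) = ⋃ q ∈ F p.1 p.2, CC s q := by
      ext x; rw [mem_TX]; simp
    rw [this]
    exact isClosed_biUnion_finset (fun q _ => (isClopen_CC s q).isClosed)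
  have hVU : ∀ p, V p ⊆ (U : Set (XX s)) := fun p x hx => hF2 p.1 p.2 x hx.1 hx.2
  have hcov : (U : Set (XX s)) ⊆ ⋃ p, V p := by
    intro x hx
    rcases XX_cases x with rfl | ⟨y, rfl⟩
    · exact absurd hx hinf
    · refine mem_iUnion.2 ⟨⟨y, hx⟩, self_mem_CC s y, ?_⟩
      rintro ⟨q, hq, hyq⟩
      exact absurd (lev_le_of_mem_CC hyq) (not_le.2 (hF1 y hx q hq))
  obtain ⟨t, ht⟩ := hUc.elim_finite_subcover V hVo hcov
  let g : {p : Y // pt s p ∈ (U : Set (XX s))} → {p : Y // p.1 < γ} × Finset {p : Y // p.1 < γ} :=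
    fun p => (⟨p.1, hlt' p.1 p.2⟩, (F p.1 p.2).subtype (fun q => q.1 < γ))
  have hmap : ∀ p, ((g p).2.map (Function.Embedding.subtype _)) = F p.1 p.2 := by
    intro p
    exact Finset.subtype_map_of_mem (fun q hq => (hF1 p.1 p.2 q hq).trans (hlt' p.1 p.2))
  refine ⟨t.image g, ?_⟩
  apply Subset.antisymm
  · intro x hx
    obtain ⟨q, hq, hx⟩ := mem_iUnion₂.1 hx
    obtain ⟨p, hp, rfl⟩ := Finset.mem_image.1 hq
    rw [hmap] at hx
    exact hVU p hx
  · intro x hx
    obtain ⟨p, hp, hx'⟩ := mem_iUnion₂.1 (ht hx)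
    refine mem_iUnion₂.2 ⟨g p, Finset.mem_image_of_mem g hp, ?_⟩
    rw [hmap]
    exact hx'
end

section
theorem saturated_mem_sep {s : Sys} (A : SubG (Clopens (XX s)))
    (hinf : ∀ a ∈ A.carrier, inf s ∉ a) (W : Clopens (XX s))
    (h1 : ∀ y : Y, pt s y ∈ W → ∃ a ∈ A.carrier, pt s y ∈ a)
    (h2 : ∀ y z : Y, pt s y ∈ W → pt s z ∉ W → ∃ a ∈ A.carrier, ¬ (pt s y ∈ a ↔ pt s z ∈ a))
    (y : Y) (hy : pt s y ∈ W) (z : XX s) (hz : z ∉ W) :
    ∃ a ∈ A.carrier, pt s y ∈ a ∧ z ∉ a := by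
  obtain ⟨b, hb, hyb⟩ := h1 y hy
  rcases XX_cases z with rfl | ⟨z', rfl⟩
  · exact ⟨b, hb, hyb, hinf b hb⟩
  · obtain ⟨a, ha, hne⟩ := h2 y z' hy hz
    by_cases hya : pt s y ∈ a
    · refine ⟨a, ha, hya, fun h => hne ⟨fun _ => h, fun _ => hya⟩⟩
    · have hza : pt s z' ∈ a := by
        by_contra h
        exact hne ⟨fun h' => absurd h' hya, fun h' => absurd h' h⟩
      refine ⟨b \ a, A.sdiff_mem hb ha, ?_, ?_⟩
      · show pt s y ∈ ((b \ a : Clopens (XX s)) : Set (XX s))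
        rw [Clopens.coe_sdiff]
        exact ⟨hyb, hya⟩
      · show pt s z' ∉ ((b \ a : Clopens (XX s)) : Set (XX s))
        rw [Clopens.coe_sdiff]
        exact fun h => h.2 hza

/-- TARGET -/
theorem saturated_mem {s : Sys} (hA : ∀ η, AX s η) (A : SubG (Clopens (XX s)))
    (hinf : ∀ a ∈ A.carrier, inf s ∉ a) (W : Clopens (XX s)) (hW : inf s ∉ W)
    (h1 : ∀ y : Y, pt s y ∈ W → ∃ a ∈ A.carrier, pt s y ∈ a)
    (h2 : ∀ y z : Y, pt s y ∈ W → pt s z ∉ W → ∃ a ∈ A.carrier, ¬ (pt s y ∈ a ↔ pt s z ∈ a)) :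
    W ∈ A.carrier := by
  have := compact_XX hA
  have step : ∀ y : Y, pt s y ∈ W → ∃ c ∈ A.carrier, pt s y ∈ c ∧ c ≤ W := by
    intro y hy
    have hcomp : IsCompact ((W : Set (XX s))ᶜ) := W.isClopen.compl.isClosed.isCompact
    have hP : ∃ c ∈ A.carrier, pt s y ∈ c ∧ ∀ x ∈ ((W : Set (XX s))ᶜ), x ∉ c := by
      refine hcomp.induction_on (p := fun S => ∃ c ∈ A.carrier, pt s y ∈ c ∧ ∀ x ∈ S, x ∉ c)
        ?_ ?_ ?_ ?_
      · obtain ⟨b, hb, hyb⟩ := h1 y hy
        exact ⟨b, hb, hyb, fun x hx => absurd hx (notMem_empty x)⟩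
      · rintro S T hST ⟨c, hc, hyc, h⟩
        exact ⟨c, hc, hyc, fun x hx => h x (hST hx)⟩
      · rintro S T ⟨c, hc, hyc, h⟩ ⟨c', hc', hyc', h'⟩
        refine ⟨c ⊓ c', A.inf_mem hc hc', ⟨hyc, hyc'⟩, ?_⟩
        rintro x (hx | hx) hxc
        · exact h x hx hxc.1
        · exact h' x hx hxc.2
      · intro z hz
        obtain ⟨a, ha, hya, hza⟩ := saturated_mem_sep A hinf W h1 h2 y hy z hz
        refine ⟨(a : Set (XX s))ᶜ, ?_, a, ha, hya, fun x hx => hx⟩
        exact mem_nhdsWithin_of_mem_nhds (a.isClopen.compl.isOpen.mem_nhds hza)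
    obtain ⟨c, hc, hyc, h⟩ := hP
    refine ⟨c, hc, hyc, ?_⟩
    intro x hx
    by_contra hxW
    exact h x hxW hx
  have hcompW : IsCompact (W : Set (XX s)) := W.isClopen.isClosed.isCompact
  have hQ : ∃ c ∈ A.carrier, c ≤ W ∧ ∀ x ∈ (W : Set (XX s)), x ∈ c := by
    refine hcompW.induction_on (p := fun S => ∃ c ∈ A.carrier, c ≤ W ∧ ∀ x ∈ S, x ∈ c)
      ?_ ?_ ?_ ?_
    · exact ⟨⊥, A.bot_mem, bot_le, fun x hx => absurd hx (notMem_empty x)⟩
    · rintro S T hST ⟨c, hc, hcW, h⟩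
      exact ⟨c, hc, hcW, fun x hx => h x (hST hx)⟩
    · rintro S T ⟨c, hc, hcW, h⟩ ⟨c', hc', hcW', h'⟩
      refine ⟨c ⊔ c', A.sup_mem hc hc', sup_le hcW hcW', ?_⟩
      rintro x (hx | hx)
      · exact Or.inl (h x hx)
      · exact Or.inr (h' x hx)
    · intro x hx
      rcases XX_cases x with rfl | ⟨y, rfl⟩
      · exact absurd hx hW
      · obtain ⟨c, hc, hyc, hcW⟩ := step y hx
        exact ⟨(c : Set (XX s)), mem_nhdsWithin_of_mem_nhds (c.isClopen.isOpen.mem_nhds hyc),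
          c, hc, hcW, fun x hx => hx⟩
  obtain ⟨c, hc, hcW, h⟩ := hQ
  have : W = c := le_antisymm (fun x hx => h x hx) hcW
  rw [this]
  exact hc
end

section
lemma approx_mem_sdiff {s : Sys} (a b : Clopens (XX s)) (x : XX s) : x ∈ a \ b ↔ x ∈ a ∧ x ∉ b := by
  rw [← SetLike.mem_coe, Clopens.coe_sdiff]; rfl

lemma approx_mem_sup {s : Sys} (a b : Clopens (XX s)) (x : XX s) : x ∈ a ⊔ b ↔ x ∈ a ∨ x ∈ b := by
  rw [← SetLike.mem_coe, Clopens.coe_sup]; rfl

lemma approx_mem_inf {s : Sys} (a b : Clopens (XX s)) (x : XX s) : x ∈ a ⊓ b ↔ x ∈ a ∧ x ∈ b := by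
  rw [← SetLike.mem_coe, Clopens.coe_inf]; rfl

lemma approx_mem_bot {s : Sys} (x : XX s) : x ∉ (⊥ : Clopens (XX s)) := by
  rw [← SetLike.mem_coe, Clopens.coe_bot]; simp

/-- TARGET -/
theorem approx_mem {s : Sys} (hA : ∀ η, AX s η) (A : SubG (Clopens (XX s)))
    (hinf : ∀ a ∈ A.carrier, inf s ∉ a) (β : Om)
    (h1 : ∀ y : Y, β ≤ y.1 → ∃ a ∈ A.carrier, pt s y ∈ a)
    (h2 : ∀ y z : Y, β ≤ y.1 → y ≠ z → ∃ a ∈ A.carrier, ¬ (pt s y ∈ a ↔ pt s z ∈ a))
    (U : Clopens (XX s)) (hU : inf s ∉ U) :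
    ∃ a ∈ A.carrier, Lt β ((symmDiff U a : Clopens (XX s)) : Set (XX s)) := by
  haveI := compact_XX hA
  obtain ⟨L, hL⟩ : ∃ L : Set (XX s), L = ⋂ p : {p : Y // p.1 < β}, (CC s p.1)ᶜ := ⟨_, rfl⟩
  have hLc : IsClosed L := by
    rw [hL]
    exact isClosed_iInter fun p => (isClopen_CC s p.1).compl.1
  have hLmem : ∀ x, x ∈ L ↔ ∀ p : Y, p.1 < β → x ∉ CC s p := by
    intro x
    rw [hL, mem_iInter]
    exact ⟨fun h p hp => h ⟨p, hp⟩, fun h p => h p.1 p.2⟩
  have hLpt : ∀ y : Y, pt s y ∈ L ↔ β ≤ y.1 := by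
    intro y
    rw [hLmem]
    constructor
    · intro h
      by_contra hc
      exact h y (not_le.1 hc) (self_mem_CC s y)
    · intro h p hp hm
      exact absurd (h.trans (lev_le_of_mem_CC hm)) (not_le.2 hp)
  have step1 : ∀ y : Y, β ≤ y.1 → pt s y ∈ U → ∃ c ∈ A.carrier, pt s y ∈ c ∧
      ∀ x ∈ L \ (U : Set (XX s)), x ∉ c := by
    intro y hy hyU
    have hcomp : IsCompact (L \ (U : Set (XX s))) := by
      rw [diff_eq]
      exact (hLc.inter U.isClopen.compl.1).isCompact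
    refine hcomp.induction_on (p := fun S => ∃ c ∈ A.carrier, pt s y ∈ c ∧ ∀ x ∈ S, x ∉ c)
      ?_ ?_ ?_ ?_
    · obtain ⟨b, hb, hb'⟩ := h1 y hy
      exact ⟨b, hb, hb', fun x hx => absurd hx (by simp)⟩
    · rintro S T hST ⟨c, hc, hc1, hc2⟩
      exact ⟨c, hc, hc1, fun x hx => hc2 x (hST hx)⟩
    · rintro S T ⟨c, hc, hc1, hc2⟩ ⟨d, hd, hd1, hd2⟩
      refine ⟨c ⊓ d, A.inf_mem hc hd, (approx_mem_inf c d _).2 ⟨hc1, hd1⟩, ?_⟩
      rintro x (hx | hx) hm
      · exact hc2 x hx ((approx_mem_inf c d _).1 hm).1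
      · exact hd2 x hx ((approx_mem_inf c d _).1 hm).2
    · intro z hz
      have key : ∃ a ∈ A.carrier, pt s y ∈ a ∧ z ∉ a := by
        rcases XX_cases z with rfl | ⟨z', rfl⟩
        · obtain ⟨b, hb, hb'⟩ := h1 y hy
          exact ⟨b, hb, hb', hinf b hb⟩
        · have hne : y ≠ z' := by
            rintro rfl
            exact hz.2 hyU
          obtain ⟨a, ha, ha'⟩ := h2 y z' hy hne
          by_cases hya : pt s y ∈ a
          · exact ⟨a, ha, hya, fun h => ha' ⟨fun _ => h, fun _ => hya⟩⟩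
          · have hza : pt s z' ∈ a := by
              by_contra h
              exact ha' ⟨fun h' => absurd h' hya, fun h' => absurd h' h⟩
            obtain ⟨b, hb, hb'⟩ := h1 y hy
            refine ⟨b \ a, A.sdiff_mem hb ha, (approx_mem_sdiff b a _).2 ⟨hb', hya⟩, fun h => ?_⟩
            exact ((approx_mem_sdiff b a _).1 h).2 hza
      obtain ⟨a, ha, ha1, ha2⟩ := key
      refine ⟨(a : Set (XX s))ᶜ, mem_nhdsWithin_of_mem_nhds
        (a.isClopen.compl.2.mem_nhds ha2), a, ha, ha1, fun x hx => hx⟩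
  have step2 : ∃ a ∈ A.carrier, (∀ x ∈ (U : Set (XX s)) ∩ L, x ∈ a) ∧
      ∀ x ∈ L \ (U : Set (XX s)), x ∉ a := by
    have hcomp : IsCompact ((U : Set (XX s)) ∩ L) := (U.isClopen.1.inter hLc).isCompact
    refine hcomp.induction_on (p := fun S => ∃ a ∈ A.carrier, (∀ x ∈ S, x ∈ a) ∧
      ∀ x ∈ L \ (U : Set (XX s)), x ∉ a) ?_ ?_ ?_ ?_
    · exact ⟨⊥, A.bot_mem, fun x hx => absurd hx (by simp), fun x _ => approx_mem_bot x⟩
    · rintro S T hST ⟨c, hc, hc1, hc2⟩
      exact ⟨c, hc, fun x hx => hc1 x (hST hx), hc2⟩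
    · rintro S T ⟨c, hc, hc1, hc2⟩ ⟨d, hd, hd1, hd2⟩
      refine ⟨c ⊔ d, A.sup_mem hc hd, ?_, ?_⟩
      · rintro x (hx | hx)
        · exact (approx_mem_sup c d _).2 (Or.inl (hc1 x hx))
        · exact (approx_mem_sup c d _).2 (Or.inr (hd1 x hx))
      · intro x hx hm
        rcases (approx_mem_sup c d _).1 hm with h | h
        · exact hc2 x hx h
        · exact hd2 x hx h
    · rintro x ⟨hxU, hxL⟩
      rcases XX_cases x with rfl | ⟨y, rfl⟩
      · exact absurd hxU hU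
      · obtain ⟨c, hc, hc1, hc2⟩ := step1 y ((hLpt y).1 hxL) hxU
        exact ⟨(c : Set (XX s)), mem_nhdsWithin_of_mem_nhds (c.isClopen.2.mem_nhds hc1), c, hc,
          fun x hx => hx, hc2⟩
  obtain ⟨a, ha, ha1, ha2⟩ := step2
  refine ⟨a, ha, ?_⟩
  intro y hy
  by_contra hc
  have hyL : pt s y ∈ L := (hLpt y).2 (not_lt.1 hc)
  have hy' : pt s y ∈ (symmDiff U a : Clopens (XX s)) := hy
  rw [symmDiff, approx_mem_sup, approx_mem_sdiff, approx_mem_sdiff] at hy'
  rcases hy' with ⟨h, h'⟩ | ⟨h, h'⟩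
  · exact h' (ha1 _ ⟨h, hyL⟩)
  · exact ha2 _ ⟨hyL, h'⟩ h
end

section
/-- TARGET -/
theorem clopen_bdd {s : Sys} (hA : ∀ η, AX s η) {U : Set (XX s)} (hU : IsClosed U)
    (h0 : inf s ∉ U) : ∃ γ : Om, Lt γ U := by
  classical
  obtain ⟨F, _, hFU⟩ := clopen_cover hA hU h0
  obtain ⟨γ, hγ⟩ := bdd_of_countable ((F.image Prod.fst).countable_toSet)
  refine ⟨γ, ?_⟩
  intro y hy
  obtain ⟨p, hp, hyp⟩ := hFU hy
  have h1 : y.1 ≤ p.1 := lev_le_of_mem_CC (s := s) hyp
  exact h1.trans_lt (hγ p.1 (by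
    rw [Finset.mem_coe]
    exact Finset.mem_image_of_mem _ hp))
end

section
lemma CB_iff_Lt_mem_symm {s : Sys} {I : SubG (Clopens (XX s))} (V Z : I) (x : XX s) :
    x ∈ (symmDiff V Z).1 ↔ (x ∈ V.1 ∧ x ∉ Z.1) ∨ (x ∈ Z.1 ∧ x ∉ V.1) := by
  rw [SubG.coe_symmDiff]
  rw [← SetLike.mem_coe]
  simp only [symmDiff, Clopens.coe_sup, Clopens.coe_sdiff, Set.sup_eq_union, Set.mem_union,
    Set.mem_diff, SetLike.mem_coe]

lemma CB_iff_Lt_fwd {s : Sys} (hA : ∀ η, AX s η) (hN : ∀ η, N1 s η) (I : SubG (Clopens (XX s)))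
    (hI : ∀ U ∈ I.carrier, inf s ∉ U)
    (hd : ∀ U ∈ I.carrier, ∀ V : Clopens (XX s), V ≤ U → V ∈ I.carrier) (γ : Om)
    (ih : ∀ β < γ, ∀ U : I, CB (rk β) U ↔ Lt β (U.1 : Set (XX s))) (U : I)
    (h : CB (rk γ) U) : Lt γ (U.1 : Set (XX s)) := by
  classical
  rw [CB_iff] at h
  rcases h with h | ⟨p, hp, F, hF, hFU⟩
  · intro y hy
    rw [h] at hy
    exact absurd hy (by simp)
  · obtain ⟨β, hβγ, rfl⟩ := exists_rk_of_lt hp
    have hc : ∀ y : Y, ∃ V : I, V ≤ U ∧ ∀ x, x ∈ V.1 ↔ x ∈ U.1 ∧ x ∈ CC s y := by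
      intro y
      refine ⟨⟨U.1 ⊓ ⟨CC s y, isClopen_CC s y⟩, hd U.1 U.2 _ inf_le_left⟩, ?_, ?_⟩
      · exact (inf_le_left : U.1 ⊓ (⟨CC s y, isClopen_CC s y⟩ : Clopens (XX s)) ≤ U.1)
      · intro x
        exact Iff.rfl
    choose V hVU hV using hc
    have hZ : ∀ y : Y, ∃ Z ∈ F, CB (rk β) (symmDiff (V y) Z) := fun y => hFU (V y) (hVU y)
    choose Z hZF hZ using hZ
    have hsame : ∀ y z : Y, β ≤ z.1 → (pt s z ∈ (V y).1 ↔ pt s z ∈ (Z y).1) := by
      intro y z hz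
      have h1 := (ih β hβγ _).1 (hZ y)
      by_contra hne
      have h2 : pt s z ∈ (symmDiff (V y) (Z y)).1 := by
        rw [CB_iff_Lt_mem_symm]
        tauto
      exact absurd (h1 z h2) (not_lt.2 hz)
    have hfin : {y : Y | pt s y ∈ U.1 ∧ β ≤ y.1}.Finite := by
      refine Set.Finite.of_injOn (f := Z) (t := F) (fun y _ => hZF y) ?_ hF
      have key : ∀ y z : Y, pt s y ∈ U.1 → β ≤ y.1 → pt s z ∈ U.1 → β ≤ z.1 → y.1 ≤ z.1 →
          Z y = Z z → y = z := by
        intro y z hy1 hy2 hz1 hz2 hyz he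
        have h1 : pt s z ∈ (V z).1 := (hV z _).2 ⟨hz1, self_mem_CC s z⟩
        rw [hsame z z hz2, ← he, ← hsame y z hz2, hV y] at h1
        exact (eq_of_mem_CC h1.2 hyz).symm
      rintro y ⟨hy1, hy2⟩ z ⟨hz1, hz2⟩ he
      rcases le_total y.1 z.1 with h | h
      · exact key y z hy1 hy2 hz1 hz2 h he
      · exact (key z y hz1 hz2 hy1 hy2 h he.symm).symm
    intro y hy
    rcases lt_or_ge β y.1 with hlt | hge
    · exfalso
      refine infinite_lev hA hN (U := (U.1 : Set (XX s))) U.1.isClopen.isOpen hy hlt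
        (hfin.subset ?_)
      rintro z ⟨hz1, hz2, _⟩
      exact ⟨hz1, hz2⟩
    · exact hge.trans_lt hβγ

lemma CB_iff_Lt_bwd {s : Sys} (hA : ∀ η, AX s η) (hN : ∀ η, N1 s η) (I : SubG (Clopens (XX s)))
    (hI : ∀ U ∈ I.carrier, inf s ∉ U)
    (hd : ∀ U ∈ I.carrier, ∀ V : Clopens (XX s), V ≤ U → V ∈ I.carrier) (γ : Om)
    (ih : ∀ β < γ, ∀ U : I, CB (rk β) U ↔ Lt β (U.1 : Set (XX s))) (U : I)
    (h : Lt γ (U.1 : Set (XX s))) : CB (rk γ) U := by
  classical
  by_cases hU : U = ⊥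
  · rw [hU]; exact CB_bot _
  have h0 : inf s ∉ (U.1 : Set (XX s)) := hI U.1 U.2
  obtain ⟨F, hFU, hUF⟩ := clopen_cover hA (U := (U.1 : Set (XX s))) U.1.isClopen.isClosed h0
  have hFne : F.Nonempty := by
    by_contra hne
    rw [Finset.not_nonempty_iff_eq_empty] at hne
    apply hU
    apply Subtype.ext
    apply Clopens.ext
    rw [SubG.coe_bot]
    ext x
    constructor
    · intro hx
      obtain ⟨p, hp, _⟩ := hUF hx
      rw [hne] at hp
      exact absurd hp (Finset.notMem_empty _)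
    · intro hx
      exact absurd hx (by simp)
  obtain ⟨p0, hp0, hmax⟩ := F.exists_max_image (fun p => p.1) hFne
  have hβγ : p0.1 < γ := h p0 (hFU p0 hp0)
  rw [CB_iff]
  right
  have hex : ∀ t : Finset Y, ∃ Z : I, (∃ V : I, V ≤ U ∧ F.filter (fun q => pt s q ∈ V.1) = t) →
      (Z ≤ U ∧ F.filter (fun q => pt s q ∈ Z.1) = t) := by
    intro t
    by_cases ht : ∃ V : I, V ≤ U ∧ F.filter (fun q => pt s q ∈ V.1) = t
    · obtain ⟨V, hV⟩ := ht
      exact ⟨V, fun _ => hV⟩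
    · exact ⟨⊥, fun h => absurd h ht⟩
  choose R hR using hex
  refine ⟨rk p0.1, rk_lt_iff.2 hβγ, R '' (F.powerset : Set (Finset Y)),
    (F.powerset.finite_toSet).image _, ?_⟩
  intro V hVU
  refine ⟨R (F.filter (fun q => pt s q ∈ V.1)), ⟨_, Finset.mem_coe.2 (Finset.mem_powerset.2 (Finset.filter_subset _ _)), rfl⟩, ?_⟩
  obtain ⟨h1, h2⟩ := hR (F.filter (fun q => pt s q ∈ V.1)) ⟨V, hVU, rfl⟩
  rw [ih _ hβγ]
  intro y hy
  by_contra hge
  rw [not_lt] at hge
  have hyU : pt s y ∈ U.1 := by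
    have hy' : pt s y ∈ (symmDiff V (R (F.filter (fun q => pt s q ∈ V.1)))).1 := hy
    rw [CB_iff_Lt_mem_symm] at hy'
    rcases hy' with hy' | hy'
    · exact hVU hy'.1
    · exact h1 hy'.1
  have hyF : y ∈ F := by
    obtain ⟨p, hp, hyp⟩ := hUF hyU
    have := eq_of_mem_CC hyp ((hmax p hp).trans hge)
    rw [this]
    exact hp
  have h3 : pt s y ∈ (R (F.filter (fun q => pt s q ∈ V.1))).1 ↔ pt s y ∈ V.1 := by
    have h4 := Finset.ext_iff.1 h2 y
    simp only [Finset.mem_filter, hyF, true_and] at h4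
    exact h4
  have hy' : pt s y ∈ (symmDiff V (R (F.filter (fun q => pt s q ∈ V.1)))).1 := hy
  rw [CB_iff_Lt_mem_symm] at hy'
  tauto

/-- TARGET -/
theorem CB_iff_Lt {s : Sys} (hA : ∀ η, AX s η) (hN : ∀ η, N1 s η) (I : SubG (Clopens (XX s)))
    (hI : ∀ U ∈ I.carrier, inf s ∉ U)
    (hd : ∀ U ∈ I.carrier, ∀ V : Clopens (XX s), V ≤ U → V ∈ I.carrier) (γ : Om) (U : I) :
    CB (rk γ) U ↔ Lt γ (U.1 : Set (XX s)) := by
  revert U
  induction γ using WellFoundedLT.induction with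
  | ind γ ih =>
    intro U
    exact ⟨CB_iff_Lt_fwd hA hN I hI hd γ ih U, CB_iff_Lt_bwd hA hN I hI hd γ ih U⟩
end

section
/-- TARGET -/
theorem catom_CC {s : Sys} (hA : ∀ η, AX s η) (hN : ∀ η, N1 s η) (I : SubG (Clopens (XX s)))
    (hI : ∀ U ∈ I.carrier, inf s ∉ U)
    (hd : ∀ U ∈ I.carrier, ∀ V : Clopens (XX s), V ≤ U → V ∈ I.carrier) (p : Y) (U : I)
    (hU : (U.1 : Set (XX s)) = CC s p) : CAtom (rk p.1) U := by
  refine ⟨?_, ?_⟩
  · rw [CB_iff_Lt hA hN I hI hd]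
    intro h
    exact lt_irrefl _ (h p (by rw [hU]; exact self_mem_CC s p))
  · intro V hV
    have hVU : ∀ x : XX s, x ∈ (V.1 : Set (XX s)) → x ∈ (U.1 : Set (XX s)) := by
      intro x hx
      exact (show V.1 ≤ U.1 from hV) hx
    by_cases hp : pt s p ∈ (V.1 : Set (XX s))
    · right
      rw [CB_iff_Lt hA hN I hI hd]
      intro y hy
      have hy' : pt s y ∈ (U.1 : Set (XX s)) \ (V.1 : Set (XX s)) := hy
      rw [hU] at hy'
      by_contra hlt
      have := eq_of_mem_CC hy'.1 (not_lt.1 hlt)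
      rw [this] at hy'
      exact hy'.2 hp
    · left
      rw [CB_iff_Lt hA hN I hI hd]
      intro y hy
      have hy' := hVU _ hy
      rw [hU] at hy'
      by_contra hlt
      have := eq_of_mem_CC hy' (not_lt.1 hlt)
      rw [this] at hy
      exact hp hy
end

section
theorem kill_lemma_inf {s : Sys} (hA : ∀ η, AX s η) (A : SubG (Clopens (XX s)))
    (hinf : ∀ a ∈ A.carrier, inf s ∉ a) {η : Om} (hK : KillInf (Rel s A) s η) :
    ∀ a ∈ A.carrier, ∀ k : ℕ, pt s (η, k) ∉ (a : Set (XX s)) := by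
  classical
  intro a ha k hk
  obtain ⟨F1, hF1, hF1'⟩ := nhd_base hA a.isClopen.isOpen hk
  have hD := clopen_D hA a.isClopen (hinf a ha) η
  obtain ⟨F2, hF2, hF2'⟩ := clopen_cover hA hD.isClosed (fun h => hinf a ha h.1)
  have hlev2 : ∀ p ∈ F2, p.1 < η := by
    intro p hp
    obtain ⟨y, hy1, hy2, _⟩ := (hF2 p hp).2
    rw [pt_inj] at hy1
    rw [hy1]; exact hy2
  obtain ⟨y, z, h1, h2, h3, h4, h5⟩ := hK k (F1 ∪ F2) (by
    intro p hp
    rcases Finset.mem_union.1 hp with h | h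
    · exact hF1 p h
    · exact hlev2 p h)
  have hya : pt s y ∈ (a : Set (XX s)) := by
    apply hF1' (pt s y) (mem_CC.2 (Or.inr ⟨h2, h3⟩))
    intro h
    exact h4 (TT_mono Finset.subset_union_left h)
  have hza : toX s z ∈ (a : Set (XX s)) := (h1 a ha).1 hya
  rcases h5 with rfl | ⟨z', rfl, h6, h7, h8⟩
  · exact hinf a ha hza
  · apply h8
    apply TT_mono Finset.subset_union_right
    exact hF2' ⟨hza, z', rfl, h6, h7⟩

theorem kill_lemma_at {s : Sys} (hA : ∀ η, AX s η) (A : SubG (Clopens (XX s)))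
    {η : Om} {w : Y} (hK : KillAt (Rel s A) s η w) :
    ∀ a ∈ A.carrier, ∀ k : ℕ, pt s (η, k) ∈ (a : Set (XX s)) ↔ pt s w ∈ (a : Set (XX s)) := by
  intro a ha k
  have key : ∀ U V : Set (XX s), IsOpen U → IsOpen V → pt s (η, k) ∈ U → pt s w ∈ V →
      ∃ y z : Y, (some y, some z) ∈ Rel s A ∧ pt s y ∈ U ∧ pt s z ∈ V := by
    intro U V hU hV hu hv
    obtain ⟨F, hF, hF'⟩ := nhd_base hA hU hu
    obtain ⟨G, hG, hG'⟩ := nhd_base hA hV hv
    obtain ⟨y, z, h1, h2, h3, h4, h5, h6⟩ := hK k F hF G hG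
    exact ⟨y, z, h1, hF' (pt s y) (mem_CC.2 (Or.inr ⟨h2, h3⟩)) h4, hG' (pt s z) h5 h6⟩
  have hopen : IsOpen (a : Set (XX s)) := a.isClopen.isOpen
  have hopen' : IsOpen ((a : Set (XX s))ᶜ) := a.isClopen.isClosed.isOpen_compl
  constructor
  · intro h
    by_contra hw
    obtain ⟨y, z, h1, h2, h3⟩ := key _ _ hopen hopen' h hw
    exact h3 ((h1 a ha).1 h2)
  · intro h
    by_contra hw
    obtain ⟨y, z, h1, h2, h3⟩ := key _ _ hopen' hopen hw h
    exact h2 ((h1 a ha).2 h3)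

/-- TARGET -/
theorem kill_lemma {s : Sys} (hA : ∀ η, AX s η) (hN : ∀ η, N1 s η) (A : SubG (Clopens (XX s)))
    (hinf : ∀ a ∈ A.carrier, inf s ∉ a) {η : Om} (hK : Kill (Rel s A) s η) :
    ∀ a ∈ A.carrier, Lt η (a : Set (XX s)) := by
  have claim : ∀ a ∈ A.carrier, ∀ k : ℕ, pt s (η, k) ∉ (a : Set (XX s)) := by
    rcases hK with hK | ⟨w, _, hK⟩
    · exact kill_lemma_inf hA A hinf hK
    · intro a ha k hk
      obtain ⟨k', hk'⟩ := not_all_lev hA hN a.isClopen (hinf a ha) η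
      apply hk'
      rw [kill_lemma_at hA A hK a ha k']
      exact (kill_lemma_at hA A hK a ha k).1 hk
  intro a ha y hy
  by_contra hlt
  push Not at hlt
  obtain ⟨y', hy', hy'1⟩ := exists_lev hA hN a.isClopen.isOpen hy hlt
  have h1 : y' = (η, y'.2) := Prod.ext hy'1 rfl
  rw [h1] at hy'
  exact claim a ha _ hy'
end

section
lemma main_lemma_bound {η ζ : Om} (hη : Lim η) (hζ : ζ < η) (F : Finset Y)
    (hF : ∀ p ∈ F, p.1 < η) : ∃ γ, γ < η ∧ ζ ≤ γ ∧ ∀ p ∈ F, p.1 < γ := by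
  classical
  induction F using Finset.induction_on with
  | empty => exact ⟨ζ, hζ, le_rfl, by simp⟩
  | insert p F hp ih =>
    obtain ⟨γ, h1, h2, h3⟩ := ih (fun q hq => hF q (Finset.mem_insert_of_mem hq))
    have hp1 : p.1 < η := hF p (Finset.mem_insert_self _ _)
    obtain ⟨c, hc1, hc2⟩ := hη.2 (max γ p.1) (max_lt h1 hp1)
    refine ⟨c, hc2, h2.trans ((le_max_left _ _).trans hc1.le), ?_⟩
    intro q hq
    rcases Finset.mem_insert.1 hq with rfl | hq
    · exact (le_max_right _ _).trans_lt hc1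
    · exact ((h3 q hq).trans_le (le_max_left _ _)).trans hc1

lemma main_lemma_notRel {s : Sys} {A : SubG (Clopens (XX s))} {u v : Option Y}
    (h : (u, v) ∉ Rel s A) : ∃ a ∈ A.carrier, ¬ (toX s u ∈ a ↔ toX s v ∈ a) := by
  by_contra hc
  apply h
  intro a ha
  by_contra hc'
  exact hc ⟨a, ha, hc'⟩

lemma main_lemma_notRel_none {s : Sys} {A : SubG (Clopens (XX s))}
    (hinf : ∀ a ∈ A.carrier, inf s ∉ a) {y : Y}
    (h : (some y, (none : Option Y)) ∉ Rel s A) : ∃ a ∈ A.carrier, pt s y ∈ a := by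
  obtain ⟨a, ha, h'⟩ := main_lemma_notRel h
  rw [toX_none, toX_some] at h'
  refine ⟨a, ha, ?_⟩
  by_contra hc
  exact h' ⟨fun h => absurd h hc, fun h => absurd h (hinf a ha)⟩

/-- step 1 -/
lemma main_lemma_step1 {s : Sys} (S : Set (Option Y × Option Y))
    (hB : ∀ H : Om → Om, ∃ η, Lim η ∧ (∀ ξ < η, H ξ < η) ∧ ¬ Bad S s η) :
    ∃ γ0 : Om, ∀ (y : Y) (z : Option Y), (some y, z) ∈ S → z ≠ some y → γ0 ≤ y.1 →
      ¬ (z = none ∨ ∃ z' : Y, z = some z' ∧ γ0 ≤ z'.1) := by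
  by_contra hcon
  push Not at hcon
  choose yy zz h1 h2 h3 h4 using hcon
  let lvl : Option Y → Om := fun z => match z with
    | none => Classical.arbitrary Om
    | some z' => z'.1
  have hH : ∀ γ : Om, ∃ c : Om, (yy γ).1 < c ∧ lvl (zz γ) < c := by
    intro γ
    obtain ⟨c, hc⟩ := exists_gt' (max (yy γ).1 (lvl (zz γ)))
    exact ⟨c, (le_max_left _ _).trans_lt hc, (le_max_right _ _).trans_lt hc⟩
  choose H hH1 hH2 using hH
  obtain ⟨η, hη, hcl, hnb⟩ := hB H
  apply hnb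
  intro ζ hζ F hF
  obtain ⟨γ, hγ1, hγ2, hγ3⟩ := main_lemma_bound hη hζ F hF
  refine ⟨yy γ, zz γ, h1 γ, h2 γ, hγ2.trans (h3 γ), (hH1 γ).trans (hcl γ hγ1), ?_, ?_⟩
  · rintro ⟨p, hp, hy⟩
    have := lev_le_of_mem hy
    exact absurd ((this.trans_lt (hγ3 p hp)).trans_le (h3 γ)) (lt_irrefl _)
  · rcases h4 γ with h | ⟨z', hz', h⟩
    · exact Or.inl h
    · refine Or.inr ⟨z', hz', hγ2.trans h, ?_⟩
      have := hH2 γ
      rw [hz'] at this
      exact lt_trans this (hcl γ hγ1)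

/-- TARGET -/
theorem main_lemma {s : Sys} (hA : ∀ η, AX s η) (hN : ∀ η, N1 s η)
    (hK : ∀ S : Set (Option Y × Option Y), ∀ E : Set Om, IsClub E → (∀ η ∈ E, ∃ ζ, ζ < η) →
      ∃ η ∈ E, (Bad S s η ∨ NSat S s η → Kill S s η))
    (A : SubG (Clopens (XX s))) (hinf : ∀ a ∈ A.carrier, inf s ∉ a) :
    (∃ γ, ∀ a ∈ A.carrier, Lt γ (a : Set (XX s))) ∨
    ∃ β : Om, (∀ y : Y, β ≤ y.1 → ∃ a ∈ A.carrier, pt s y ∈ a) ∧
      (∀ y z : Y, β ≤ y.1 → y ≠ z → ∃ a ∈ A.carrier, ¬ (pt s y ∈ a ↔ pt s z ∈ a)) ∧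
      ∀ H : Om → Om, ∃ η, Lim η ∧ (∀ ξ < η, H ξ < η) ∧
        {k : ℕ | ∀ a ∈ A.carrier, (a : Set (XX s)) ≠ CC s (η, k)}.Finite := by
  classical
  by_cases hfirst : ∃ γ, ∀ a ∈ A.carrier, Lt γ (a : Set (XX s))
  · exact Or.inl hfirst
  right
  have hkill : ∀ η, ¬ Kill (Rel s A) s η := by
    intro η hk
    exact hfirst ⟨η, kill_lemma hA hN A hinf hk⟩
  have hmain : ∀ H : Om → Om, ∃ η, Lim η ∧ (∀ ξ < η, H ξ < η) ∧ ¬ Bad (Rel s A) s η ∧
      ¬ NSat (Rel s A) s η := by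
    intro H
    obtain ⟨η, hη, h⟩ := hK (Rel s A) _ (club_closure H) (fun η hη => hη.1.1)
    refine ⟨η, hη.1, hη.2, ?_, ?_⟩
    · intro hb
      exact hkill η (h (Or.inl hb))
    · intro hb
      exact hkill η (h (Or.inr hb))
  obtain ⟨γ0, hγ0⟩ := main_lemma_step1 (s := s) (Rel s A) (fun H => by
    obtain ⟨η, h1, h2, h3, _⟩ := hmain H
    exact ⟨η, h1, h2, h3⟩)
  -- the bounds
  have hbex : ∀ y : Y, ∃ b : Om, (∃ a ∈ A.carrier, pt s y ∈ a) →
      ∃ a ∈ A.carrier, pt s y ∈ a ∧ Lt b (a : Set (XX s)) := by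
    intro y
    by_cases h : ∃ a ∈ A.carrier, pt s y ∈ a
    · obtain ⟨a, ha, hy⟩ := h
      obtain ⟨b, hb⟩ := clopen_bdd hA a.isClopen.isClosed (hinf a ha)
      exact ⟨b, fun _ => ⟨a, ha, hy, hb⟩⟩
    · exact ⟨γ0, fun h' => absurd h' h⟩
  choose b hb using hbex
  have hcount : {y : Y | y.1 < γ0}.Countable := by
    have : {y : Y | y.1 < γ0} = (Iio γ0) ×ˢ (univ : Set ℕ) := by
      ext y
      simp
    rw [this]
    exact (countable_Iio γ0).prod (countable_univ)
  obtain ⟨β, hβ⟩ := bdd_of_countable ((hcount.image b).insert γ0)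
  have hβ0 : γ0 < β := hβ γ0 (mem_insert _ _)
  have hβb : ∀ y : Y, y.1 < γ0 → b y < β := fun y hy =>
    hβ _ (mem_insert_of_mem _ ⟨y, hy, rfl⟩)
  have c1 : ∀ y : Y, β ≤ y.1 → ∃ a ∈ A.carrier, pt s y ∈ a := by
    intro y hy
    apply main_lemma_notRel_none hinf
    intro hmem
    exact hγ0 y none hmem (by simp) (hβ0.le.trans hy) (Or.inl rfl)
  have c2 : ∀ y z : Y, β ≤ y.1 → y ≠ z → ∃ a ∈ A.carrier, ¬ (pt s y ∈ a ↔ pt s z ∈ a) := by
    intro y z hy hyz
    by_cases hz : γ0 ≤ z.1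
    · have hnr : (some y, some z) ∉ Rel s A := by
        intro hmem
        refine hγ0 y (some z) hmem ?_ (hβ0.le.trans hy) (Or.inr ⟨z, rfl, hz⟩)
        intro h
        exact hyz (Option.some.inj h).symm
      exact main_lemma_notRel hnr
    · have hz' : z.1 < γ0 := not_le.1 hz
      by_cases hza : ∃ a ∈ A.carrier, pt s z ∈ a
      · obtain ⟨a, ha, hz1, hlt⟩ := hb z hza
        refine ⟨a, ha, ?_⟩
        intro hiff
        have hya : pt s y ∈ a := hiff.2 hz1
        have := hlt y hya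
        exact absurd ((this.trans (hβb z hz')).trans_le hy) (lt_irrefl _)
      · obtain ⟨a, ha, hya⟩ := c1 y hy
        exact ⟨a, ha, fun hiff => hza ⟨a, ha, hiff.1 hya⟩⟩
  refine ⟨β, c1, c2, ?_⟩
  intro H
  have hH' : ∀ ξ : Om, ∃ c : Om, H ξ < c ∧ β < c := by
    intro ξ
    obtain ⟨c, hc⟩ := exists_gt' (max (H ξ) β)
    exact ⟨c, (le_max_left _ _).trans_lt hc, (le_max_right _ _).trans_lt hc⟩
  choose H' hH1 hH2 using hH'
  obtain ⟨η, hη, hcl, _, hns⟩ := hmain H'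
  obtain ⟨ξ0, hξ0⟩ := hη.1
  have hβη : β < η := (hH2 ξ0).trans (hcl ξ0 hξ0)
  refine ⟨η, hη, fun ξ hξ => (hH1 ξ).trans (hcl ξ hξ), ?_⟩
  have hfin := Set.not_infinite.1 hns
  refine hfin.subset ?_
  intro k hk
  by_contra hkn
  have hkn' : ∀ (y : Y) (z : Option Y), (some y, z) ∈ Rel s A → y.1 < η → s η y = some k →
      ¬ (z = none ∨ ∃ z' : Y, z = some z' ∧ z'.1 < η ∧ s η z' ≠ some k) := by
    intro y z h1 h2 h3 h4
    exact hkn ⟨y, z, h1, h2, h3, h4⟩
  let W : Clopens (XX s) := ⟨CC s (η, k), isClopen_CC s (η, k)⟩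
  have hWm : ∀ x, x ∈ W ↔ x ∈ CC s (η, k) := fun x => Iff.rfl
  have hWA : W ∈ A.carrier := by
    apply saturated_mem hA A hinf W
    · rw [hWm]; exact inf_notMem_CC
    · intro y hy
      rw [hWm, mem_CC] at hy
      by_cases hyβ : β ≤ y.1
      · exact c1 y hyβ
      · have hyβ' : y.1 < β := not_le.1 hyβ
        rcases hy with hy | hy
        · exfalso
          rw [hy] at hyβ'
          exact lt_irrefl _ (hyβ'.trans hβη)
        · apply main_lemma_notRel_none hinf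
          intro hmem
          exact hkn' y none hmem hy.1 hy.2 (Or.inl rfl)
    · intro y z hy hz
      rw [hWm] at hy hz
      have hyz : y ≠ z := by
        rintro rfl
        exact hz hy
      by_cases hyβ : β ≤ y.1
      · exact c2 y z hyβ hyz
      · by_cases hzβ : β ≤ z.1
        · obtain ⟨a, ha, h⟩ := c2 z y hzβ hyz.symm
          exact ⟨a, ha, fun h' => h h'.symm⟩
        · have hyβ' : y.1 < β := not_le.1 hyβ
          have hzβ' : z.1 < β := not_le.1 hzβ
          rw [mem_CC] at hy hz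
          push Not at hz
          rcases hy with hy | hy
          · exfalso
            rw [hy] at hyβ'
            exact lt_irrefl _ (hyβ'.trans hβη)
          · have hnr : (some y, some z) ∉ Rel s A := by
              intro hmem
              exact hkn' y (some z) hmem hy.1 hy.2
                (Or.inr ⟨z, rfl, hzβ'.trans hβη, hz.2 (hzβ'.trans hβη)⟩)
            exact main_lemma_notRel hnr
  exact hk W hWA rfl
end

end Pool.Agent.Helper220.ISAP
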