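import Pool.Agent.Helper220.ISAP.SysDefs

set_option autoImplicit false
set_option linter.all false

namespace Pool.Agent.Helper220.ISAP

open Set TopologicalSpace

/-- the space: the points `Y` and a point at infinity -/
def XX (s : Sys) : Type := Option Y

/-- the point at infinity -/
def inf (s : Sys) : XX s := (none : Option Y)

/-- the other points -/
def pt (s : Sys) (y : Y) : XX s := (some y : Option Y)

def toX (s : Sys) (x : Option Y) : XX s := x

lemma toX_none (s : Sys) : toX s none = inf s := rfl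
lemma toX_some (s : Sys) (y : Y) : toX s (some y) = pt s y := rfl

lemma pt_inj {s : Sys} {y z : Y} : pt s y = pt s z ↔ y = z := by
  constructor
  · intro h; exact Option.some.inj h
  · rintro rfl; rfl

lemma pt_ne_inf {s : Sys} {y : Y} : pt s y ≠ inf s := by
  intro h; exact Option.some_ne_none y h

lemma XX_cases {s : Sys} (x : XX s) : x = inf s ∨ ∃ y : Y, x = pt s y := by
  have h : ∀ z : Option Y, z = none ∨ ∃ y : Y, z = some y := by
    rintro (_ | y)
    · exact Or.inl rfl
    · exact Or.inr ⟨y, rfl⟩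
  exact h x

/-- the basic sets -/
def CC (s : Sys) (p : Y) : Set (XX s) := C s p

/-- finite unions of basic sets -/
def TX (s : Sys) (F : Finset Y) : Set (XX s) := TT s F

instance instTopXX (s : Sys) : TopologicalSpace (XX s) :=
  TopologicalSpace.generateFrom {U | ∃ p : Y, U = CC s p ∨ U = (CC s p)ᶜ}

lemma mem_CC {s : Sys} {p y : Y} : pt s y ∈ CC s p ↔ (y = p ∨ (y.1 < p.1 ∧ s p.1 y = some p.2)) :=
  mem_C_some

lemma inf_notMem_CC {s : Sys} {p : Y} : inf s ∉ CC s p := none_notMem_C

lemma mem_TX {s : Sys} {F : Finset Y} {x : XX s} : x ∈ TX s F ↔ ∃ p ∈ F, x ∈ CC s p := Iff.rfl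

lemma self_mem_CC (s : Sys) (p : Y) : pt s p ∈ CC s p := self_mem_C s p

lemma lev_le_of_mem_CC {s : Sys} {p y : Y} (h : pt s y ∈ CC s p) : y.1 ≤ p.1 := lev_le_of_mem h

/-- a point of level `≥` the level of `p` in the basic set of `p` is `p` -/
lemma eq_of_mem_CC {s : Sys} {p y : Y} (h : pt s y ∈ CC s p) (h' : p.1 ≤ y.1) : y = p := by
  rcases mem_CC.1 h with h | h
  · exact h
  · exact absurd h.1 (not_lt.2 h')

/-- all the points of `U` have level `< γ` -/
def Lt {s : Sys} (γ : Om) (U : Set (XX s)) : Prop := ∀ y : Y, pt s y ∈ U → y.1 < γ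

/-- the unlabelled points of level `< η` -/
def DD (s : Sys) (η : Om) : Set (XX s) := {x | ∃ y : Y, x = pt s y ∧ y.1 < η ∧ s η y = none}

/-- the equivalence relation of a ring of clopen sets -/
def Rel (s : Sys) (A : SubG (Clopens (XX s))) : Set (Option Y × Option Y) :=
  {q | ∀ a ∈ A.carrier, (toX s q.1 ∈ a ↔ toX s q.2 ∈ a)}

end Pool.Agent.Helper220.ISAP
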